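import Pool.Agent.Helper60.KS.St

/-! KC-1 : MeanValue and PairCount (A11, A11'). -/

set_option autoImplicit false
open Filter Topology MeasureTheory
open scoped Classical

namespace Pool.Agent.Helper65.KC

open Pool.Agent.Helper60.KS

/-- The Schur-type partition bound. -/
theorem partition_bound {ι : Type} (S : Finset ι) (a : ι → ℝ) (m : ι → ℤ) (w : ℤ → ℝ) (W : ℝ)
    (hw : ∀ d, 0 ≤ w d) (hsym : ∀ d, w (-d) = w d) (hW : ∀ F : Finset ℤ, ∑ d ∈ F, w d ≤ W) :
    ∑ j ∈ S, ∑ k ∈ S, a j * a k * w (m j - m k) ≤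
      W * ∑ j ∈ S, ∑ k ∈ S, if m j = m k then a j * a k else 0 := by
  set M := S.image m with hM
  set A : ℤ → ℝ := fun p => ∑ j ∈ S with m j = p, a j with hA
  have hfib : ∀ f : ι → ℝ, ∑ j ∈ S, f j = ∑ p ∈ M, ∑ j ∈ S with m j = p, f j := by
    intro f
    exact (Finset.sum_fiberwise_of_maps_to (fun i hi => Finset.mem_image_of_mem m hi) f).symm
  have h1 : ∑ j ∈ S, ∑ k ∈ S, a j * a k * w (m j - m k) =
      ∑ p ∈ M, ∑ q ∈ M, A p * A q * w (p - q) := by
    rw [hfib]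
    refine Finset.sum_congr rfl fun p _ => ?_
    have : ∀ j ∈ S.filter (fun j => m j = p), ∑ k ∈ S, a j * a k * w (m j - m k) =
        ∑ q ∈ M, a j * A q * w (p - q) := by
      intro j hj
      have hjp : m j = p := (Finset.mem_filter.mp hj).2
      rw [hfib]
      refine Finset.sum_congr rfl fun q _ => ?_
      rw [hA]
      simp only
      rw [Finset.mul_sum, Finset.sum_mul]
      refine Finset.sum_congr rfl fun k hk => ?_
      rw [hjp, (Finset.mem_filter.mp hk).2]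
    rw [Finset.sum_congr rfl this, Finset.sum_comm]
    refine Finset.sum_congr rfl fun q _ => ?_
    rw [← Finset.sum_mul, ← Finset.sum_mul]
  have h2 : ∑ j ∈ S, ∑ k ∈ S, (if m j = m k then a j * a k else 0) = ∑ p ∈ M, A p ^ 2 := by
    rw [hfib]
    refine Finset.sum_congr rfl fun p _ => ?_
    have : ∀ j ∈ S.filter (fun j => m j = p), ∑ k ∈ S, (if m j = m k then a j * a k else 0) =
        a j * A p := by
      intro j hj
      have hjp : m j = p := (Finset.mem_filter.mp hj).2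
      rw [hA]
      simp only
      rw [Finset.mul_sum, Finset.sum_filter]
      refine Finset.sum_congr rfl fun k _ => ?_
      rw [hjp]
      by_cases h : m k = p
      · simp [h]
      · rw [if_neg (fun h' => h h'.symm), if_neg h]
    rw [Finset.sum_congr rfl this, ← Finset.sum_mul]
    simp only [hA]
    ring
  rw [h1, h2]
  have h3 : ∀ p ∈ M, ∀ q ∈ M, A p * A q * w (p - q) ≤
      (A p ^ 2 * w (p - q) + A q ^ 2 * w (q - p)) / 2 := by
    intro p _ q _
    have e : w (q - p) = w (p - q) := by rw [← hsym (p - q)]; congr 1; ring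
    rw [e]
    have := hw (p - q)
    nlinarith [sq_nonneg (A p - A q), mul_nonneg (sq_nonneg (A p - A q)) this]
  calc ∑ p ∈ M, ∑ q ∈ M, A p * A q * w (p - q)
      ≤ ∑ p ∈ M, ∑ q ∈ M, (A p ^ 2 * w (p - q) + A q ^ 2 * w (q - p)) / 2 :=
        Finset.sum_le_sum fun p hp => Finset.sum_le_sum fun q hq => h3 p hp q hq
    _ = (∑ p ∈ M, ∑ q ∈ M, A p ^ 2 * w (p - q) + ∑ p ∈ M, ∑ q ∈ M, A q ^ 2 * w (q - p)) / 2 := by
        rw [← Finset.sum_add_distrib, Finset.sum_div]
        refine Finset.sum_congr rfl fun p _ => ?_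
        rw [← Finset.sum_add_distrib, Finset.sum_div]
    _ = ∑ p ∈ M, ∑ q ∈ M, A p ^ 2 * w (p - q) := by
        rw [Finset.sum_comm (s := M) (t := M) (f := fun p q => A q ^ 2 * w (q - p))]
        ring
    _ ≤ ∑ p ∈ M, A p ^ 2 * W := by
        refine Finset.sum_le_sum fun p _ => ?_
        rw [← Finset.mul_sum]
        refine mul_le_mul_of_nonneg_left ?_ (sq_nonneg _)
        have : ∑ q ∈ M, w (p - q) = ∑ d ∈ M.image (fun q => p - q), w d := by
          refine (Finset.sum_image (f := w) (g := fun q => p - q) (s := M) ?_).symm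
          intro x _ y _ h
          simpa using h
        rw [this]
        exact hW _
    _ = W * ∑ p ∈ M, A p ^ 2 := by rw [← Finset.sum_mul]; ring

theorem pairCount : PairCount := by
  intro ι S y δ hδ
  have key := partition_bound S (fun _ => (1 : ℝ)) (fun j => ⌊y j / δ⌋)
    (fun d => if |d| ≤ 2 then 1 else 0) 5 (fun d => by split_ifs <;> norm_num)
    (fun d => by simp [abs_neg]) (by
      intro F
      have : ∑ d ∈ F, (if |d| ≤ 2 then (1 : ℝ) else 0) ≤ ∑ d ∈ Finset.Icc (-2 : ℤ) 2, (1 : ℝ) := by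
        rw [← Finset.sum_filter]
        refine Finset.sum_le_sum_of_subset_of_nonneg ?_ (fun _ _ _ => by norm_num)
        intro d hd
        rw [Finset.mem_Icc]
        exact abs_le.mp (Finset.mem_filter.mp hd).2
      refine this.trans ?_
      simp)
  have e1 : (((S ×ˢ S).filter (fun p => |y p.1 - y p.2| ≤ 2 * δ)).card : ℝ) ≤
      ∑ j ∈ S, ∑ k ∈ S, (1 : ℝ) * 1 * (if |⌊y j / δ⌋ - ⌊y k / δ⌋| ≤ 2 then 1 else 0) := by
    rw [Finset.card_filter, Nat.cast_sum, Finset.sum_product]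
    refine Finset.sum_le_sum fun j _ => Finset.sum_le_sum fun k _ => ?_
    simp only
    by_cases h : |y j - y k| ≤ 2 * δ
    · have h2 : |⌊y j / δ⌋ - ⌊y k / δ⌋| ≤ 2 := by
        have h3 := abs_le.mp h
        have h4 : y j / δ ≤ y k / δ + 2 := by
          rw [div_add' _ _ _ hδ.ne', div_le_div_iff_of_pos_right hδ]; linarith
        have h5 : y k / δ ≤ y j / δ + 2 := by
          rw [div_add' _ _ _ hδ.ne', div_le_div_iff_of_pos_right hδ]; linarith
        have h6 : ⌊y j / δ⌋ ≤ ⌊y k / δ⌋ + 2 := by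
          have := Int.floor_le_floor h4
          have e : ⌊y k / δ + 2⌋ = ⌊y k / δ⌋ + 2 := by
            exact Int.floor_add_intCast (y k / δ) 2
          rwa [e] at this
        have h7 : ⌊y k / δ⌋ ≤ ⌊y j / δ⌋ + 2 := by
          have := Int.floor_le_floor h5
          have e : ⌊y j / δ + 2⌋ = ⌊y j / δ⌋ + 2 := by
            exact Int.floor_add_intCast (y j / δ) 2
          rwa [e] at this
        rw [abs_le]
        constructor <;> linarith
      rw [if_pos h, if_pos h2]; norm_num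
    · rw [if_neg h]
      split_ifs <;> norm_num
  have e2 : ∑ j ∈ S, ∑ k ∈ S, (if ⌊y j / δ⌋ = ⌊y k / δ⌋ then (1 : ℝ) * 1 else 0) ≤
      (((S ×ˢ S).filter (fun p => |y p.1 - y p.2| ≤ δ)).card : ℝ) := by
    rw [Finset.card_filter, Nat.cast_sum, Finset.sum_product]
    refine Finset.sum_le_sum fun j _ => Finset.sum_le_sum fun k _ => ?_
    simp only
    by_cases h : ⌊y j / δ⌋ = ⌊y k / δ⌋
    · have h1 := Int.abs_sub_lt_one_of_floor_eq_floor h
      have h2 : |y j - y k| ≤ δ := by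
        rw [← sub_div, abs_div, abs_of_pos hδ, div_lt_one hδ] at h1
        exact h1.le
      rw [if_pos h, if_pos h2]; norm_num
    · rw [if_neg h]
      split_ifs <;> norm_num
  have : (((S ×ˢ S).filter (fun p => |y p.1 - y p.2| ≤ 2 * δ)).card : ℝ) ≤
      5 * (((S ×ˢ S).filter (fun p => |y p.1 - y p.2| ≤ δ)).card : ℝ) := by
    refine e1.trans (key.trans ?_)
    linarith [e2]
  exact_mod_cast this

/-- the kernel used for the mean value theorem -/
theorem kernel_bound (F : Finset ℤ) :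
    ∑ d ∈ F, (16 : ℝ) / (1 + (d : ℝ) ^ 2) ≤ ∑' d : ℤ, (16 : ℝ) / (1 + (d : ℝ) ^ 2) := by
  refine Summable.sum_le_tsum F (fun d _ => by positivity) ?_
  have h : Summable (fun d : ℤ => 16 * (1 / (d : ℝ) ^ 2)) :=
    (Real.summable_one_div_int_pow.mpr (by norm_num)).mul_left 16
  refine Summable.of_norm_bounded_eventually h ?_
  rw [Filter.eventually_cofinite]
  refine (Set.finite_singleton (0 : ℤ)).subset ?_
  intro d hd
  rw [Set.mem_singleton_iff]
  by_contra hne
  apply hd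
  have hd2 : 0 < (d : ℝ) ^ 2 := by positivity
  rw [Real.norm_of_nonneg (by positivity)]
  rw [mul_one_div]
  exact div_le_div_of_nonneg_left (by norm_num) hd2 (by linarith)

theorem gauss_integral (T c : ℝ) (hT : 0 < T) :
    ∫ t : ℝ, Complex.exp (Complex.I * (c : ℂ) * t) * Complex.exp (-(1 / T ^ 2 : ℂ) * (t : ℂ) ^ 2) =
      ((Real.sqrt Real.pi * T * Real.exp (-(T * c) ^ 2 / 4) : ℝ) : ℂ) := by
  have hb : 0 < ((1 / T ^ 2 : ℂ)).re := by
    have : ((1 / T ^ 2 : ℂ)) = ((1 / T ^ 2 : ℝ) : ℂ) := by push_cast; ring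
    rw [this, Complex.ofReal_re]; positivity
  rw [fourierIntegral_gaussian hb]
  have h1 : ((Real.pi : ℂ) / (1 / T ^ 2 : ℂ)) = ((Real.pi * T ^ 2 : ℝ) : ℂ) := by
    push_cast
    field_simp
  rw [h1]
  have h2 : (((Real.pi * T ^ 2 : ℝ) : ℂ)) ^ (1 / 2 : ℂ) = ((Real.sqrt Real.pi * T : ℝ) : ℂ) := by
    have : (1 / 2 : ℂ) = ((1 / 2 : ℝ) : ℂ) := by push_cast; ring
    rw [this, ← Complex.ofReal_cpow (by positivity), ← Real.sqrt_eq_rpow,
      Real.sqrt_mul Real.pi_pos.le, Real.sqrt_sq hT.le]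
  rw [h2]
  have h3 : -(c : ℂ) ^ 2 / (4 * (1 / T ^ 2 : ℂ)) = ((-(T * c) ^ 2 / 4 : ℝ) : ℂ) := by
    push_cast
    have : (T : ℂ) ≠ 0 := by exact_mod_cast hT.ne'
    field_simp
  rw [h3, ← Complex.ofReal_exp]
  push_cast
  ring

theorem gauss_integrable (T c : ℝ) (hT : 0 < T) :
    Integrable (fun t : ℝ => Complex.exp (Complex.I * (c : ℂ) * t) *
      Complex.exp (-(1 / T ^ 2 : ℂ) * (t : ℂ) ^ 2)) := by
  have hb : 0 < ((1 / T ^ 2 : ℂ)).re := by
    have : ((1 / T ^ 2 : ℂ)) = ((1 / T ^ 2 : ℝ) : ℂ) := by push_cast; ring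
    rw [this, Complex.ofReal_re]; positivity
  have := integrable_cexp_quadratic (b := (1 / T ^ 2 : ℂ)) hb (Complex.I * c) 0
  refine this.congr (Filter.Eventually.of_forall fun t => ?_)
  simp only
  rw [← Complex.exp_add]
  congr 1
  ring

theorem meanValue : MeanValue := by
  refine ⟨Real.sqrt Real.pi * (∑' d : ℤ, (16 : ℝ) / (1 + (d : ℝ) ^ 2) + 1), ?_, ?_⟩
  · have : 0 ≤ ∑' d : ℤ, (16 : ℝ) / (1 + (d : ℝ) ^ 2) := tsum_nonneg fun d => by positivity
    have := Real.sqrt_pos.mpr Real.pi_pos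
    positivity
  intro ι S a y T hT
  have hT0 : 0 < T := by linarith
  set W := ∑' d : ℤ, (16 : ℝ) / (1 + (d : ℝ) ^ 2) with hWdef
  have hW0 : 0 ≤ W := tsum_nonneg fun d => by positivity
  -- step 1: the integral as a double sum
  have hpt : ∀ t : ℝ, ((Real.exp (-(t / T) ^ 2) *
      ‖∑ j ∈ S, a j * Complex.exp (Complex.I * ((y j * t : ℝ) : ℂ))‖ ^ 2 : ℝ) : ℂ) =
      ∑ j ∈ S, ∑ k ∈ S, a j * (starRingEnd ℂ) (a k) *
        (Complex.exp (Complex.I * ((y j - y k : ℝ) : ℂ) * t) *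
          Complex.exp (-(1 / T ^ 2 : ℂ) * (t : ℂ) ^ 2)) := by
    intro t
    have h1 : ((‖∑ j ∈ S, a j * Complex.exp (Complex.I * ((y j * t : ℝ) : ℂ))‖ ^ 2 : ℝ) : ℂ) =
        (∑ j ∈ S, a j * Complex.exp (Complex.I * ((y j * t : ℝ) : ℂ))) *
        (starRingEnd ℂ) (∑ j ∈ S, a j * Complex.exp (Complex.I * ((y j * t : ℝ) : ℂ))) := by
      rw [Complex.mul_conj, Complex.normSq_eq_norm_sq]
    rw [Complex.ofReal_mul, h1, map_sum, Finset.sum_mul_sum, Finset.mul_sum]
    refine Finset.sum_congr rfl fun j _ => ?_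
    rw [Finset.mul_sum]
    refine Finset.sum_congr rfl fun k _ => ?_
    rw [map_mul, ← Complex.exp_conj, map_mul, Complex.conj_I, Complex.conj_ofReal]
    have h2 : ((Real.exp (-(t / T) ^ 2) : ℝ) : ℂ) = Complex.exp (-(1 / T ^ 2 : ℂ) * (t : ℂ) ^ 2) := by
      rw [Complex.ofReal_exp]
      congr 1
      push_cast
      ring
    have h3 : Complex.exp (Complex.I * ((y j - y k : ℝ) : ℂ) * t) =
        Complex.exp (Complex.I * ((y j * t : ℝ) : ℂ)) * Complex.exp (-Complex.I * ((y k * t : ℝ) : ℂ)) := by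
      rw [← Complex.exp_add]
      congr 1
      push_cast
      ring
    rw [h2, h3]
    ring
  have hint : ((∫ t : ℝ, Real.exp (-(t / T) ^ 2) *
      ‖∑ j ∈ S, a j * Complex.exp (Complex.I * ((y j * t : ℝ) : ℂ))‖ ^ 2 : ℝ) : ℂ) =
      ∑ j ∈ S, ∑ k ∈ S, a j * (starRingEnd ℂ) (a k) *
        ((Real.sqrt Real.pi * T * Real.exp (-(T * (y j - y k)) ^ 2 / 4) : ℝ) : ℂ) := by
    rw [← integral_complex_ofReal]
    simp_rw [hpt]
    rw [integral_finset_sum]
    · refine Finset.sum_congr rfl fun j _ => ?_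
      rw [integral_finset_sum]
      · refine Finset.sum_congr rfl fun k _ => ?_
        rw [integral_const_mul, gauss_integral T (y j - y k) hT0]
      · intro k _
        exact (gauss_integrable T (y j - y k) hT0).const_mul _
    · intro j _
      refine integrable_finset_sum _ fun k _ => ?_
      exact (gauss_integrable T (y j - y k) hT0).const_mul _
  have hle : ∫ t : ℝ, Real.exp (-(t / T) ^ 2) *
      ‖∑ j ∈ S, a j * Complex.exp (Complex.I * ((y j * t : ℝ) : ℂ))‖ ^ 2 ≤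
      Real.sqrt Real.pi * T * ∑ j ∈ S, ∑ k ∈ S, ‖a j‖ * ‖a k‖ * Real.exp (-(T * (y j - y k)) ^ 2 / 4) := by
    refine (le_abs_self _).trans ?_
    rw [← Real.norm_eq_abs, ← Complex.norm_real, hint]
    refine (norm_sum_le _ _).trans ?_
    rw [Finset.mul_sum]
    refine Finset.sum_le_sum fun j _ => ?_
    refine (norm_sum_le _ _).trans ?_
    rw [Finset.mul_sum]
    refine Finset.sum_le_sum fun k _ => ?_
    rw [norm_mul, norm_mul, RCLike.norm_conj, Complex.norm_real, Real.norm_of_nonneg (by positivity)]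
    apply le_of_eq
    ring
  -- step 2: kernel
  have hker : ∀ j ∈ S, ∀ k ∈ S, Real.exp (-(T * (y j - y k)) ^ 2 / 4) ≤
      16 / (1 + ((⌊y j * T⌋ - ⌊y k * T⌋ : ℤ) : ℝ) ^ 2) := by
    intro j _ k _
    set p := ⌊y j * T⌋
    set q := ⌊y k * T⌋
    have h1 := Int.floor_le (y j * T)
    have h2 := Int.lt_floor_add_one (y j * T)
    have h3 := Int.floor_le (y k * T)
    have h4 := Int.lt_floor_add_one (y k * T)
    set u := T * (y j - y k) with hu
    have hu1 : ((p - q : ℤ) : ℝ) < u + 1 := by push_cast; rw [hu]; nlinarith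
    have hu2 : u - 1 < ((p - q : ℤ) : ℝ) := by push_cast; rw [hu]; nlinarith
    set d : ℝ := ((p - q : ℤ) : ℝ) with hd
    have hexp : Real.exp (-u ^ 2 / 4) ≤ 1 / (1 + u ^ 2 / 4) := by
      rw [show -u ^ 2 / 4 = -(u ^ 2 / 4) by ring, Real.exp_neg, ← one_div]
      refine one_div_le_one_div_of_le (by positivity) ?_
      linarith [Real.add_one_le_exp (u ^ 2 / 4)]
    refine hexp.trans ?_
    rw [div_le_div_iff₀ (by positivity) (by positivity)]
    -- 1 + d² ≤ 16 (1 + u²/4) = 16 + 4 u²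
    have : d ^ 2 ≤ 2 * u ^ 2 + 2 := by
      have hx : |d - u| ≤ 1 := by rw [abs_le]; constructor <;> linarith
      have hx2 := abs_le.mp hx
      nlinarith [sq_nonneg (d - 2 * u), sq_nonneg (d - u)]
    nlinarith
  have key := partition_bound S (fun j => ‖a j‖) (fun j => ⌊y j * T⌋)
    (fun d => 16 / (1 + (d : ℝ) ^ 2)) W (fun d => by positivity) (fun d => by push_cast; ring_nf)
    (fun F => kernel_bound F)
  have hstep : ∑ j ∈ S, ∑ k ∈ S, ‖a j‖ * ‖a k‖ * Real.exp (-(T * (y j - y k)) ^ 2 / 4) ≤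
      W * ∑ j ∈ S, ∑ k ∈ S, if |y j - y k| ≤ 1 / T then ‖a j‖ * ‖a k‖ else 0 := by
    calc ∑ j ∈ S, ∑ k ∈ S, ‖a j‖ * ‖a k‖ * Real.exp (-(T * (y j - y k)) ^ 2 / 4)
        ≤ ∑ j ∈ S, ∑ k ∈ S, ‖a j‖ * ‖a k‖ * (16 / (1 + ((⌊y j * T⌋ - ⌊y k * T⌋ : ℤ) : ℝ) ^ 2)) :=
          Finset.sum_le_sum fun j hj => Finset.sum_le_sum fun k hk =>
            mul_le_mul_of_nonneg_left (hker j hj k hk) (by positivity)
      _ ≤ W * ∑ j ∈ S, ∑ k ∈ S, (if ⌊y j * T⌋ = ⌊y k * T⌋ then ‖a j‖ * ‖a k‖ else 0) := key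
      _ ≤ W * ∑ j ∈ S, ∑ k ∈ S, if |y j - y k| ≤ 1 / T then ‖a j‖ * ‖a k‖ else 0 := by
          refine mul_le_mul_of_nonneg_left ?_ hW0
          refine Finset.sum_le_sum fun j _ => Finset.sum_le_sum fun k _ => ?_
          by_cases h : ⌊y j * T⌋ = ⌊y k * T⌋
          · have h1 := Int.abs_sub_lt_one_of_floor_eq_floor h
            have h2 : |y j - y k| ≤ 1 / T := by
              rw [← sub_mul, abs_mul, abs_of_pos hT0] at h1
              rw [le_div_iff₀ hT0]
              exact h1.le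
            rw [if_pos h, if_pos h2]
          · rw [if_neg h]
            split_ifs
            · positivity
            · exact le_refl 0
  have hD0 : 0 ≤ ∑ j ∈ S, ∑ k ∈ S, if |y j - y k| ≤ 1 / T then ‖a j‖ * ‖a k‖ else 0 := by
    refine Finset.sum_nonneg fun j _ => Finset.sum_nonneg fun k _ => ?_
    split_ifs
    · positivity
    · exact le_refl 0
  refine hle.trans ?_
  have hpi := Real.sqrt_nonneg Real.pi
  calc Real.sqrt Real.pi * T * ∑ j ∈ S, ∑ k ∈ S, ‖a j‖ * ‖a k‖ * Real.exp (-(T * (y j - y k)) ^ 2 / 4)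
      ≤ Real.sqrt Real.pi * T * (W * ∑ j ∈ S, ∑ k ∈ S, if |y j - y k| ≤ 1 / T then ‖a j‖ * ‖a k‖ else 0) :=
        mul_le_mul_of_nonneg_left hstep (by positivity)
    _ ≤ Real.sqrt Real.pi * T * ((W + 1) * ∑ j ∈ S, ∑ k ∈ S, if |y j - y k| ≤ 1 / T then ‖a j‖ * ‖a k‖ else 0) := by
        refine mul_le_mul_of_nonneg_left ?_ (by positivity)
        nlinarith
    _ = _ := by ring

end Pool.Agent.Helper65.KC
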