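import Pool.Agent.Helper26.KC.StFM
import Pool.Agent.Helper65.KC.MeanValue

/-! FM-2 : Gaussian mean value theorem for Dirichlet polynomials. -/

set_option autoImplicit false
open MeasureTheory Filter Topology Finset
open scoped Classical

namespace Pool.Agent.Helper65.KC

open Pool.Agent.Helper26.KC Pool.Agent.Helper60.KS

theorem card_log_near (L n : ℕ) (T : ℝ) (hT : 1 ≤ T) (hn : 1 ≤ n) :
    (((Icc 1 L).filter (fun k : ℕ => |Real.log n - Real.log k| ≤ 1 / T)).card : ℝ) ≤ 1 + 3 * n / T := by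
  have hT0 : 0 < T := by linarith
  have hn0 : (0 : ℝ) < n := by exact_mod_cast hn
  have hx0 : 0 < 1 / T := by positivity
  have hx1 : 1 / T ≤ 1 := by rw [div_le_one hT0]; exact hT
  have hsub : (Icc 1 L).filter (fun k : ℕ => |Real.log n - Real.log k| ≤ 1 / T) ⊆
      Icc ⌈(n : ℝ) * (1 - 1 / T)⌉₊ ⌊(n : ℝ) * (1 + 2 * (1 / T))⌋₊ := by
    intro k hk
    rw [Finset.mem_filter, Finset.mem_Icc] at hk
    obtain ⟨⟨hk1, _⟩, hk2⟩ := hk
    have hk0 : (0 : ℝ) < k := by exact_mod_cast hk1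
    rw [abs_le] at hk2
    have h1 : (k : ℝ) ≤ n * Real.exp (1 / T) := by
      have : Real.log k ≤ Real.log n + 1 / T := by linarith [hk2.1]
      calc (k : ℝ) = Real.exp (Real.log k) := (Real.exp_log hk0).symm
        _ ≤ Real.exp (Real.log n + 1 / T) := Real.exp_le_exp.2 this
        _ = n * Real.exp (1 / T) := by rw [Real.exp_add, Real.exp_log hn0]
    have h2 : (n : ℝ) * Real.exp (-(1 / T)) ≤ k := by
      have : Real.log n + -(1 / T) ≤ Real.log k := by linarith [hk2.2]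
      calc (n : ℝ) * Real.exp (-(1 / T)) = Real.exp (Real.log n + -(1 / T)) := by
            rw [Real.exp_add, Real.exp_log hn0]
        _ ≤ Real.exp (Real.log k) := Real.exp_le_exp.2 this
        _ = k := Real.exp_log hk0
    have h3 : Real.exp (1 / T) ≤ 1 + 2 * (1 / T) := by
      have := Real.exp_bound' hx0.le hx1 (n := 1) (by norm_num)
      simp [Finset.sum_range_succ] at this
      have h4 : Real.exp T⁻¹ ≤ 1 + 2 * T⁻¹ := by
        refine this.trans (by linarith)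
      simpa using h4
    have h4 : 1 - 1 / T ≤ Real.exp (-(1 / T)) := by
      have := Real.add_one_le_exp (-(1 / T))
      linarith
    rw [Finset.mem_Icc]
    constructor
    · refine Nat.ceil_le.2 ?_
      exact (mul_le_mul_of_nonneg_left h4 hn0.le).trans h2
    · refine Nat.le_floor ?_
      exact h1.trans (mul_le_mul_of_nonneg_left h3 hn0.le)
  have hcard := Finset.card_le_card hsub
  rw [Nat.card_Icc] at hcard
  have hA : (n : ℝ) * (1 - 1 / T) ≤ ⌈(n : ℝ) * (1 - 1 / T)⌉₊ := Nat.le_ceil _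
  have hB : (⌊(n : ℝ) * (1 + 2 * (1 / T))⌋₊ : ℝ) ≤ (n : ℝ) * (1 + 2 * (1 / T)) :=
    Nat.floor_le (by positivity)
  have hR : (0 : ℝ) ≤ 1 + 3 * n / T := by positivity
  rcases le_or_gt ⌈(n : ℝ) * (1 - 1 / T)⌉₊ (⌊(n : ℝ) * (1 + 2 * (1 / T))⌋₊ + 1) with h | h
  · have : ((⌊(n : ℝ) * (1 + 2 * (1 / T))⌋₊ + 1 - ⌈(n : ℝ) * (1 - 1 / T)⌉₊ : ℕ) : ℝ) ≤ 1 + 3 * n / T := by
      rw [Nat.cast_sub h]
      push_cast
      have e1 : (n : ℝ) * (1 + 2 * (1 / T)) - n * (1 - 1 / T) = 3 * n / T := by ring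
      linarith
    exact (Nat.cast_le.2 hcard).trans this
  · have : ⌊(n : ℝ) * (1 + 2 * (1 / T))⌋₊ + 1 - ⌈(n : ℝ) * (1 - 1 / T)⌉₊ = 0 := by omega
    rw [this] at hcard
    exact (Nat.cast_le.2 hcard).trans (by simpa using hR)

theorem mv2 : FMmv2 := by
  obtain ⟨C, hC, h⟩ := meanValue
  refine ⟨3 * C, by positivity, ?_⟩
  intro L c T hT
  have hT0 : 0 < T := by linarith
  have h1 := h ℕ (Icc 1 L) c (fun n => Real.log n) T hT
  have h2 : ∀ t : ℝ, ∑ n ∈ Icc 1 L, c n * (n : ℂ) ^ ((t : ℂ) * Complex.I) =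
      ∑ j ∈ Icc 1 L, c j * Complex.exp (Complex.I * ((Real.log j * t : ℝ) : ℂ)) := by
    intro t
    refine Finset.sum_congr rfl fun n hn => ?_
    have hn1 : 1 ≤ n := (Finset.mem_Icc.1 hn).1
    have hn0 : (n : ℂ) ≠ 0 := by exact_mod_cast (by omega : n ≠ 0)
    rw [Complex.cpow_def_of_ne_zero hn0, Complex.natCast_log.symm]
    congr 2
    push_cast
    ring
  simp_rw [h2]
  refine h1.trans ?_
  rw [mul_assoc, mul_comm 3 C, mul_assoc]
  refine mul_le_mul_of_nonneg_left ?_ hC.le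
  have h3 : ∑ j ∈ Icc 1 L, ∑ k ∈ Icc 1 L, (if |Real.log j - Real.log k| ≤ 1 / T then ‖c j‖ * ‖c k‖ else 0) ≤
      ∑ j ∈ Icc 1 L, ∑ k ∈ Icc 1 L, (if |Real.log j - Real.log k| ≤ 1 / T then ‖c j‖ ^ 2 else 0) := by
    have h4 : ∑ j ∈ Icc 1 L, ∑ k ∈ Icc 1 L, (if |Real.log j - Real.log k| ≤ 1 / T then ‖c j‖ * ‖c k‖ else 0) ≤
        ∑ j ∈ Icc 1 L, ∑ k ∈ Icc 1 L, ((if |Real.log j - Real.log k| ≤ 1 / T then ‖c j‖ ^ 2 else 0) / 2 +
          (if |Real.log k - Real.log j| ≤ 1 / T then ‖c k‖ ^ 2 else 0) / 2) := by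
      refine Finset.sum_le_sum fun j _ => Finset.sum_le_sum fun k _ => ?_
      rw [abs_sub_comm (Real.log k) (Real.log j)]
      split_ifs
      · nlinarith [sq_nonneg (‖c j‖ - ‖c k‖)]
      · norm_num
    refine h4.trans ?_
    simp_rw [Finset.sum_add_distrib]
    have h5 : ∑ j ∈ Icc 1 L, ∑ k ∈ Icc 1 L, (if |Real.log k - Real.log j| ≤ 1 / T then ‖c k‖ ^ 2 else 0) / 2 =
        ∑ j ∈ Icc 1 L, ∑ k ∈ Icc 1 L, (if |Real.log j - Real.log k| ≤ 1 / T then ‖c j‖ ^ 2 else 0) / 2 := by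
      rw [Finset.sum_comm]
    rw [h5]
    simp_rw [← Finset.sum_div]
    linarith
  have h6 : ∀ j ∈ Icc 1 L, T * ∑ k ∈ Icc 1 L, (if |Real.log j - Real.log k| ≤ 1 / T then ‖c j‖ ^ 2 else 0) ≤
      3 * ((T + j) * ‖c j‖ ^ 2) := by
    intro j hj
    have hj1 : 1 ≤ j := (Finset.mem_Icc.1 hj).1
    rw [← Finset.sum_filter, Finset.sum_const, nsmul_eq_mul]
    have h7 := card_log_near L j T hT hj1
    have h8 : T * ((((Icc 1 L).filter (fun k : ℕ => |Real.log j - Real.log k| ≤ 1 / T)).card : ℝ)) ≤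
        T + 3 * j := by
      have := mul_le_mul_of_nonneg_left h7 hT0.le
      have e : T * (1 + 3 * (j : ℝ) / T) = T + 3 * j := by field_simp
      linarith
    have h9 : T + 3 * (j : ℝ) ≤ 3 * (T + j) := by linarith
    have h10 : (0 : ℝ) ≤ ‖c j‖ ^ 2 := by positivity
    calc T * (((((Icc 1 L).filter (fun k : ℕ => |Real.log j - Real.log k| ≤ 1 / T)).card : ℝ)) * ‖c j‖ ^ 2)
        = (T * ((((Icc 1 L).filter (fun k : ℕ => |Real.log j - Real.log k| ≤ 1 / T)).card : ℝ))) * ‖c j‖ ^ 2 := by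
          ring
      _ ≤ (3 * (T + j)) * ‖c j‖ ^ 2 := mul_le_mul_of_nonneg_right (h8.trans h9) h10
      _ = 3 * ((T + j) * ‖c j‖ ^ 2) := by ring
  calc T * ∑ j ∈ Icc 1 L, ∑ k ∈ Icc 1 L, (if |Real.log j - Real.log k| ≤ 1 / T then ‖c j‖ * ‖c k‖ else 0)
      ≤ T * ∑ j ∈ Icc 1 L, ∑ k ∈ Icc 1 L, (if |Real.log j - Real.log k| ≤ 1 / T then ‖c j‖ ^ 2 else 0) :=
        mul_le_mul_of_nonneg_left h3 hT0.le
    _ = ∑ j ∈ Icc 1 L, T * ∑ k ∈ Icc 1 L, (if |Real.log j - Real.log k| ≤ 1 / T then ‖c j‖ ^ 2 else 0) := by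
        rw [Finset.mul_sum]
    _ ≤ ∑ j ∈ Icc 1 L, 3 * ((T + j) * ‖c j‖ ^ 2) := Finset.sum_le_sum h6
    _ = 3 * ∑ n ∈ Icc 1 L, (T + n) * ‖c n‖ ^ 2 := by rw [← Finset.mul_sum]

end Pool.Agent.Helper65.KC
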