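import Pool.Agent.Helper60.KS.St

/-! KC-9 : the numerical lemma (section 7 of the blueprint). The case distinction was found by computer
(rectangles in the `(x,n)` plane); every leaf is linear in `x, n, x*n, r, ε`. -/

set_option autoImplicit false
set_option maxHeartbeats 4000000

namespace Pool.Agent.Helper65.KC

open Pool.Agent.Helper60.KS

structure Ctx (ε x n r ϱ : ℝ) : Prop where
  e0 : 0 < ε
  e7 : ε ≤ 1 / 10 ^ 7
  x0 : 0 < x
  n0 : 0 < n
  y1 : n - 2 * (x * n) ≤ 1 / 3 + ε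
  y2 : 5 / 7 * n - x * n ≤ 2 / 7 + ε
  r0 : 2 * x - ε ≤ r
  f : ∀ (k : ℕ) (K : ℝ), (k : ℝ) = K → 1 ≤ k → K * n ≤ 4 →
    r ≤ 2 * K * (x * n) + ε ∨ r ≤ 1 - K * n + 2 * K * (x * n) + ε
  g : ∀ (k : ℕ) (K : ℝ), (k : ℝ) = K → 1 ≤ k → K * n ≤ 4 →
    r ≤ 2 * K * (x * n) + ε ∨ r ≤ 1 - 2 * K * n + 6 * K * (x * n) + ε
  s : ∀ (j : ℕ) (J : ℝ), (j : ℝ) = J → 1 ≤ j → J * n ≤ 4 → r + 2 * J * (x * n) ≤ 4 * x - ε →
    1 + r - 4 * x - J * n + 2 * J * (x * n) ≤ 3576 / 10000 → ϱ ≤ 0.431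
  e : ∀ (j : ℕ) (J : ℝ), (j : ℝ) = J → 1 ≤ j → J * n ≤ 4 →
    1 - 8 * x + 4 * J * (x * n) + r ≤ 4308 / 10000 →
    2 - 8 * x + 2 * r - 2 * J * n + 4 * J * (x * n) ≤ 4308 / 10000 → ϱ ≤ 0.431
  p : ∀ (k : ℕ) (K : ℝ), (k : ℝ) = K → 1 ≤ k → K * n ≤ 999 / 1000 →
    1 - 2 * x + 1 / 10 ^ 6 ≤ 2 * K * n - 6 * K * (x * n) → False

theorem leaf0 {ε x n r ϱ : ℝ} (h : Ctx ε x n r ϱ) (a : 0 ≤ x) (b : x ≤ (329/8000)) (c : (89/500) ≤ n)
    (d : n ≤ (1/4)) : ϱ ≤ 0.431 := by
  have c1 := mul_nonneg (sub_nonneg.2 a) (sub_nonneg.2 c)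
  have c2 := mul_nonneg (sub_nonneg.2 a) (sub_nonneg.2 d)
  have c3 := mul_nonneg (sub_nonneg.2 b) (sub_nonneg.2 c)
  have c4 := mul_nonneg (sub_nonneg.2 b) (sub_nonneg.2 d)
  have e7 := h.e7
  have e0 := h.e0
  have y1 := h.y1
  have y2 := h.y2
  have r0 := h.r0
  exact (h.p 3 3 (by norm_num) (by norm_num) (by linarith) (by linarith)).elim

theorem leaf1 {ε x n r ϱ : ℝ} (h : Ctx ε x n r ϱ) (a : (329/8000) ≤ x) (b : x ≤ (329/2000)) (c : (89/500) ≤ n)
    (d : n ≤ (1/4)) : ϱ ≤ 0.431 := by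
  have c1 := mul_nonneg (sub_nonneg.2 a) (sub_nonneg.2 c)
  have c2 := mul_nonneg (sub_nonneg.2 a) (sub_nonneg.2 d)
  have c3 := mul_nonneg (sub_nonneg.2 b) (sub_nonneg.2 c)
  have c4 := mul_nonneg (sub_nonneg.2 b) (sub_nonneg.2 d)
  have e7 := h.e7
  have e0 := h.e0
  have y1 := h.y1
  have y2 := h.y2
  have r0 := h.r0
  rcases h.g 4 4 (by norm_num) (by norm_num) (by linarith) with q | q
  · exact h.s 3 3 (by norm_num) (by norm_num) (by linarith) (by linarith) (by linarith)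
  · exact h.s 3 3 (by norm_num) (by norm_num) (by linarith) (by linarith) (by linarith)

theorem leaf2 {ε x n r ϱ : ℝ} (h : Ctx ε x n r ϱ) (a : 0 ≤ x) (b : x ≤ (329/2000)) (c : (1/4) ≤ n)
    (d : n ≤ (1249/4000)) : ϱ ≤ 0.431 := by
  have c1 := mul_nonneg (sub_nonneg.2 a) (sub_nonneg.2 c)
  have c2 := mul_nonneg (sub_nonneg.2 a) (sub_nonneg.2 d)
  have c3 := mul_nonneg (sub_nonneg.2 b) (sub_nonneg.2 c)
  have c4 := mul_nonneg (sub_nonneg.2 b) (sub_nonneg.2 d)
  have e7 := h.e7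
  have e0 := h.e0
  have y1 := h.y1
  have y2 := h.y2
  have r0 := h.r0
  exact (h.p 3 3 (by norm_num) (by norm_num) (by linarith) (by linarith)).elim

theorem leaf3 {ε x n r ϱ : ℝ} (h : Ctx ε x n r ϱ) (a : 0 ≤ x) (b : x ≤ (329/4000)) (c : (1249/4000) ≤ n)
    (d : n ≤ (333/1000)) : ϱ ≤ 0.431 := by
  have c1 := mul_nonneg (sub_nonneg.2 a) (sub_nonneg.2 c)
  have c2 := mul_nonneg (sub_nonneg.2 a) (sub_nonneg.2 d)
  have c3 := mul_nonneg (sub_nonneg.2 b) (sub_nonneg.2 c)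
  have c4 := mul_nonneg (sub_nonneg.2 b) (sub_nonneg.2 d)
  have e7 := h.e7
  have e0 := h.e0
  have y1 := h.y1
  have y2 := h.y2
  have r0 := h.r0
  exact (h.p 2 2 (by norm_num) (by norm_num) (by linarith) (by linarith)).elim

theorem leaf4 {ε x n r ϱ : ℝ} (h : Ctx ε x n r ϱ) (a : (329/4000) ≤ x) (b : x ≤ (329/2000)) (c : (1249/4000) ≤ n)
    (d : n ≤ (333/1000)) : ϱ ≤ 0.431 := by
  have c1 := mul_nonneg (sub_nonneg.2 a) (sub_nonneg.2 c)
  have c2 := mul_nonneg (sub_nonneg.2 a) (sub_nonneg.2 d)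
  have c3 := mul_nonneg (sub_nonneg.2 b) (sub_nonneg.2 c)
  have c4 := mul_nonneg (sub_nonneg.2 b) (sub_nonneg.2 d)
  have e7 := h.e7
  have e0 := h.e0
  have y1 := h.y1
  have y2 := h.y2
  have r0 := h.r0
  rcases h.g 2 2 (by norm_num) (by norm_num) (by linarith) with q | q
  · exact h.s 2 2 (by norm_num) (by norm_num) (by linarith) (by linarith) (by linarith)
  · exact h.s 2 2 (by norm_num) (by norm_num) (by linarith) (by linarith) (by linarith)

theorem leaf5 {ε x n r ϱ : ℝ} (h : Ctx ε x n r ϱ) (a : 0 ≤ x) (b : x ≤ (329/2000)) (c : (333/1000) ≤ n)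
    (d : n ≤ (1/2)) : ϱ ≤ 0.431 := by
  have c1 := mul_nonneg (sub_nonneg.2 a) (sub_nonneg.2 c)
  have c2 := mul_nonneg (sub_nonneg.2 a) (sub_nonneg.2 d)
  have c3 := mul_nonneg (sub_nonneg.2 b) (sub_nonneg.2 c)
  have c4 := mul_nonneg (sub_nonneg.2 b) (sub_nonneg.2 d)
  have e7 := h.e7
  have e0 := h.e0
  have y1 := h.y1
  have y2 := h.y2
  have r0 := h.r0
  exact (h.p 2 2 (by norm_num) (by norm_num) (by linarith) (by linarith)).elim

theorem leaf6 {ε x n r ϱ : ℝ} (h : Ctx ε x n r ϱ) (a : (329/2000) ≤ x) (b : x ≤ (1/5)) (c : (89/500) ≤ n)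
    (d : n ≤ (1/5)) : ϱ ≤ 0.431 := by
  have c1 := mul_nonneg (sub_nonneg.2 a) (sub_nonneg.2 c)
  have c2 := mul_nonneg (sub_nonneg.2 a) (sub_nonneg.2 d)
  have c3 := mul_nonneg (sub_nonneg.2 b) (sub_nonneg.2 c)
  have c4 := mul_nonneg (sub_nonneg.2 b) (sub_nonneg.2 d)
  have e7 := h.e7
  have e0 := h.e0
  have y1 := h.y1
  have y2 := h.y2
  have r0 := h.r0
  rcases h.g 4 4 (by norm_num) (by norm_num) (by linarith) with q | q
  · exact h.s 3 3 (by norm_num) (by norm_num) (by linarith) (by linarith) (by linarith)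
  · exact h.s 3 3 (by norm_num) (by norm_num) (by linarith) (by linarith) (by linarith)

theorem leaf7 {ε x n r ϱ : ℝ} (h : Ctx ε x n r ϱ) (a : (329/2000) ≤ x) (b : x ≤ (1/5)) (c : (1/5) ≤ n)
    (d : n ≤ (1/4)) : ϱ ≤ 0.431 := by
  have c1 := mul_nonneg (sub_nonneg.2 a) (sub_nonneg.2 c)
  have c2 := mul_nonneg (sub_nonneg.2 a) (sub_nonneg.2 d)
  have c3 := mul_nonneg (sub_nonneg.2 b) (sub_nonneg.2 c)
  have c4 := mul_nonneg (sub_nonneg.2 b) (sub_nonneg.2 d)
  have e7 := h.e7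
  have e0 := h.e0
  have y1 := h.y1
  have y2 := h.y2
  have r0 := h.r0
  rcases h.g 4 4 (by norm_num) (by norm_num) (by linarith) with q | q
  · exact h.s 2 2 (by norm_num) (by norm_num) (by linarith) (by linarith) (by linarith)
  · exact h.s 2 2 (by norm_num) (by norm_num) (by linarith) (by linarith) (by linarith)

theorem leaf8 {ε x n r ϱ : ℝ} (h : Ctx ε x n r ϱ) (a : (329/2000) ≤ x) (b : x ≤ (1/5)) (c : (1/4) ≤ n)
    (d : n ≤ (333/1000)) : ϱ ≤ 0.431 := by
  have c1 := mul_nonneg (sub_nonneg.2 a) (sub_nonneg.2 c)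
  have c2 := mul_nonneg (sub_nonneg.2 a) (sub_nonneg.2 d)
  have c3 := mul_nonneg (sub_nonneg.2 b) (sub_nonneg.2 c)
  have c4 := mul_nonneg (sub_nonneg.2 b) (sub_nonneg.2 d)
  have e7 := h.e7
  have e0 := h.e0
  have y1 := h.y1
  have y2 := h.y2
  have r0 := h.r0
  rcases h.g 3 3 (by norm_num) (by norm_num) (by linarith) with q | q
  · exact h.s 2 2 (by norm_num) (by norm_num) (by linarith) (by linarith) (by linarith)
  · exact h.s 2 2 (by norm_num) (by norm_num) (by linarith) (by linarith) (by linarith)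

theorem leaf9 {ε x n r ϱ : ℝ} (h : Ctx ε x n r ϱ) (a : (329/2000) ≤ x) (b : x ≤ (1/5)) (c : (333/1000) ≤ n)
    (d : n ≤ (2/5)) : ϱ ≤ 0.431 := by
  have c1 := mul_nonneg (sub_nonneg.2 a) (sub_nonneg.2 c)
  have c2 := mul_nonneg (sub_nonneg.2 a) (sub_nonneg.2 d)
  have c3 := mul_nonneg (sub_nonneg.2 b) (sub_nonneg.2 c)
  have c4 := mul_nonneg (sub_nonneg.2 b) (sub_nonneg.2 d)
  have e7 := h.e7
  have e0 := h.e0
  have y1 := h.y1
  have y2 := h.y2
  have r0 := h.r0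
  rcases h.g 2 2 (by norm_num) (by norm_num) (by linarith) with q | q
  · exact h.s 2 2 (by norm_num) (by norm_num) (by linarith) (by linarith) (by linarith)
  · exact h.s 2 2 (by norm_num) (by norm_num) (by linarith) (by linarith) (by linarith)

theorem leaf10 {ε x n r ϱ : ℝ} (h : Ctx ε x n r ϱ) (a : (329/2000) ≤ x) (b : x ≤ (1/5)) (c : (2/5) ≤ n)
    (d : n ≤ (999/2000)) : ϱ ≤ 0.431 := by
  have c1 := mul_nonneg (sub_nonneg.2 a) (sub_nonneg.2 c)
  have c2 := mul_nonneg (sub_nonneg.2 a) (sub_nonneg.2 d)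
  have c3 := mul_nonneg (sub_nonneg.2 b) (sub_nonneg.2 c)
  have c4 := mul_nonneg (sub_nonneg.2 b) (sub_nonneg.2 d)
  have e7 := h.e7
  have e0 := h.e0
  have y1 := h.y1
  have y2 := h.y2
  have r0 := h.r0
  rcases h.g 2 2 (by norm_num) (by norm_num) (by linarith) with q | q
  · exact h.s 1 1 (by norm_num) (by norm_num) (by linarith) (by linarith) (by linarith)
  · exact h.s 1 1 (by norm_num) (by norm_num) (by linarith) (by linarith) (by linarith)

theorem leaf11 {ε x n r ϱ : ℝ} (h : Ctx ε x n r ϱ) (a : (329/2000) ≤ x) (b : x ≤ (1/5)) (c : (999/2000) ≤ n)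
    (d : n ≤ (31/50)) : ϱ ≤ 0.431 := by
  have c1 := mul_nonneg (sub_nonneg.2 a) (sub_nonneg.2 c)
  have c2 := mul_nonneg (sub_nonneg.2 a) (sub_nonneg.2 d)
  have c3 := mul_nonneg (sub_nonneg.2 b) (sub_nonneg.2 c)
  have c4 := mul_nonneg (sub_nonneg.2 b) (sub_nonneg.2 d)
  have e7 := h.e7
  have e0 := h.e0
  have y1 := h.y1
  have y2 := h.y2
  have r0 := h.r0
  rcases h.f 2 2 (by norm_num) (by norm_num) (by linarith) with q | q
  · exact h.s 1 1 (by norm_num) (by norm_num) (by linarith) (by linarith) (by linarith)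
  · exact h.s 1 1 (by norm_num) (by norm_num) (by linarith) (by linarith) (by linarith)

theorem leaf12 {ε x n r ϱ : ℝ} (h : Ctx ε x n r ϱ) (a : (1/5) ≤ x) (b : x ≤ (49/200)) (c : (89/500) ≤ n)
    (d : n ≤ (1/5)) : ϱ ≤ 0.431 := by
  have c1 := mul_nonneg (sub_nonneg.2 a) (sub_nonneg.2 c)
  have c2 := mul_nonneg (sub_nonneg.2 a) (sub_nonneg.2 d)
  have c3 := mul_nonneg (sub_nonneg.2 b) (sub_nonneg.2 c)
  have c4 := mul_nonneg (sub_nonneg.2 b) (sub_nonneg.2 d)
  have e7 := h.e7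
  have e0 := h.e0
  have y1 := h.y1
  have y2 := h.y2
  have r0 := h.r0
  rcases h.g 4 4 (by norm_num) (by norm_num) (by linarith) with q | q
  · exact h.s 4 4 (by norm_num) (by norm_num) (by linarith) (by linarith) (by linarith)
  · exact h.s 4 4 (by norm_num) (by norm_num) (by linarith) (by linarith) (by linarith)

theorem leaf13 {ε x n r ϱ : ℝ} (h : Ctx ε x n r ϱ) (a : (1/5) ≤ x) (b : x ≤ (49/200)) (c : (1/5) ≤ n)
    (d : n ≤ (1/4)) : ϱ ≤ 0.431 := by
  have c1 := mul_nonneg (sub_nonneg.2 a) (sub_nonneg.2 c)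
  have c2 := mul_nonneg (sub_nonneg.2 a) (sub_nonneg.2 d)
  have c3 := mul_nonneg (sub_nonneg.2 b) (sub_nonneg.2 c)
  have c4 := mul_nonneg (sub_nonneg.2 b) (sub_nonneg.2 d)
  have e7 := h.e7
  have e0 := h.e0
  have y1 := h.y1
  have y2 := h.y2
  have r0 := h.r0
  rcases h.g 4 4 (by norm_num) (by norm_num) (by linarith) with q | q
  · exact h.s 3 3 (by norm_num) (by norm_num) (by linarith) (by linarith) (by linarith)
  · exact h.s 3 3 (by norm_num) (by norm_num) (by linarith) (by linarith) (by linarith)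

theorem leaf14 {ε x n r ϱ : ℝ} (h : Ctx ε x n r ϱ) (a : (1/5) ≤ x) (b : x ≤ (49/200)) (c : (1/4) ≤ n)
    (d : n ≤ (333/1000)) : ϱ ≤ 0.431 := by
  have c1 := mul_nonneg (sub_nonneg.2 a) (sub_nonneg.2 c)
  have c2 := mul_nonneg (sub_nonneg.2 a) (sub_nonneg.2 d)
  have c3 := mul_nonneg (sub_nonneg.2 b) (sub_nonneg.2 c)
  have c4 := mul_nonneg (sub_nonneg.2 b) (sub_nonneg.2 d)
  have e7 := h.e7
  have e0 := h.e0
  have y1 := h.y1
  have y2 := h.y2
  have r0 := h.r0
  rcases h.g 3 3 (by norm_num) (by norm_num) (by linarith) with q | q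
  · exact h.s 3 3 (by norm_num) (by norm_num) (by linarith) (by linarith) (by linarith)
  · exact h.s 3 3 (by norm_num) (by norm_num) (by linarith) (by linarith) (by linarith)

theorem leaf15 {ε x n r ϱ : ℝ} (h : Ctx ε x n r ϱ) (a : (1/5) ≤ x) (b : x ≤ (49/200)) (c : (333/1000) ≤ n)
    (d : n ≤ (2/5)) : ϱ ≤ 0.431 := by
  have c1 := mul_nonneg (sub_nonneg.2 a) (sub_nonneg.2 c)
  have c2 := mul_nonneg (sub_nonneg.2 a) (sub_nonneg.2 d)
  have c3 := mul_nonneg (sub_nonneg.2 b) (sub_nonneg.2 c)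
  have c4 := mul_nonneg (sub_nonneg.2 b) (sub_nonneg.2 d)
  have e7 := h.e7
  have e0 := h.e0
  have y1 := h.y1
  have y2 := h.y2
  have r0 := h.r0
  rcases h.g 2 2 (by norm_num) (by norm_num) (by linarith) with q | q
  · exact h.s 2 2 (by norm_num) (by norm_num) (by linarith) (by linarith) (by linarith)
  · exact h.s 2 2 (by norm_num) (by norm_num) (by linarith) (by linarith) (by linarith)

theorem leaf16 {ε x n r ϱ : ℝ} (h : Ctx ε x n r ϱ) (a : (1/5) ≤ x) (b : x ≤ (49/200)) (c : (2/5) ≤ n)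
    (d : n ≤ (999/2000)) : ϱ ≤ 0.431 := by
  have c1 := mul_nonneg (sub_nonneg.2 a) (sub_nonneg.2 c)
  have c2 := mul_nonneg (sub_nonneg.2 a) (sub_nonneg.2 d)
  have c3 := mul_nonneg (sub_nonneg.2 b) (sub_nonneg.2 c)
  have c4 := mul_nonneg (sub_nonneg.2 b) (sub_nonneg.2 d)
  have e7 := h.e7
  have e0 := h.e0
  have y1 := h.y1
  have y2 := h.y2
  have r0 := h.r0
  rcases h.g 2 2 (by norm_num) (by norm_num) (by linarith) with q | q
  · exact h.s 2 2 (by norm_num) (by norm_num) (by linarith) (by linarith) (by linarith)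
  · exact h.s 2 2 (by norm_num) (by norm_num) (by linarith) (by linarith) (by linarith)

theorem leaf17 {ε x n r ϱ : ℝ} (h : Ctx ε x n r ϱ) (a : (1/5) ≤ x) (b : x ≤ (49/200)) (c : (999/2000) ≤ n)
    (d : n ≤ (31/50)) : ϱ ≤ 0.431 := by
  have c1 := mul_nonneg (sub_nonneg.2 a) (sub_nonneg.2 c)
  have c2 := mul_nonneg (sub_nonneg.2 a) (sub_nonneg.2 d)
  have c3 := mul_nonneg (sub_nonneg.2 b) (sub_nonneg.2 c)
  have c4 := mul_nonneg (sub_nonneg.2 b) (sub_nonneg.2 d)
  have e7 := h.e7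
  have e0 := h.e0
  have y1 := h.y1
  have y2 := h.y2
  have r0 := h.r0
  rcases h.f 2 2 (by norm_num) (by norm_num) (by linarith) with q | q
  · exact h.s 1 1 (by norm_num) (by norm_num) (by linarith) (by linarith) (by linarith)
  · exact h.s 1 1 (by norm_num) (by norm_num) (by linarith) (by linarith) (by linarith)

theorem leaf18 {ε x n r ϱ : ℝ} (h : Ctx ε x n r ϱ) (a : (49/200) ≤ x) (b : x ≤ (1/4)) (c : (89/500) ≤ n)
    (d : n ≤ (399/2000)) : ϱ ≤ 0.431 := by
  have c1 := mul_nonneg (sub_nonneg.2 a) (sub_nonneg.2 c)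
  have c2 := mul_nonneg (sub_nonneg.2 a) (sub_nonneg.2 d)
  have c3 := mul_nonneg (sub_nonneg.2 b) (sub_nonneg.2 c)
  have c4 := mul_nonneg (sub_nonneg.2 b) (sub_nonneg.2 d)
  have e7 := h.e7
  have e0 := h.e0
  have y1 := h.y1
  have y2 := h.y2
  have r0 := h.r0
  rcases h.f 5 5 (by norm_num) (by norm_num) (by linarith) with q | q
  · exact h.s 3 3 (by norm_num) (by norm_num) (by linarith) (by linarith) (by linarith)
  · exact h.s 3 3 (by norm_num) (by norm_num) (by linarith) (by linarith) (by linarith)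

theorem leaf19 {ε x n r ϱ : ℝ} (h : Ctx ε x n r ϱ) (a : (49/200) ≤ x) (b : x ≤ (1/4)) (c : (399/2000) ≤ n)
    (d : n ≤ (1/5)) : ϱ ≤ 0.431 := by
  have c1 := mul_nonneg (sub_nonneg.2 a) (sub_nonneg.2 c)
  have c2 := mul_nonneg (sub_nonneg.2 a) (sub_nonneg.2 d)
  have c3 := mul_nonneg (sub_nonneg.2 b) (sub_nonneg.2 c)
  have c4 := mul_nonneg (sub_nonneg.2 b) (sub_nonneg.2 d)
  have e7 := h.e7
  have e0 := h.e0
  have y1 := h.y1
  have y2 := h.y2
  have r0 := h.r0
  rcases h.f 4 4 (by norm_num) (by norm_num) (by linarith) with q | q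
  · exact h.s 3 3 (by norm_num) (by norm_num) (by linarith) (by linarith) (by linarith)
  · exact h.s 3 3 (by norm_num) (by norm_num) (by linarith) (by linarith) (by linarith)

theorem leaf20 {ε x n r ϱ : ℝ} (h : Ctx ε x n r ϱ) (a : (49/200) ≤ x) (b : x ≤ (1/4)) (c : (1/5) ≤ n)
    (d : n ≤ (1/4)) : ϱ ≤ 0.431 := by
  have c1 := mul_nonneg (sub_nonneg.2 a) (sub_nonneg.2 c)
  have c2 := mul_nonneg (sub_nonneg.2 a) (sub_nonneg.2 d)
  have c3 := mul_nonneg (sub_nonneg.2 b) (sub_nonneg.2 c)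
  have c4 := mul_nonneg (sub_nonneg.2 b) (sub_nonneg.2 d)
  have e7 := h.e7
  have e0 := h.e0
  have y1 := h.y1
  have y2 := h.y2
  have r0 := h.r0
  rcases h.f 4 4 (by norm_num) (by norm_num) (by linarith) with q | q
  · exact h.s 3 3 (by norm_num) (by norm_num) (by linarith) (by linarith) (by linarith)
  · exact h.s 3 3 (by norm_num) (by norm_num) (by linarith) (by linarith) (by linarith)

theorem leaf21 {ε x n r ϱ : ℝ} (h : Ctx ε x n r ϱ) (a : (49/200) ≤ x) (b : x ≤ (1/4)) (c : (1/4) ≤ n)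
    (d : n ≤ (71/250)) : ϱ ≤ 0.431 := by
  have c1 := mul_nonneg (sub_nonneg.2 a) (sub_nonneg.2 c)
  have c2 := mul_nonneg (sub_nonneg.2 a) (sub_nonneg.2 d)
  have c3 := mul_nonneg (sub_nonneg.2 b) (sub_nonneg.2 c)
  have c4 := mul_nonneg (sub_nonneg.2 b) (sub_nonneg.2 d)
  have e7 := h.e7
  have e0 := h.e0
  have y1 := h.y1
  have y2 := h.y2
  have r0 := h.r0
  rcases h.f 4 4 (by norm_num) (by norm_num) (by linarith) with q | q
  · exact h.s 2 2 (by norm_num) (by norm_num) (by linarith) (by linarith) (by linarith)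
  · exact h.s 2 2 (by norm_num) (by norm_num) (by linarith) (by linarith) (by linarith)

theorem leaf22 {ε x n r ϱ : ℝ} (h : Ctx ε x n r ϱ) (a : (49/200) ≤ x) (b : x ≤ (1/4)) (c : (71/250) ≤ n)
    (d : n ≤ (1667/5000)) : ϱ ≤ 0.431 := by
  have c1 := mul_nonneg (sub_nonneg.2 a) (sub_nonneg.2 c)
  have c2 := mul_nonneg (sub_nonneg.2 a) (sub_nonneg.2 d)
  have c3 := mul_nonneg (sub_nonneg.2 b) (sub_nonneg.2 c)
  have c4 := mul_nonneg (sub_nonneg.2 b) (sub_nonneg.2 d)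
  have e7 := h.e7
  have e0 := h.e0
  have y1 := h.y1
  have y2 := h.y2
  have r0 := h.r0
  rcases h.f 3 3 (by norm_num) (by norm_num) (by linarith) with q | q
  · exact h.s 2 2 (by norm_num) (by norm_num) (by linarith) (by linarith) (by linarith)
  · exact h.s 2 2 (by norm_num) (by norm_num) (by linarith) (by linarith) (by linarith)

theorem leaf23 {ε x n r ϱ : ℝ} (h : Ctx ε x n r ϱ) (a : (49/200) ≤ x) (b : x ≤ (1/4)) (c : (1667/5000) ≤ n)
    (d : n ≤ (397/1000)) : ϱ ≤ 0.431 := by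
  have c1 := mul_nonneg (sub_nonneg.2 a) (sub_nonneg.2 c)
  have c2 := mul_nonneg (sub_nonneg.2 a) (sub_nonneg.2 d)
  have c3 := mul_nonneg (sub_nonneg.2 b) (sub_nonneg.2 c)
  have c4 := mul_nonneg (sub_nonneg.2 b) (sub_nonneg.2 d)
  have e7 := h.e7
  have e0 := h.e0
  have y1 := h.y1
  have y2 := h.y2
  have r0 := h.r0
  rcases h.f 3 3 (by norm_num) (by norm_num) (by linarith) with q | q
  · exact h.s 2 2 (by norm_num) (by norm_num) (by linarith) (by linarith) (by linarith)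
  · exact h.s 2 2 (by norm_num) (by norm_num) (by linarith) (by linarith) (by linarith)

theorem leaf24 {ε x n r ϱ : ℝ} (h : Ctx ε x n r ϱ) (a : (49/200) ≤ x) (b : x ≤ (1/4)) (c : (397/1000) ≤ n)
    (d : n ≤ (43/100)) : ϱ ≤ 0.431 := by
  have c1 := mul_nonneg (sub_nonneg.2 a) (sub_nonneg.2 c)
  have c2 := mul_nonneg (sub_nonneg.2 a) (sub_nonneg.2 d)
  have c3 := mul_nonneg (sub_nonneg.2 b) (sub_nonneg.2 c)
  have c4 := mul_nonneg (sub_nonneg.2 b) (sub_nonneg.2 d)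
  have e7 := h.e7
  have e0 := h.e0
  have y1 := h.y1
  have y2 := h.y2
  have r0 := h.r0
  rcases h.g 2 2 (by norm_num) (by norm_num) (by linarith) with q | q
  · exact h.e 2 2 (by norm_num) (by norm_num) (by linarith) (by linarith) (by linarith)
  · exact h.e 2 2 (by norm_num) (by norm_num) (by linarith) (by linarith) (by linarith)

theorem leaf25 {ε x n r ϱ : ℝ} (h : Ctx ε x n r ϱ) (a : (49/200) ≤ x) (b : x ≤ (1/4)) (c : (43/100) ≤ n)
    (d : n ≤ (1/2)) : ϱ ≤ 0.431 := by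
  have c1 := mul_nonneg (sub_nonneg.2 a) (sub_nonneg.2 c)
  have c2 := mul_nonneg (sub_nonneg.2 a) (sub_nonneg.2 d)
  have c3 := mul_nonneg (sub_nonneg.2 b) (sub_nonneg.2 c)
  have c4 := mul_nonneg (sub_nonneg.2 b) (sub_nonneg.2 d)
  have e7 := h.e7
  have e0 := h.e0
  have y1 := h.y1
  have y2 := h.y2
  have r0 := h.r0
  rcases h.g 2 2 (by norm_num) (by norm_num) (by linarith) with q | q
  · exact h.s 1 1 (by norm_num) (by norm_num) (by linarith) (by linarith) (by linarith)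
  · exact h.s 1 1 (by norm_num) (by norm_num) (by linarith) (by linarith) (by linarith)

theorem leaf26 {ε x n r ϱ : ℝ} (h : Ctx ε x n r ϱ) (a : (49/200) ≤ x) (b : x ≤ (1/4)) (c : (1/2) ≤ n)
    (d : n ≤ (71/100)) : ϱ ≤ 0.431 := by
  have c1 := mul_nonneg (sub_nonneg.2 a) (sub_nonneg.2 c)
  have c2 := mul_nonneg (sub_nonneg.2 a) (sub_nonneg.2 d)
  have c3 := mul_nonneg (sub_nonneg.2 b) (sub_nonneg.2 c)
  have c4 := mul_nonneg (sub_nonneg.2 b) (sub_nonneg.2 d)
  have e7 := h.e7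
  have e0 := h.e0
  have y1 := h.y1
  have y2 := h.y2
  have r0 := h.r0
  rcases h.f 2 2 (by norm_num) (by norm_num) (by linarith) with q | q
  · exact h.s 1 1 (by norm_num) (by norm_num) (by linarith) (by linarith) (by linarith)
  · exact h.s 1 1 (by norm_num) (by norm_num) (by linarith) (by linarith) (by linarith)

theorem leaf27 {ε x n r ϱ : ℝ} (h : Ctx ε x n r ϱ) (a : (1/4) ≤ x) (b : x ≤ (53/200)) (c : (89/500) ≤ n)
    (d : n ≤ (399/2000)) : ϱ ≤ 0.431 := by
  have c1 := mul_nonneg (sub_nonneg.2 a) (sub_nonneg.2 c)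
  have c2 := mul_nonneg (sub_nonneg.2 a) (sub_nonneg.2 d)
  have c3 := mul_nonneg (sub_nonneg.2 b) (sub_nonneg.2 c)
  have c4 := mul_nonneg (sub_nonneg.2 b) (sub_nonneg.2 d)
  have e7 := h.e7
  have e0 := h.e0
  have y1 := h.y1
  have y2 := h.y2
  have r0 := h.r0
  rcases h.f 5 5 (by norm_num) (by norm_num) (by linarith) with q | q
  · exact h.s 3 3 (by norm_num) (by norm_num) (by linarith) (by linarith) (by linarith)
  · exact h.s 3 3 (by norm_num) (by norm_num) (by linarith) (by linarith) (by linarith)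

theorem leaf28 {ε x n r ϱ : ℝ} (h : Ctx ε x n r ϱ) (a : (1/4) ≤ x) (b : x ≤ (53/200)) (c : (399/2000) ≤ n)
    (d : n ≤ (1/5)) : ϱ ≤ 0.431 := by
  have c1 := mul_nonneg (sub_nonneg.2 a) (sub_nonneg.2 c)
  have c2 := mul_nonneg (sub_nonneg.2 a) (sub_nonneg.2 d)
  have c3 := mul_nonneg (sub_nonneg.2 b) (sub_nonneg.2 c)
  have c4 := mul_nonneg (sub_nonneg.2 b) (sub_nonneg.2 d)
  have e7 := h.e7
  have e0 := h.e0
  have y1 := h.y1
  have y2 := h.y2
  have r0 := h.r0
  rcases h.f 4 4 (by norm_num) (by norm_num) (by linarith) with q | q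
  · exact h.s 3 3 (by norm_num) (by norm_num) (by linarith) (by linarith) (by linarith)
  · exact h.s 3 3 (by norm_num) (by norm_num) (by linarith) (by linarith) (by linarith)

theorem leaf29 {ε x n r ϱ : ℝ} (h : Ctx ε x n r ϱ) (a : (1/4) ≤ x) (b : x ≤ (53/200)) (c : (1/5) ≤ n)
    (d : n ≤ (1/4)) : ϱ ≤ 0.431 := by
  have c1 := mul_nonneg (sub_nonneg.2 a) (sub_nonneg.2 c)
  have c2 := mul_nonneg (sub_nonneg.2 a) (sub_nonneg.2 d)
  have c3 := mul_nonneg (sub_nonneg.2 b) (sub_nonneg.2 c)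
  have c4 := mul_nonneg (sub_nonneg.2 b) (sub_nonneg.2 d)
  have e7 := h.e7
  have e0 := h.e0
  have y1 := h.y1
  have y2 := h.y2
  have r0 := h.r0
  rcases h.f 4 4 (by norm_num) (by norm_num) (by linarith) with q | q
  · exact h.s 3 3 (by norm_num) (by norm_num) (by linarith) (by linarith) (by linarith)
  · exact h.s 3 3 (by norm_num) (by norm_num) (by linarith) (by linarith) (by linarith)

theorem leaf30 {ε x n r ϱ : ℝ} (h : Ctx ε x n r ϱ) (a : (1/4) ≤ x) (b : x ≤ (53/200)) (c : (1/4) ≤ n)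
    (d : n ≤ (71/250)) : ϱ ≤ 0.431 := by
  have c1 := mul_nonneg (sub_nonneg.2 a) (sub_nonneg.2 c)
  have c2 := mul_nonneg (sub_nonneg.2 a) (sub_nonneg.2 d)
  have c3 := mul_nonneg (sub_nonneg.2 b) (sub_nonneg.2 c)
  have c4 := mul_nonneg (sub_nonneg.2 b) (sub_nonneg.2 d)
  have e7 := h.e7
  have e0 := h.e0
  have y1 := h.y1
  have y2 := h.y2
  have r0 := h.r0
  rcases h.f 4 4 (by norm_num) (by norm_num) (by linarith) with q | q
  · exact h.s 2 2 (by norm_num) (by norm_num) (by linarith) (by linarith) (by linarith)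
  · exact h.s 2 2 (by norm_num) (by norm_num) (by linarith) (by linarith) (by linarith)

theorem leaf31 {ε x n r ϱ : ℝ} (h : Ctx ε x n r ϱ) (a : (1/4) ≤ x) (b : x ≤ (53/200)) (c : (71/250) ≤ n)
    (d : n ≤ (1667/5000)) : ϱ ≤ 0.431 := by
  have c1 := mul_nonneg (sub_nonneg.2 a) (sub_nonneg.2 c)
  have c2 := mul_nonneg (sub_nonneg.2 a) (sub_nonneg.2 d)
  have c3 := mul_nonneg (sub_nonneg.2 b) (sub_nonneg.2 c)
  have c4 := mul_nonneg (sub_nonneg.2 b) (sub_nonneg.2 d)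
  have e7 := h.e7
  have e0 := h.e0
  have y1 := h.y1
  have y2 := h.y2
  have r0 := h.r0
  rcases h.f 3 3 (by norm_num) (by norm_num) (by linarith) with q | q
  · exact h.s 2 2 (by norm_num) (by norm_num) (by linarith) (by linarith) (by linarith)
  · exact h.s 2 2 (by norm_num) (by norm_num) (by linarith) (by linarith) (by linarith)

theorem leaf32 {ε x n r ϱ : ℝ} (h : Ctx ε x n r ϱ) (a : (1/4) ≤ x) (b : x ≤ (53/200)) (c : (1667/5000) ≤ n)
    (d : n ≤ (397/1000)) : ϱ ≤ 0.431 := by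
  have c1 := mul_nonneg (sub_nonneg.2 a) (sub_nonneg.2 c)
  have c2 := mul_nonneg (sub_nonneg.2 a) (sub_nonneg.2 d)
  have c3 := mul_nonneg (sub_nonneg.2 b) (sub_nonneg.2 c)
  have c4 := mul_nonneg (sub_nonneg.2 b) (sub_nonneg.2 d)
  have e7 := h.e7
  have e0 := h.e0
  have y1 := h.y1
  have y2 := h.y2
  have r0 := h.r0
  rcases h.f 3 3 (by norm_num) (by norm_num) (by linarith) with q | q
  · exact h.s 2 2 (by norm_num) (by norm_num) (by linarith) (by linarith) (by linarith)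
  · exact h.s 2 2 (by norm_num) (by norm_num) (by linarith) (by linarith) (by linarith)

theorem leaf33 {ε x n r ϱ : ℝ} (h : Ctx ε x n r ϱ) (a : (1/4) ≤ x) (b : x ≤ (53/200)) (c : (397/1000) ≤ n)
    (d : n ≤ (43/100)) : ϱ ≤ 0.431 := by
  have c1 := mul_nonneg (sub_nonneg.2 a) (sub_nonneg.2 c)
  have c2 := mul_nonneg (sub_nonneg.2 a) (sub_nonneg.2 d)
  have c3 := mul_nonneg (sub_nonneg.2 b) (sub_nonneg.2 c)
  have c4 := mul_nonneg (sub_nonneg.2 b) (sub_nonneg.2 d)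
  have e7 := h.e7
  have e0 := h.e0
  have y1 := h.y1
  have y2 := h.y2
  have r0 := h.r0
  rcases h.f 2 2 (by norm_num) (by norm_num) (by linarith) with q | q
  · exact h.e 2 2 (by norm_num) (by norm_num) (by linarith) (by linarith) (by linarith)
  · exact h.e 2 2 (by norm_num) (by norm_num) (by linarith) (by linarith) (by linarith)

theorem leaf34 {ε x n r ϱ : ℝ} (h : Ctx ε x n r ϱ) (a : (1/4) ≤ x) (b : x ≤ (53/200)) (c : (43/100) ≤ n)
    (d : n ≤ (1/2)) : ϱ ≤ 0.431 := by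
  have c1 := mul_nonneg (sub_nonneg.2 a) (sub_nonneg.2 c)
  have c2 := mul_nonneg (sub_nonneg.2 a) (sub_nonneg.2 d)
  have c3 := mul_nonneg (sub_nonneg.2 b) (sub_nonneg.2 c)
  have c4 := mul_nonneg (sub_nonneg.2 b) (sub_nonneg.2 d)
  have e7 := h.e7
  have e0 := h.e0
  have y1 := h.y1
  have y2 := h.y2
  have r0 := h.r0
  rcases h.f 2 2 (by norm_num) (by norm_num) (by linarith) with q | q
  · exact h.s 1 1 (by norm_num) (by norm_num) (by linarith) (by linarith) (by linarith)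
  · exact h.s 1 1 (by norm_num) (by norm_num) (by linarith) (by linarith) (by linarith)

theorem leaf35 {ε x n r ϱ : ℝ} (h : Ctx ε x n r ϱ) (a : (1/4) ≤ x) (b : x ≤ (53/200)) (c : (1/2) ≤ n)
    (d : n ≤ (71/100)) : ϱ ≤ 0.431 := by
  have c1 := mul_nonneg (sub_nonneg.2 a) (sub_nonneg.2 c)
  have c2 := mul_nonneg (sub_nonneg.2 a) (sub_nonneg.2 d)
  have c3 := mul_nonneg (sub_nonneg.2 b) (sub_nonneg.2 c)
  have c4 := mul_nonneg (sub_nonneg.2 b) (sub_nonneg.2 d)
  have e7 := h.e7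
  have e0 := h.e0
  have y1 := h.y1
  have y2 := h.y2
  have r0 := h.r0
  rcases h.f 2 2 (by norm_num) (by norm_num) (by linarith) with q | q
  · exact h.s 1 1 (by norm_num) (by norm_num) (by linarith) (by linarith) (by linarith)
  · exact h.s 1 1 (by norm_num) (by norm_num) (by linarith) (by linarith) (by linarith)

theorem leaf36 {ε x n r ϱ : ℝ} (h : Ctx ε x n r ϱ) (a : (53/200) ≤ x) (b : x ≤ (3/10)) (c : (89/500) ≤ n)
    (d : n ≤ (399/2000)) : ϱ ≤ 0.431 := by
  have c1 := mul_nonneg (sub_nonneg.2 a) (sub_nonneg.2 c)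
  have c2 := mul_nonneg (sub_nonneg.2 a) (sub_nonneg.2 d)
  have c3 := mul_nonneg (sub_nonneg.2 b) (sub_nonneg.2 c)
  have c4 := mul_nonneg (sub_nonneg.2 b) (sub_nonneg.2 d)
  have e7 := h.e7
  have e0 := h.e0
  have y1 := h.y1
  have y2 := h.y2
  have r0 := h.r0
  rcases h.f 4 4 (by norm_num) (by norm_num) (by linarith) with q | q
  · exact h.s 3 3 (by norm_num) (by norm_num) (by linarith) (by linarith) (by linarith)
  · exact h.s 3 3 (by norm_num) (by norm_num) (by linarith) (by linarith) (by linarith)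

theorem leaf37 {ε x n r ϱ : ℝ} (h : Ctx ε x n r ϱ) (a : (53/200) ≤ x) (b : x ≤ (3/10)) (c : (399/2000) ≤ n)
    (d : n ≤ (1/5)) : ϱ ≤ 0.431 := by
  have c1 := mul_nonneg (sub_nonneg.2 a) (sub_nonneg.2 c)
  have c2 := mul_nonneg (sub_nonneg.2 a) (sub_nonneg.2 d)
  have c3 := mul_nonneg (sub_nonneg.2 b) (sub_nonneg.2 c)
  have c4 := mul_nonneg (sub_nonneg.2 b) (sub_nonneg.2 d)
  have e7 := h.e7
  have e0 := h.e0
  have y1 := h.y1
  have y2 := h.y2
  have r0 := h.r0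
  rcases h.f 4 4 (by norm_num) (by norm_num) (by linarith) with q | q
  · exact h.s 3 3 (by norm_num) (by norm_num) (by linarith) (by linarith) (by linarith)
  · exact h.s 3 3 (by norm_num) (by norm_num) (by linarith) (by linarith) (by linarith)

theorem leaf38 {ε x n r ϱ : ℝ} (h : Ctx ε x n r ϱ) (a : (53/200) ≤ x) (b : x ≤ (3/10)) (c : (1/5) ≤ n)
    (d : n ≤ (1/4)) : ϱ ≤ 0.431 := by
  have c1 := mul_nonneg (sub_nonneg.2 a) (sub_nonneg.2 c)
  have c2 := mul_nonneg (sub_nonneg.2 a) (sub_nonneg.2 d)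
  have c3 := mul_nonneg (sub_nonneg.2 b) (sub_nonneg.2 c)
  have c4 := mul_nonneg (sub_nonneg.2 b) (sub_nonneg.2 d)
  have e7 := h.e7
  have e0 := h.e0
  have y1 := h.y1
  have y2 := h.y2
  have r0 := h.r0
  rcases h.f 4 4 (by norm_num) (by norm_num) (by linarith) with q | q
  · exact h.s 3 3 (by norm_num) (by norm_num) (by linarith) (by linarith) (by linarith)
  · exact h.s 3 3 (by norm_num) (by norm_num) (by linarith) (by linarith) (by linarith)

theorem leaf39 {ε x n r ϱ : ℝ} (h : Ctx ε x n r ϱ) (a : (53/200) ≤ x) (b : x ≤ (3/10)) (c : (1/4) ≤ n)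
    (d : n ≤ (71/250)) : ϱ ≤ 0.431 := by
  have c1 := mul_nonneg (sub_nonneg.2 a) (sub_nonneg.2 c)
  have c2 := mul_nonneg (sub_nonneg.2 a) (sub_nonneg.2 d)
  have c3 := mul_nonneg (sub_nonneg.2 b) (sub_nonneg.2 c)
  have c4 := mul_nonneg (sub_nonneg.2 b) (sub_nonneg.2 d)
  have e7 := h.e7
  have e0 := h.e0
  have y1 := h.y1
  have y2 := h.y2
  have r0 := h.r0
  rcases h.f 3 3 (by norm_num) (by norm_num) (by linarith) with q | q
  · exact h.s 2 2 (by norm_num) (by norm_num) (by linarith) (by linarith) (by linarith)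
  · exact h.s 2 2 (by norm_num) (by norm_num) (by linarith) (by linarith) (by linarith)

theorem leaf40 {ε x n r ϱ : ℝ} (h : Ctx ε x n r ϱ) (a : (53/200) ≤ x) (b : x ≤ (3/10)) (c : (71/250) ≤ n)
    (d : n ≤ (1667/5000)) : ϱ ≤ 0.431 := by
  have c1 := mul_nonneg (sub_nonneg.2 a) (sub_nonneg.2 c)
  have c2 := mul_nonneg (sub_nonneg.2 a) (sub_nonneg.2 d)
  have c3 := mul_nonneg (sub_nonneg.2 b) (sub_nonneg.2 c)
  have c4 := mul_nonneg (sub_nonneg.2 b) (sub_nonneg.2 d)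
  have e7 := h.e7
  have e0 := h.e0
  have y1 := h.y1
  have y2 := h.y2
  have r0 := h.r0
  rcases h.f 3 3 (by norm_num) (by norm_num) (by linarith) with q | q
  · exact h.s 2 2 (by norm_num) (by norm_num) (by linarith) (by linarith) (by linarith)
  · exact h.s 2 2 (by norm_num) (by norm_num) (by linarith) (by linarith) (by linarith)

theorem leaf41 {ε x n r ϱ : ℝ} (h : Ctx ε x n r ϱ) (a : (53/200) ≤ x) (b : x ≤ (3/10)) (c : (1667/5000) ≤ n)
    (d : n ≤ (397/1000)) : ϱ ≤ 0.431 := by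
  have c1 := mul_nonneg (sub_nonneg.2 a) (sub_nonneg.2 c)
  have c2 := mul_nonneg (sub_nonneg.2 a) (sub_nonneg.2 d)
  have c3 := mul_nonneg (sub_nonneg.2 b) (sub_nonneg.2 c)
  have c4 := mul_nonneg (sub_nonneg.2 b) (sub_nonneg.2 d)
  have e7 := h.e7
  have e0 := h.e0
  have y1 := h.y1
  have y2 := h.y2
  have r0 := h.r0
  rcases h.f 2 2 (by norm_num) (by norm_num) (by linarith) with q | q
  · exact h.s 2 2 (by norm_num) (by norm_num) (by linarith) (by linarith) (by linarith)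
  · exact h.s 2 2 (by norm_num) (by norm_num) (by linarith) (by linarith) (by linarith)

theorem leaf42 {ε x n r ϱ : ℝ} (h : Ctx ε x n r ϱ) (a : (53/200) ≤ x) (b : x ≤ (3/10)) (c : (397/1000) ≤ n)
    (d : n ≤ (21/50)) : ϱ ≤ 0.431 := by
  have c1 := mul_nonneg (sub_nonneg.2 a) (sub_nonneg.2 c)
  have c2 := mul_nonneg (sub_nonneg.2 a) (sub_nonneg.2 d)
  have c3 := mul_nonneg (sub_nonneg.2 b) (sub_nonneg.2 c)
  have c4 := mul_nonneg (sub_nonneg.2 b) (sub_nonneg.2 d)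
  have e7 := h.e7
  have e0 := h.e0
  have y1 := h.y1
  have y2 := h.y2
  have r0 := h.r0
  rcases h.f 2 2 (by norm_num) (by norm_num) (by linarith) with q | q
  · exact h.s 2 2 (by norm_num) (by norm_num) (by linarith) (by linarith) (by linarith)
  · exact h.s 2 2 (by norm_num) (by norm_num) (by linarith) (by linarith) (by linarith)

theorem leaf43 {ε x n r ϱ : ℝ} (h : Ctx ε x n r ϱ) (a : (53/200) ≤ x) (b : x ≤ (3/10)) (c : (21/50) ≤ n)
    (d : n ≤ (1/2)) : ϱ ≤ 0.431 := by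
  have c1 := mul_nonneg (sub_nonneg.2 a) (sub_nonneg.2 c)
  have c2 := mul_nonneg (sub_nonneg.2 a) (sub_nonneg.2 d)
  have c3 := mul_nonneg (sub_nonneg.2 b) (sub_nonneg.2 c)
  have c4 := mul_nonneg (sub_nonneg.2 b) (sub_nonneg.2 d)
  have e7 := h.e7
  have e0 := h.e0
  have y1 := h.y1
  have y2 := h.y2
  have r0 := h.r0
  rcases h.f 2 2 (by norm_num) (by norm_num) (by linarith) with q | q
  · exact h.s 1 1 (by norm_num) (by norm_num) (by linarith) (by linarith) (by linarith)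
  · exact h.s 1 1 (by norm_num) (by norm_num) (by linarith) (by linarith) (by linarith)

theorem leaf44 {ε x n r ϱ : ℝ} (h : Ctx ε x n r ϱ) (a : (53/200) ≤ x) (b : x ≤ (3/10)) (c : (1/2) ≤ n)
    (d : n ≤ (33/50)) : ϱ ≤ 0.431 := by
  have c1 := mul_nonneg (sub_nonneg.2 a) (sub_nonneg.2 c)
  have c2 := mul_nonneg (sub_nonneg.2 a) (sub_nonneg.2 d)
  have c3 := mul_nonneg (sub_nonneg.2 b) (sub_nonneg.2 c)
  have c4 := mul_nonneg (sub_nonneg.2 b) (sub_nonneg.2 d)
  have e7 := h.e7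
  have e0 := h.e0
  have y1 := h.y1
  have y2 := h.y2
  have r0 := h.r0
  rcases h.f 2 2 (by norm_num) (by norm_num) (by linarith) with q | q
  · exact h.s 1 1 (by norm_num) (by norm_num) (by linarith) (by linarith) (by linarith)
  · exact h.s 1 1 (by norm_num) (by norm_num) (by linarith) (by linarith) (by linarith)

theorem leaf45 {ε x n r ϱ : ℝ} (h : Ctx ε x n r ϱ) (a : (53/200) ≤ x) (b : x ≤ (3/10)) (c : (33/50) ≤ n)
    (d : n ≤ (23/25)) : ϱ ≤ 0.431 := by
  have c1 := mul_nonneg (sub_nonneg.2 a) (sub_nonneg.2 c)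
  have c2 := mul_nonneg (sub_nonneg.2 a) (sub_nonneg.2 d)
  have c3 := mul_nonneg (sub_nonneg.2 b) (sub_nonneg.2 c)
  have c4 := mul_nonneg (sub_nonneg.2 b) (sub_nonneg.2 d)
  have e7 := h.e7
  have e0 := h.e0
  have y1 := h.y1
  have y2 := h.y2
  have r0 := h.r0
  rcases h.f 1 1 (by norm_num) (by norm_num) (by linarith) with q | q
  · exact h.s 1 1 (by norm_num) (by norm_num) (by linarith) (by linarith) (by linarith)
  · exact h.s 1 1 (by norm_num) (by norm_num) (by linarith) (by linarith) (by linarith)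

theorem leaf46 {ε x n r ϱ : ℝ} (h : Ctx ε x n r ϱ) (a : (3/10) ≤ x) (b : x ≤ (400001/1000000)) (c : (89/500) ≤ n)
    (d : n ≤ (399/2000)) : ϱ ≤ 0.431 := by
  have c1 := mul_nonneg (sub_nonneg.2 a) (sub_nonneg.2 c)
  have c2 := mul_nonneg (sub_nonneg.2 a) (sub_nonneg.2 d)
  have c3 := mul_nonneg (sub_nonneg.2 b) (sub_nonneg.2 c)
  have c4 := mul_nonneg (sub_nonneg.2 b) (sub_nonneg.2 d)
  have e7 := h.e7
  have e0 := h.e0
  have y1 := h.y1
  have y2 := h.y2
  have r0 := h.r0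
  rcases h.f 4 4 (by norm_num) (by norm_num) (by linarith) with q | q
  · exact h.s 3 3 (by norm_num) (by norm_num) (by linarith) (by linarith) (by linarith)
  · exact h.s 3 3 (by norm_num) (by norm_num) (by linarith) (by linarith) (by linarith)

theorem leaf47 {ε x n r ϱ : ℝ} (h : Ctx ε x n r ϱ) (a : (3/10) ≤ x) (b : x ≤ (400001/1000000)) (c : (399/2000) ≤ n)
    (d : n ≤ (1/5)) : ϱ ≤ 0.431 := by
  have c1 := mul_nonneg (sub_nonneg.2 a) (sub_nonneg.2 c)
  have c2 := mul_nonneg (sub_nonneg.2 a) (sub_nonneg.2 d)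
  have c3 := mul_nonneg (sub_nonneg.2 b) (sub_nonneg.2 c)
  have c4 := mul_nonneg (sub_nonneg.2 b) (sub_nonneg.2 d)
  have e7 := h.e7
  have e0 := h.e0
  have y1 := h.y1
  have y2 := h.y2
  have r0 := h.r0
  rcases h.f 3 3 (by norm_num) (by norm_num) (by linarith) with q | q
  · exact h.s 3 3 (by norm_num) (by norm_num) (by linarith) (by linarith) (by linarith)
  · exact h.s 3 3 (by norm_num) (by norm_num) (by linarith) (by linarith) (by linarith)

theorem leaf48 {ε x n r ϱ : ℝ} (h : Ctx ε x n r ϱ) (a : (3/10) ≤ x) (b : x ≤ (400001/1000000)) (c : (1/5) ≤ n)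
    (d : n ≤ (1/4)) : ϱ ≤ 0.431 := by
  have c1 := mul_nonneg (sub_nonneg.2 a) (sub_nonneg.2 c)
  have c2 := mul_nonneg (sub_nonneg.2 a) (sub_nonneg.2 d)
  have c3 := mul_nonneg (sub_nonneg.2 b) (sub_nonneg.2 c)
  have c4 := mul_nonneg (sub_nonneg.2 b) (sub_nonneg.2 d)
  have e7 := h.e7
  have e0 := h.e0
  have y1 := h.y1
  have y2 := h.y2
  have r0 := h.r0
  rcases h.f 3 3 (by norm_num) (by norm_num) (by linarith) with q | q
  · exact h.s 3 3 (by norm_num) (by norm_num) (by linarith) (by linarith) (by linarith)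
  · exact h.s 3 3 (by norm_num) (by norm_num) (by linarith) (by linarith) (by linarith)

theorem leaf49 {ε x n r ϱ : ℝ} (h : Ctx ε x n r ϱ) (a : (3/10) ≤ x) (b : x ≤ (400001/1000000)) (c : (1/4) ≤ n)
    (d : n ≤ (71/250)) : ϱ ≤ 0.431 := by
  have c1 := mul_nonneg (sub_nonneg.2 a) (sub_nonneg.2 c)
  have c2 := mul_nonneg (sub_nonneg.2 a) (sub_nonneg.2 d)
  have c3 := mul_nonneg (sub_nonneg.2 b) (sub_nonneg.2 c)
  have c4 := mul_nonneg (sub_nonneg.2 b) (sub_nonneg.2 d)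
  have e7 := h.e7
  have e0 := h.e0
  have y1 := h.y1
  have y2 := h.y2
  have r0 := h.r0
  rcases h.f 3 3 (by norm_num) (by norm_num) (by linarith) with q | q
  · exact h.s 2 2 (by norm_num) (by norm_num) (by linarith) (by linarith) (by linarith)
  · exact h.s 2 2 (by norm_num) (by norm_num) (by linarith) (by linarith) (by linarith)

theorem leaf50 {ε x n r ϱ : ℝ} (h : Ctx ε x n r ϱ) (a : (3/10) ≤ x) (b : x ≤ (400001/1000000)) (c : (71/250) ≤ n)
    (d : n ≤ (1667/5000)) : ϱ ≤ 0.431 := by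
  have c1 := mul_nonneg (sub_nonneg.2 a) (sub_nonneg.2 c)
  have c2 := mul_nonneg (sub_nonneg.2 a) (sub_nonneg.2 d)
  have c3 := mul_nonneg (sub_nonneg.2 b) (sub_nonneg.2 c)
  have c4 := mul_nonneg (sub_nonneg.2 b) (sub_nonneg.2 d)
  have e7 := h.e7
  have e0 := h.e0
  have y1 := h.y1
  have y2 := h.y2
  have r0 := h.r0
  rcases h.f 2 2 (by norm_num) (by norm_num) (by linarith) with q | q
  · exact h.s 2 2 (by norm_num) (by norm_num) (by linarith) (by linarith) (by linarith)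
  · exact h.s 2 2 (by norm_num) (by norm_num) (by linarith) (by linarith) (by linarith)

theorem leaf51 {ε x n r ϱ : ℝ} (h : Ctx ε x n r ϱ) (a : (3/10) ≤ x) (b : x ≤ (400001/1000000)) (c : (1667/5000) ≤ n)
    (d : n ≤ (397/1000)) : ϱ ≤ 0.431 := by
  have c1 := mul_nonneg (sub_nonneg.2 a) (sub_nonneg.2 c)
  have c2 := mul_nonneg (sub_nonneg.2 a) (sub_nonneg.2 d)
  have c3 := mul_nonneg (sub_nonneg.2 b) (sub_nonneg.2 c)
  have c4 := mul_nonneg (sub_nonneg.2 b) (sub_nonneg.2 d)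
  have e7 := h.e7
  have e0 := h.e0
  have y1 := h.y1
  have y2 := h.y2
  have r0 := h.r0
  rcases h.f 2 2 (by norm_num) (by norm_num) (by linarith) with q | q
  · exact h.s 2 2 (by norm_num) (by norm_num) (by linarith) (by linarith) (by linarith)
  · exact h.s 2 2 (by norm_num) (by norm_num) (by linarith) (by linarith) (by linarith)

theorem leaf52 {ε x n r ϱ : ℝ} (h : Ctx ε x n r ϱ) (a : (3/10) ≤ x) (b : x ≤ (400001/1000000)) (c : (397/1000) ≤ n)
    (d : n ≤ (21/50)) : ϱ ≤ 0.431 := by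
  have c1 := mul_nonneg (sub_nonneg.2 a) (sub_nonneg.2 c)
  have c2 := mul_nonneg (sub_nonneg.2 a) (sub_nonneg.2 d)
  have c3 := mul_nonneg (sub_nonneg.2 b) (sub_nonneg.2 c)
  have c4 := mul_nonneg (sub_nonneg.2 b) (sub_nonneg.2 d)
  have e7 := h.e7
  have e0 := h.e0
  have y1 := h.y1
  have y2 := h.y2
  have r0 := h.r0
  rcases h.f 2 2 (by norm_num) (by norm_num) (by linarith) with q | q
  · exact h.s 1 1 (by norm_num) (by norm_num) (by linarith) (by linarith) (by linarith)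
  · exact h.s 1 1 (by norm_num) (by norm_num) (by linarith) (by linarith) (by linarith)

theorem leaf53 {ε x n r ϱ : ℝ} (h : Ctx ε x n r ϱ) (a : (3/10) ≤ x) (b : x ≤ (400001/1000000)) (c : (21/50) ≤ n)
    (d : n ≤ (1/2)) : ϱ ≤ 0.431 := by
  have c1 := mul_nonneg (sub_nonneg.2 a) (sub_nonneg.2 c)
  have c2 := mul_nonneg (sub_nonneg.2 a) (sub_nonneg.2 d)
  have c3 := mul_nonneg (sub_nonneg.2 b) (sub_nonneg.2 c)
  have c4 := mul_nonneg (sub_nonneg.2 b) (sub_nonneg.2 d)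
  have e7 := h.e7
  have e0 := h.e0
  have y1 := h.y1
  have y2 := h.y2
  have r0 := h.r0
  rcases h.f 2 2 (by norm_num) (by norm_num) (by linarith) with q | q
  · exact h.s 1 1 (by norm_num) (by norm_num) (by linarith) (by linarith) (by linarith)
  · exact h.s 1 1 (by norm_num) (by norm_num) (by linarith) (by linarith) (by linarith)

theorem leaf54 {ε x n r ϱ : ℝ} (h : Ctx ε x n r ϱ) (a : (3/10) ≤ x) (b : x ≤ (400001/1000000)) (c : (1/2) ≤ n)
    (d : n ≤ (33/50)) : ϱ ≤ 0.431 := by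
  have c1 := mul_nonneg (sub_nonneg.2 a) (sub_nonneg.2 c)
  have c2 := mul_nonneg (sub_nonneg.2 a) (sub_nonneg.2 d)
  have c3 := mul_nonneg (sub_nonneg.2 b) (sub_nonneg.2 c)
  have c4 := mul_nonneg (sub_nonneg.2 b) (sub_nonneg.2 d)
  have e7 := h.e7
  have e0 := h.e0
  have y1 := h.y1
  have y2 := h.y2
  have r0 := h.r0
  rcases h.f 2 2 (by norm_num) (by norm_num) (by linarith) with q | q
  · exact h.s 1 1 (by norm_num) (by norm_num) (by linarith) (by linarith) (by linarith)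
  · exact h.s 1 1 (by norm_num) (by norm_num) (by linarith) (by linarith) (by linarith)

theorem leaf55 {ε x n r ϱ : ℝ} (h : Ctx ε x n r ϱ) (a : (3/10) ≤ x) (b : x ≤ (400001/1000000)) (c : (33/50) ≤ n)
    (d : n ≤ (23/25)) : ϱ ≤ 0.431 := by
  have c1 := mul_nonneg (sub_nonneg.2 a) (sub_nonneg.2 c)
  have c2 := mul_nonneg (sub_nonneg.2 a) (sub_nonneg.2 d)
  have c3 := mul_nonneg (sub_nonneg.2 b) (sub_nonneg.2 c)
  have c4 := mul_nonneg (sub_nonneg.2 b) (sub_nonneg.2 d)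
  have e7 := h.e7
  have e0 := h.e0
  have y1 := h.y1
  have y2 := h.y2
  have r0 := h.r0
  rcases h.f 1 1 (by norm_num) (by norm_num) (by linarith) with q | q
  · exact h.s 1 1 (by norm_num) (by norm_num) (by linarith) (by linarith) (by linarith)
  · exact h.s 1 1 (by norm_num) (by norm_num) (by linarith) (by linarith) (by linarith)

theorem col0 {ε x n r ϱ : ℝ} (h : Ctx ε x n r ϱ) (hx0 : 0 ≤ x) (hx1 : x ≤ (329/2000))
    (hn0 : 89/500 ≤ n) : ϱ ≤ 0.431 := by
  have hn1 : n ≤ (1/2) := by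
    linarith [mul_nonneg (sub_nonneg.2 hx1) h.n0.le, h.y1, h.y2, h.e7]
  rcases le_total n (1/4) with u1 | u1
  · rcases le_total x (329/8000) with u2 | u2
    · exact leaf0 h hx0 u2 hn0 u1
    · exact leaf1 h u2 hx1 hn0 u1
  · rcases le_total n (333/1000) with u2 | u2
    · rcases le_total n (1249/4000) with u3 | u3
      · exact leaf2 h hx0 hx1 u1 u3
      · rcases le_total x (329/4000) with u4 | u4
        · exact leaf3 h hx0 u4 u3 u2
        · exact leaf4 h u4 hx1 u3 u2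
    · exact leaf5 h hx0 hx1 u2 hn1


theorem col1 {ε x n r ϱ : ℝ} (h : Ctx ε x n r ϱ) (hx0 : (329/2000) ≤ x) (hx1 : x ≤ (1/5))
    (hn0 : 89/500 ≤ n) : ϱ ≤ 0.431 := by
  have hn1 : n ≤ (31/50) := by
    linarith [mul_nonneg (sub_nonneg.2 hx1) h.n0.le, h.y1, h.y2, h.e7]
  rcases le_total n (333/1000) with u1 | u1
  · rcases le_total n (1/5) with u2 | u2
    · exact leaf6 h hx0 hx1 hn0 u2
    · rcases le_total n (1/4) with u3 | u3
      · exact leaf7 h hx0 hx1 u2 u3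
      · exact leaf8 h hx0 hx1 u3 u1
  · rcases le_total n (2/5) with u2 | u2
    · exact leaf9 h hx0 hx1 u1 u2
    · rcases le_total n (999/2000) with u3 | u3
      · exact leaf10 h hx0 hx1 u2 u3
      · exact leaf11 h hx0 hx1 u3 hn1


theorem col2 {ε x n r ϱ : ℝ} (h : Ctx ε x n r ϱ) (hx0 : (1/5) ≤ x) (hx1 : x ≤ (49/200))
    (hn0 : 89/500 ≤ n) : ϱ ≤ 0.431 := by
  have hn1 : n ≤ (31/50) := by
    linarith [mul_nonneg (sub_nonneg.2 hx1) h.n0.le, h.y1, h.y2, h.e7]
  rcases le_total n (333/1000) with u1 | u1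
  · rcases le_total n (1/5) with u2 | u2
    · exact leaf12 h hx0 hx1 hn0 u2
    · rcases le_total n (1/4) with u3 | u3
      · exact leaf13 h hx0 hx1 u2 u3
      · exact leaf14 h hx0 hx1 u3 u1
  · rcases le_total n (2/5) with u2 | u2
    · exact leaf15 h hx0 hx1 u1 u2
    · rcases le_total n (999/2000) with u3 | u3
      · exact leaf16 h hx0 hx1 u2 u3
      · exact leaf17 h hx0 hx1 u3 hn1


theorem col3 {ε x n r ϱ : ℝ} (h : Ctx ε x n r ϱ) (hx0 : (49/200) ≤ x) (hx1 : x ≤ (1/4))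
    (hn0 : 89/500 ≤ n) : ϱ ≤ 0.431 := by
  have hn1 : n ≤ (71/100) := by
    linarith [mul_nonneg (sub_nonneg.2 hx1) h.n0.le, h.y1, h.y2, h.e7]
  rcases le_total n (71/250) with u1 | u1
  · rcases le_total n (1/5) with u2 | u2
    · rcases le_total n (399/2000) with u3 | u3
      · exact leaf18 h hx0 hx1 hn0 u3
      · exact leaf19 h hx0 hx1 u3 u2
    · rcases le_total n (1/4) with u3 | u3
      · exact leaf20 h hx0 hx1 u2 u3
      · exact leaf21 h hx0 hx1 u3 u1
  · rcases le_total n (397/1000) with u2 | u2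
    · rcases le_total n (1667/5000) with u3 | u3
      · exact leaf22 h hx0 hx1 u1 u3
      · exact leaf23 h hx0 hx1 u3 u2
    · rcases le_total n (43/100) with u3 | u3
      · exact leaf24 h hx0 hx1 u2 u3
      · rcases le_total n (1/2) with u4 | u4
        · exact leaf25 h hx0 hx1 u3 u4
        · exact leaf26 h hx0 hx1 u4 hn1


theorem col4 {ε x n r ϱ : ℝ} (h : Ctx ε x n r ϱ) (hx0 : (1/4) ≤ x) (hx1 : x ≤ (53/200))
    (hn0 : 89/500 ≤ n) : ϱ ≤ 0.431 := by
  have hn1 : n ≤ (71/100) := by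
    linarith [mul_nonneg (sub_nonneg.2 hx1) h.n0.le, h.y1, h.y2, h.e7]
  rcases le_total n (71/250) with u1 | u1
  · rcases le_total n (1/5) with u2 | u2
    · rcases le_total n (399/2000) with u3 | u3
      · exact leaf27 h hx0 hx1 hn0 u3
      · exact leaf28 h hx0 hx1 u3 u2
    · rcases le_total n (1/4) with u3 | u3
      · exact leaf29 h hx0 hx1 u2 u3
      · exact leaf30 h hx0 hx1 u3 u1
  · rcases le_total n (397/1000) with u2 | u2
    · rcases le_total n (1667/5000) with u3 | u3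
      · exact leaf31 h hx0 hx1 u1 u3
      · exact leaf32 h hx0 hx1 u3 u2
    · rcases le_total n (43/100) with u3 | u3
      · exact leaf33 h hx0 hx1 u2 u3
      · rcases le_total n (1/2) with u4 | u4
        · exact leaf34 h hx0 hx1 u3 u4
        · exact leaf35 h hx0 hx1 u4 hn1


theorem col5 {ε x n r ϱ : ℝ} (h : Ctx ε x n r ϱ) (hx0 : (53/200) ≤ x) (hx1 : x ≤ (3/10))
    (hn0 : 89/500 ≤ n) : ϱ ≤ 0.431 := by
  have hn1 : n ≤ (23/25) := by
    linarith [mul_nonneg (sub_nonneg.2 hx1) h.n0.le, h.y1, h.y2, h.e7]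
  rcases le_total n (1667/5000) with u1 | u1
  · rcases le_total n (1/5) with u2 | u2
    · rcases le_total n (399/2000) with u3 | u3
      · exact leaf36 h hx0 hx1 hn0 u3
      · exact leaf37 h hx0 hx1 u3 u2
    · rcases le_total n (1/4) with u3 | u3
      · exact leaf38 h hx0 hx1 u2 u3
      · rcases le_total n (71/250) with u4 | u4
        · exact leaf39 h hx0 hx1 u3 u4
        · exact leaf40 h hx0 hx1 u4 u1
  · rcases le_total n (21/50) with u2 | u2
    · rcases le_total n (397/1000) with u3 | u3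
      · exact leaf41 h hx0 hx1 u1 u3
      · exact leaf42 h hx0 hx1 u3 u2
    · rcases le_total n (1/2) with u3 | u3
      · exact leaf43 h hx0 hx1 u2 u3
      · rcases le_total n (33/50) with u4 | u4
        · exact leaf44 h hx0 hx1 u3 u4
        · exact leaf45 h hx0 hx1 u4 hn1


theorem col6 {ε x n r ϱ : ℝ} (h : Ctx ε x n r ϱ) (hx0 : (3/10) ≤ x) (hx1 : x ≤ (400001/1000000))
    (hn0 : 89/500 ≤ n) : ϱ ≤ 0.431 := by
  have hn1 : n ≤ (23/25) := by
    linarith [mul_nonneg (sub_nonneg.2 hx1) h.n0.le, h.y1, h.y2, h.e7]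
  rcases le_total n (1667/5000) with u1 | u1
  · rcases le_total n (1/5) with u2 | u2
    · rcases le_total n (399/2000) with u3 | u3
      · exact leaf46 h hx0 hx1 hn0 u3
      · exact leaf47 h hx0 hx1 u3 u2
    · rcases le_total n (1/4) with u3 | u3
      · exact leaf48 h hx0 hx1 u2 u3
      · rcases le_total n (71/250) with u4 | u4
        · exact leaf49 h hx0 hx1 u3 u4
        · exact leaf50 h hx0 hx1 u4 u1
  · rcases le_total n (21/50) with u2 | u2
    · rcases le_total n (397/1000) with u3 | u3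
      · exact leaf51 h hx0 hx1 u1 u3
      · exact leaf52 h hx0 hx1 u3 u2
    · rcases le_total n (1/2) with u3 | u3
      · exact leaf53 h hx0 hx1 u2 u3
      · rcases le_total n (33/50) with u4 | u4
        · exact leaf54 h hx0 hx1 u3 u4
        · exact leaf55 h hx0 hx1 u4 hn1


theorem allcols {ε x n r ϱ : ℝ} (h : Ctx ε x n r ϱ) (hx1 : x ≤ (400001/1000000)) (hn0 : 89/500 ≤ n) : ϱ ≤ 0.431 := by
  have hx0 : 0 ≤ x := h.x0.le
  rcases le_total x (329/2000) with v0 | v0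
  · exact col0 h hx0 v0 hn0
  rcases le_total x (1/5) with v1 | v1
  · exact col1 h v0 v1 hn0
  rcases le_total x (49/200) with v2 | v2
  · exact col2 h v1 v2 hn0
  rcases le_total x (1/4) with v3 | v3
  · exact col3 h v2 v3 hn0
  rcases le_total x (53/200) with v4 | v4
  · exact col4 h v3 v4 hn0
  rcases le_total x (3/10) with v5 | v5
  · exact col5 h v4 v5 hn0
  exact col6 h v5 hx1 hn0

theorem smallN {ε x n r ϱ : ℝ} (e0 : 0 < ε) (e7 : ε ≤ 1 / 10 ^ 7) (ex : ε ≤ x / 10 ^ 5) (x0 : 0 < x)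
    (x4 : x ≤ 0.4 + ε) (n0 : 0 < n) (hn : n ≤ 89 / 500)
    (hf : ∀ k : ℕ, 1 ≤ k → (k : ℝ) ≤ 4 / n → r ≤ max (2 * x * (k * n)) (1 - k * n * (1 - 2 * x)) + ε)
    (hs : ∀ j : ℕ, 1 ≤ j → (j : ℝ) ≤ 4 / n → r + 2 * x * (j * n) ≤ 4 * x - ε →
      ϱ ≤ max (1 + r - 4 * x - j * n * (1 - 2 * x)) (4 * (1 + r - 4 * x - j * n * (1 - 2 * x)) - 1) + ε) :
    ϱ ≤ 0.431 := by
  set k := ⌈1 / n⌉₊ with hk
  have hk1 : 1 / n ≤ k := Nat.le_ceil _
  have hk2 : (k : ℝ) < 1 / n + 1 := Nat.ceil_lt_add_one (by positivity)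
  have hkn1 : 1 ≤ k * n := by
    rw [div_le_iff₀ n0] at hk1; exact hk1
  have hkn2 : k * n < 1 + n := by
    have := mul_lt_mul_of_pos_right hk2 n0
    rw [add_mul, div_mul_cancel₀ _ n0.ne'] at this
    linarith
  have hkpos : 1 ≤ k := by
    rcases Nat.eq_zero_or_pos k with h | h
    · rw [h] at hkn1; norm_num at hkn1
    · exact h
  set m := ⌊1999 / 1000 / n⌋₊ with hm
  have hm1 : (m : ℝ) ≤ 1999 / 1000 / n := Nat.floor_le (by positivity)
  have hm2 : 1999 / 1000 / n < (m : ℝ) + 1 := Nat.lt_floor_add_one _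
  have hmn1 : m * n ≤ 1999 / 1000 := by
    rw [le_div_iff₀ n0] at hm1; exact hm1
  have hmn2 : 1999 / 1000 < m * n + n := by
    rw [div_lt_iff₀ n0] at hm2; linarith
  have hkm : k < m := by
    by_contra hcon
    push Not at hcon
    have : (m : ℝ) ≤ k := by exact_mod_cast hcon
    have := mul_le_mul_of_nonneg_right this n0.le
    linarith
  obtain ⟨j, hj⟩ : ∃ j, m = k + j := ⟨m - k, by omega⟩
  have hj1 : 1 ≤ j := by omega
  have hjn : (j : ℝ) * n = m * n - k * n := by rw [hj]; push_cast; ring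
  have hr : r ≤ 2 * x * (k * n) + ε := by
    have h1 := hf k hkpos (by rw [le_div_iff₀ n0]; linarith)
    refine h1.trans ?_
    have h2 : max (2 * x * (k * n)) (1 - k * n * (1 - 2 * x)) ≤ 2 * x * (k * n) := by
      refine max_le le_rfl ?_
      nlinarith
    linarith
  have h3 := hs j hj1 (by rw [le_div_iff₀ n0]; linarith) (by
    rw [hjn]
    nlinarith)
  refine h3.trans ?_
  have hw : 1 + r - 4 * x - j * n * (1 - 2 * x) ≤ 3576 / 10000 := by
    rw [hjn]
    nlinarith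
  have : max (1 + r - 4 * x - j * n * (1 - 2 * x)) (4 * (1 + r - 4 * x - j * n * (1 - 2 * x)) - 1) ≤
      4304 / 10000 := by
    refine max_le (by linarith) (by linarith)
  exact (add_le_add this e7).trans (by norm_num)

theorem numeric : Numeric := by
  intro ε0 hε0 hε01 ε x n r ϱ e0 eε xε x4 n0 hy hf hg r0 hs he
  have e7 : ε ≤ 1 / 10 ^ 7 := by norm_num at *; linarith
  have ex : ε ≤ x / 10 ^ 5 := by
    refine eε.trans ?_
    exact div_le_div_of_nonneg_right xε (by norm_num)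
  have x0 : 0 < x := by linarith
  have x4' : x ≤ 400001 / 1000000 := by norm_num at *; linarith
  rcases le_total n (89 / 500) with hn | hn
  · exact smallN e0 e7 ex x0 x4 n0 hn hf hs
  have hctx : Ctx ε x n r ϱ := by
    refine ⟨e0, e7, x0, n0, ?_, ?_, r0, ?_, ?_, ?_, ?_, ?_⟩
    · have h1 : n - ε ≤ (1 / 3) / (1 - 2 * x) := by
        have := min_le_left ((1 / 3 : ℝ) / (1 - 2 * x)) ((2 / 7) / (5 / 7 - x))
        unfold yy at hy
        linarith
      have hpos : 0 < 1 - 2 * x := by linarith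
      rw [le_div_iff₀ hpos] at h1
      nlinarith
    · have h1 : n - ε ≤ (2 / 7) / (5 / 7 - x) := by
        have := min_le_right ((1 / 3 : ℝ) / (1 - 2 * x)) ((2 / 7) / (5 / 7 - x))
        unfold yy at hy
        linarith
      have hpos : 0 < 5 / 7 - x := by linarith
      rw [le_div_iff₀ hpos] at h1
      nlinarith
    · intro k K hK hk hkn
      have h1 := hf k hk (by rw [le_div_iff₀ n0, hK]; exact hkn)
      rw [hK] at h1
      rcases max_cases (2 * x * (K * n)) (1 - K * n * (1 - 2 * x)) with h | h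
      · rw [h.1] at h1; left; linarith
      · rw [h.1] at h1; right; linarith
    · intro k K hK hk hkn
      have h1 := hg k hk (by rw [le_div_iff₀ n0, hK]; exact hkn)
      rw [hK] at h1
      rcases max_cases (2 * x * (K * n)) (1 - K * n * (2 - 6 * x)) with h | h
      · rw [h.1] at h1; left; linarith
      · rw [h.1] at h1; right; linarith
    · intro j J hJ hj hjn h1 h2
      have h3 := hs j hj (by rw [le_div_iff₀ n0, hJ]; exact hjn) (by rw [hJ]; linarith)
      rw [hJ] at h3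
      have : max (1 + r - 4 * x - J * n * (1 - 2 * x)) (4 * (1 + r - 4 * x - J * n * (1 - 2 * x)) - 1) ≤
          4304 / 10000 := max_le (by linarith) (by linarith)
      exact h3.trans ((add_le_add this e7).trans (by norm_num))
    · intro j J hJ hj hjn h1 h2
      have h3 := he j hj (by rw [le_div_iff₀ n0, hJ]; exact hjn)
      rw [hJ] at h3
      have : 1 - 8 * x + max (4 * x * (J * n) + r) (1 + 2 * r - (2 - 4 * x) * (J * n)) ≤ 4308 / 10000 := by
        have : max (4 * x * (J * n) + r) (1 + 2 * r - (2 - 4 * x) * (J * n)) ≤ 4308 / 10000 - 1 + 8 * x :=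
          max_le (by linarith) (by linarith)
        linarith
      exact h3.trans ((add_le_add this e7).trans (by norm_num))
    · intro k K hK hk hkn h2
      have h1 := hg k hk (by rw [le_div_iff₀ n0, hK]; linarith)
      rw [hK] at h1
      have hKx : x * (K * n) ≤ x * (999 / 1000) := mul_le_mul_of_nonneg_left hkn x0.le
      norm_num at *
      rcases max_cases (2 * x * (K * n)) (1 - K * n * (2 - 6 * x)) with h | h
      · rw [h.1] at h1; linarith
      · rw [h.1] at h1; linarith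
  exact allcols hctx x4' hn

end Pool.Agent.Helper65.KC
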