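import Pool.Agent.Helper60.KS.StG
import Pool.Agent.Helper65.KC.Numeric

/-! KG-2 : instances of `NumericG`. The case distinction was found by computer
(rectangles in the `(x,n)` plane); every leaf is linear in `x, n, x*n, r, ε`. -/

set_option autoImplicit false
set_option maxHeartbeats 4000000

namespace Pool.Agent.Helper65.KC

open Pool.Agent.Helper60.KS

structure CtxG (κ ρ0 ε x n r ϱ : ℝ) : Prop where
  e0 : 0 < ε
  e7 : ε ≤ 1 / 10 ^ 7
  x0 : 0 < x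
  n0 : 0 < n
  y1 : n - 2 * (x * n) ≤ 1 / 3 + ε
  y2 : 5 / 7 * n - x * n ≤ 2 / 7 + ε
  r0 : κ * x - ε ≤ r
  f : ∀ (k : ℕ) (K : ℝ), (k : ℝ) = K → 1 ≤ k → K * n ≤ 4 →
    r ≤ 2 * K * (x * n) + ε ∨ r ≤ 1 - K * n + 2 * K * (x * n) + ε
  g : ∀ (k : ℕ) (K : ℝ), (k : ℝ) = K → 1 ≤ k → K * n ≤ 4 →
    r ≤ 2 * K * (x * n) + ε ∨ r ≤ 1 - 2 * K * n + 6 * K * (x * n) + ε
  s : ∀ (j : ℕ) (J : ℝ), (j : ℝ) = J → 1 ≤ j → J * n ≤ 4 → r + 2 * J * (x * n) ≤ 2 * κ * x - ε →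
    1 + r - 2 * κ * x - J * n + 2 * J * (x * n) ≤ ρ0 - 1 / 10 ^ 6 → ϱ ≤ ρ0
  e : ∀ (j : ℕ) (J : ℝ), (j : ℝ) = J → 1 ≤ j → J * n ≤ 4 →
    1 - 4 * κ * x + 4 * J * (x * n) + r ≤ ρ0 - 1 / 10 ^ 6 →
    2 - 4 * κ * x + 2 * r - 2 * J * n + 4 * J * (x * n) ≤ ρ0 - 1 / 10 ^ 6 → ϱ ≤ ρ0
  p : ∀ (k : ℕ) (K : ℝ), (k : ℝ) = K → 1 ≤ k → K * n ≤ κ / 2 - 1 / 1000 →
    1 - κ * x + 1 / 10 ^ 6 ≤ 2 * K * n - 6 * K * (x * n) → False
  q : ∀ (k : ℕ) (K : ℝ), (k : ℝ) = K → 1 ≤ k → K * n ≤ κ / 2 - 1 / 1000 →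
    1 - κ * x + 1 / 10 ^ 6 ≤ K * n - 2 * K * (x * n) → False

theorem smallG {κ ε x n r : ℝ} (e0 : 0 < ε) (ex : ε ≤ x / 10 ^ 5) (x0 : 0 < x)
    (x4 : x ≤ 0.4 + ε) (n0 : 0 < n) (hn3 : n ≤ 3) (hn : n ≤ κ / 2 - 1 - 1 / 1000)
    (hf : ∀ k : ℕ, 1 ≤ k → (k : ℝ) ≤ 4 / n → r ≤ max (2 * x * (k * n)) (1 - k * n * (1 - 2 * x)) + ε)
    (r0 : κ * x - ε ≤ r) : False := by
  set k := ⌈1 / n⌉₊ with hk
  have hk1 : 1 / n ≤ k := Nat.le_ceil _
  have hk2 : (k : ℝ) < 1 / n + 1 := Nat.ceil_lt_add_one (by positivity)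
  have hkn1 : 1 ≤ k * n := by
    rw [div_le_iff₀ n0] at hk1; exact hk1
  have hkn2 : k * n < 1 + n := by
    have := mul_lt_mul_of_pos_right hk2 n0
    rw [add_mul, div_mul_cancel₀ _ n0.ne'] at this
    linarith
  have hkpos : 1 ≤ k := by
    rcases Nat.eq_zero_or_pos k with h | h
    · rw [h] at hkn1; norm_num at hkn1
    · exact h
  have h1 := hf k hkpos (by rw [le_div_iff₀ n0]; linarith)
  have h2 : max (2 * x * (k * n)) (1 - k * n * (1 - 2 * x)) ≤ 2 * x * (k * n) := by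
    refine max_le le_rfl ?_
    nlinarith
  have h3 : x * (k * n) ≤ x * (κ / 2 - 1 / 1000) := mul_le_mul_of_nonneg_left (by linarith) x0.le
  have h4 : κ * x - ε ≤ 2 * (x * (k * n)) + ε := by
    refine r0.trans (h1.trans ?_)
    have : 2 * x * (k * n) = 2 * (x * (k * n)) := by ring
    linarith
  have h5 : x * (κ / 2 - 1 / 1000) = κ * x / 2 - x / 1000 := by ring
  norm_num at ex
  linarith

theorem mkCtxG {κ ρ0 ε x n r ϱ : ℝ} (hκ : 2 ≤ κ) (hκ3 : κ ≤ 3) (hρ : ρ0 ≤ 1 / 3) (e0 : 0 < ε) (e7 : ε ≤ 1 / 10 ^ 7)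
    (ex : ε ≤ x / 10 ^ 5) (x0 : 0 < x) (x4' : x ≤ 400001 / 1000000) (n0 : 0 < n) (hy : n ≤ yy x + ε)
    (hf : ∀ k : ℕ, 1 ≤ k → (k : ℝ) ≤ 4 / n → r ≤ max (2 * x * (k * n)) (1 - k * n * (1 - 2 * x)) + ε)
    (hg : ∀ k : ℕ, 1 ≤ k → (k : ℝ) ≤ 4 / n → r ≤ max (2 * x * (k * n)) (1 - k * n * (2 - 6 * x)) + ε)
    (r0 : κ * x - ε ≤ r)
    (hs : ∀ j : ℕ, 1 ≤ j → (j : ℝ) ≤ 4 / n → r + 2 * x * (j * n) ≤ 2 * κ * x - ε →
      ϱ ≤ max (1 + r - 2 * κ * x - j * n * (1 - 2 * x)) (4 * (1 + r - 2 * κ * x - j * n * (1 - 2 * x)) - 1) + ε)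
    (he : ∀ j : ℕ, 1 ≤ j → (j : ℝ) ≤ 4 / n →
      ϱ ≤ 1 - 4 * κ * x + max (4 * x * (j * n) + r) (1 + 2 * r - (2 - 4 * x) * (j * n)) + ε) :
    CtxG κ ρ0 ε x n r ϱ := by
  have e7' : ε ≤ 1 / 10 ^ 6 := e7.trans (by norm_num)
  refine ⟨e0, e7, x0, n0, ?_, ?_, r0, ?_, ?_, ?_, ?_, ?_, ?_⟩
  · have h1 : n - ε ≤ (1 / 3) / (1 - 2 * x) := by
      have := min_le_left ((1 / 3 : ℝ) / (1 - 2 * x)) ((2 / 7) / (5 / 7 - x))
      unfold yy at hy
      linarith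
    have hpos : 0 < 1 - 2 * x := by linarith
    rw [le_div_iff₀ hpos] at h1
    nlinarith
  · have h1 : n - ε ≤ (2 / 7) / (5 / 7 - x) := by
      have := min_le_right ((1 / 3 : ℝ) / (1 - 2 * x)) ((2 / 7) / (5 / 7 - x))
      unfold yy at hy
      linarith
    have hpos : 0 < 5 / 7 - x := by linarith
    rw [le_div_iff₀ hpos] at h1
    nlinarith
  · intro k K hK hk hkn
    have h1 := hf k hk (by rw [le_div_iff₀ n0, hK]; exact hkn)
    rw [hK] at h1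
    rcases max_cases (2 * x * (K * n)) (1 - K * n * (1 - 2 * x)) with h | h
    · rw [h.1] at h1; left; linarith
    · rw [h.1] at h1; right; linarith
  · intro k K hK hk hkn
    have h1 := hg k hk (by rw [le_div_iff₀ n0, hK]; exact hkn)
    rw [hK] at h1
    rcases max_cases (2 * x * (K * n)) (1 - K * n * (2 - 6 * x)) with h | h
    · rw [h.1] at h1; left; linarith
    · rw [h.1] at h1; right; linarith
  · intro j J hJ hj hjn h1 h2
    have h3 := hs j hj (by rw [le_div_iff₀ n0, hJ]; exact hjn) (by rw [hJ]; linarith)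
    rw [hJ] at h3
    have : max (1 + r - 2 * κ * x - J * n * (1 - 2 * x)) (4 * (1 + r - 2 * κ * x - J * n * (1 - 2 * x)) - 1) ≤
        ρ0 - 1 / 10 ^ 6 := max_le (by linarith) (by linarith)
    linarith
  · intro j J hJ hj hjn h1 h2
    have h3 := he j hj (by rw [le_div_iff₀ n0, hJ]; exact hjn)
    rw [hJ] at h3
    have : max (4 * x * (J * n) + r) (1 + 2 * r - (2 - 4 * x) * (J * n)) ≤ ρ0 - 1 / 10 ^ 6 - 1 + 4 * κ * x :=
      max_le (by linarith) (by linarith)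
    linarith
  · intro k K hK hk hkn h2
    have h1 := hg k hk (by rw [le_div_iff₀ n0, hK]; linarith)
    rw [hK] at h1
    have hKx : x * (K * n) ≤ x * (κ / 2 - 1 / 1000) := mul_le_mul_of_nonneg_left hkn x0.le
    have h5 : x * (κ / 2 - 1 / 1000) = κ * x / 2 - x / 1000 := by ring
    norm_num at *
    rcases max_cases (2 * x * (K * n)) (1 - K * n * (2 - 6 * x)) with h | h
    · rw [h.1] at h1; linarith
    · rw [h.1] at h1; linarith
  · intro k K hK hk hkn h2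
    have h1 := hf k hk (by rw [le_div_iff₀ n0, hK]; linarith)
    rw [hK] at h1
    have hKx : x * (K * n) ≤ x * (κ / 2 - 1 / 1000) := mul_le_mul_of_nonneg_left hkn x0.le
    have h5 : x * (κ / 2 - 1 / 1000) = κ * x / 2 - x / 1000 := by ring
    norm_num at *
    rcases max_cases (2 * x * (K * n)) (1 - K * n * (1 - 2 * x)) with h | h
    · rw [h.1] at h1; linarith
    · rw [h.1] at h1; linarith

theorem leafA0 {ε x n r ϱ : ℝ} (h : CtxG (25/11) 0.195 ε x n r ϱ) (a : 0 ≤ x) (b : x ≤ (1/10))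
    (c : (27/200) ≤ n) (d : n ≤ (1667/10000)) : ϱ ≤ 0.195 := by
  have c1 := mul_nonneg (sub_nonneg.2 a) (sub_nonneg.2 c)
  have c2 := mul_nonneg (sub_nonneg.2 a) (sub_nonneg.2 d)
  have c3 := mul_nonneg (sub_nonneg.2 b) (sub_nonneg.2 c)
  have c4 := mul_nonneg (sub_nonneg.2 b) (sub_nonneg.2 d)
  have e7 := h.e7
  have e0 := h.e0
  have y1 := h.y1
  have y2 := h.y2
  have r0 := h.r0
  exact (h.p 5 5 (by norm_num) (by norm_num) (by linarith) (by linarith)).elim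

theorem leafA1 {ε x n r ϱ : ℝ} (h : CtxG (25/11) 0.195 ε x n r ϱ) (a : 0 ≤ x) (b : x ≤ (1/10))
    (c : (1667/10000) ≤ n) (d : n ≤ (1/5)) : ϱ ≤ 0.195 := by
  have c1 := mul_nonneg (sub_nonneg.2 a) (sub_nonneg.2 c)
  have c2 := mul_nonneg (sub_nonneg.2 a) (sub_nonneg.2 d)
  have c3 := mul_nonneg (sub_nonneg.2 b) (sub_nonneg.2 c)
  have c4 := mul_nonneg (sub_nonneg.2 b) (sub_nonneg.2 d)
  have e7 := h.e7
  have e0 := h.e0
  have y1 := h.y1
  have y2 := h.y2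
  have r0 := h.r0
  exact (h.p 4 4 (by norm_num) (by norm_num) (by linarith) (by linarith)).elim

theorem leafA2 {ε x n r ϱ : ℝ} (h : CtxG (25/11) 0.195 ε x n r ϱ) (a : 0 ≤ x) (b : x ≤ (1/10))
    (c : (1/5) ≤ n) (d : n ≤ (1/4)) : ϱ ≤ 0.195 := by
  have c1 := mul_nonneg (sub_nonneg.2 a) (sub_nonneg.2 c)
  have c2 := mul_nonneg (sub_nonneg.2 a) (sub_nonneg.2 d)
  have c3 := mul_nonneg (sub_nonneg.2 b) (sub_nonneg.2 c)
  have c4 := mul_nonneg (sub_nonneg.2 b) (sub_nonneg.2 d)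
  have e7 := h.e7
  have e0 := h.e0
  have y1 := h.y1
  have y2 := h.y2
  have r0 := h.r0
  exact (h.p 3 3 (by norm_num) (by norm_num) (by linarith) (by linarith)).elim

theorem leafA3 {ε x n r ϱ : ℝ} (h : CtxG (25/11) 0.195 ε x n r ϱ) (a : 0 ≤ x) (b : x ≤ (1/10))
    (c : (1/4) ≤ n) (d : n ≤ (71/250)) : ϱ ≤ 0.195 := by
  have c1 := mul_nonneg (sub_nonneg.2 a) (sub_nonneg.2 c)
  have c2 := mul_nonneg (sub_nonneg.2 a) (sub_nonneg.2 d)
  have c3 := mul_nonneg (sub_nonneg.2 b) (sub_nonneg.2 c)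
  have c4 := mul_nonneg (sub_nonneg.2 b) (sub_nonneg.2 d)
  have e7 := h.e7
  have e0 := h.e0
  have y1 := h.y1
  have y2 := h.y2
  have r0 := h.r0
  exact (h.p 3 3 (by norm_num) (by norm_num) (by linarith) (by linarith)).elim

theorem leafA4 {ε x n r ϱ : ℝ} (h : CtxG (25/11) 0.195 ε x n r ϱ) (a : 0 ≤ x) (b : x ≤ (1/10))
    (c : (71/250) ≤ n) (d : n ≤ (1667/5000)) : ϱ ≤ 0.195 := by
  have c1 := mul_nonneg (sub_nonneg.2 a) (sub_nonneg.2 c)
  have c2 := mul_nonneg (sub_nonneg.2 a) (sub_nonneg.2 d)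
  have c3 := mul_nonneg (sub_nonneg.2 b) (sub_nonneg.2 c)
  have c4 := mul_nonneg (sub_nonneg.2 b) (sub_nonneg.2 d)
  have e7 := h.e7
  have e0 := h.e0
  have y1 := h.y1
  have y2 := h.y2
  have r0 := h.r0
  exact (h.p 2 2 (by norm_num) (by norm_num) (by linarith) (by linarith)).elim

theorem leafA5 {ε x n r ϱ : ℝ} (h : CtxG (25/11) 0.195 ε x n r ϱ) (a : 0 ≤ x) (b : x ≤ (1/10))
    (c : (1667/5000) ≤ n) (d : n ≤ (209/500)) : ϱ ≤ 0.195 := by
  have c1 := mul_nonneg (sub_nonneg.2 a) (sub_nonneg.2 c)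
  have c2 := mul_nonneg (sub_nonneg.2 a) (sub_nonneg.2 d)
  have c3 := mul_nonneg (sub_nonneg.2 b) (sub_nonneg.2 c)
  have c4 := mul_nonneg (sub_nonneg.2 b) (sub_nonneg.2 d)
  have e7 := h.e7
  have e0 := h.e0
  have y1 := h.y1
  have y2 := h.y2
  have r0 := h.r0
  exact (h.p 2 2 (by norm_num) (by norm_num) (by linarith) (by linarith)).elim

theorem leafA6 {ε x n r ϱ : ℝ} (h : CtxG (25/11) 0.195 ε x n r ϱ) (a : (1/10) ≤ x) (b : x ≤ (1/5))
    (c : (27/200) ≤ n) (d : n ≤ (1667/10000)) : ϱ ≤ 0.195 := by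
  have c1 := mul_nonneg (sub_nonneg.2 a) (sub_nonneg.2 c)
  have c2 := mul_nonneg (sub_nonneg.2 a) (sub_nonneg.2 d)
  have c3 := mul_nonneg (sub_nonneg.2 b) (sub_nonneg.2 c)
  have c4 := mul_nonneg (sub_nonneg.2 b) (sub_nonneg.2 d)
  have e7 := h.e7
  have e0 := h.e0
  have y1 := h.y1
  have y2 := h.y2
  have r0 := h.r0
  exact (h.p 6 6 (by norm_num) (by norm_num) (by linarith) (by linarith)).elim

theorem leafA7 {ε x n r ϱ : ℝ} (h : CtxG (25/11) 0.195 ε x n r ϱ) (a : (1/10) ≤ x) (b : x ≤ (1/5))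
    (c : (1667/10000) ≤ n) (d : n ≤ (1/5)) : ϱ ≤ 0.195 := by
  have c1 := mul_nonneg (sub_nonneg.2 a) (sub_nonneg.2 c)
  have c2 := mul_nonneg (sub_nonneg.2 a) (sub_nonneg.2 d)
  have c3 := mul_nonneg (sub_nonneg.2 b) (sub_nonneg.2 c)
  have c4 := mul_nonneg (sub_nonneg.2 b) (sub_nonneg.2 d)
  have e7 := h.e7
  have e0 := h.e0
  have y1 := h.y1
  have y2 := h.y2
  have r0 := h.r0
  exact (h.p 5 5 (by norm_num) (by norm_num) (by linarith) (by linarith)).elim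

theorem leafA8 {ε x n r ϱ : ℝ} (h : CtxG (25/11) 0.195 ε x n r ϱ) (a : (1/10) ≤ x) (b : x ≤ (1/5))
    (c : (1/5) ≤ n) (d : n ≤ (1/4)) : ϱ ≤ 0.195 := by
  have c1 := mul_nonneg (sub_nonneg.2 a) (sub_nonneg.2 c)
  have c2 := mul_nonneg (sub_nonneg.2 a) (sub_nonneg.2 d)
  have c3 := mul_nonneg (sub_nonneg.2 b) (sub_nonneg.2 c)
  have c4 := mul_nonneg (sub_nonneg.2 b) (sub_nonneg.2 d)
  have e7 := h.e7
  have e0 := h.e0
  have y1 := h.y1
  have y2 := h.y2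
  have r0 := h.r0
  exact (h.p 4 4 (by norm_num) (by norm_num) (by linarith) (by linarith)).elim

theorem leafA9 {ε x n r ϱ : ℝ} (h : CtxG (25/11) 0.195 ε x n r ϱ) (a : (1/10) ≤ x) (b : x ≤ (1/5))
    (c : (1/4) ≤ n) (d : n ≤ (71/250)) : ϱ ≤ 0.195 := by
  have c1 := mul_nonneg (sub_nonneg.2 a) (sub_nonneg.2 c)
  have c2 := mul_nonneg (sub_nonneg.2 a) (sub_nonneg.2 d)
  have c3 := mul_nonneg (sub_nonneg.2 b) (sub_nonneg.2 c)
  have c4 := mul_nonneg (sub_nonneg.2 b) (sub_nonneg.2 d)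
  have e7 := h.e7
  have e0 := h.e0
  have y1 := h.y1
  have y2 := h.y2
  have r0 := h.r0
  exact (h.p 3 3 (by norm_num) (by norm_num) (by linarith) (by linarith)).elim

theorem leafA10 {ε x n r ϱ : ℝ} (h : CtxG (25/11) 0.195 ε x n r ϱ) (a : (1/10) ≤ x) (b : x ≤ (1/5))
    (c : (71/250) ≤ n) (d : n ≤ (1667/5000)) : ϱ ≤ 0.195 := by
  have c1 := mul_nonneg (sub_nonneg.2 a) (sub_nonneg.2 c)
  have c2 := mul_nonneg (sub_nonneg.2 a) (sub_nonneg.2 d)
  have c3 := mul_nonneg (sub_nonneg.2 b) (sub_nonneg.2 c)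
  have c4 := mul_nonneg (sub_nonneg.2 b) (sub_nonneg.2 d)
  have e7 := h.e7
  have e0 := h.e0
  have y1 := h.y1
  have y2 := h.y2
  have r0 := h.r0
  exact (h.p 3 3 (by norm_num) (by norm_num) (by linarith) (by linarith)).elim

theorem leafA11 {ε x n r ϱ : ℝ} (h : CtxG (25/11) 0.195 ε x n r ϱ) (a : (1/10) ≤ x) (b : x ≤ (1/5))
    (c : (1667/5000) ≤ n) (d : n ≤ (2/5)) : ϱ ≤ 0.195 := by
  have c1 := mul_nonneg (sub_nonneg.2 a) (sub_nonneg.2 c)
  have c2 := mul_nonneg (sub_nonneg.2 a) (sub_nonneg.2 d)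
  have c3 := mul_nonneg (sub_nonneg.2 b) (sub_nonneg.2 c)
  have c4 := mul_nonneg (sub_nonneg.2 b) (sub_nonneg.2 d)
  have e7 := h.e7
  have e0 := h.e0
  have y1 := h.y1
  have y2 := h.y2
  have r0 := h.r0
  rcases h.g 2 2 (by norm_num) (by norm_num) (by linarith) with q | q
  · exfalso
    linarith
  · exact h.s 2 2 (by norm_num) (by norm_num) (by linarith) (by linarith) (by linarith)

theorem leafA12 {ε x n r ϱ : ℝ} (h : CtxG (25/11) 0.195 ε x n r ϱ) (a : (1/10) ≤ x) (b : x ≤ (1/5))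
    (c : (2/5) ≤ n) (d : n ≤ (1/2)) : ϱ ≤ 0.195 := by
  have c1 := mul_nonneg (sub_nonneg.2 a) (sub_nonneg.2 c)
  have c2 := mul_nonneg (sub_nonneg.2 a) (sub_nonneg.2 d)
  have c3 := mul_nonneg (sub_nonneg.2 b) (sub_nonneg.2 c)
  have c4 := mul_nonneg (sub_nonneg.2 b) (sub_nonneg.2 d)
  have e7 := h.e7
  have e0 := h.e0
  have y1 := h.y1
  have y2 := h.y2
  have r0 := h.r0
  exact (h.p 2 2 (by norm_num) (by norm_num) (by linarith) (by linarith)).elim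

theorem leafA13 {ε x n r ϱ : ℝ} (h : CtxG (25/11) 0.195 ε x n r ϱ) (a : (1/10) ≤ x) (b : x ≤ (1/5))
    (c : (1/2) ≤ n) (d : n ≤ (557/1000)) : ϱ ≤ 0.195 := by
  have c1 := mul_nonneg (sub_nonneg.2 a) (sub_nonneg.2 c)
  have c2 := mul_nonneg (sub_nonneg.2 a) (sub_nonneg.2 d)
  have c3 := mul_nonneg (sub_nonneg.2 b) (sub_nonneg.2 c)
  have c4 := mul_nonneg (sub_nonneg.2 b) (sub_nonneg.2 d)
  have e7 := h.e7
  have e0 := h.e0
  have y1 := h.y1
  have y2 := h.y2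
  have r0 := h.r0
  exact (h.p 2 2 (by norm_num) (by norm_num) (by linarith) (by linarith)).elim

theorem leafA14 {ε x n r ϱ : ℝ} (h : CtxG (25/11) 0.195 ε x n r ϱ) (a : (1/5) ≤ x) (b : x ≤ (49/200))
    (c : (27/200) ≤ n) (d : n ≤ (1667/10000)) : ϱ ≤ 0.195 := by
  have c1 := mul_nonneg (sub_nonneg.2 a) (sub_nonneg.2 c)
  have c2 := mul_nonneg (sub_nonneg.2 a) (sub_nonneg.2 d)
  have c3 := mul_nonneg (sub_nonneg.2 b) (sub_nonneg.2 c)
  have c4 := mul_nonneg (sub_nonneg.2 b) (sub_nonneg.2 d)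
  have e7 := h.e7
  have e0 := h.e0
  have y1 := h.y1
  have y2 := h.y2
  have r0 := h.r0
  rcases h.g 5 5 (by norm_num) (by norm_num) (by linarith) with q | q
  · exfalso
    linarith
  · exact h.s 5 5 (by norm_num) (by norm_num) (by linarith) (by linarith) (by linarith)

theorem leafA15 {ε x n r ϱ : ℝ} (h : CtxG (25/11) 0.195 ε x n r ϱ) (a : (1/5) ≤ x) (b : x ≤ (49/200))
    (c : (1667/10000) ≤ n) (d : n ≤ (1/5)) : ϱ ≤ 0.195 := by
  have c1 := mul_nonneg (sub_nonneg.2 a) (sub_nonneg.2 c)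
  have c2 := mul_nonneg (sub_nonneg.2 a) (sub_nonneg.2 d)
  have c3 := mul_nonneg (sub_nonneg.2 b) (sub_nonneg.2 c)
  have c4 := mul_nonneg (sub_nonneg.2 b) (sub_nonneg.2 d)
  have e7 := h.e7
  have e0 := h.e0
  have y1 := h.y1
  have y2 := h.y2
  have r0 := h.r0
  rcases h.g 4 4 (by norm_num) (by norm_num) (by linarith) with q | q
  · exfalso
    linarith
  · exact h.s 4 4 (by norm_num) (by norm_num) (by linarith) (by linarith) (by linarith)

theorem leafA16 {ε x n r ϱ : ℝ} (h : CtxG (25/11) 0.195 ε x n r ϱ) (a : (1/5) ≤ x) (b : x ≤ (49/200))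
    (c : (1/5) ≤ n) (d : n ≤ (1/4)) : ϱ ≤ 0.195 := by
  have c1 := mul_nonneg (sub_nonneg.2 a) (sub_nonneg.2 c)
  have c2 := mul_nonneg (sub_nonneg.2 a) (sub_nonneg.2 d)
  have c3 := mul_nonneg (sub_nonneg.2 b) (sub_nonneg.2 c)
  have c4 := mul_nonneg (sub_nonneg.2 b) (sub_nonneg.2 d)
  have e7 := h.e7
  have e0 := h.e0
  have y1 := h.y1
  have y2 := h.y2
  have r0 := h.r0
  rcases h.g 3 3 (by norm_num) (by norm_num) (by linarith) with q | q
  · exfalso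
    linarith
  · exact h.s 4 4 (by norm_num) (by norm_num) (by linarith) (by linarith) (by linarith)

theorem leafA17 {ε x n r ϱ : ℝ} (h : CtxG (25/11) 0.195 ε x n r ϱ) (a : (1/5) ≤ x) (b : x ≤ (49/200))
    (c : (1/4) ≤ n) (d : n ≤ (71/250)) : ϱ ≤ 0.195 := by
  have c1 := mul_nonneg (sub_nonneg.2 a) (sub_nonneg.2 c)
  have c2 := mul_nonneg (sub_nonneg.2 a) (sub_nonneg.2 d)
  have c3 := mul_nonneg (sub_nonneg.2 b) (sub_nonneg.2 c)
  have c4 := mul_nonneg (sub_nonneg.2 b) (sub_nonneg.2 d)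
  have e7 := h.e7
  have e0 := h.e0
  have y1 := h.y1
  have y2 := h.y2
  have r0 := h.r0
  rcases h.f 3 3 (by norm_num) (by norm_num) (by linarith) with q | q
  · exfalso
    linarith
  · exact h.s 3 3 (by norm_num) (by norm_num) (by linarith) (by linarith) (by linarith)

theorem leafA18 {ε x n r ϱ : ℝ} (h : CtxG (25/11) 0.195 ε x n r ϱ) (a : (1/5) ≤ x) (b : x ≤ (49/200))
    (c : (71/250) ≤ n) (d : n ≤ (1667/5000)) : ϱ ≤ 0.195 := by
  have c1 := mul_nonneg (sub_nonneg.2 a) (sub_nonneg.2 c)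
  have c2 := mul_nonneg (sub_nonneg.2 a) (sub_nonneg.2 d)
  have c3 := mul_nonneg (sub_nonneg.2 b) (sub_nonneg.2 c)
  have c4 := mul_nonneg (sub_nonneg.2 b) (sub_nonneg.2 d)
  have e7 := h.e7
  have e0 := h.e0
  have y1 := h.y1
  have y2 := h.y2
  have r0 := h.r0
  exact (h.p 3 3 (by norm_num) (by norm_num) (by linarith) (by linarith)).elim

theorem leafA19 {ε x n r ϱ : ℝ} (h : CtxG (25/11) 0.195 ε x n r ϱ) (a : (1/5) ≤ x) (b : x ≤ (49/200))
    (c : (1667/5000) ≤ n) (d : n ≤ (2/5)) : ϱ ≤ 0.195 := by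
  have c1 := mul_nonneg (sub_nonneg.2 a) (sub_nonneg.2 c)
  have c2 := mul_nonneg (sub_nonneg.2 a) (sub_nonneg.2 d)
  have c3 := mul_nonneg (sub_nonneg.2 b) (sub_nonneg.2 c)
  have c4 := mul_nonneg (sub_nonneg.2 b) (sub_nonneg.2 d)
  have e7 := h.e7
  have e0 := h.e0
  have y1 := h.y1
  have y2 := h.y2
  have r0 := h.r0
  rcases h.g 2 2 (by norm_num) (by norm_num) (by linarith) with q | q
  · exfalso
    linarith
  · exact h.s 2 2 (by norm_num) (by norm_num) (by linarith) (by linarith) (by linarith)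

theorem leafA20 {ε x n r ϱ : ℝ} (h : CtxG (25/11) 0.195 ε x n r ϱ) (a : (1/5) ≤ x) (b : x ≤ (49/200))
    (c : (2/5) ≤ n) (d : n ≤ (1/2)) : ϱ ≤ 0.195 := by
  have c1 := mul_nonneg (sub_nonneg.2 a) (sub_nonneg.2 c)
  have c2 := mul_nonneg (sub_nonneg.2 a) (sub_nonneg.2 d)
  have c3 := mul_nonneg (sub_nonneg.2 b) (sub_nonneg.2 c)
  have c4 := mul_nonneg (sub_nonneg.2 b) (sub_nonneg.2 d)
  have e7 := h.e7
  have e0 := h.e0
  have y1 := h.y1
  have y2 := h.y2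
  have r0 := h.r0
  rcases h.f 2 2 (by norm_num) (by norm_num) (by linarith) with q | q
  · exfalso
    linarith
  · exact h.s 2 2 (by norm_num) (by norm_num) (by linarith) (by linarith) (by linarith)

theorem leafA21 {ε x n r ϱ : ℝ} (h : CtxG (25/11) 0.195 ε x n r ϱ) (a : (1/5) ≤ x) (b : x ≤ (169/800))
    (c : (1/2) ≤ n) (d : n ≤ (61/100)) : ϱ ≤ 0.195 := by
  have c1 := mul_nonneg (sub_nonneg.2 a) (sub_nonneg.2 c)
  have c2 := mul_nonneg (sub_nonneg.2 a) (sub_nonneg.2 d)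
  have c3 := mul_nonneg (sub_nonneg.2 b) (sub_nonneg.2 c)
  have c4 := mul_nonneg (sub_nonneg.2 b) (sub_nonneg.2 d)
  have e7 := h.e7
  have e0 := h.e0
  have y1 := h.y1
  have y2 := h.y2
  have r0 := h.r0
  rcases h.f 2 2 (by norm_num) (by norm_num) (by linarith) with q | q
  · exfalso
    linarith
  · exfalso
    linarith

theorem leafA22 {ε x n r ϱ : ℝ} (h : CtxG (25/11) 0.195 ε x n r ϱ) (a : (169/800) ≤ x) (b : x ≤ (49/200))
    (c : (1/2) ≤ n) (d : n ≤ (61/100)) : ϱ ≤ 0.195 := by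
  have c1 := mul_nonneg (sub_nonneg.2 a) (sub_nonneg.2 c)
  have c2 := mul_nonneg (sub_nonneg.2 a) (sub_nonneg.2 d)
  have c3 := mul_nonneg (sub_nonneg.2 b) (sub_nonneg.2 c)
  have c4 := mul_nonneg (sub_nonneg.2 b) (sub_nonneg.2 d)
  have e7 := h.e7
  have e0 := h.e0
  have y1 := h.y1
  have y2 := h.y2
  have r0 := h.r0
  rcases h.f 2 2 (by norm_num) (by norm_num) (by linarith) with q | q
  · exact h.s 1 1 (by norm_num) (by norm_num) (by linarith) (by linarith) (by linarith)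
  · exfalso
    linarith

theorem leafA23 {ε x n r ϱ : ℝ} (h : CtxG (25/11) 0.195 ε x n r ϱ) (a : (49/200) ≤ x) (b : x ≤ (53/200))
    (c : (27/200) ≤ n) (d : n ≤ (1667/10000)) : ϱ ≤ 0.195 := by
  have c1 := mul_nonneg (sub_nonneg.2 a) (sub_nonneg.2 c)
  have c2 := mul_nonneg (sub_nonneg.2 a) (sub_nonneg.2 d)
  have c3 := mul_nonneg (sub_nonneg.2 b) (sub_nonneg.2 c)
  have c4 := mul_nonneg (sub_nonneg.2 b) (sub_nonneg.2 d)
  have e7 := h.e7
  have e0 := h.e0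
  have y1 := h.y1
  have y2 := h.y2
  have r0 := h.r0
  rcases h.f 5 5 (by norm_num) (by norm_num) (by linarith) with q | q
  · exfalso
    linarith
  · exact h.s 6 6 (by norm_num) (by norm_num) (by linarith) (by linarith) (by linarith)

theorem leafA24 {ε x n r ϱ : ℝ} (h : CtxG (25/11) 0.195 ε x n r ϱ) (a : (49/200) ≤ x) (b : x ≤ (53/200))
    (c : (1667/10000) ≤ n) (d : n ≤ (1/5)) : ϱ ≤ 0.195 := by
  have c1 := mul_nonneg (sub_nonneg.2 a) (sub_nonneg.2 c)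
  have c2 := mul_nonneg (sub_nonneg.2 a) (sub_nonneg.2 d)
  have c3 := mul_nonneg (sub_nonneg.2 b) (sub_nonneg.2 c)
  have c4 := mul_nonneg (sub_nonneg.2 b) (sub_nonneg.2 d)
  have e7 := h.e7
  have e0 := h.e0
  have y1 := h.y1
  have y2 := h.y2
  have r0 := h.r0
  rcases h.f 4 4 (by norm_num) (by norm_num) (by linarith) with q | q
  · exfalso
    linarith
  · exact h.s 5 5 (by norm_num) (by norm_num) (by linarith) (by linarith) (by linarith)

theorem leafA25 {ε x n r ϱ : ℝ} (h : CtxG (25/11) 0.195 ε x n r ϱ) (a : (49/200) ≤ x) (b : x ≤ (53/200))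
    (c : (1/5) ≤ n) (d : n ≤ (1/4)) : ϱ ≤ 0.195 := by
  have c1 := mul_nonneg (sub_nonneg.2 a) (sub_nonneg.2 c)
  have c2 := mul_nonneg (sub_nonneg.2 a) (sub_nonneg.2 d)
  have c3 := mul_nonneg (sub_nonneg.2 b) (sub_nonneg.2 c)
  have c4 := mul_nonneg (sub_nonneg.2 b) (sub_nonneg.2 d)
  have e7 := h.e7
  have e0 := h.e0
  have y1 := h.y1
  have y2 := h.y2
  have r0 := h.r0
  rcases h.f 3 3 (by norm_num) (by norm_num) (by linarith) with q | q
  · exfalso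
    linarith
  · exact h.s 4 4 (by norm_num) (by norm_num) (by linarith) (by linarith) (by linarith)

theorem leafA26 {ε x n r ϱ : ℝ} (h : CtxG (25/11) 0.195 ε x n r ϱ) (a : (49/200) ≤ x) (b : x ≤ (53/200))
    (c : (1/4) ≤ n) (d : n ≤ (71/250)) : ϱ ≤ 0.195 := by
  have c1 := mul_nonneg (sub_nonneg.2 a) (sub_nonneg.2 c)
  have c2 := mul_nonneg (sub_nonneg.2 a) (sub_nonneg.2 d)
  have c3 := mul_nonneg (sub_nonneg.2 b) (sub_nonneg.2 c)
  have c4 := mul_nonneg (sub_nonneg.2 b) (sub_nonneg.2 d)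
  have e7 := h.e7
  have e0 := h.e0
  have y1 := h.y1
  have y2 := h.y2
  have r0 := h.r0
  rcases h.f 3 3 (by norm_num) (by norm_num) (by linarith) with q | q
  · exfalso
    linarith
  · exact h.s 3 3 (by norm_num) (by norm_num) (by linarith) (by linarith) (by linarith)

theorem leafA27 {ε x n r ϱ : ℝ} (h : CtxG (25/11) 0.195 ε x n r ϱ) (a : (49/200) ≤ x) (b : x ≤ (53/200))
    (c : (71/250) ≤ n) (d : n ≤ (1667/5000)) : ϱ ≤ 0.195 := by
  have c1 := mul_nonneg (sub_nonneg.2 a) (sub_nonneg.2 c)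
  have c2 := mul_nonneg (sub_nonneg.2 a) (sub_nonneg.2 d)
  have c3 := mul_nonneg (sub_nonneg.2 b) (sub_nonneg.2 c)
  have c4 := mul_nonneg (sub_nonneg.2 b) (sub_nonneg.2 d)
  have e7 := h.e7
  have e0 := h.e0
  have y1 := h.y1
  have y2 := h.y2
  have r0 := h.r0
  rcases h.f 3 3 (by norm_num) (by norm_num) (by linarith) with q | q
  · exfalso
    linarith
  · exact h.s 2 2 (by norm_num) (by norm_num) (by linarith) (by linarith) (by linarith)

theorem leafA28 {ε x n r ϱ : ℝ} (h : CtxG (25/11) 0.195 ε x n r ϱ) (a : (49/200) ≤ x) (b : x ≤ (53/200))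
    (c : (1667/5000) ≤ n) (d : n ≤ (2/5)) : ϱ ≤ 0.195 := by
  have c1 := mul_nonneg (sub_nonneg.2 a) (sub_nonneg.2 c)
  have c2 := mul_nonneg (sub_nonneg.2 a) (sub_nonneg.2 d)
  have c3 := mul_nonneg (sub_nonneg.2 b) (sub_nonneg.2 c)
  have c4 := mul_nonneg (sub_nonneg.2 b) (sub_nonneg.2 d)
  have e7 := h.e7
  have e0 := h.e0
  have y1 := h.y1
  have y2 := h.y2
  have r0 := h.r0
  rcases h.f 3 3 (by norm_num) (by norm_num) (by linarith) with q | q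
  · exact h.s 2 2 (by norm_num) (by norm_num) (by linarith) (by linarith) (by linarith)
  · exfalso
    linarith

theorem leafA29 {ε x n r ϱ : ℝ} (h : CtxG (25/11) 0.195 ε x n r ϱ) (a : (49/200) ≤ x) (b : x ≤ (53/200))
    (c : (2/5) ≤ n) (d : n ≤ (1/2)) : ϱ ≤ 0.195 := by
  have c1 := mul_nonneg (sub_nonneg.2 a) (sub_nonneg.2 c)
  have c2 := mul_nonneg (sub_nonneg.2 a) (sub_nonneg.2 d)
  have c3 := mul_nonneg (sub_nonneg.2 b) (sub_nonneg.2 c)
  have c4 := mul_nonneg (sub_nonneg.2 b) (sub_nonneg.2 d)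
  have e7 := h.e7
  have e0 := h.e0
  have y1 := h.y1
  have y2 := h.y2
  have r0 := h.r0
  rcases h.f 2 2 (by norm_num) (by norm_num) (by linarith) with q | q
  · exfalso
    linarith
  · exact h.s 2 2 (by norm_num) (by norm_num) (by linarith) (by linarith) (by linarith)

theorem leafA30 {ε x n r ϱ : ℝ} (h : CtxG (25/11) 0.195 ε x n r ϱ) (a : (49/200) ≤ x) (b : x ≤ (53/200))
    (c : (1/2) ≤ n) (d : n ≤ (3/5)) : ϱ ≤ 0.195 := by
  have c1 := mul_nonneg (sub_nonneg.2 a) (sub_nonneg.2 c)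
  have c2 := mul_nonneg (sub_nonneg.2 a) (sub_nonneg.2 d)
  have c3 := mul_nonneg (sub_nonneg.2 b) (sub_nonneg.2 c)
  have c4 := mul_nonneg (sub_nonneg.2 b) (sub_nonneg.2 d)
  have e7 := h.e7
  have e0 := h.e0
  have y1 := h.y1
  have y2 := h.y2
  have r0 := h.r0
  rcases h.f 2 2 (by norm_num) (by norm_num) (by linarith) with q | q
  · exact h.s 1 1 (by norm_num) (by norm_num) (by linarith) (by linarith) (by linarith)
  · exfalso
    linarith

theorem leafA31 {ε x n r ϱ : ℝ} (h : CtxG (25/11) 0.195 ε x n r ϱ) (a : (49/200) ≤ x) (b : x ≤ (53/200))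
    (c : (3/5) ≤ n) (d : n ≤ (637/1000)) : ϱ ≤ 0.195 := by
  have c1 := mul_nonneg (sub_nonneg.2 a) (sub_nonneg.2 c)
  have c2 := mul_nonneg (sub_nonneg.2 a) (sub_nonneg.2 d)
  have c3 := mul_nonneg (sub_nonneg.2 b) (sub_nonneg.2 c)
  have c4 := mul_nonneg (sub_nonneg.2 b) (sub_nonneg.2 d)
  have e7 := h.e7
  have e0 := h.e0
  have y1 := h.y1
  have y2 := h.y2
  have r0 := h.r0
  rcases h.f 2 2 (by norm_num) (by norm_num) (by linarith) with q | q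
  · exact h.s 1 1 (by norm_num) (by norm_num) (by linarith) (by linarith) (by linarith)
  · exfalso
    linarith

theorem leafA32 {ε x n r ϱ : ℝ} (h : CtxG (25/11) 0.195 ε x n r ϱ) (a : (53/200) ≤ x) (b : x ≤ (3/10))
    (c : (27/200) ≤ n) (d : n ≤ (1667/10000)) : ϱ ≤ 0.195 := by
  have c1 := mul_nonneg (sub_nonneg.2 a) (sub_nonneg.2 c)
  have c2 := mul_nonneg (sub_nonneg.2 a) (sub_nonneg.2 d)
  have c3 := mul_nonneg (sub_nonneg.2 b) (sub_nonneg.2 c)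
  have c4 := mul_nonneg (sub_nonneg.2 b) (sub_nonneg.2 d)
  have e7 := h.e7
  have e0 := h.e0
  have y1 := h.y1
  have y2 := h.y2
  have r0 := h.r0
  rcases h.f 5 5 (by norm_num) (by norm_num) (by linarith) with q | q
  · exfalso
    linarith
  · exact h.s 5 5 (by norm_num) (by norm_num) (by linarith) (by linarith) (by linarith)

theorem leafA33 {ε x n r ϱ : ℝ} (h : CtxG (25/11) 0.195 ε x n r ϱ) (a : (53/200) ≤ x) (b : x ≤ (3/10))
    (c : (1667/10000) ≤ n) (d : n ≤ (1/5)) : ϱ ≤ 0.195 := by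
  have c1 := mul_nonneg (sub_nonneg.2 a) (sub_nonneg.2 c)
  have c2 := mul_nonneg (sub_nonneg.2 a) (sub_nonneg.2 d)
  have c3 := mul_nonneg (sub_nonneg.2 b) (sub_nonneg.2 c)
  have c4 := mul_nonneg (sub_nonneg.2 b) (sub_nonneg.2 d)
  have e7 := h.e7
  have e0 := h.e0
  have y1 := h.y1
  have y2 := h.y2
  have r0 := h.r0
  rcases h.f 4 4 (by norm_num) (by norm_num) (by linarith) with q | q
  · exfalso
    linarith
  · exact h.s 4 4 (by norm_num) (by norm_num) (by linarith) (by linarith) (by linarith)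

theorem leafA34 {ε x n r ϱ : ℝ} (h : CtxG (25/11) 0.195 ε x n r ϱ) (a : (53/200) ≤ x) (b : x ≤ (3/10))
    (c : (1/5) ≤ n) (d : n ≤ (1/4)) : ϱ ≤ 0.195 := by
  have c1 := mul_nonneg (sub_nonneg.2 a) (sub_nonneg.2 c)
  have c2 := mul_nonneg (sub_nonneg.2 a) (sub_nonneg.2 d)
  have c3 := mul_nonneg (sub_nonneg.2 b) (sub_nonneg.2 c)
  have c4 := mul_nonneg (sub_nonneg.2 b) (sub_nonneg.2 d)
  have e7 := h.e7
  have e0 := h.e0
  have y1 := h.y1
  have y2 := h.y2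
  have r0 := h.r0
  rcases h.f 3 3 (by norm_num) (by norm_num) (by linarith) with q | q
  · exfalso
    linarith
  · exact h.s 4 4 (by norm_num) (by norm_num) (by linarith) (by linarith) (by linarith)

theorem leafA35 {ε x n r ϱ : ℝ} (h : CtxG (25/11) 0.195 ε x n r ϱ) (a : (53/200) ≤ x) (b : x ≤ (3/10))
    (c : (1/4) ≤ n) (d : n ≤ (71/250)) : ϱ ≤ 0.195 := by
  have c1 := mul_nonneg (sub_nonneg.2 a) (sub_nonneg.2 c)
  have c2 := mul_nonneg (sub_nonneg.2 a) (sub_nonneg.2 d)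
  have c3 := mul_nonneg (sub_nonneg.2 b) (sub_nonneg.2 c)
  have c4 := mul_nonneg (sub_nonneg.2 b) (sub_nonneg.2 d)
  have e7 := h.e7
  have e0 := h.e0
  have y1 := h.y1
  have y2 := h.y2
  have r0 := h.r0
  rcases h.f 3 3 (by norm_num) (by norm_num) (by linarith) with q | q
  · exfalso
    linarith
  · exact h.s 3 3 (by norm_num) (by norm_num) (by linarith) (by linarith) (by linarith)

theorem leafA36 {ε x n r ϱ : ℝ} (h : CtxG (25/11) 0.195 ε x n r ϱ) (a : (53/200) ≤ x) (b : x ≤ (3/10))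
    (c : (71/250) ≤ n) (d : n ≤ (1667/5000)) : ϱ ≤ 0.195 := by
  have c1 := mul_nonneg (sub_nonneg.2 a) (sub_nonneg.2 c)
  have c2 := mul_nonneg (sub_nonneg.2 a) (sub_nonneg.2 d)
  have c3 := mul_nonneg (sub_nonneg.2 b) (sub_nonneg.2 c)
  have c4 := mul_nonneg (sub_nonneg.2 b) (sub_nonneg.2 d)
  have e7 := h.e7
  have e0 := h.e0
  have y1 := h.y1
  have y2 := h.y2
  have r0 := h.r0
  exact (h.q 3 3 (by norm_num) (by norm_num) (by linarith) (by linarith)).elim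

theorem leafA37 {ε x n r ϱ : ℝ} (h : CtxG (25/11) 0.195 ε x n r ϱ) (a : (53/200) ≤ x) (b : x ≤ (3/10))
    (c : (1667/5000) ≤ n) (d : n ≤ (2/5)) : ϱ ≤ 0.195 := by
  have c1 := mul_nonneg (sub_nonneg.2 a) (sub_nonneg.2 c)
  have c2 := mul_nonneg (sub_nonneg.2 a) (sub_nonneg.2 d)
  have c3 := mul_nonneg (sub_nonneg.2 b) (sub_nonneg.2 c)
  have c4 := mul_nonneg (sub_nonneg.2 b) (sub_nonneg.2 d)
  have e7 := h.e7
  have e0 := h.e0
  have y1 := h.y1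
  have y2 := h.y2
  have r0 := h.r0
  rcases h.f 2 2 (by norm_num) (by norm_num) (by linarith) with q | q
  · exfalso
    linarith
  · exact h.s 2 2 (by norm_num) (by norm_num) (by linarith) (by linarith) (by linarith)

theorem leafA38 {ε x n r ϱ : ℝ} (h : CtxG (25/11) 0.195 ε x n r ϱ) (a : (53/200) ≤ x) (b : x ≤ (3/10))
    (c : (2/5) ≤ n) (d : n ≤ (1/2)) : ϱ ≤ 0.195 := by
  have c1 := mul_nonneg (sub_nonneg.2 a) (sub_nonneg.2 c)
  have c2 := mul_nonneg (sub_nonneg.2 a) (sub_nonneg.2 d)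
  have c3 := mul_nonneg (sub_nonneg.2 b) (sub_nonneg.2 c)
  have c4 := mul_nonneg (sub_nonneg.2 b) (sub_nonneg.2 d)
  have e7 := h.e7
  have e0 := h.e0
  have y1 := h.y1
  have y2 := h.y2
  have r0 := h.r0
  rcases h.f 2 2 (by norm_num) (by norm_num) (by linarith) with q | q
  · exfalso
    linarith
  · exact h.s 2 2 (by norm_num) (by norm_num) (by linarith) (by linarith) (by linarith)

theorem leafA39 {ε x n r ϱ : ℝ} (h : CtxG (25/11) 0.195 ε x n r ϱ) (a : (53/200) ≤ x) (b : x ≤ (3/10))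
    (c : (1/2) ≤ n) (d : n ≤ (3/5)) : ϱ ≤ 0.195 := by
  have c1 := mul_nonneg (sub_nonneg.2 a) (sub_nonneg.2 c)
  have c2 := mul_nonneg (sub_nonneg.2 a) (sub_nonneg.2 d)
  have c3 := mul_nonneg (sub_nonneg.2 b) (sub_nonneg.2 c)
  have c4 := mul_nonneg (sub_nonneg.2 b) (sub_nonneg.2 d)
  have e7 := h.e7
  have e0 := h.e0
  have y1 := h.y1
  have y2 := h.y2
  have r0 := h.r0
  rcases h.f 2 2 (by norm_num) (by norm_num) (by linarith) with q | q
  · exact h.s 1 1 (by norm_num) (by norm_num) (by linarith) (by linarith) (by linarith)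
  · exfalso
    linarith

theorem leafA40 {ε x n r ϱ : ℝ} (h : CtxG (25/11) 0.195 ε x n r ϱ) (a : (53/200) ≤ x) (b : x ≤ (3/10))
    (c : (3/5) ≤ n) (d : n ≤ (691/1000)) : ϱ ≤ 0.195 := by
  have c1 := mul_nonneg (sub_nonneg.2 a) (sub_nonneg.2 c)
  have c2 := mul_nonneg (sub_nonneg.2 a) (sub_nonneg.2 d)
  have c3 := mul_nonneg (sub_nonneg.2 b) (sub_nonneg.2 c)
  have c4 := mul_nonneg (sub_nonneg.2 b) (sub_nonneg.2 d)
  have e7 := h.e7
  have e0 := h.e0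
  have y1 := h.y1
  have y2 := h.y2
  have r0 := h.r0
  rcases h.f 2 2 (by norm_num) (by norm_num) (by linarith) with q | q
  · exact h.s 1 1 (by norm_num) (by norm_num) (by linarith) (by linarith) (by linarith)
  · exfalso
    linarith

theorem leafA41 {ε x n r ϱ : ℝ} (h : CtxG (25/11) 0.195 ε x n r ϱ) (a : (3/10) ≤ x) (b : x ≤ (400001/1000000))
    (c : (27/200) ≤ n) (d : n ≤ (1667/10000)) : ϱ ≤ 0.195 := by
  have c1 := mul_nonneg (sub_nonneg.2 a) (sub_nonneg.2 c)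
  have c2 := mul_nonneg (sub_nonneg.2 a) (sub_nonneg.2 d)
  have c3 := mul_nonneg (sub_nonneg.2 b) (sub_nonneg.2 c)
  have c4 := mul_nonneg (sub_nonneg.2 b) (sub_nonneg.2 d)
  have e7 := h.e7
  have e0 := h.e0
  have y1 := h.y1
  have y2 := h.y2
  have r0 := h.r0
  exact (h.q 6 6 (by norm_num) (by norm_num) (by linarith) (by linarith)).elim

theorem leafA42 {ε x n r ϱ : ℝ} (h : CtxG (25/11) 0.195 ε x n r ϱ) (a : (3/10) ≤ x) (b : x ≤ (400001/1000000))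
    (c : (1667/10000) ≤ n) (d : n ≤ (1/5)) : ϱ ≤ 0.195 := by
  have c1 := mul_nonneg (sub_nonneg.2 a) (sub_nonneg.2 c)
  have c2 := mul_nonneg (sub_nonneg.2 a) (sub_nonneg.2 d)
  have c3 := mul_nonneg (sub_nonneg.2 b) (sub_nonneg.2 c)
  have c4 := mul_nonneg (sub_nonneg.2 b) (sub_nonneg.2 d)
  have e7 := h.e7
  have e0 := h.e0
  have y1 := h.y1
  have y2 := h.y2
  have r0 := h.r0
  exact (h.q 5 5 (by norm_num) (by norm_num) (by linarith) (by linarith)).elim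

theorem leafA43 {ε x n r ϱ : ℝ} (h : CtxG (25/11) 0.195 ε x n r ϱ) (a : (3/10) ≤ x) (b : x ≤ (400001/1000000))
    (c : (1/5) ≤ n) (d : n ≤ (1/4)) : ϱ ≤ 0.195 := by
  have c1 := mul_nonneg (sub_nonneg.2 a) (sub_nonneg.2 c)
  have c2 := mul_nonneg (sub_nonneg.2 a) (sub_nonneg.2 d)
  have c3 := mul_nonneg (sub_nonneg.2 b) (sub_nonneg.2 c)
  have c4 := mul_nonneg (sub_nonneg.2 b) (sub_nonneg.2 d)
  have e7 := h.e7
  have e0 := h.e0
  have y1 := h.y1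
  have y2 := h.y2
  have r0 := h.r0
  exact (h.q 4 4 (by norm_num) (by norm_num) (by linarith) (by linarith)).elim

theorem leafA44 {ε x n r ϱ : ℝ} (h : CtxG (25/11) 0.195 ε x n r ϱ) (a : (3/10) ≤ x) (b : x ≤ (400001/1000000))
    (c : (1/4) ≤ n) (d : n ≤ (71/250)) : ϱ ≤ 0.195 := by
  have c1 := mul_nonneg (sub_nonneg.2 a) (sub_nonneg.2 c)
  have c2 := mul_nonneg (sub_nonneg.2 a) (sub_nonneg.2 d)
  have c3 := mul_nonneg (sub_nonneg.2 b) (sub_nonneg.2 c)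
  have c4 := mul_nonneg (sub_nonneg.2 b) (sub_nonneg.2 d)
  have e7 := h.e7
  have e0 := h.e0
  have y1 := h.y1
  have y2 := h.y2
  have r0 := h.r0
  rcases h.f 2 2 (by norm_num) (by norm_num) (by linarith) with q | q
  · exfalso
    linarith
  · exact h.s 3 3 (by norm_num) (by norm_num) (by linarith) (by linarith) (by linarith)

theorem leafA45 {ε x n r ϱ : ℝ} (h : CtxG (25/11) 0.195 ε x n r ϱ) (a : (3/10) ≤ x) (b : x ≤ (400001/1000000))
    (c : (71/250) ≤ n) (d : n ≤ (1667/5000)) : ϱ ≤ 0.195 := by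
  have c1 := mul_nonneg (sub_nonneg.2 a) (sub_nonneg.2 c)
  have c2 := mul_nonneg (sub_nonneg.2 a) (sub_nonneg.2 d)
  have c3 := mul_nonneg (sub_nonneg.2 b) (sub_nonneg.2 c)
  have c4 := mul_nonneg (sub_nonneg.2 b) (sub_nonneg.2 d)
  have e7 := h.e7
  have e0 := h.e0
  have y1 := h.y1
  have y2 := h.y2
  have r0 := h.r0
  exact (h.q 3 3 (by norm_num) (by norm_num) (by linarith) (by linarith)).elim

theorem leafA46 {ε x n r ϱ : ℝ} (h : CtxG (25/11) 0.195 ε x n r ϱ) (a : (3/10) ≤ x) (b : x ≤ (400001/1000000))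
    (c : (1667/5000) ≤ n) (d : n ≤ (2/5)) : ϱ ≤ 0.195 := by
  have c1 := mul_nonneg (sub_nonneg.2 a) (sub_nonneg.2 c)
  have c2 := mul_nonneg (sub_nonneg.2 a) (sub_nonneg.2 d)
  have c3 := mul_nonneg (sub_nonneg.2 b) (sub_nonneg.2 c)
  have c4 := mul_nonneg (sub_nonneg.2 b) (sub_nonneg.2 d)
  have e7 := h.e7
  have e0 := h.e0
  have y1 := h.y1
  have y2 := h.y2
  have r0 := h.r0
  rcases h.f 2 2 (by norm_num) (by norm_num) (by linarith) with q | q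
  · exfalso
    linarith
  · exact h.s 2 2 (by norm_num) (by norm_num) (by linarith) (by linarith) (by linarith)

theorem leafA47 {ε x n r ϱ : ℝ} (h : CtxG (25/11) 0.195 ε x n r ϱ) (a : (3/10) ≤ x) (b : x ≤ (400001/1000000))
    (c : (2/5) ≤ n) (d : n ≤ (1/2)) : ϱ ≤ 0.195 := by
  have c1 := mul_nonneg (sub_nonneg.2 a) (sub_nonneg.2 c)
  have c2 := mul_nonneg (sub_nonneg.2 a) (sub_nonneg.2 d)
  have c3 := mul_nonneg (sub_nonneg.2 b) (sub_nonneg.2 c)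
  have c4 := mul_nonneg (sub_nonneg.2 b) (sub_nonneg.2 d)
  have e7 := h.e7
  have e0 := h.e0
  have y1 := h.y1
  have y2 := h.y2
  have r0 := h.r0
  exact (h.q 2 2 (by norm_num) (by norm_num) (by linarith) (by linarith)).elim

theorem leafA48 {ε x n r ϱ : ℝ} (h : CtxG (25/11) 0.195 ε x n r ϱ) (a : (3/10) ≤ x) (b : x ≤ (400001/1000000))
    (c : (1/2) ≤ n) (d : n ≤ (3/5)) : ϱ ≤ 0.195 := by
  have c1 := mul_nonneg (sub_nonneg.2 a) (sub_nonneg.2 c)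
  have c2 := mul_nonneg (sub_nonneg.2 a) (sub_nonneg.2 d)
  have c3 := mul_nonneg (sub_nonneg.2 b) (sub_nonneg.2 c)
  have c4 := mul_nonneg (sub_nonneg.2 b) (sub_nonneg.2 d)
  have e7 := h.e7
  have e0 := h.e0
  have y1 := h.y1
  have y2 := h.y2
  have r0 := h.r0
  rcases h.f 2 2 (by norm_num) (by norm_num) (by linarith) with q | q
  · exact h.s 1 1 (by norm_num) (by norm_num) (by linarith) (by linarith) (by linarith)
  · exfalso
    linarith

theorem leafA49 {ε x n r ϱ : ℝ} (h : CtxG (25/11) 0.195 ε x n r ϱ) (a : (3/10) ≤ x) (b : x ≤ (400001/1000000))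
    (c : (3/5) ≤ n) (d : n ≤ (911/1000)) : ϱ ≤ 0.195 := by
  have c1 := mul_nonneg (sub_nonneg.2 a) (sub_nonneg.2 c)
  have c2 := mul_nonneg (sub_nonneg.2 a) (sub_nonneg.2 d)
  have c3 := mul_nonneg (sub_nonneg.2 b) (sub_nonneg.2 c)
  have c4 := mul_nonneg (sub_nonneg.2 b) (sub_nonneg.2 d)
  have e7 := h.e7
  have e0 := h.e0
  have y1 := h.y1
  have y2 := h.y2
  have r0 := h.r0
  rcases h.f 1 1 (by norm_num) (by norm_num) (by linarith) with q | q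
  · exfalso
    linarith
  · exact h.s 1 1 (by norm_num) (by norm_num) (by linarith) (by linarith) (by linarith)

theorem colA0 {ε x n r ϱ : ℝ} (h : CtxG (25/11) 0.195 ε x n r ϱ) (hx0 : 0 ≤ x) (hx1 : x ≤ (1/10))
    (hn0 : 27/200 ≤ n) : ϱ ≤ 0.195 := by
  have hn1 : n ≤ (209/500) := by
    linarith [mul_nonneg (sub_nonneg.2 hx1) h.n0.le, h.y1, h.y2, h.e7]
  rcases le_total n (1/4) with u1 | u1
  · rcases le_total n (1667/10000) with u2 | u2
    · exact leafA0 h hx0 hx1 hn0 u2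
    · rcases le_total n (1/5) with u3 | u3
      · exact leafA1 h hx0 hx1 u2 u3
      · exact leafA2 h hx0 hx1 u3 u1
  · rcases le_total n (71/250) with u2 | u2
    · exact leafA3 h hx0 hx1 u1 u2
    · rcases le_total n (1667/5000) with u3 | u3
      · exact leafA4 h hx0 hx1 u2 u3
      · exact leafA5 h hx0 hx1 u3 hn1


theorem colA1 {ε x n r ϱ : ℝ} (h : CtxG (25/11) 0.195 ε x n r ϱ) (hx0 : (1/10) ≤ x) (hx1 : x ≤ (1/5))
    (hn0 : 27/200 ≤ n) : ϱ ≤ 0.195 := by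
  have hn1 : n ≤ (557/1000) := by
    linarith [mul_nonneg (sub_nonneg.2 hx1) h.n0.le, h.y1, h.y2, h.e7]
  rcases le_total n (71/250) with u1 | u1
  · rcases le_total n (1/5) with u2 | u2
    · rcases le_total n (1667/10000) with u3 | u3
      · exact leafA6 h hx0 hx1 hn0 u3
      · exact leafA7 h hx0 hx1 u3 u2
    · rcases le_total n (1/4) with u3 | u3
      · exact leafA8 h hx0 hx1 u2 u3
      · exact leafA9 h hx0 hx1 u3 u1
  · rcases le_total n (2/5) with u2 | u2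
    · rcases le_total n (1667/5000) with u3 | u3
      · exact leafA10 h hx0 hx1 u1 u3
      · exact leafA11 h hx0 hx1 u3 u2
    · rcases le_total n (1/2) with u3 | u3
      · exact leafA12 h hx0 hx1 u2 u3
      · exact leafA13 h hx0 hx1 u3 hn1


theorem colA2 {ε x n r ϱ : ℝ} (h : CtxG (25/11) 0.195 ε x n r ϱ) (hx0 : (1/5) ≤ x) (hx1 : x ≤ (49/200))
    (hn0 : 27/200 ≤ n) : ϱ ≤ 0.195 := by
  have hn1 : n ≤ (61/100) := by
    linarith [mul_nonneg (sub_nonneg.2 hx1) h.n0.le, h.y1, h.y2, h.e7]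
  rcases le_total n (71/250) with u1 | u1
  · rcases le_total n (1/5) with u2 | u2
    · rcases le_total n (1667/10000) with u3 | u3
      · exact leafA14 h hx0 hx1 hn0 u3
      · exact leafA15 h hx0 hx1 u3 u2
    · rcases le_total n (1/4) with u3 | u3
      · exact leafA16 h hx0 hx1 u2 u3
      · exact leafA17 h hx0 hx1 u3 u1
  · rcases le_total n (2/5) with u2 | u2
    · rcases le_total n (1667/5000) with u3 | u3
      · exact leafA18 h hx0 hx1 u1 u3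
      · exact leafA19 h hx0 hx1 u3 u2
    · rcases le_total n (1/2) with u3 | u3
      · exact leafA20 h hx0 hx1 u2 u3
      · rcases le_total x (169/800) with u4 | u4
        · exact leafA21 h hx0 u4 u3 hn1
        · exact leafA22 h u4 hx1 u3 hn1


theorem colA3 {ε x n r ϱ : ℝ} (h : CtxG (25/11) 0.195 ε x n r ϱ) (hx0 : (49/200) ≤ x) (hx1 : x ≤ (53/200))
    (hn0 : 27/200 ≤ n) : ϱ ≤ 0.195 := by
  have hn1 : n ≤ (637/1000) := by
    linarith [mul_nonneg (sub_nonneg.2 hx1) h.n0.le, h.y1, h.y2, h.e7]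
  rcases le_total n (71/250) with u1 | u1
  · rcases le_total n (1/5) with u2 | u2
    · rcases le_total n (1667/10000) with u3 | u3
      · exact leafA23 h hx0 hx1 hn0 u3
      · exact leafA24 h hx0 hx1 u3 u2
    · rcases le_total n (1/4) with u3 | u3
      · exact leafA25 h hx0 hx1 u2 u3
      · exact leafA26 h hx0 hx1 u3 u1
  · rcases le_total n (2/5) with u2 | u2
    · rcases le_total n (1667/5000) with u3 | u3
      · exact leafA27 h hx0 hx1 u1 u3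
      · exact leafA28 h hx0 hx1 u3 u2
    · rcases le_total n (1/2) with u3 | u3
      · exact leafA29 h hx0 hx1 u2 u3
      · rcases le_total n (3/5) with u4 | u4
        · exact leafA30 h hx0 hx1 u3 u4
        · exact leafA31 h hx0 hx1 u4 hn1


theorem colA4 {ε x n r ϱ : ℝ} (h : CtxG (25/11) 0.195 ε x n r ϱ) (hx0 : (53/200) ≤ x) (hx1 : x ≤ (3/10))
    (hn0 : 27/200 ≤ n) : ϱ ≤ 0.195 := by
  have hn1 : n ≤ (691/1000) := by
    linarith [mul_nonneg (sub_nonneg.2 hx1) h.n0.le, h.y1, h.y2, h.e7]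
  rcases le_total n (71/250) with u1 | u1
  · rcases le_total n (1/5) with u2 | u2
    · rcases le_total n (1667/10000) with u3 | u3
      · exact leafA32 h hx0 hx1 hn0 u3
      · exact leafA33 h hx0 hx1 u3 u2
    · rcases le_total n (1/4) with u3 | u3
      · exact leafA34 h hx0 hx1 u2 u3
      · exact leafA35 h hx0 hx1 u3 u1
  · rcases le_total n (2/5) with u2 | u2
    · rcases le_total n (1667/5000) with u3 | u3
      · exact leafA36 h hx0 hx1 u1 u3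
      · exact leafA37 h hx0 hx1 u3 u2
    · rcases le_total n (1/2) with u3 | u3
      · exact leafA38 h hx0 hx1 u2 u3
      · rcases le_total n (3/5) with u4 | u4
        · exact leafA39 h hx0 hx1 u3 u4
        · exact leafA40 h hx0 hx1 u4 hn1


theorem colA5 {ε x n r ϱ : ℝ} (h : CtxG (25/11) 0.195 ε x n r ϱ) (hx0 : (3/10) ≤ x) (hx1 : x ≤ (400001/1000000))
    (hn0 : 27/200 ≤ n) : ϱ ≤ 0.195 := by
  have hn1 : n ≤ (911/1000) := by
    linarith [mul_nonneg (sub_nonneg.2 hx1) h.n0.le, h.y1, h.y2, h.e7]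
  rcases le_total n (71/250) with u1 | u1
  · rcases le_total n (1/5) with u2 | u2
    · rcases le_total n (1667/10000) with u3 | u3
      · exact leafA41 h hx0 hx1 hn0 u3
      · exact leafA42 h hx0 hx1 u3 u2
    · rcases le_total n (1/4) with u3 | u3
      · exact leafA43 h hx0 hx1 u2 u3
      · exact leafA44 h hx0 hx1 u3 u1
  · rcases le_total n (2/5) with u2 | u2
    · rcases le_total n (1667/5000) with u3 | u3
      · exact leafA45 h hx0 hx1 u1 u3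
      · exact leafA46 h hx0 hx1 u3 u2
    · rcases le_total n (1/2) with u3 | u3
      · exact leafA47 h hx0 hx1 u2 u3
      · rcases le_total n (3/5) with u4 | u4
        · exact leafA48 h hx0 hx1 u3 u4
        · exact leafA49 h hx0 hx1 u4 hn1


theorem allcolsA {ε x n r ϱ : ℝ} (h : CtxG (25/11) 0.195 ε x n r ϱ) (hx1 : x ≤ (400001/1000000)) (hn0 : 27/200 ≤ n) :
    ϱ ≤ 0.195 := by
  have hx0 : 0 ≤ x := h.x0.le
  rcases le_total x (1/10) with v0 | v0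
  · exact colA0 h hx0 v0 hn0
  rcases le_total x (1/5) with v1 | v1
  · exact colA1 h v0 v1 hn0
  rcases le_total x (49/200) with v2 | v2
  · exact colA2 h v1 v2 hn0
  rcases le_total x (53/200) with v3 | v3
  · exact colA3 h v2 v3 hn0
  rcases le_total x (3/10) with v4 | v4
  · exact colA4 h v3 v4 hn0
  exact colA5 h v4 hx1 hn0

theorem numericA : NumericG (25/11) 0.195 := by
  intro ε0 hε0 hε01 ε x n r ϱ e0 eε xε x4 n0 hy hf hg r0 hs he
  have e7 : ε ≤ 1 / 10 ^ 7 := by norm_num at *; linarith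
  have ex : ε ≤ x / 10 ^ 5 := by
    refine eε.trans ?_
    exact div_le_div_of_nonneg_right xε (by norm_num)
  have x0 : 0 < x := by linarith
  have x4' : x ≤ 400001 / 1000000 := by norm_num at *; linarith
  rcases le_total n (27/200) with hn | hn
  · exact (smallG (κ := (25/11)) e0 ex x0 x4 n0 (by linarith) (by linarith) hf r0).elim
  exact allcolsA (mkCtxG (by norm_num) (by norm_num) (by norm_num) e0 e7 ex x0 x4' n0 hy hf hg r0 hs he) x4' hn

theorem leafB0 {ε x n r ϱ : ℝ} (h : CtxG (200/83) 0.11 ε x n r ϱ) (a : 0 ≤ x) (b : x ≤ (1/10))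
    (c : (1/5) ≤ n) (d : n ≤ (1/4)) : ϱ ≤ 0.11 := by
  have c1 := mul_nonneg (sub_nonneg.2 a) (sub_nonneg.2 c)
  have c2 := mul_nonneg (sub_nonneg.2 a) (sub_nonneg.2 d)
  have c3 := mul_nonneg (sub_nonneg.2 b) (sub_nonneg.2 c)
  have c4 := mul_nonneg (sub_nonneg.2 b) (sub_nonneg.2 d)
  have e7 := h.e7
  have e0 := h.e0
  have y1 := h.y1
  have y2 := h.y2
  have r0 := h.r0
  exact (h.p 3 3 (by norm_num) (by norm_num) (by linarith) (by linarith)).elim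

theorem leafB1 {ε x n r ϱ : ℝ} (h : CtxG (200/83) 0.11 ε x n r ϱ) (a : 0 ≤ x) (b : x ≤ (1/10))
    (c : (1/4) ≤ n) (d : n ≤ (71/250)) : ϱ ≤ 0.11 := by
  have c1 := mul_nonneg (sub_nonneg.2 a) (sub_nonneg.2 c)
  have c2 := mul_nonneg (sub_nonneg.2 a) (sub_nonneg.2 d)
  have c3 := mul_nonneg (sub_nonneg.2 b) (sub_nonneg.2 c)
  have c4 := mul_nonneg (sub_nonneg.2 b) (sub_nonneg.2 d)
  have e7 := h.e7
  have e0 := h.e0
  have y1 := h.y1
  have y2 := h.y2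
  have r0 := h.r0
  exact (h.p 3 3 (by norm_num) (by norm_num) (by linarith) (by linarith)).elim

theorem leafB2 {ε x n r ϱ : ℝ} (h : CtxG (200/83) 0.11 ε x n r ϱ) (a : 0 ≤ x) (b : x ≤ (1/10))
    (c : (71/250) ≤ n) (d : n ≤ (1667/5000)) : ϱ ≤ 0.11 := by
  have c1 := mul_nonneg (sub_nonneg.2 a) (sub_nonneg.2 c)
  have c2 := mul_nonneg (sub_nonneg.2 a) (sub_nonneg.2 d)
  have c3 := mul_nonneg (sub_nonneg.2 b) (sub_nonneg.2 c)
  have c4 := mul_nonneg (sub_nonneg.2 b) (sub_nonneg.2 d)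
  have e7 := h.e7
  have e0 := h.e0
  have y1 := h.y1
  have y2 := h.y2
  have r0 := h.r0
  exact (h.p 2 2 (by norm_num) (by norm_num) (by linarith) (by linarith)).elim

theorem leafB3 {ε x n r ϱ : ℝ} (h : CtxG (200/83) 0.11 ε x n r ϱ) (a : 0 ≤ x) (b : x ≤ (1/10))
    (c : (1667/5000) ≤ n) (d : n ≤ (209/500)) : ϱ ≤ 0.11 := by
  have c1 := mul_nonneg (sub_nonneg.2 a) (sub_nonneg.2 c)
  have c2 := mul_nonneg (sub_nonneg.2 a) (sub_nonneg.2 d)
  have c3 := mul_nonneg (sub_nonneg.2 b) (sub_nonneg.2 c)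
  have c4 := mul_nonneg (sub_nonneg.2 b) (sub_nonneg.2 d)
  have e7 := h.e7
  have e0 := h.e0
  have y1 := h.y1
  have y2 := h.y2
  have r0 := h.r0
  exact (h.p 2 2 (by norm_num) (by norm_num) (by linarith) (by linarith)).elim

theorem leafB4 {ε x n r ϱ : ℝ} (h : CtxG (200/83) 0.11 ε x n r ϱ) (a : (1/10) ≤ x) (b : x ≤ (1/5))
    (c : (1/5) ≤ n) (d : n ≤ (1/4)) : ϱ ≤ 0.11 := by
  have c1 := mul_nonneg (sub_nonneg.2 a) (sub_nonneg.2 c)
  have c2 := mul_nonneg (sub_nonneg.2 a) (sub_nonneg.2 d)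
  have c3 := mul_nonneg (sub_nonneg.2 b) (sub_nonneg.2 c)
  have c4 := mul_nonneg (sub_nonneg.2 b) (sub_nonneg.2 d)
  have e7 := h.e7
  have e0 := h.e0
  have y1 := h.y1
  have y2 := h.y2
  have r0 := h.r0
  exact (h.p 4 4 (by norm_num) (by norm_num) (by linarith) (by linarith)).elim

theorem leafB5 {ε x n r ϱ : ℝ} (h : CtxG (200/83) 0.11 ε x n r ϱ) (a : (1/10) ≤ x) (b : x ≤ (1/5))
    (c : (1/4) ≤ n) (d : n ≤ (71/250)) : ϱ ≤ 0.11 := by
  have c1 := mul_nonneg (sub_nonneg.2 a) (sub_nonneg.2 c)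
  have c2 := mul_nonneg (sub_nonneg.2 a) (sub_nonneg.2 d)
  have c3 := mul_nonneg (sub_nonneg.2 b) (sub_nonneg.2 c)
  have c4 := mul_nonneg (sub_nonneg.2 b) (sub_nonneg.2 d)
  have e7 := h.e7
  have e0 := h.e0
  have y1 := h.y1
  have y2 := h.y2
  have r0 := h.r0
  exact (h.p 3 3 (by norm_num) (by norm_num) (by linarith) (by linarith)).elim

theorem leafB6 {ε x n r ϱ : ℝ} (h : CtxG (200/83) 0.11 ε x n r ϱ) (a : (1/10) ≤ x) (b : x ≤ (1/5))
    (c : (71/250) ≤ n) (d : n ≤ (1667/5000)) : ϱ ≤ 0.11 := by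
  have c1 := mul_nonneg (sub_nonneg.2 a) (sub_nonneg.2 c)
  have c2 := mul_nonneg (sub_nonneg.2 a) (sub_nonneg.2 d)
  have c3 := mul_nonneg (sub_nonneg.2 b) (sub_nonneg.2 c)
  have c4 := mul_nonneg (sub_nonneg.2 b) (sub_nonneg.2 d)
  have e7 := h.e7
  have e0 := h.e0
  have y1 := h.y1
  have y2 := h.y2
  have r0 := h.r0
  exact (h.p 3 3 (by norm_num) (by norm_num) (by linarith) (by linarith)).elim

theorem leafB7 {ε x n r ϱ : ℝ} (h : CtxG (200/83) 0.11 ε x n r ϱ) (a : (1/10) ≤ x) (b : x ≤ (1/5))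
    (c : (1667/5000) ≤ n) (d : n ≤ (2/5)) : ϱ ≤ 0.11 := by
  have c1 := mul_nonneg (sub_nonneg.2 a) (sub_nonneg.2 c)
  have c2 := mul_nonneg (sub_nonneg.2 a) (sub_nonneg.2 d)
  have c3 := mul_nonneg (sub_nonneg.2 b) (sub_nonneg.2 c)
  have c4 := mul_nonneg (sub_nonneg.2 b) (sub_nonneg.2 d)
  have e7 := h.e7
  have e0 := h.e0
  have y1 := h.y1
  have y2 := h.y2
  have r0 := h.r0
  exact (h.p 2 2 (by norm_num) (by norm_num) (by linarith) (by linarith)).elim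

theorem leafB8 {ε x n r ϱ : ℝ} (h : CtxG (200/83) 0.11 ε x n r ϱ) (a : (1/10) ≤ x) (b : x ≤ (1/5))
    (c : (2/5) ≤ n) (d : n ≤ (1/2)) : ϱ ≤ 0.11 := by
  have c1 := mul_nonneg (sub_nonneg.2 a) (sub_nonneg.2 c)
  have c2 := mul_nonneg (sub_nonneg.2 a) (sub_nonneg.2 d)
  have c3 := mul_nonneg (sub_nonneg.2 b) (sub_nonneg.2 c)
  have c4 := mul_nonneg (sub_nonneg.2 b) (sub_nonneg.2 d)
  have e7 := h.e7
  have e0 := h.e0
  have y1 := h.y1
  have y2 := h.y2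
  have r0 := h.r0
  exact (h.p 2 2 (by norm_num) (by norm_num) (by linarith) (by linarith)).elim

theorem leafB9 {ε x n r ϱ : ℝ} (h : CtxG (200/83) 0.11 ε x n r ϱ) (a : (1/10) ≤ x) (b : x ≤ (1/5))
    (c : (1/2) ≤ n) (d : n ≤ (557/1000)) : ϱ ≤ 0.11 := by
  have c1 := mul_nonneg (sub_nonneg.2 a) (sub_nonneg.2 c)
  have c2 := mul_nonneg (sub_nonneg.2 a) (sub_nonneg.2 d)
  have c3 := mul_nonneg (sub_nonneg.2 b) (sub_nonneg.2 c)
  have c4 := mul_nonneg (sub_nonneg.2 b) (sub_nonneg.2 d)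
  have e7 := h.e7
  have e0 := h.e0
  have y1 := h.y1
  have y2 := h.y2
  have r0 := h.r0
  exact (h.p 2 2 (by norm_num) (by norm_num) (by linarith) (by linarith)).elim

theorem leafB10 {ε x n r ϱ : ℝ} (h : CtxG (200/83) 0.11 ε x n r ϱ) (a : (1/5) ≤ x) (b : x ≤ (49/200))
    (c : (1/5) ≤ n) (d : n ≤ (1/4)) : ϱ ≤ 0.11 := by
  have c1 := mul_nonneg (sub_nonneg.2 a) (sub_nonneg.2 c)
  have c2 := mul_nonneg (sub_nonneg.2 a) (sub_nonneg.2 d)
  have c3 := mul_nonneg (sub_nonneg.2 b) (sub_nonneg.2 c)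
  have c4 := mul_nonneg (sub_nonneg.2 b) (sub_nonneg.2 d)
  have e7 := h.e7
  have e0 := h.e0
  have y1 := h.y1
  have y2 := h.y2
  have r0 := h.r0
  exact (h.p 4 4 (by norm_num) (by norm_num) (by linarith) (by linarith)).elim

theorem leafB11 {ε x n r ϱ : ℝ} (h : CtxG (200/83) 0.11 ε x n r ϱ) (a : (1/5) ≤ x) (b : x ≤ (49/200))
    (c : (1/4) ≤ n) (d : n ≤ (71/250)) : ϱ ≤ 0.11 := by
  have c1 := mul_nonneg (sub_nonneg.2 a) (sub_nonneg.2 c)
  have c2 := mul_nonneg (sub_nonneg.2 a) (sub_nonneg.2 d)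
  have c3 := mul_nonneg (sub_nonneg.2 b) (sub_nonneg.2 c)
  have c4 := mul_nonneg (sub_nonneg.2 b) (sub_nonneg.2 d)
  have e7 := h.e7
  have e0 := h.e0
  have y1 := h.y1
  have y2 := h.y2
  have r0 := h.r0
  exact (h.p 4 4 (by norm_num) (by norm_num) (by linarith) (by linarith)).elim

theorem leafB12 {ε x n r ϱ : ℝ} (h : CtxG (200/83) 0.11 ε x n r ϱ) (a : (1/5) ≤ x) (b : x ≤ (49/200))
    (c : (71/250) ≤ n) (d : n ≤ (1667/5000)) : ϱ ≤ 0.11 := by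
  have c1 := mul_nonneg (sub_nonneg.2 a) (sub_nonneg.2 c)
  have c2 := mul_nonneg (sub_nonneg.2 a) (sub_nonneg.2 d)
  have c3 := mul_nonneg (sub_nonneg.2 b) (sub_nonneg.2 c)
  have c4 := mul_nonneg (sub_nonneg.2 b) (sub_nonneg.2 d)
  have e7 := h.e7
  have e0 := h.e0
  have y1 := h.y1
  have y2 := h.y2
  have r0 := h.r0
  exact (h.p 3 3 (by norm_num) (by norm_num) (by linarith) (by linarith)).elim

theorem leafB13 {ε x n r ϱ : ℝ} (h : CtxG (200/83) 0.11 ε x n r ϱ) (a : (1/5) ≤ x) (b : x ≤ (49/200))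
    (c : (1667/5000) ≤ n) (d : n ≤ (2/5)) : ϱ ≤ 0.11 := by
  have c1 := mul_nonneg (sub_nonneg.2 a) (sub_nonneg.2 c)
  have c2 := mul_nonneg (sub_nonneg.2 a) (sub_nonneg.2 d)
  have c3 := mul_nonneg (sub_nonneg.2 b) (sub_nonneg.2 c)
  have c4 := mul_nonneg (sub_nonneg.2 b) (sub_nonneg.2 d)
  have e7 := h.e7
  have e0 := h.e0
  have y1 := h.y1
  have y2 := h.y2
  have r0 := h.r0
  exact (h.p 3 3 (by norm_num) (by norm_num) (by linarith) (by linarith)).elim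

theorem leafB14 {ε x n r ϱ : ℝ} (h : CtxG (200/83) 0.11 ε x n r ϱ) (a : (1/5) ≤ x) (b : x ≤ (49/200))
    (c : (2/5) ≤ n) (d : n ≤ (1/2)) : ϱ ≤ 0.11 := by
  have c1 := mul_nonneg (sub_nonneg.2 a) (sub_nonneg.2 c)
  have c2 := mul_nonneg (sub_nonneg.2 a) (sub_nonneg.2 d)
  have c3 := mul_nonneg (sub_nonneg.2 b) (sub_nonneg.2 c)
  have c4 := mul_nonneg (sub_nonneg.2 b) (sub_nonneg.2 d)
  have e7 := h.e7
  have e0 := h.e0
  have y1 := h.y1
  have y2 := h.y2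
  have r0 := h.r0
  exact (h.p 2 2 (by norm_num) (by norm_num) (by linarith) (by linarith)).elim

theorem leafB15 {ε x n r ϱ : ℝ} (h : CtxG (200/83) 0.11 ε x n r ϱ) (a : (1/5) ≤ x) (b : x ≤ (89/400))
    (c : (1/2) ≤ n) (d : n ≤ (61/100)) : ϱ ≤ 0.11 := by
  have c1 := mul_nonneg (sub_nonneg.2 a) (sub_nonneg.2 c)
  have c2 := mul_nonneg (sub_nonneg.2 a) (sub_nonneg.2 d)
  have c3 := mul_nonneg (sub_nonneg.2 b) (sub_nonneg.2 c)
  have c4 := mul_nonneg (sub_nonneg.2 b) (sub_nonneg.2 d)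
  have e7 := h.e7
  have e0 := h.e0
  have y1 := h.y1
  have y2 := h.y2
  have r0 := h.r0
  exact (h.p 2 2 (by norm_num) (by norm_num) (by linarith) (by linarith)).elim

theorem leafB16 {ε x n r ϱ : ℝ} (h : CtxG (200/83) 0.11 ε x n r ϱ) (a : (89/400) ≤ x) (b : x ≤ (49/200))
    (c : (1/2) ≤ n) (d : n ≤ (61/100)) : ϱ ≤ 0.11 := by
  have c1 := mul_nonneg (sub_nonneg.2 a) (sub_nonneg.2 c)
  have c2 := mul_nonneg (sub_nonneg.2 a) (sub_nonneg.2 d)
  have c3 := mul_nonneg (sub_nonneg.2 b) (sub_nonneg.2 c)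
  have c4 := mul_nonneg (sub_nonneg.2 b) (sub_nonneg.2 d)
  have e7 := h.e7
  have e0 := h.e0
  have y1 := h.y1
  have y2 := h.y2
  have r0 := h.r0
  rcases h.f 2 2 (by norm_num) (by norm_num) (by linarith) with q | q
  · exact h.s 1 1 (by norm_num) (by norm_num) (by linarith) (by linarith) (by linarith)
  · exfalso
    linarith

theorem leafB17 {ε x n r ϱ : ℝ} (h : CtxG (200/83) 0.11 ε x n r ϱ) (a : (49/200) ≤ x) (b : x ≤ (53/200))
    (c : (1/5) ≤ n) (d : n ≤ (1/4)) : ϱ ≤ 0.11 := by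
  have c1 := mul_nonneg (sub_nonneg.2 a) (sub_nonneg.2 c)
  have c2 := mul_nonneg (sub_nonneg.2 a) (sub_nonneg.2 d)
  have c3 := mul_nonneg (sub_nonneg.2 b) (sub_nonneg.2 c)
  have c4 := mul_nonneg (sub_nonneg.2 b) (sub_nonneg.2 d)
  have e7 := h.e7
  have e0 := h.e0
  have y1 := h.y1
  have y2 := h.y2
  have r0 := h.r0
  rcases h.f 3 3 (by norm_num) (by norm_num) (by linarith) with q | q
  · exfalso
    linarith
  · exact h.s 4 4 (by norm_num) (by norm_num) (by linarith) (by linarith) (by linarith)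

theorem leafB18 {ε x n r ϱ : ℝ} (h : CtxG (200/83) 0.11 ε x n r ϱ) (a : (49/200) ≤ x) (b : x ≤ (53/200))
    (c : (1/4) ≤ n) (d : n ≤ (71/250)) : ϱ ≤ 0.11 := by
  have c1 := mul_nonneg (sub_nonneg.2 a) (sub_nonneg.2 c)
  have c2 := mul_nonneg (sub_nonneg.2 a) (sub_nonneg.2 d)
  have c3 := mul_nonneg (sub_nonneg.2 b) (sub_nonneg.2 c)
  have c4 := mul_nonneg (sub_nonneg.2 b) (sub_nonneg.2 d)
  have e7 := h.e7
  have e0 := h.e0
  have y1 := h.y1
  have y2 := h.y2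
  have r0 := h.r0
  exact (h.p 4 4 (by norm_num) (by norm_num) (by linarith) (by linarith)).elim

theorem leafB19 {ε x n r ϱ : ℝ} (h : CtxG (200/83) 0.11 ε x n r ϱ) (a : (49/200) ≤ x) (b : x ≤ (53/200))
    (c : (71/250) ≤ n) (d : n ≤ (1667/5000)) : ϱ ≤ 0.11 := by
  have c1 := mul_nonneg (sub_nonneg.2 a) (sub_nonneg.2 c)
  have c2 := mul_nonneg (sub_nonneg.2 a) (sub_nonneg.2 d)
  have c3 := mul_nonneg (sub_nonneg.2 b) (sub_nonneg.2 c)
  have c4 := mul_nonneg (sub_nonneg.2 b) (sub_nonneg.2 d)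
  have e7 := h.e7
  have e0 := h.e0
  have y1 := h.y1
  have y2 := h.y2
  have r0 := h.r0
  exact (h.q 3 3 (by norm_num) (by norm_num) (by linarith) (by linarith)).elim

theorem leafB20 {ε x n r ϱ : ℝ} (h : CtxG (200/83) 0.11 ε x n r ϱ) (a : (49/200) ≤ x) (b : x ≤ (53/200))
    (c : (1667/5000) ≤ n) (d : n ≤ (2/5)) : ϱ ≤ 0.11 := by
  have c1 := mul_nonneg (sub_nonneg.2 a) (sub_nonneg.2 c)
  have c2 := mul_nonneg (sub_nonneg.2 a) (sub_nonneg.2 d)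
  have c3 := mul_nonneg (sub_nonneg.2 b) (sub_nonneg.2 c)
  have c4 := mul_nonneg (sub_nonneg.2 b) (sub_nonneg.2 d)
  have e7 := h.e7
  have e0 := h.e0
  have y1 := h.y1
  have y2 := h.y2
  have r0 := h.r0
  exact (h.p 3 3 (by norm_num) (by norm_num) (by linarith) (by linarith)).elim

theorem leafB21 {ε x n r ϱ : ℝ} (h : CtxG (200/83) 0.11 ε x n r ϱ) (a : (49/200) ≤ x) (b : x ≤ (53/200))
    (c : (2/5) ≤ n) (d : n ≤ (1/2)) : ϱ ≤ 0.11 := by
  have c1 := mul_nonneg (sub_nonneg.2 a) (sub_nonneg.2 c)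
  have c2 := mul_nonneg (sub_nonneg.2 a) (sub_nonneg.2 d)
  have c3 := mul_nonneg (sub_nonneg.2 b) (sub_nonneg.2 c)
  have c4 := mul_nonneg (sub_nonneg.2 b) (sub_nonneg.2 d)
  have e7 := h.e7
  have e0 := h.e0
  have y1 := h.y1
  have y2 := h.y2
  have r0 := h.r0
  rcases h.f 2 2 (by norm_num) (by norm_num) (by linarith) with q | q
  · exfalso
    linarith
  · exact h.s 2 2 (by norm_num) (by norm_num) (by linarith) (by linarith) (by linarith)

theorem leafB22 {ε x n r ϱ : ℝ} (h : CtxG (200/83) 0.11 ε x n r ϱ) (a : (49/200) ≤ x) (b : x ≤ (53/200))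
    (c : (1/2) ≤ n) (d : n ≤ (3/5)) : ϱ ≤ 0.11 := by
  have c1 := mul_nonneg (sub_nonneg.2 a) (sub_nonneg.2 c)
  have c2 := mul_nonneg (sub_nonneg.2 a) (sub_nonneg.2 d)
  have c3 := mul_nonneg (sub_nonneg.2 b) (sub_nonneg.2 c)
  have c4 := mul_nonneg (sub_nonneg.2 b) (sub_nonneg.2 d)
  have e7 := h.e7
  have e0 := h.e0
  have y1 := h.y1
  have y2 := h.y2
  have r0 := h.r0
  exact (h.p 2 2 (by norm_num) (by norm_num) (by linarith) (by linarith)).elim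

theorem leafB23 {ε x n r ϱ : ℝ} (h : CtxG (200/83) 0.11 ε x n r ϱ) (a : (49/200) ≤ x) (b : x ≤ (53/200))
    (c : (3/5) ≤ n) (d : n ≤ (637/1000)) : ϱ ≤ 0.11 := by
  have c1 := mul_nonneg (sub_nonneg.2 a) (sub_nonneg.2 c)
  have c2 := mul_nonneg (sub_nonneg.2 a) (sub_nonneg.2 d)
  have c3 := mul_nonneg (sub_nonneg.2 b) (sub_nonneg.2 c)
  have c4 := mul_nonneg (sub_nonneg.2 b) (sub_nonneg.2 d)
  have e7 := h.e7
  have e0 := h.e0
  have y1 := h.y1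
  have y2 := h.y2
  have r0 := h.r0
  rcases h.f 2 2 (by norm_num) (by norm_num) (by linarith) with q | q
  · exact h.s 1 1 (by norm_num) (by norm_num) (by linarith) (by linarith) (by linarith)
  · exfalso
    linarith

theorem leafB24 {ε x n r ϱ : ℝ} (h : CtxG (200/83) 0.11 ε x n r ϱ) (a : (53/200) ≤ x) (b : x ≤ (3/10))
    (c : (1/5) ≤ n) (d : n ≤ (1/4)) : ϱ ≤ 0.11 := by
  have c1 := mul_nonneg (sub_nonneg.2 a) (sub_nonneg.2 c)
  have c2 := mul_nonneg (sub_nonneg.2 a) (sub_nonneg.2 d)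
  have c3 := mul_nonneg (sub_nonneg.2 b) (sub_nonneg.2 c)
  have c4 := mul_nonneg (sub_nonneg.2 b) (sub_nonneg.2 d)
  have e7 := h.e7
  have e0 := h.e0
  have y1 := h.y1
  have y2 := h.y2
  have r0 := h.r0
  exact (h.q 4 4 (by norm_num) (by norm_num) (by linarith) (by linarith)).elim

theorem leafB25 {ε x n r ϱ : ℝ} (h : CtxG (200/83) 0.11 ε x n r ϱ) (a : (53/200) ≤ x) (b : x ≤ (3/10))
    (c : (1/4) ≤ n) (d : n ≤ (71/250)) : ϱ ≤ 0.11 := by
  have c1 := mul_nonneg (sub_nonneg.2 a) (sub_nonneg.2 c)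
  have c2 := mul_nonneg (sub_nonneg.2 a) (sub_nonneg.2 d)
  have c3 := mul_nonneg (sub_nonneg.2 b) (sub_nonneg.2 c)
  have c4 := mul_nonneg (sub_nonneg.2 b) (sub_nonneg.2 d)
  have e7 := h.e7
  have e0 := h.e0
  have y1 := h.y1
  have y2 := h.y2
  have r0 := h.r0
  exact (h.q 4 4 (by norm_num) (by norm_num) (by linarith) (by linarith)).elim

theorem leafB26 {ε x n r ϱ : ℝ} (h : CtxG (200/83) 0.11 ε x n r ϱ) (a : (53/200) ≤ x) (b : x ≤ (3/10))
    (c : (71/250) ≤ n) (d : n ≤ (1667/5000)) : ϱ ≤ 0.11 := by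
  have c1 := mul_nonneg (sub_nonneg.2 a) (sub_nonneg.2 c)
  have c2 := mul_nonneg (sub_nonneg.2 a) (sub_nonneg.2 d)
  have c3 := mul_nonneg (sub_nonneg.2 b) (sub_nonneg.2 c)
  have c4 := mul_nonneg (sub_nonneg.2 b) (sub_nonneg.2 d)
  have e7 := h.e7
  have e0 := h.e0
  have y1 := h.y1
  have y2 := h.y2
  have r0 := h.r0
  exact (h.q 3 3 (by norm_num) (by norm_num) (by linarith) (by linarith)).elim

theorem leafB27 {ε x n r ϱ : ℝ} (h : CtxG (200/83) 0.11 ε x n r ϱ) (a : (53/200) ≤ x) (b : x ≤ (3/10))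
    (c : (1667/5000) ≤ n) (d : n ≤ (2/5)) : ϱ ≤ 0.11 := by
  have c1 := mul_nonneg (sub_nonneg.2 a) (sub_nonneg.2 c)
  have c2 := mul_nonneg (sub_nonneg.2 a) (sub_nonneg.2 d)
  have c3 := mul_nonneg (sub_nonneg.2 b) (sub_nonneg.2 c)
  have c4 := mul_nonneg (sub_nonneg.2 b) (sub_nonneg.2 d)
  have e7 := h.e7
  have e0 := h.e0
  have y1 := h.y1
  have y2 := h.y2
  have r0 := h.r0
  exact (h.q 3 3 (by norm_num) (by norm_num) (by linarith) (by linarith)).elim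

theorem leafB28 {ε x n r ϱ : ℝ} (h : CtxG (200/83) 0.11 ε x n r ϱ) (a : (53/200) ≤ x) (b : x ≤ (3/10))
    (c : (2/5) ≤ n) (d : n ≤ (1/2)) : ϱ ≤ 0.11 := by
  have c1 := mul_nonneg (sub_nonneg.2 a) (sub_nonneg.2 c)
  have c2 := mul_nonneg (sub_nonneg.2 a) (sub_nonneg.2 d)
  have c3 := mul_nonneg (sub_nonneg.2 b) (sub_nonneg.2 c)
  have c4 := mul_nonneg (sub_nonneg.2 b) (sub_nonneg.2 d)
  have e7 := h.e7
  have e0 := h.e0
  have y1 := h.y1
  have y2 := h.y2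
  have r0 := h.r0
  exact (h.q 2 2 (by norm_num) (by norm_num) (by linarith) (by linarith)).elim

theorem leafB29 {ε x n r ϱ : ℝ} (h : CtxG (200/83) 0.11 ε x n r ϱ) (a : (53/200) ≤ x) (b : x ≤ (3/10))
    (c : (1/2) ≤ n) (d : n ≤ (3/5)) : ϱ ≤ 0.11 := by
  have c1 := mul_nonneg (sub_nonneg.2 a) (sub_nonneg.2 c)
  have c2 := mul_nonneg (sub_nonneg.2 a) (sub_nonneg.2 d)
  have c3 := mul_nonneg (sub_nonneg.2 b) (sub_nonneg.2 c)
  have c4 := mul_nonneg (sub_nonneg.2 b) (sub_nonneg.2 d)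
  have e7 := h.e7
  have e0 := h.e0
  have y1 := h.y1
  have y2 := h.y2
  have r0 := h.r0
  exact (h.q 2 2 (by norm_num) (by norm_num) (by linarith) (by linarith)).elim

theorem leafB30 {ε x n r ϱ : ℝ} (h : CtxG (200/83) 0.11 ε x n r ϱ) (a : (53/200) ≤ x) (b : x ≤ (3/10))
    (c : (3/5) ≤ n) (d : n ≤ (691/1000)) : ϱ ≤ 0.11 := by
  have c1 := mul_nonneg (sub_nonneg.2 a) (sub_nonneg.2 c)
  have c2 := mul_nonneg (sub_nonneg.2 a) (sub_nonneg.2 d)
  have c3 := mul_nonneg (sub_nonneg.2 b) (sub_nonneg.2 c)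
  have c4 := mul_nonneg (sub_nonneg.2 b) (sub_nonneg.2 d)
  have e7 := h.e7
  have e0 := h.e0
  have y1 := h.y1
  have y2 := h.y2
  have r0 := h.r0
  rcases h.f 2 2 (by norm_num) (by norm_num) (by linarith) with q | q
  · exact h.s 1 1 (by norm_num) (by norm_num) (by linarith) (by linarith) (by linarith)
  · exfalso
    linarith

theorem leafB31 {ε x n r ϱ : ℝ} (h : CtxG (200/83) 0.11 ε x n r ϱ) (a : (3/10) ≤ x) (b : x ≤ (400001/1000000))
    (c : (1/5) ≤ n) (d : n ≤ (1/4)) : ϱ ≤ 0.11 := by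
  have c1 := mul_nonneg (sub_nonneg.2 a) (sub_nonneg.2 c)
  have c2 := mul_nonneg (sub_nonneg.2 a) (sub_nonneg.2 d)
  have c3 := mul_nonneg (sub_nonneg.2 b) (sub_nonneg.2 c)
  have c4 := mul_nonneg (sub_nonneg.2 b) (sub_nonneg.2 d)
  have e7 := h.e7
  have e0 := h.e0
  have y1 := h.y1
  have y2 := h.y2
  have r0 := h.r0
  exact (h.q 4 4 (by norm_num) (by norm_num) (by linarith) (by linarith)).elim

theorem leafB32 {ε x n r ϱ : ℝ} (h : CtxG (200/83) 0.11 ε x n r ϱ) (a : (3/10) ≤ x) (b : x ≤ (400001/1000000))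
    (c : (1/4) ≤ n) (d : n ≤ (71/250)) : ϱ ≤ 0.11 := by
  have c1 := mul_nonneg (sub_nonneg.2 a) (sub_nonneg.2 c)
  have c2 := mul_nonneg (sub_nonneg.2 a) (sub_nonneg.2 d)
  have c3 := mul_nonneg (sub_nonneg.2 b) (sub_nonneg.2 c)
  have c4 := mul_nonneg (sub_nonneg.2 b) (sub_nonneg.2 d)
  have e7 := h.e7
  have e0 := h.e0
  have y1 := h.y1
  have y2 := h.y2
  have r0 := h.r0
  exact (h.q 3 3 (by norm_num) (by norm_num) (by linarith) (by linarith)).elim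

theorem leafB33 {ε x n r ϱ : ℝ} (h : CtxG (200/83) 0.11 ε x n r ϱ) (a : (3/10) ≤ x) (b : x ≤ (400001/1000000))
    (c : (71/250) ≤ n) (d : n ≤ (1667/5000)) : ϱ ≤ 0.11 := by
  have c1 := mul_nonneg (sub_nonneg.2 a) (sub_nonneg.2 c)
  have c2 := mul_nonneg (sub_nonneg.2 a) (sub_nonneg.2 d)
  have c3 := mul_nonneg (sub_nonneg.2 b) (sub_nonneg.2 c)
  have c4 := mul_nonneg (sub_nonneg.2 b) (sub_nonneg.2 d)
  have e7 := h.e7
  have e0 := h.e0
  have y1 := h.y1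
  have y2 := h.y2
  have r0 := h.r0
  exact (h.q 3 3 (by norm_num) (by norm_num) (by linarith) (by linarith)).elim

theorem leafB34 {ε x n r ϱ : ℝ} (h : CtxG (200/83) 0.11 ε x n r ϱ) (a : (3/10) ≤ x) (b : x ≤ (400001/1000000))
    (c : (1667/5000) ≤ n) (d : n ≤ (2/5)) : ϱ ≤ 0.11 := by
  have c1 := mul_nonneg (sub_nonneg.2 a) (sub_nonneg.2 c)
  have c2 := mul_nonneg (sub_nonneg.2 a) (sub_nonneg.2 d)
  have c3 := mul_nonneg (sub_nonneg.2 b) (sub_nonneg.2 c)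
  have c4 := mul_nonneg (sub_nonneg.2 b) (sub_nonneg.2 d)
  have e7 := h.e7
  have e0 := h.e0
  have y1 := h.y1
  have y2 := h.y2
  have r0 := h.r0
  exact (h.q 3 3 (by norm_num) (by norm_num) (by linarith) (by linarith)).elim

theorem leafB35 {ε x n r ϱ : ℝ} (h : CtxG (200/83) 0.11 ε x n r ϱ) (a : (3/10) ≤ x) (b : x ≤ (400001/1000000))
    (c : (2/5) ≤ n) (d : n ≤ (1/2)) : ϱ ≤ 0.11 := by
  have c1 := mul_nonneg (sub_nonneg.2 a) (sub_nonneg.2 c)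
  have c2 := mul_nonneg (sub_nonneg.2 a) (sub_nonneg.2 d)
  have c3 := mul_nonneg (sub_nonneg.2 b) (sub_nonneg.2 c)
  have c4 := mul_nonneg (sub_nonneg.2 b) (sub_nonneg.2 d)
  have e7 := h.e7
  have e0 := h.e0
  have y1 := h.y1
  have y2 := h.y2
  have r0 := h.r0
  exact (h.q 2 2 (by norm_num) (by norm_num) (by linarith) (by linarith)).elim

theorem leafB36 {ε x n r ϱ : ℝ} (h : CtxG (200/83) 0.11 ε x n r ϱ) (a : (3/10) ≤ x) (b : x ≤ (400001/1000000))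
    (c : (1/2) ≤ n) (d : n ≤ (3/5)) : ϱ ≤ 0.11 := by
  have c1 := mul_nonneg (sub_nonneg.2 a) (sub_nonneg.2 c)
  have c2 := mul_nonneg (sub_nonneg.2 a) (sub_nonneg.2 d)
  have c3 := mul_nonneg (sub_nonneg.2 b) (sub_nonneg.2 c)
  have c4 := mul_nonneg (sub_nonneg.2 b) (sub_nonneg.2 d)
  have e7 := h.e7
  have e0 := h.e0
  have y1 := h.y1
  have y2 := h.y2
  have r0 := h.r0
  exact (h.q 2 2 (by norm_num) (by norm_num) (by linarith) (by linarith)).elim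

theorem leafB37 {ε x n r ϱ : ℝ} (h : CtxG (200/83) 0.11 ε x n r ϱ) (a : (3/10) ≤ x) (b : x ≤ (400001/1000000))
    (c : (3/5) ≤ n) (d : n ≤ (911/1000)) : ϱ ≤ 0.11 := by
  have c1 := mul_nonneg (sub_nonneg.2 a) (sub_nonneg.2 c)
  have c2 := mul_nonneg (sub_nonneg.2 a) (sub_nonneg.2 d)
  have c3 := mul_nonneg (sub_nonneg.2 b) (sub_nonneg.2 c)
  have c4 := mul_nonneg (sub_nonneg.2 b) (sub_nonneg.2 d)
  have e7 := h.e7
  have e0 := h.e0
  have y1 := h.y1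
  have y2 := h.y2
  have r0 := h.r0
  rcases h.f 1 1 (by norm_num) (by norm_num) (by linarith) with q | q
  · exfalso
    linarith
  · exact h.s 1 1 (by norm_num) (by norm_num) (by linarith) (by linarith) (by linarith)

theorem colB0 {ε x n r ϱ : ℝ} (h : CtxG (200/83) 0.11 ε x n r ϱ) (hx0 : 0 ≤ x) (hx1 : x ≤ (1/10))
    (hn0 : 1/5 ≤ n) : ϱ ≤ 0.11 := by
  have hn1 : n ≤ (209/500) := by
    linarith [mul_nonneg (sub_nonneg.2 hx1) h.n0.le, h.y1, h.y2, h.e7]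
  rcases le_total n (71/250) with u1 | u1
  · rcases le_total n (1/4) with u2 | u2
    · exact leafB0 h hx0 hx1 hn0 u2
    · exact leafB1 h hx0 hx1 u2 u1
  · rcases le_total n (1667/5000) with u2 | u2
    · exact leafB2 h hx0 hx1 u1 u2
    · exact leafB3 h hx0 hx1 u2 hn1


theorem colB1 {ε x n r ϱ : ℝ} (h : CtxG (200/83) 0.11 ε x n r ϱ) (hx0 : (1/10) ≤ x) (hx1 : x ≤ (1/5))
    (hn0 : 1/5 ≤ n) : ϱ ≤ 0.11 := by
  have hn1 : n ≤ (557/1000) := by
    linarith [mul_nonneg (sub_nonneg.2 hx1) h.n0.le, h.y1, h.y2, h.e7]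
  rcases le_total n (1667/5000) with u1 | u1
  · rcases le_total n (1/4) with u2 | u2
    · exact leafB4 h hx0 hx1 hn0 u2
    · rcases le_total n (71/250) with u3 | u3
      · exact leafB5 h hx0 hx1 u2 u3
      · exact leafB6 h hx0 hx1 u3 u1
  · rcases le_total n (2/5) with u2 | u2
    · exact leafB7 h hx0 hx1 u1 u2
    · rcases le_total n (1/2) with u3 | u3
      · exact leafB8 h hx0 hx1 u2 u3
      · exact leafB9 h hx0 hx1 u3 hn1


theorem colB2 {ε x n r ϱ : ℝ} (h : CtxG (200/83) 0.11 ε x n r ϱ) (hx0 : (1/5) ≤ x) (hx1 : x ≤ (49/200))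
    (hn0 : 1/5 ≤ n) : ϱ ≤ 0.11 := by
  have hn1 : n ≤ (61/100) := by
    linarith [mul_nonneg (sub_nonneg.2 hx1) h.n0.le, h.y1, h.y2, h.e7]
  rcases le_total n (1667/5000) with u1 | u1
  · rcases le_total n (1/4) with u2 | u2
    · exact leafB10 h hx0 hx1 hn0 u2
    · rcases le_total n (71/250) with u3 | u3
      · exact leafB11 h hx0 hx1 u2 u3
      · exact leafB12 h hx0 hx1 u3 u1
  · rcases le_total n (2/5) with u2 | u2
    · exact leafB13 h hx0 hx1 u1 u2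
    · rcases le_total n (1/2) with u3 | u3
      · exact leafB14 h hx0 hx1 u2 u3
      · rcases le_total x (89/400) with u4 | u4
        · exact leafB15 h hx0 u4 u3 hn1
        · exact leafB16 h u4 hx1 u3 hn1


theorem colB3 {ε x n r ϱ : ℝ} (h : CtxG (200/83) 0.11 ε x n r ϱ) (hx0 : (49/200) ≤ x) (hx1 : x ≤ (53/200))
    (hn0 : 1/5 ≤ n) : ϱ ≤ 0.11 := by
  have hn1 : n ≤ (637/1000) := by
    linarith [mul_nonneg (sub_nonneg.2 hx1) h.n0.le, h.y1, h.y2, h.e7]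
  rcases le_total n (1667/5000) with u1 | u1
  · rcases le_total n (1/4) with u2 | u2
    · exact leafB17 h hx0 hx1 hn0 u2
    · rcases le_total n (71/250) with u3 | u3
      · exact leafB18 h hx0 hx1 u2 u3
      · exact leafB19 h hx0 hx1 u3 u1
  · rcases le_total n (1/2) with u2 | u2
    · rcases le_total n (2/5) with u3 | u3
      · exact leafB20 h hx0 hx1 u1 u3
      · exact leafB21 h hx0 hx1 u3 u2
    · rcases le_total n (3/5) with u3 | u3
      · exact leafB22 h hx0 hx1 u2 u3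
      · exact leafB23 h hx0 hx1 u3 hn1


theorem colB4 {ε x n r ϱ : ℝ} (h : CtxG (200/83) 0.11 ε x n r ϱ) (hx0 : (53/200) ≤ x) (hx1 : x ≤ (3/10))
    (hn0 : 1/5 ≤ n) : ϱ ≤ 0.11 := by
  have hn1 : n ≤ (691/1000) := by
    linarith [mul_nonneg (sub_nonneg.2 hx1) h.n0.le, h.y1, h.y2, h.e7]
  rcases le_total n (1667/5000) with u1 | u1
  · rcases le_total n (1/4) with u2 | u2
    · exact leafB24 h hx0 hx1 hn0 u2
    · rcases le_total n (71/250) with u3 | u3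
      · exact leafB25 h hx0 hx1 u2 u3
      · exact leafB26 h hx0 hx1 u3 u1
  · rcases le_total n (1/2) with u2 | u2
    · rcases le_total n (2/5) with u3 | u3
      · exact leafB27 h hx0 hx1 u1 u3
      · exact leafB28 h hx0 hx1 u3 u2
    · rcases le_total n (3/5) with u3 | u3
      · exact leafB29 h hx0 hx1 u2 u3
      · exact leafB30 h hx0 hx1 u3 hn1


theorem colB5 {ε x n r ϱ : ℝ} (h : CtxG (200/83) 0.11 ε x n r ϱ) (hx0 : (3/10) ≤ x) (hx1 : x ≤ (400001/1000000))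
    (hn0 : 1/5 ≤ n) : ϱ ≤ 0.11 := by
  have hn1 : n ≤ (911/1000) := by
    linarith [mul_nonneg (sub_nonneg.2 hx1) h.n0.le, h.y1, h.y2, h.e7]
  rcases le_total n (1667/5000) with u1 | u1
  · rcases le_total n (1/4) with u2 | u2
    · exact leafB31 h hx0 hx1 hn0 u2
    · rcases le_total n (71/250) with u3 | u3
      · exact leafB32 h hx0 hx1 u2 u3
      · exact leafB33 h hx0 hx1 u3 u1
  · rcases le_total n (1/2) with u2 | u2
    · rcases le_total n (2/5) with u3 | u3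
      · exact leafB34 h hx0 hx1 u1 u3
      · exact leafB35 h hx0 hx1 u3 u2
    · rcases le_total n (3/5) with u3 | u3
      · exact leafB36 h hx0 hx1 u2 u3
      · exact leafB37 h hx0 hx1 u3 hn1


theorem allcolsB {ε x n r ϱ : ℝ} (h : CtxG (200/83) 0.11 ε x n r ϱ) (hx1 : x ≤ (400001/1000000)) (hn0 : 1/5 ≤ n) :
    ϱ ≤ 0.11 := by
  have hx0 : 0 ≤ x := h.x0.le
  rcases le_total x (1/10) with v0 | v0
  · exact colB0 h hx0 v0 hn0
  rcases le_total x (1/5) with v1 | v1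
  · exact colB1 h v0 v1 hn0
  rcases le_total x (49/200) with v2 | v2
  · exact colB2 h v1 v2 hn0
  rcases le_total x (53/200) with v3 | v3
  · exact colB3 h v2 v3 hn0
  rcases le_total x (3/10) with v4 | v4
  · exact colB4 h v3 v4 hn0
  exact colB5 h v4 hx1 hn0

theorem numericB : NumericG (200/83) 0.11 := by
  intro ε0 hε0 hε01 ε x n r ϱ e0 eε xε x4 n0 hy hf hg r0 hs he
  have e7 : ε ≤ 1 / 10 ^ 7 := by norm_num at *; linarith
  have ex : ε ≤ x / 10 ^ 5 := by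
    refine eε.trans ?_
    exact div_le_div_of_nonneg_right xε (by norm_num)
  have x0 : 0 < x := by linarith
  have x4' : x ≤ 400001 / 1000000 := by norm_num at *; linarith
  rcases le_total n (1/5) with hn | hn
  · exact (smallG (κ := (200/83)) e0 ex x0 x4 n0 (by linarith) (by linarith) hf r0).elim
  exact allcolsB (mkCtxG (by norm_num) (by norm_num) (by norm_num) e0 e7 ex x0 x4' n0 hy hf hg r0 hs he) x4' hn

theorem leafC0 {ε x n r ϱ : ℝ} (h : CtxG (5/2) 0.055 ε x n r ϱ) (a : 0 ≤ x) (b : x ≤ (1/10))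
    (c : (49/200) ≤ n) (d : n ≤ (71/250)) : ϱ ≤ 0.055 := by
  have c1 := mul_nonneg (sub_nonneg.2 a) (sub_nonneg.2 c)
  have c2 := mul_nonneg (sub_nonneg.2 a) (sub_nonneg.2 d)
  have c3 := mul_nonneg (sub_nonneg.2 b) (sub_nonneg.2 c)
  have c4 := mul_nonneg (sub_nonneg.2 b) (sub_nonneg.2 d)
  have e7 := h.e7
  have e0 := h.e0
  have y1 := h.y1
  have y2 := h.y2
  have r0 := h.r0
  exact (h.p 3 3 (by norm_num) (by norm_num) (by linarith) (by linarith)).elim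

theorem leafC1 {ε x n r ϱ : ℝ} (h : CtxG (5/2) 0.055 ε x n r ϱ) (a : 0 ≤ x) (b : x ≤ (1/10))
    (c : (71/250) ≤ n) (d : n ≤ (1667/5000)) : ϱ ≤ 0.055 := by
  have c1 := mul_nonneg (sub_nonneg.2 a) (sub_nonneg.2 c)
  have c2 := mul_nonneg (sub_nonneg.2 a) (sub_nonneg.2 d)
  have c3 := mul_nonneg (sub_nonneg.2 b) (sub_nonneg.2 c)
  have c4 := mul_nonneg (sub_nonneg.2 b) (sub_nonneg.2 d)
  have e7 := h.e7
  have e0 := h.e0
  have y1 := h.y1
  have y2 := h.y2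
  have r0 := h.r0
  exact (h.p 2 2 (by norm_num) (by norm_num) (by linarith) (by linarith)).elim

theorem leafC2 {ε x n r ϱ : ℝ} (h : CtxG (5/2) 0.055 ε x n r ϱ) (a : 0 ≤ x) (b : x ≤ (1/10))
    (c : (1667/5000) ≤ n) (d : n ≤ (209/500)) : ϱ ≤ 0.055 := by
  have c1 := mul_nonneg (sub_nonneg.2 a) (sub_nonneg.2 c)
  have c2 := mul_nonneg (sub_nonneg.2 a) (sub_nonneg.2 d)
  have c3 := mul_nonneg (sub_nonneg.2 b) (sub_nonneg.2 c)
  have c4 := mul_nonneg (sub_nonneg.2 b) (sub_nonneg.2 d)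
  have e7 := h.e7
  have e0 := h.e0
  have y1 := h.y1
  have y2 := h.y2
  have r0 := h.r0
  exact (h.p 2 2 (by norm_num) (by norm_num) (by linarith) (by linarith)).elim

theorem leafC3 {ε x n r ϱ : ℝ} (h : CtxG (5/2) 0.055 ε x n r ϱ) (a : (1/10) ≤ x) (b : x ≤ (1/5))
    (c : (49/200) ≤ n) (d : n ≤ (71/250)) : ϱ ≤ 0.055 := by
  have c1 := mul_nonneg (sub_nonneg.2 a) (sub_nonneg.2 c)
  have c2 := mul_nonneg (sub_nonneg.2 a) (sub_nonneg.2 d)
  have c3 := mul_nonneg (sub_nonneg.2 b) (sub_nonneg.2 c)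
  have c4 := mul_nonneg (sub_nonneg.2 b) (sub_nonneg.2 d)
  have e7 := h.e7
  have e0 := h.e0
  have y1 := h.y1
  have y2 := h.y2
  have r0 := h.r0
  exact (h.p 3 3 (by norm_num) (by norm_num) (by linarith) (by linarith)).elim

theorem leafC4 {ε x n r ϱ : ℝ} (h : CtxG (5/2) 0.055 ε x n r ϱ) (a : (1/10) ≤ x) (b : x ≤ (1/5))
    (c : (71/250) ≤ n) (d : n ≤ (1667/5000)) : ϱ ≤ 0.055 := by
  have c1 := mul_nonneg (sub_nonneg.2 a) (sub_nonneg.2 c)
  have c2 := mul_nonneg (sub_nonneg.2 a) (sub_nonneg.2 d)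
  have c3 := mul_nonneg (sub_nonneg.2 b) (sub_nonneg.2 c)
  have c4 := mul_nonneg (sub_nonneg.2 b) (sub_nonneg.2 d)
  have e7 := h.e7
  have e0 := h.e0
  have y1 := h.y1
  have y2 := h.y2
  have r0 := h.r0
  exact (h.p 3 3 (by norm_num) (by norm_num) (by linarith) (by linarith)).elim

theorem leafC5 {ε x n r ϱ : ℝ} (h : CtxG (5/2) 0.055 ε x n r ϱ) (a : (1/10) ≤ x) (b : x ≤ (1/5))
    (c : (1667/5000) ≤ n) (d : n ≤ (2/5)) : ϱ ≤ 0.055 := by
  have c1 := mul_nonneg (sub_nonneg.2 a) (sub_nonneg.2 c)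
  have c2 := mul_nonneg (sub_nonneg.2 a) (sub_nonneg.2 d)
  have c3 := mul_nonneg (sub_nonneg.2 b) (sub_nonneg.2 c)
  have c4 := mul_nonneg (sub_nonneg.2 b) (sub_nonneg.2 d)
  have e7 := h.e7
  have e0 := h.e0
  have y1 := h.y1
  have y2 := h.y2
  have r0 := h.r0
  exact (h.p 2 2 (by norm_num) (by norm_num) (by linarith) (by linarith)).elim

theorem leafC6 {ε x n r ϱ : ℝ} (h : CtxG (5/2) 0.055 ε x n r ϱ) (a : (1/10) ≤ x) (b : x ≤ (1/5))
    (c : (2/5) ≤ n) (d : n ≤ (1/2)) : ϱ ≤ 0.055 := by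
  have c1 := mul_nonneg (sub_nonneg.2 a) (sub_nonneg.2 c)
  have c2 := mul_nonneg (sub_nonneg.2 a) (sub_nonneg.2 d)
  have c3 := mul_nonneg (sub_nonneg.2 b) (sub_nonneg.2 c)
  have c4 := mul_nonneg (sub_nonneg.2 b) (sub_nonneg.2 d)
  have e7 := h.e7
  have e0 := h.e0
  have y1 := h.y1
  have y2 := h.y2
  have r0 := h.r0
  exact (h.p 2 2 (by norm_num) (by norm_num) (by linarith) (by linarith)).elim

theorem leafC7 {ε x n r ϱ : ℝ} (h : CtxG (5/2) 0.055 ε x n r ϱ) (a : (1/10) ≤ x) (b : x ≤ (1/5))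
    (c : (1/2) ≤ n) (d : n ≤ (557/1000)) : ϱ ≤ 0.055 := by
  have c1 := mul_nonneg (sub_nonneg.2 a) (sub_nonneg.2 c)
  have c2 := mul_nonneg (sub_nonneg.2 a) (sub_nonneg.2 d)
  have c3 := mul_nonneg (sub_nonneg.2 b) (sub_nonneg.2 c)
  have c4 := mul_nonneg (sub_nonneg.2 b) (sub_nonneg.2 d)
  have e7 := h.e7
  have e0 := h.e0
  have y1 := h.y1
  have y2 := h.y2
  have r0 := h.r0
  exact (h.p 2 2 (by norm_num) (by norm_num) (by linarith) (by linarith)).elim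

theorem leafC8 {ε x n r ϱ : ℝ} (h : CtxG (5/2) 0.055 ε x n r ϱ) (a : (1/5) ≤ x) (b : x ≤ (49/200))
    (c : (49/200) ≤ n) (d : n ≤ (71/250)) : ϱ ≤ 0.055 := by
  have c1 := mul_nonneg (sub_nonneg.2 a) (sub_nonneg.2 c)
  have c2 := mul_nonneg (sub_nonneg.2 a) (sub_nonneg.2 d)
  have c3 := mul_nonneg (sub_nonneg.2 b) (sub_nonneg.2 c)
  have c4 := mul_nonneg (sub_nonneg.2 b) (sub_nonneg.2 d)
  have e7 := h.e7
  have e0 := h.e0
  have y1 := h.y1
  have y2 := h.y2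
  have r0 := h.r0
  exact (h.p 3 3 (by norm_num) (by norm_num) (by linarith) (by linarith)).elim

theorem leafC9 {ε x n r ϱ : ℝ} (h : CtxG (5/2) 0.055 ε x n r ϱ) (a : (1/5) ≤ x) (b : x ≤ (49/200))
    (c : (71/250) ≤ n) (d : n ≤ (1667/5000)) : ϱ ≤ 0.055 := by
  have c1 := mul_nonneg (sub_nonneg.2 a) (sub_nonneg.2 c)
  have c2 := mul_nonneg (sub_nonneg.2 a) (sub_nonneg.2 d)
  have c3 := mul_nonneg (sub_nonneg.2 b) (sub_nonneg.2 c)
  have c4 := mul_nonneg (sub_nonneg.2 b) (sub_nonneg.2 d)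
  have e7 := h.e7
  have e0 := h.e0
  have y1 := h.y1
  have y2 := h.y2
  have r0 := h.r0
  exact (h.p 3 3 (by norm_num) (by norm_num) (by linarith) (by linarith)).elim

theorem leafC10 {ε x n r ϱ : ℝ} (h : CtxG (5/2) 0.055 ε x n r ϱ) (a : (1/5) ≤ x) (b : x ≤ (49/200))
    (c : (1667/5000) ≤ n) (d : n ≤ (2/5)) : ϱ ≤ 0.055 := by
  have c1 := mul_nonneg (sub_nonneg.2 a) (sub_nonneg.2 c)
  have c2 := mul_nonneg (sub_nonneg.2 a) (sub_nonneg.2 d)
  have c3 := mul_nonneg (sub_nonneg.2 b) (sub_nonneg.2 c)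
  have c4 := mul_nonneg (sub_nonneg.2 b) (sub_nonneg.2 d)
  have e7 := h.e7
  have e0 := h.e0
  have y1 := h.y1
  have y2 := h.y2
  have r0 := h.r0
  exact (h.p 3 3 (by norm_num) (by norm_num) (by linarith) (by linarith)).elim

theorem leafC11 {ε x n r ϱ : ℝ} (h : CtxG (5/2) 0.055 ε x n r ϱ) (a : (1/5) ≤ x) (b : x ≤ (49/200))
    (c : (2/5) ≤ n) (d : n ≤ (1/2)) : ϱ ≤ 0.055 := by
  have c1 := mul_nonneg (sub_nonneg.2 a) (sub_nonneg.2 c)
  have c2 := mul_nonneg (sub_nonneg.2 a) (sub_nonneg.2 d)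
  have c3 := mul_nonneg (sub_nonneg.2 b) (sub_nonneg.2 c)
  have c4 := mul_nonneg (sub_nonneg.2 b) (sub_nonneg.2 d)
  have e7 := h.e7
  have e0 := h.e0
  have y1 := h.y1
  have y2 := h.y2
  have r0 := h.r0
  exact (h.p 2 2 (by norm_num) (by norm_num) (by linarith) (by linarith)).elim

theorem leafC12 {ε x n r ϱ : ℝ} (h : CtxG (5/2) 0.055 ε x n r ϱ) (a : (1/5) ≤ x) (b : x ≤ (49/200))
    (c : (1/2) ≤ n) (d : n ≤ (61/100)) : ϱ ≤ 0.055 := by
  have c1 := mul_nonneg (sub_nonneg.2 a) (sub_nonneg.2 c)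
  have c2 := mul_nonneg (sub_nonneg.2 a) (sub_nonneg.2 d)
  have c3 := mul_nonneg (sub_nonneg.2 b) (sub_nonneg.2 c)
  have c4 := mul_nonneg (sub_nonneg.2 b) (sub_nonneg.2 d)
  have e7 := h.e7
  have e0 := h.e0
  have y1 := h.y1
  have y2 := h.y2
  have r0 := h.r0
  exact (h.p 2 2 (by norm_num) (by norm_num) (by linarith) (by linarith)).elim

theorem leafC13 {ε x n r ϱ : ℝ} (h : CtxG (5/2) 0.055 ε x n r ϱ) (a : (49/200) ≤ x) (b : x ≤ (53/200))
    (c : (49/200) ≤ n) (d : n ≤ (71/250)) : ϱ ≤ 0.055 := by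
  have c1 := mul_nonneg (sub_nonneg.2 a) (sub_nonneg.2 c)
  have c2 := mul_nonneg (sub_nonneg.2 a) (sub_nonneg.2 d)
  have c3 := mul_nonneg (sub_nonneg.2 b) (sub_nonneg.2 c)
  have c4 := mul_nonneg (sub_nonneg.2 b) (sub_nonneg.2 d)
  have e7 := h.e7
  have e0 := h.e0
  have y1 := h.y1
  have y2 := h.y2
  have r0 := h.r0
  exact (h.p 4 4 (by norm_num) (by norm_num) (by linarith) (by linarith)).elim

theorem leafC14 {ε x n r ϱ : ℝ} (h : CtxG (5/2) 0.055 ε x n r ϱ) (a : (49/200) ≤ x) (b : x ≤ (53/200))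
    (c : (71/250) ≤ n) (d : n ≤ (1667/5000)) : ϱ ≤ 0.055 := by
  have c1 := mul_nonneg (sub_nonneg.2 a) (sub_nonneg.2 c)
  have c2 := mul_nonneg (sub_nonneg.2 a) (sub_nonneg.2 d)
  have c3 := mul_nonneg (sub_nonneg.2 b) (sub_nonneg.2 c)
  have c4 := mul_nonneg (sub_nonneg.2 b) (sub_nonneg.2 d)
  have e7 := h.e7
  have e0 := h.e0
  have y1 := h.y1
  have y2 := h.y2
  have r0 := h.r0
  exact (h.p 3 3 (by norm_num) (by norm_num) (by linarith) (by linarith)).elim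

theorem leafC15 {ε x n r ϱ : ℝ} (h : CtxG (5/2) 0.055 ε x n r ϱ) (a : (49/200) ≤ x) (b : x ≤ (53/200))
    (c : (1667/5000) ≤ n) (d : n ≤ (2/5)) : ϱ ≤ 0.055 := by
  have c1 := mul_nonneg (sub_nonneg.2 a) (sub_nonneg.2 c)
  have c2 := mul_nonneg (sub_nonneg.2 a) (sub_nonneg.2 d)
  have c3 := mul_nonneg (sub_nonneg.2 b) (sub_nonneg.2 c)
  have c4 := mul_nonneg (sub_nonneg.2 b) (sub_nonneg.2 d)
  have e7 := h.e7
  have e0 := h.e0
  have y1 := h.y1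
  have y2 := h.y2
  have r0 := h.r0
  exact (h.p 3 3 (by norm_num) (by norm_num) (by linarith) (by linarith)).elim

theorem leafC16 {ε x n r ϱ : ℝ} (h : CtxG (5/2) 0.055 ε x n r ϱ) (a : (49/200) ≤ x) (b : x ≤ (53/200))
    (c : (2/5) ≤ n) (d : n ≤ (1/2)) : ϱ ≤ 0.055 := by
  have c1 := mul_nonneg (sub_nonneg.2 a) (sub_nonneg.2 c)
  have c2 := mul_nonneg (sub_nonneg.2 a) (sub_nonneg.2 d)
  have c3 := mul_nonneg (sub_nonneg.2 b) (sub_nonneg.2 c)
  have c4 := mul_nonneg (sub_nonneg.2 b) (sub_nonneg.2 d)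
  have e7 := h.e7
  have e0 := h.e0
  have y1 := h.y1
  have y2 := h.y2
  have r0 := h.r0
  exact (h.q 2 2 (by norm_num) (by norm_num) (by linarith) (by linarith)).elim

theorem leafC17 {ε x n r ϱ : ℝ} (h : CtxG (5/2) 0.055 ε x n r ϱ) (a : (49/200) ≤ x) (b : x ≤ (53/200))
    (c : (1/2) ≤ n) (d : n ≤ (3/5)) : ϱ ≤ 0.055 := by
  have c1 := mul_nonneg (sub_nonneg.2 a) (sub_nonneg.2 c)
  have c2 := mul_nonneg (sub_nonneg.2 a) (sub_nonneg.2 d)
  have c3 := mul_nonneg (sub_nonneg.2 b) (sub_nonneg.2 c)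
  have c4 := mul_nonneg (sub_nonneg.2 b) (sub_nonneg.2 d)
  have e7 := h.e7
  have e0 := h.e0
  have y1 := h.y1
  have y2 := h.y2
  have r0 := h.r0
  exact (h.p 2 2 (by norm_num) (by norm_num) (by linarith) (by linarith)).elim

theorem leafC18 {ε x n r ϱ : ℝ} (h : CtxG (5/2) 0.055 ε x n r ϱ) (a : (49/200) ≤ x) (b : x ≤ (53/200))
    (c : (3/5) ≤ n) (d : n ≤ (637/1000)) : ϱ ≤ 0.055 := by
  have c1 := mul_nonneg (sub_nonneg.2 a) (sub_nonneg.2 c)
  have c2 := mul_nonneg (sub_nonneg.2 a) (sub_nonneg.2 d)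
  have c3 := mul_nonneg (sub_nonneg.2 b) (sub_nonneg.2 c)
  have c4 := mul_nonneg (sub_nonneg.2 b) (sub_nonneg.2 d)
  have e7 := h.e7
  have e0 := h.e0
  have y1 := h.y1
  have y2 := h.y2
  have r0 := h.r0
  rcases h.f 2 2 (by norm_num) (by norm_num) (by linarith) with q | q
  · exact h.s 1 1 (by norm_num) (by norm_num) (by linarith) (by linarith) (by linarith)
  · exfalso
    linarith

theorem leafC19 {ε x n r ϱ : ℝ} (h : CtxG (5/2) 0.055 ε x n r ϱ) (a : (53/200) ≤ x) (b : x ≤ (3/10))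
    (c : (49/200) ≤ n) (d : n ≤ (71/250)) : ϱ ≤ 0.055 := by
  have c1 := mul_nonneg (sub_nonneg.2 a) (sub_nonneg.2 c)
  have c2 := mul_nonneg (sub_nonneg.2 a) (sub_nonneg.2 d)
  have c3 := mul_nonneg (sub_nonneg.2 b) (sub_nonneg.2 c)
  have c4 := mul_nonneg (sub_nonneg.2 b) (sub_nonneg.2 d)
  have e7 := h.e7
  have e0 := h.e0
  have y1 := h.y1
  have y2 := h.y2
  have r0 := h.r0
  exact (h.q 3 3 (by norm_num) (by norm_num) (by linarith) (by linarith)).elim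

theorem leafC20 {ε x n r ϱ : ℝ} (h : CtxG (5/2) 0.055 ε x n r ϱ) (a : (53/200) ≤ x) (b : x ≤ (3/10))
    (c : (71/250) ≤ n) (d : n ≤ (1667/5000)) : ϱ ≤ 0.055 := by
  have c1 := mul_nonneg (sub_nonneg.2 a) (sub_nonneg.2 c)
  have c2 := mul_nonneg (sub_nonneg.2 a) (sub_nonneg.2 d)
  have c3 := mul_nonneg (sub_nonneg.2 b) (sub_nonneg.2 c)
  have c4 := mul_nonneg (sub_nonneg.2 b) (sub_nonneg.2 d)
  have e7 := h.e7
  have e0 := h.e0
  have y1 := h.y1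
  have y2 := h.y2
  have r0 := h.r0
  exact (h.q 3 3 (by norm_num) (by norm_num) (by linarith) (by linarith)).elim

theorem leafC21 {ε x n r ϱ : ℝ} (h : CtxG (5/2) 0.055 ε x n r ϱ) (a : (53/200) ≤ x) (b : x ≤ (3/10))
    (c : (1667/5000) ≤ n) (d : n ≤ (2/5)) : ϱ ≤ 0.055 := by
  have c1 := mul_nonneg (sub_nonneg.2 a) (sub_nonneg.2 c)
  have c2 := mul_nonneg (sub_nonneg.2 a) (sub_nonneg.2 d)
  have c3 := mul_nonneg (sub_nonneg.2 b) (sub_nonneg.2 c)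
  have c4 := mul_nonneg (sub_nonneg.2 b) (sub_nonneg.2 d)
  have e7 := h.e7
  have e0 := h.e0
  have y1 := h.y1
  have y2 := h.y2
  have r0 := h.r0
  exact (h.q 3 3 (by norm_num) (by norm_num) (by linarith) (by linarith)).elim

theorem leafC22 {ε x n r ϱ : ℝ} (h : CtxG (5/2) 0.055 ε x n r ϱ) (a : (53/200) ≤ x) (b : x ≤ (3/10))
    (c : (2/5) ≤ n) (d : n ≤ (1/2)) : ϱ ≤ 0.055 := by
  have c1 := mul_nonneg (sub_nonneg.2 a) (sub_nonneg.2 c)
  have c2 := mul_nonneg (sub_nonneg.2 a) (sub_nonneg.2 d)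
  have c3 := mul_nonneg (sub_nonneg.2 b) (sub_nonneg.2 c)
  have c4 := mul_nonneg (sub_nonneg.2 b) (sub_nonneg.2 d)
  have e7 := h.e7
  have e0 := h.e0
  have y1 := h.y1
  have y2 := h.y2
  have r0 := h.r0
  exact (h.q 2 2 (by norm_num) (by norm_num) (by linarith) (by linarith)).elim

theorem leafC23 {ε x n r ϱ : ℝ} (h : CtxG (5/2) 0.055 ε x n r ϱ) (a : (53/200) ≤ x) (b : x ≤ (3/10))
    (c : (1/2) ≤ n) (d : n ≤ (3/5)) : ϱ ≤ 0.055 := by
  have c1 := mul_nonneg (sub_nonneg.2 a) (sub_nonneg.2 c)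
  have c2 := mul_nonneg (sub_nonneg.2 a) (sub_nonneg.2 d)
  have c3 := mul_nonneg (sub_nonneg.2 b) (sub_nonneg.2 c)
  have c4 := mul_nonneg (sub_nonneg.2 b) (sub_nonneg.2 d)
  have e7 := h.e7
  have e0 := h.e0
  have y1 := h.y1
  have y2 := h.y2
  have r0 := h.r0
  exact (h.q 2 2 (by norm_num) (by norm_num) (by linarith) (by linarith)).elim

theorem leafC24 {ε x n r ϱ : ℝ} (h : CtxG (5/2) 0.055 ε x n r ϱ) (a : (53/200) ≤ x) (b : x ≤ (3/10))
    (c : (3/5) ≤ n) (d : n ≤ (691/1000)) : ϱ ≤ 0.055 := by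
  have c1 := mul_nonneg (sub_nonneg.2 a) (sub_nonneg.2 c)
  have c2 := mul_nonneg (sub_nonneg.2 a) (sub_nonneg.2 d)
  have c3 := mul_nonneg (sub_nonneg.2 b) (sub_nonneg.2 c)
  have c4 := mul_nonneg (sub_nonneg.2 b) (sub_nonneg.2 d)
  have e7 := h.e7
  have e0 := h.e0
  have y1 := h.y1
  have y2 := h.y2
  have r0 := h.r0
  rcases h.f 2 2 (by norm_num) (by norm_num) (by linarith) with q | q
  · exact h.s 1 1 (by norm_num) (by norm_num) (by linarith) (by linarith) (by linarith)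
  · exfalso
    linarith

theorem leafC25 {ε x n r ϱ : ℝ} (h : CtxG (5/2) 0.055 ε x n r ϱ) (a : (3/10) ≤ x) (b : x ≤ (400001/1000000))
    (c : (49/200) ≤ n) (d : n ≤ (71/250)) : ϱ ≤ 0.055 := by
  have c1 := mul_nonneg (sub_nonneg.2 a) (sub_nonneg.2 c)
  have c2 := mul_nonneg (sub_nonneg.2 a) (sub_nonneg.2 d)
  have c3 := mul_nonneg (sub_nonneg.2 b) (sub_nonneg.2 c)
  have c4 := mul_nonneg (sub_nonneg.2 b) (sub_nonneg.2 d)
  have e7 := h.e7
  have e0 := h.e0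
  have y1 := h.y1
  have y2 := h.y2
  have r0 := h.r0
  exact (h.q 3 3 (by norm_num) (by norm_num) (by linarith) (by linarith)).elim

theorem leafC26 {ε x n r ϱ : ℝ} (h : CtxG (5/2) 0.055 ε x n r ϱ) (a : (3/10) ≤ x) (b : x ≤ (400001/1000000))
    (c : (71/250) ≤ n) (d : n ≤ (1667/5000)) : ϱ ≤ 0.055 := by
  have c1 := mul_nonneg (sub_nonneg.2 a) (sub_nonneg.2 c)
  have c2 := mul_nonneg (sub_nonneg.2 a) (sub_nonneg.2 d)
  have c3 := mul_nonneg (sub_nonneg.2 b) (sub_nonneg.2 c)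
  have c4 := mul_nonneg (sub_nonneg.2 b) (sub_nonneg.2 d)
  have e7 := h.e7
  have e0 := h.e0
  have y1 := h.y1
  have y2 := h.y2
  have r0 := h.r0
  exact (h.q 3 3 (by norm_num) (by norm_num) (by linarith) (by linarith)).elim

theorem leafC27 {ε x n r ϱ : ℝ} (h : CtxG (5/2) 0.055 ε x n r ϱ) (a : (3/10) ≤ x) (b : x ≤ (400001/1000000))
    (c : (1667/5000) ≤ n) (d : n ≤ (2/5)) : ϱ ≤ 0.055 := by
  have c1 := mul_nonneg (sub_nonneg.2 a) (sub_nonneg.2 c)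
  have c2 := mul_nonneg (sub_nonneg.2 a) (sub_nonneg.2 d)
  have c3 := mul_nonneg (sub_nonneg.2 b) (sub_nonneg.2 c)
  have c4 := mul_nonneg (sub_nonneg.2 b) (sub_nonneg.2 d)
  have e7 := h.e7
  have e0 := h.e0
  have y1 := h.y1
  have y2 := h.y2
  have r0 := h.r0
  exact (h.q 2 2 (by norm_num) (by norm_num) (by linarith) (by linarith)).elim

theorem leafC28 {ε x n r ϱ : ℝ} (h : CtxG (5/2) 0.055 ε x n r ϱ) (a : (3/10) ≤ x) (b : x ≤ (400001/1000000))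
    (c : (2/5) ≤ n) (d : n ≤ (1/2)) : ϱ ≤ 0.055 := by
  have c1 := mul_nonneg (sub_nonneg.2 a) (sub_nonneg.2 c)
  have c2 := mul_nonneg (sub_nonneg.2 a) (sub_nonneg.2 d)
  have c3 := mul_nonneg (sub_nonneg.2 b) (sub_nonneg.2 c)
  have c4 := mul_nonneg (sub_nonneg.2 b) (sub_nonneg.2 d)
  have e7 := h.e7
  have e0 := h.e0
  have y1 := h.y1
  have y2 := h.y2
  have r0 := h.r0
  exact (h.q 2 2 (by norm_num) (by norm_num) (by linarith) (by linarith)).elim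

theorem leafC29 {ε x n r ϱ : ℝ} (h : CtxG (5/2) 0.055 ε x n r ϱ) (a : (3/10) ≤ x) (b : x ≤ (400001/1000000))
    (c : (1/2) ≤ n) (d : n ≤ (3/5)) : ϱ ≤ 0.055 := by
  have c1 := mul_nonneg (sub_nonneg.2 a) (sub_nonneg.2 c)
  have c2 := mul_nonneg (sub_nonneg.2 a) (sub_nonneg.2 d)
  have c3 := mul_nonneg (sub_nonneg.2 b) (sub_nonneg.2 c)
  have c4 := mul_nonneg (sub_nonneg.2 b) (sub_nonneg.2 d)
  have e7 := h.e7
  have e0 := h.e0
  have y1 := h.y1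
  have y2 := h.y2
  have r0 := h.r0
  exact (h.q 2 2 (by norm_num) (by norm_num) (by linarith) (by linarith)).elim

theorem leafC30 {ε x n r ϱ : ℝ} (h : CtxG (5/2) 0.055 ε x n r ϱ) (a : (3/10) ≤ x) (b : x ≤ (400001/1000000))
    (c : (3/5) ≤ n) (d : n ≤ (911/1000)) : ϱ ≤ 0.055 := by
  have c1 := mul_nonneg (sub_nonneg.2 a) (sub_nonneg.2 c)
  have c2 := mul_nonneg (sub_nonneg.2 a) (sub_nonneg.2 d)
  have c3 := mul_nonneg (sub_nonneg.2 b) (sub_nonneg.2 c)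
  have c4 := mul_nonneg (sub_nonneg.2 b) (sub_nonneg.2 d)
  have e7 := h.e7
  have e0 := h.e0
  have y1 := h.y1
  have y2 := h.y2
  have r0 := h.r0
  rcases h.f 1 1 (by norm_num) (by norm_num) (by linarith) with q | q
  · exfalso
    linarith
  · exact h.s 1 1 (by norm_num) (by norm_num) (by linarith) (by linarith) (by linarith)

theorem colC0 {ε x n r ϱ : ℝ} (h : CtxG (5/2) 0.055 ε x n r ϱ) (hx0 : 0 ≤ x) (hx1 : x ≤ (1/10))
    (hn0 : 49/200 ≤ n) : ϱ ≤ 0.055 := by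
  have hn1 : n ≤ (209/500) := by
    linarith [mul_nonneg (sub_nonneg.2 hx1) h.n0.le, h.y1, h.y2, h.e7]
  rcases le_total n (71/250) with u1 | u1
  · exact leafC0 h hx0 hx1 hn0 u1
  · rcases le_total n (1667/5000) with u2 | u2
    · exact leafC1 h hx0 hx1 u1 u2
    · exact leafC2 h hx0 hx1 u2 hn1


theorem colC1 {ε x n r ϱ : ℝ} (h : CtxG (5/2) 0.055 ε x n r ϱ) (hx0 : (1/10) ≤ x) (hx1 : x ≤ (1/5))
    (hn0 : 49/200 ≤ n) : ϱ ≤ 0.055 := by
  have hn1 : n ≤ (557/1000) := by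
    linarith [mul_nonneg (sub_nonneg.2 hx1) h.n0.le, h.y1, h.y2, h.e7]
  rcases le_total n (1667/5000) with u1 | u1
  · rcases le_total n (71/250) with u2 | u2
    · exact leafC3 h hx0 hx1 hn0 u2
    · exact leafC4 h hx0 hx1 u2 u1
  · rcases le_total n (2/5) with u2 | u2
    · exact leafC5 h hx0 hx1 u1 u2
    · rcases le_total n (1/2) with u3 | u3
      · exact leafC6 h hx0 hx1 u2 u3
      · exact leafC7 h hx0 hx1 u3 hn1


theorem colC2 {ε x n r ϱ : ℝ} (h : CtxG (5/2) 0.055 ε x n r ϱ) (hx0 : (1/5) ≤ x) (hx1 : x ≤ (49/200))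
    (hn0 : 49/200 ≤ n) : ϱ ≤ 0.055 := by
  have hn1 : n ≤ (61/100) := by
    linarith [mul_nonneg (sub_nonneg.2 hx1) h.n0.le, h.y1, h.y2, h.e7]
  rcases le_total n (1667/5000) with u1 | u1
  · rcases le_total n (71/250) with u2 | u2
    · exact leafC8 h hx0 hx1 hn0 u2
    · exact leafC9 h hx0 hx1 u2 u1
  · rcases le_total n (2/5) with u2 | u2
    · exact leafC10 h hx0 hx1 u1 u2
    · rcases le_total n (1/2) with u3 | u3
      · exact leafC11 h hx0 hx1 u2 u3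
      · exact leafC12 h hx0 hx1 u3 hn1


theorem colC3 {ε x n r ϱ : ℝ} (h : CtxG (5/2) 0.055 ε x n r ϱ) (hx0 : (49/200) ≤ x) (hx1 : x ≤ (53/200))
    (hn0 : 49/200 ≤ n) : ϱ ≤ 0.055 := by
  have hn1 : n ≤ (637/1000) := by
    linarith [mul_nonneg (sub_nonneg.2 hx1) h.n0.le, h.y1, h.y2, h.e7]
  rcases le_total n (2/5) with u1 | u1
  · rcases le_total n (71/250) with u2 | u2
    · exact leafC13 h hx0 hx1 hn0 u2
    · rcases le_total n (1667/5000) with u3 | u3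
      · exact leafC14 h hx0 hx1 u2 u3
      · exact leafC15 h hx0 hx1 u3 u1
  · rcases le_total n (1/2) with u2 | u2
    · exact leafC16 h hx0 hx1 u1 u2
    · rcases le_total n (3/5) with u3 | u3
      · exact leafC17 h hx0 hx1 u2 u3
      · exact leafC18 h hx0 hx1 u3 hn1


theorem colC4 {ε x n r ϱ : ℝ} (h : CtxG (5/2) 0.055 ε x n r ϱ) (hx0 : (53/200) ≤ x) (hx1 : x ≤ (3/10))
    (hn0 : 49/200 ≤ n) : ϱ ≤ 0.055 := by
  have hn1 : n ≤ (691/1000) := by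
    linarith [mul_nonneg (sub_nonneg.2 hx1) h.n0.le, h.y1, h.y2, h.e7]
  rcases le_total n (2/5) with u1 | u1
  · rcases le_total n (71/250) with u2 | u2
    · exact leafC19 h hx0 hx1 hn0 u2
    · rcases le_total n (1667/5000) with u3 | u3
      · exact leafC20 h hx0 hx1 u2 u3
      · exact leafC21 h hx0 hx1 u3 u1
  · rcases le_total n (1/2) with u2 | u2
    · exact leafC22 h hx0 hx1 u1 u2
    · rcases le_total n (3/5) with u3 | u3
      · exact leafC23 h hx0 hx1 u2 u3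
      · exact leafC24 h hx0 hx1 u3 hn1


theorem colC5 {ε x n r ϱ : ℝ} (h : CtxG (5/2) 0.055 ε x n r ϱ) (hx0 : (3/10) ≤ x) (hx1 : x ≤ (400001/1000000))
    (hn0 : 49/200 ≤ n) : ϱ ≤ 0.055 := by
  have hn1 : n ≤ (911/1000) := by
    linarith [mul_nonneg (sub_nonneg.2 hx1) h.n0.le, h.y1, h.y2, h.e7]
  rcases le_total n (2/5) with u1 | u1
  · rcases le_total n (71/250) with u2 | u2
    · exact leafC25 h hx0 hx1 hn0 u2
    · rcases le_total n (1667/5000) with u3 | u3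
      · exact leafC26 h hx0 hx1 u2 u3
      · exact leafC27 h hx0 hx1 u3 u1
  · rcases le_total n (1/2) with u2 | u2
    · exact leafC28 h hx0 hx1 u1 u2
    · rcases le_total n (3/5) with u3 | u3
      · exact leafC29 h hx0 hx1 u2 u3
      · exact leafC30 h hx0 hx1 u3 hn1


theorem allcolsC {ε x n r ϱ : ℝ} (h : CtxG (5/2) 0.055 ε x n r ϱ) (hx1 : x ≤ (400001/1000000)) (hn0 : 49/200 ≤ n) :
    ϱ ≤ 0.055 := by
  have hx0 : 0 ≤ x := h.x0.le
  rcases le_total x (1/10) with v0 | v0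
  · exact colC0 h hx0 v0 hn0
  rcases le_total x (1/5) with v1 | v1
  · exact colC1 h v0 v1 hn0
  rcases le_total x (49/200) with v2 | v2
  · exact colC2 h v1 v2 hn0
  rcases le_total x (53/200) with v3 | v3
  · exact colC3 h v2 v3 hn0
  rcases le_total x (3/10) with v4 | v4
  · exact colC4 h v3 v4 hn0
  exact colC5 h v4 hx1 hn0

theorem numericC : NumericG (5/2) 0.055 := by
  intro ε0 hε0 hε01 ε x n r ϱ e0 eε xε x4 n0 hy hf hg r0 hs he
  have e7 : ε ≤ 1 / 10 ^ 7 := by norm_num at *; linarith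
  have ex : ε ≤ x / 10 ^ 5 := by
    refine eε.trans ?_
    exact div_le_div_of_nonneg_right xε (by norm_num)
  have x0 : 0 < x := by linarith
  have x4' : x ≤ 400001 / 1000000 := by norm_num at *; linarith
  rcases le_total n (49/200) with hn | hn
  · exact (smallG (κ := (5/2)) e0 ex x0 x4 n0 (by linarith) (by linarith) hf r0).elim
  exact allcolsC (mkCtxG (by norm_num) (by norm_num) (by norm_num) e0 e7 ex x0 x4' n0 hy hf hg r0 hs he) x4' hn

theorem leafD0 {ε x n r ϱ : ℝ} (h : CtxG (200/77) (-0.01) ε x n r ϱ) (a : 0 ≤ x) (b : x ≤ (1/10))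
    (c : (29/100) ≤ n) (d : n ≤ (1667/5000)) : ϱ ≤ (-0.01) := by
  have c1 := mul_nonneg (sub_nonneg.2 a) (sub_nonneg.2 c)
  have c2 := mul_nonneg (sub_nonneg.2 a) (sub_nonneg.2 d)
  have c3 := mul_nonneg (sub_nonneg.2 b) (sub_nonneg.2 c)
  have c4 := mul_nonneg (sub_nonneg.2 b) (sub_nonneg.2 d)
  have e7 := h.e7
  have e0 := h.e0
  have y1 := h.y1
  have y2 := h.y2
  have r0 := h.r0
  exact (h.p 2 2 (by norm_num) (by norm_num) (by linarith) (by linarith)).elim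

theorem leafD1 {ε x n r ϱ : ℝ} (h : CtxG (200/77) (-0.01) ε x n r ϱ) (a : 0 ≤ x) (b : x ≤ (1/10))
    (c : (1667/5000) ≤ n) (d : n ≤ (209/500)) : ϱ ≤ (-0.01) := by
  have c1 := mul_nonneg (sub_nonneg.2 a) (sub_nonneg.2 c)
  have c2 := mul_nonneg (sub_nonneg.2 a) (sub_nonneg.2 d)
  have c3 := mul_nonneg (sub_nonneg.2 b) (sub_nonneg.2 c)
  have c4 := mul_nonneg (sub_nonneg.2 b) (sub_nonneg.2 d)
  have e7 := h.e7
  have e0 := h.e0
  have y1 := h.y1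
  have y2 := h.y2
  have r0 := h.r0
  exact (h.p 2 2 (by norm_num) (by norm_num) (by linarith) (by linarith)).elim

theorem leafD2 {ε x n r ϱ : ℝ} (h : CtxG (200/77) (-0.01) ε x n r ϱ) (a : (1/10) ≤ x) (b : x ≤ (1/5))
    (c : (29/100) ≤ n) (d : n ≤ (1667/5000)) : ϱ ≤ (-0.01) := by
  have c1 := mul_nonneg (sub_nonneg.2 a) (sub_nonneg.2 c)
  have c2 := mul_nonneg (sub_nonneg.2 a) (sub_nonneg.2 d)
  have c3 := mul_nonneg (sub_nonneg.2 b) (sub_nonneg.2 c)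
  have c4 := mul_nonneg (sub_nonneg.2 b) (sub_nonneg.2 d)
  have e7 := h.e7
  have e0 := h.e0
  have y1 := h.y1
  have y2 := h.y2
  have r0 := h.r0
  exact (h.p 3 3 (by norm_num) (by norm_num) (by linarith) (by linarith)).elim

theorem leafD3 {ε x n r ϱ : ℝ} (h : CtxG (200/77) (-0.01) ε x n r ϱ) (a : (1/10) ≤ x) (b : x ≤ (1/5))
    (c : (1667/5000) ≤ n) (d : n ≤ (2/5)) : ϱ ≤ (-0.01) := by
  have c1 := mul_nonneg (sub_nonneg.2 a) (sub_nonneg.2 c)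
  have c2 := mul_nonneg (sub_nonneg.2 a) (sub_nonneg.2 d)
  have c3 := mul_nonneg (sub_nonneg.2 b) (sub_nonneg.2 c)
  have c4 := mul_nonneg (sub_nonneg.2 b) (sub_nonneg.2 d)
  have e7 := h.e7
  have e0 := h.e0
  have y1 := h.y1
  have y2 := h.y2
  have r0 := h.r0
  exact (h.p 2 2 (by norm_num) (by norm_num) (by linarith) (by linarith)).elim

theorem leafD4 {ε x n r ϱ : ℝ} (h : CtxG (200/77) (-0.01) ε x n r ϱ) (a : (1/10) ≤ x) (b : x ≤ (1/5))
    (c : (2/5) ≤ n) (d : n ≤ (1/2)) : ϱ ≤ (-0.01) := by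
  have c1 := mul_nonneg (sub_nonneg.2 a) (sub_nonneg.2 c)
  have c2 := mul_nonneg (sub_nonneg.2 a) (sub_nonneg.2 d)
  have c3 := mul_nonneg (sub_nonneg.2 b) (sub_nonneg.2 c)
  have c4 := mul_nonneg (sub_nonneg.2 b) (sub_nonneg.2 d)
  have e7 := h.e7
  have e0 := h.e0
  have y1 := h.y1
  have y2 := h.y2
  have r0 := h.r0
  exact (h.p 2 2 (by norm_num) (by norm_num) (by linarith) (by linarith)).elim

theorem leafD5 {ε x n r ϱ : ℝ} (h : CtxG (200/77) (-0.01) ε x n r ϱ) (a : (1/10) ≤ x) (b : x ≤ (1/5))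
    (c : (1/2) ≤ n) (d : n ≤ (557/1000)) : ϱ ≤ (-0.01) := by
  have c1 := mul_nonneg (sub_nonneg.2 a) (sub_nonneg.2 c)
  have c2 := mul_nonneg (sub_nonneg.2 a) (sub_nonneg.2 d)
  have c3 := mul_nonneg (sub_nonneg.2 b) (sub_nonneg.2 c)
  have c4 := mul_nonneg (sub_nonneg.2 b) (sub_nonneg.2 d)
  have e7 := h.e7
  have e0 := h.e0
  have y1 := h.y1
  have y2 := h.y2
  have r0 := h.r0
  exact (h.p 2 2 (by norm_num) (by norm_num) (by linarith) (by linarith)).elim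

theorem leafD6 {ε x n r ϱ : ℝ} (h : CtxG (200/77) (-0.01) ε x n r ϱ) (a : (1/5) ≤ x) (b : x ≤ (49/200))
    (c : (29/100) ≤ n) (d : n ≤ (1667/5000)) : ϱ ≤ (-0.01) := by
  have c1 := mul_nonneg (sub_nonneg.2 a) (sub_nonneg.2 c)
  have c2 := mul_nonneg (sub_nonneg.2 a) (sub_nonneg.2 d)
  have c3 := mul_nonneg (sub_nonneg.2 b) (sub_nonneg.2 c)
  have c4 := mul_nonneg (sub_nonneg.2 b) (sub_nonneg.2 d)
  have e7 := h.e7
  have e0 := h.e0
  have y1 := h.y1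
  have y2 := h.y2
  have r0 := h.r0
  exact (h.p 3 3 (by norm_num) (by norm_num) (by linarith) (by linarith)).elim

theorem leafD7 {ε x n r ϱ : ℝ} (h : CtxG (200/77) (-0.01) ε x n r ϱ) (a : (1/5) ≤ x) (b : x ≤ (49/200))
    (c : (1667/5000) ≤ n) (d : n ≤ (2/5)) : ϱ ≤ (-0.01) := by
  have c1 := mul_nonneg (sub_nonneg.2 a) (sub_nonneg.2 c)
  have c2 := mul_nonneg (sub_nonneg.2 a) (sub_nonneg.2 d)
  have c3 := mul_nonneg (sub_nonneg.2 b) (sub_nonneg.2 c)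
  have c4 := mul_nonneg (sub_nonneg.2 b) (sub_nonneg.2 d)
  have e7 := h.e7
  have e0 := h.e0
  have y1 := h.y1
  have y2 := h.y2
  have r0 := h.r0
  exact (h.p 3 3 (by norm_num) (by norm_num) (by linarith) (by linarith)).elim

theorem leafD8 {ε x n r ϱ : ℝ} (h : CtxG (200/77) (-0.01) ε x n r ϱ) (a : (1/5) ≤ x) (b : x ≤ (49/200))
    (c : (2/5) ≤ n) (d : n ≤ (1/2)) : ϱ ≤ (-0.01) := by
  have c1 := mul_nonneg (sub_nonneg.2 a) (sub_nonneg.2 c)
  have c2 := mul_nonneg (sub_nonneg.2 a) (sub_nonneg.2 d)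
  have c3 := mul_nonneg (sub_nonneg.2 b) (sub_nonneg.2 c)
  have c4 := mul_nonneg (sub_nonneg.2 b) (sub_nonneg.2 d)
  have e7 := h.e7
  have e0 := h.e0
  have y1 := h.y1
  have y2 := h.y2
  have r0 := h.r0
  exact (h.p 2 2 (by norm_num) (by norm_num) (by linarith) (by linarith)).elim

theorem leafD9 {ε x n r ϱ : ℝ} (h : CtxG (200/77) (-0.01) ε x n r ϱ) (a : (1/5) ≤ x) (b : x ≤ (49/200))
    (c : (1/2) ≤ n) (d : n ≤ (61/100)) : ϱ ≤ (-0.01) := by
  have c1 := mul_nonneg (sub_nonneg.2 a) (sub_nonneg.2 c)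
  have c2 := mul_nonneg (sub_nonneg.2 a) (sub_nonneg.2 d)
  have c3 := mul_nonneg (sub_nonneg.2 b) (sub_nonneg.2 c)
  have c4 := mul_nonneg (sub_nonneg.2 b) (sub_nonneg.2 d)
  have e7 := h.e7
  have e0 := h.e0
  have y1 := h.y1
  have y2 := h.y2
  have r0 := h.r0
  exact (h.p 2 2 (by norm_num) (by norm_num) (by linarith) (by linarith)).elim

theorem leafD10 {ε x n r ϱ : ℝ} (h : CtxG (200/77) (-0.01) ε x n r ϱ) (a : (49/200) ≤ x) (b : x ≤ (53/200))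
    (c : (29/100) ≤ n) (d : n ≤ (1667/5000)) : ϱ ≤ (-0.01) := by
  have c1 := mul_nonneg (sub_nonneg.2 a) (sub_nonneg.2 c)
  have c2 := mul_nonneg (sub_nonneg.2 a) (sub_nonneg.2 d)
  have c3 := mul_nonneg (sub_nonneg.2 b) (sub_nonneg.2 c)
  have c4 := mul_nonneg (sub_nonneg.2 b) (sub_nonneg.2 d)
  have e7 := h.e7
  have e0 := h.e0
  have y1 := h.y1
  have y2 := h.y2
  have r0 := h.r0
  exact (h.p 3 3 (by norm_num) (by norm_num) (by linarith) (by linarith)).elim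

theorem leafD11 {ε x n r ϱ : ℝ} (h : CtxG (200/77) (-0.01) ε x n r ϱ) (a : (49/200) ≤ x) (b : x ≤ (53/200))
    (c : (1667/5000) ≤ n) (d : n ≤ (2/5)) : ϱ ≤ (-0.01) := by
  have c1 := mul_nonneg (sub_nonneg.2 a) (sub_nonneg.2 c)
  have c2 := mul_nonneg (sub_nonneg.2 a) (sub_nonneg.2 d)
  have c3 := mul_nonneg (sub_nonneg.2 b) (sub_nonneg.2 c)
  have c4 := mul_nonneg (sub_nonneg.2 b) (sub_nonneg.2 d)
  have e7 := h.e7
  have e0 := h.e0
  have y1 := h.y1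
  have y2 := h.y2
  have r0 := h.r0
  exact (h.p 3 3 (by norm_num) (by norm_num) (by linarith) (by linarith)).elim

theorem leafD12 {ε x n r ϱ : ℝ} (h : CtxG (200/77) (-0.01) ε x n r ϱ) (a : (49/200) ≤ x) (b : x ≤ (53/200))
    (c : (2/5) ≤ n) (d : n ≤ (1/2)) : ϱ ≤ (-0.01) := by
  have c1 := mul_nonneg (sub_nonneg.2 a) (sub_nonneg.2 c)
  have c2 := mul_nonneg (sub_nonneg.2 a) (sub_nonneg.2 d)
  have c3 := mul_nonneg (sub_nonneg.2 b) (sub_nonneg.2 c)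
  have c4 := mul_nonneg (sub_nonneg.2 b) (sub_nonneg.2 d)
  have e7 := h.e7
  have e0 := h.e0
  have y1 := h.y1
  have y2 := h.y2
  have r0 := h.r0
  exact (h.p 2 2 (by norm_num) (by norm_num) (by linarith) (by linarith)).elim

theorem leafD13 {ε x n r ϱ : ℝ} (h : CtxG (200/77) (-0.01) ε x n r ϱ) (a : (49/200) ≤ x) (b : x ≤ (53/200))
    (c : (1/2) ≤ n) (d : n ≤ (3/5)) : ϱ ≤ (-0.01) := by
  have c1 := mul_nonneg (sub_nonneg.2 a) (sub_nonneg.2 c)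
  have c2 := mul_nonneg (sub_nonneg.2 a) (sub_nonneg.2 d)
  have c3 := mul_nonneg (sub_nonneg.2 b) (sub_nonneg.2 c)
  have c4 := mul_nonneg (sub_nonneg.2 b) (sub_nonneg.2 d)
  have e7 := h.e7
  have e0 := h.e0
  have y1 := h.y1
  have y2 := h.y2
  have r0 := h.r0
  exact (h.p 2 2 (by norm_num) (by norm_num) (by linarith) (by linarith)).elim

theorem leafD14 {ε x n r ϱ : ℝ} (h : CtxG (200/77) (-0.01) ε x n r ϱ) (a : (49/200) ≤ x) (b : x ≤ (53/200))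
    (c : (3/5) ≤ n) (d : n ≤ (637/1000)) : ϱ ≤ (-0.01) := by
  have c1 := mul_nonneg (sub_nonneg.2 a) (sub_nonneg.2 c)
  have c2 := mul_nonneg (sub_nonneg.2 a) (sub_nonneg.2 d)
  have c3 := mul_nonneg (sub_nonneg.2 b) (sub_nonneg.2 c)
  have c4 := mul_nonneg (sub_nonneg.2 b) (sub_nonneg.2 d)
  have e7 := h.e7
  have e0 := h.e0
  have y1 := h.y1
  have y2 := h.y2
  have r0 := h.r0
  exact (h.p 2 2 (by norm_num) (by norm_num) (by linarith) (by linarith)).elim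

theorem leafD15 {ε x n r ϱ : ℝ} (h : CtxG (200/77) (-0.01) ε x n r ϱ) (a : (53/200) ≤ x) (b : x ≤ (3/10))
    (c : (29/100) ≤ n) (d : n ≤ (1667/5000)) : ϱ ≤ (-0.01) := by
  have c1 := mul_nonneg (sub_nonneg.2 a) (sub_nonneg.2 c)
  have c2 := mul_nonneg (sub_nonneg.2 a) (sub_nonneg.2 d)
  have c3 := mul_nonneg (sub_nonneg.2 b) (sub_nonneg.2 c)
  have c4 := mul_nonneg (sub_nonneg.2 b) (sub_nonneg.2 d)
  have e7 := h.e7
  have e0 := h.e0
  have y1 := h.y1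
  have y2 := h.y2
  have r0 := h.r0
  exact (h.q 3 3 (by norm_num) (by norm_num) (by linarith) (by linarith)).elim

theorem leafD16 {ε x n r ϱ : ℝ} (h : CtxG (200/77) (-0.01) ε x n r ϱ) (a : (53/200) ≤ x) (b : x ≤ (3/10))
    (c : (1667/5000) ≤ n) (d : n ≤ (2/5)) : ϱ ≤ (-0.01) := by
  have c1 := mul_nonneg (sub_nonneg.2 a) (sub_nonneg.2 c)
  have c2 := mul_nonneg (sub_nonneg.2 a) (sub_nonneg.2 d)
  have c3 := mul_nonneg (sub_nonneg.2 b) (sub_nonneg.2 c)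
  have c4 := mul_nonneg (sub_nonneg.2 b) (sub_nonneg.2 d)
  have e7 := h.e7
  have e0 := h.e0
  have y1 := h.y1
  have y2 := h.y2
  have r0 := h.r0
  exact (h.q 2 2 (by norm_num) (by norm_num) (by linarith) (by linarith)).elim

theorem leafD17 {ε x n r ϱ : ℝ} (h : CtxG (200/77) (-0.01) ε x n r ϱ) (a : (53/200) ≤ x) (b : x ≤ (3/10))
    (c : (2/5) ≤ n) (d : n ≤ (1/2)) : ϱ ≤ (-0.01) := by
  have c1 := mul_nonneg (sub_nonneg.2 a) (sub_nonneg.2 c)
  have c2 := mul_nonneg (sub_nonneg.2 a) (sub_nonneg.2 d)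
  have c3 := mul_nonneg (sub_nonneg.2 b) (sub_nonneg.2 c)
  have c4 := mul_nonneg (sub_nonneg.2 b) (sub_nonneg.2 d)
  have e7 := h.e7
  have e0 := h.e0
  have y1 := h.y1
  have y2 := h.y2
  have r0 := h.r0
  exact (h.q 2 2 (by norm_num) (by norm_num) (by linarith) (by linarith)).elim

theorem leafD18 {ε x n r ϱ : ℝ} (h : CtxG (200/77) (-0.01) ε x n r ϱ) (a : (53/200) ≤ x) (b : x ≤ (3/10))
    (c : (1/2) ≤ n) (d : n ≤ (3/5)) : ϱ ≤ (-0.01) := by
  have c1 := mul_nonneg (sub_nonneg.2 a) (sub_nonneg.2 c)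
  have c2 := mul_nonneg (sub_nonneg.2 a) (sub_nonneg.2 d)
  have c3 := mul_nonneg (sub_nonneg.2 b) (sub_nonneg.2 c)
  have c4 := mul_nonneg (sub_nonneg.2 b) (sub_nonneg.2 d)
  have e7 := h.e7
  have e0 := h.e0
  have y1 := h.y1
  have y2 := h.y2
  have r0 := h.r0
  exact (h.q 2 2 (by norm_num) (by norm_num) (by linarith) (by linarith)).elim

theorem leafD19 {ε x n r ϱ : ℝ} (h : CtxG (200/77) (-0.01) ε x n r ϱ) (a : (53/200) ≤ x) (b : x ≤ (3/10))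
    (c : (3/5) ≤ n) (d : n ≤ (691/1000)) : ϱ ≤ (-0.01) := by
  have c1 := mul_nonneg (sub_nonneg.2 a) (sub_nonneg.2 c)
  have c2 := mul_nonneg (sub_nonneg.2 a) (sub_nonneg.2 d)
  have c3 := mul_nonneg (sub_nonneg.2 b) (sub_nonneg.2 c)
  have c4 := mul_nonneg (sub_nonneg.2 b) (sub_nonneg.2 d)
  have e7 := h.e7
  have e0 := h.e0
  have y1 := h.y1
  have y2 := h.y2
  have r0 := h.r0
  rcases h.f 1 1 (by norm_num) (by norm_num) (by linarith) with q | q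
  · exfalso
    linarith
  · exact h.s 2 2 (by norm_num) (by norm_num) (by linarith) (by linarith) (by linarith)

theorem leafD20 {ε x n r ϱ : ℝ} (h : CtxG (200/77) (-0.01) ε x n r ϱ) (a : (3/10) ≤ x) (b : x ≤ (400001/1000000))
    (c : (29/100) ≤ n) (d : n ≤ (1667/5000)) : ϱ ≤ (-0.01) := by
  have c1 := mul_nonneg (sub_nonneg.2 a) (sub_nonneg.2 c)
  have c2 := mul_nonneg (sub_nonneg.2 a) (sub_nonneg.2 d)
  have c3 := mul_nonneg (sub_nonneg.2 b) (sub_nonneg.2 c)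
  have c4 := mul_nonneg (sub_nonneg.2 b) (sub_nonneg.2 d)
  have e7 := h.e7
  have e0 := h.e0
  have y1 := h.y1
  have y2 := h.y2
  have r0 := h.r0
  exact (h.q 2 2 (by norm_num) (by norm_num) (by linarith) (by linarith)).elim

theorem leafD21 {ε x n r ϱ : ℝ} (h : CtxG (200/77) (-0.01) ε x n r ϱ) (a : (3/10) ≤ x) (b : x ≤ (400001/1000000))
    (c : (1667/5000) ≤ n) (d : n ≤ (2/5)) : ϱ ≤ (-0.01) := by
  have c1 := mul_nonneg (sub_nonneg.2 a) (sub_nonneg.2 c)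
  have c2 := mul_nonneg (sub_nonneg.2 a) (sub_nonneg.2 d)
  have c3 := mul_nonneg (sub_nonneg.2 b) (sub_nonneg.2 c)
  have c4 := mul_nonneg (sub_nonneg.2 b) (sub_nonneg.2 d)
  have e7 := h.e7
  have e0 := h.e0
  have y1 := h.y1
  have y2 := h.y2
  have r0 := h.r0
  exact (h.q 2 2 (by norm_num) (by norm_num) (by linarith) (by linarith)).elim

theorem leafD22 {ε x n r ϱ : ℝ} (h : CtxG (200/77) (-0.01) ε x n r ϱ) (a : (3/10) ≤ x) (b : x ≤ (400001/1000000))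
    (c : (2/5) ≤ n) (d : n ≤ (1/2)) : ϱ ≤ (-0.01) := by
  have c1 := mul_nonneg (sub_nonneg.2 a) (sub_nonneg.2 c)
  have c2 := mul_nonneg (sub_nonneg.2 a) (sub_nonneg.2 d)
  have c3 := mul_nonneg (sub_nonneg.2 b) (sub_nonneg.2 c)
  have c4 := mul_nonneg (sub_nonneg.2 b) (sub_nonneg.2 d)
  have e7 := h.e7
  have e0 := h.e0
  have y1 := h.y1
  have y2 := h.y2
  have r0 := h.r0
  exact (h.q 2 2 (by norm_num) (by norm_num) (by linarith) (by linarith)).elim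

theorem leafD23 {ε x n r ϱ : ℝ} (h : CtxG (200/77) (-0.01) ε x n r ϱ) (a : (3/10) ≤ x) (b : x ≤ (400001/1000000))
    (c : (1/2) ≤ n) (d : n ≤ (3/5)) : ϱ ≤ (-0.01) := by
  have c1 := mul_nonneg (sub_nonneg.2 a) (sub_nonneg.2 c)
  have c2 := mul_nonneg (sub_nonneg.2 a) (sub_nonneg.2 d)
  have c3 := mul_nonneg (sub_nonneg.2 b) (sub_nonneg.2 c)
  have c4 := mul_nonneg (sub_nonneg.2 b) (sub_nonneg.2 d)
  have e7 := h.e7
  have e0 := h.e0
  have y1 := h.y1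
  have y2 := h.y2
  have r0 := h.r0
  exact (h.q 2 2 (by norm_num) (by norm_num) (by linarith) (by linarith)).elim

theorem leafD24 {ε x n r ϱ : ℝ} (h : CtxG (200/77) (-0.01) ε x n r ϱ) (a : (3/10) ≤ x) (b : x ≤ (400001/1000000))
    (c : (3/5) ≤ n) (d : n ≤ (911/1000)) : ϱ ≤ (-0.01) := by
  have c1 := mul_nonneg (sub_nonneg.2 a) (sub_nonneg.2 c)
  have c2 := mul_nonneg (sub_nonneg.2 a) (sub_nonneg.2 d)
  have c3 := mul_nonneg (sub_nonneg.2 b) (sub_nonneg.2 c)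
  have c4 := mul_nonneg (sub_nonneg.2 b) (sub_nonneg.2 d)
  have e7 := h.e7
  have e0 := h.e0
  have y1 := h.y1
  have y2 := h.y2
  have r0 := h.r0
  exact (h.q 1 1 (by norm_num) (by norm_num) (by linarith) (by linarith)).elim

theorem colD0 {ε x n r ϱ : ℝ} (h : CtxG (200/77) (-0.01) ε x n r ϱ) (hx0 : 0 ≤ x) (hx1 : x ≤ (1/10))
    (hn0 : 29/100 ≤ n) : ϱ ≤ (-0.01) := by
  have hn1 : n ≤ (209/500) := by
    linarith [mul_nonneg (sub_nonneg.2 hx1) h.n0.le, h.y1, h.y2, h.e7]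
  rcases le_total n (1667/5000) with u1 | u1
  · exact leafD0 h hx0 hx1 hn0 u1
  · exact leafD1 h hx0 hx1 u1 hn1


theorem colD1 {ε x n r ϱ : ℝ} (h : CtxG (200/77) (-0.01) ε x n r ϱ) (hx0 : (1/10) ≤ x) (hx1 : x ≤ (1/5))
    (hn0 : 29/100 ≤ n) : ϱ ≤ (-0.01) := by
  have hn1 : n ≤ (557/1000) := by
    linarith [mul_nonneg (sub_nonneg.2 hx1) h.n0.le, h.y1, h.y2, h.e7]
  rcases le_total n (2/5) with u1 | u1
  · rcases le_total n (1667/5000) with u2 | u2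
    · exact leafD2 h hx0 hx1 hn0 u2
    · exact leafD3 h hx0 hx1 u2 u1
  · rcases le_total n (1/2) with u2 | u2
    · exact leafD4 h hx0 hx1 u1 u2
    · exact leafD5 h hx0 hx1 u2 hn1


theorem colD2 {ε x n r ϱ : ℝ} (h : CtxG (200/77) (-0.01) ε x n r ϱ) (hx0 : (1/5) ≤ x) (hx1 : x ≤ (49/200))
    (hn0 : 29/100 ≤ n) : ϱ ≤ (-0.01) := by
  have hn1 : n ≤ (61/100) := by
    linarith [mul_nonneg (sub_nonneg.2 hx1) h.n0.le, h.y1, h.y2, h.e7]
  rcases le_total n (2/5) with u1 | u1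
  · rcases le_total n (1667/5000) with u2 | u2
    · exact leafD6 h hx0 hx1 hn0 u2
    · exact leafD7 h hx0 hx1 u2 u1
  · rcases le_total n (1/2) with u2 | u2
    · exact leafD8 h hx0 hx1 u1 u2
    · exact leafD9 h hx0 hx1 u2 hn1


theorem colD3 {ε x n r ϱ : ℝ} (h : CtxG (200/77) (-0.01) ε x n r ϱ) (hx0 : (49/200) ≤ x) (hx1 : x ≤ (53/200))
    (hn0 : 29/100 ≤ n) : ϱ ≤ (-0.01) := by
  have hn1 : n ≤ (637/1000) := by
    linarith [mul_nonneg (sub_nonneg.2 hx1) h.n0.le, h.y1, h.y2, h.e7]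
  rcases le_total n (2/5) with u1 | u1
  · rcases le_total n (1667/5000) with u2 | u2
    · exact leafD10 h hx0 hx1 hn0 u2
    · exact leafD11 h hx0 hx1 u2 u1
  · rcases le_total n (1/2) with u2 | u2
    · exact leafD12 h hx0 hx1 u1 u2
    · rcases le_total n (3/5) with u3 | u3
      · exact leafD13 h hx0 hx1 u2 u3
      · exact leafD14 h hx0 hx1 u3 hn1


theorem colD4 {ε x n r ϱ : ℝ} (h : CtxG (200/77) (-0.01) ε x n r ϱ) (hx0 : (53/200) ≤ x) (hx1 : x ≤ (3/10))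
    (hn0 : 29/100 ≤ n) : ϱ ≤ (-0.01) := by
  have hn1 : n ≤ (691/1000) := by
    linarith [mul_nonneg (sub_nonneg.2 hx1) h.n0.le, h.y1, h.y2, h.e7]
  rcases le_total n (2/5) with u1 | u1
  · rcases le_total n (1667/5000) with u2 | u2
    · exact leafD15 h hx0 hx1 hn0 u2
    · exact leafD16 h hx0 hx1 u2 u1
  · rcases le_total n (1/2) with u2 | u2
    · exact leafD17 h hx0 hx1 u1 u2
    · rcases le_total n (3/5) with u3 | u3
      · exact leafD18 h hx0 hx1 u2 u3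
      · exact leafD19 h hx0 hx1 u3 hn1


theorem colD5 {ε x n r ϱ : ℝ} (h : CtxG (200/77) (-0.01) ε x n r ϱ) (hx0 : (3/10) ≤ x) (hx1 : x ≤ (400001/1000000))
    (hn0 : 29/100 ≤ n) : ϱ ≤ (-0.01) := by
  have hn1 : n ≤ (911/1000) := by
    linarith [mul_nonneg (sub_nonneg.2 hx1) h.n0.le, h.y1, h.y2, h.e7]
  rcases le_total n (2/5) with u1 | u1
  · rcases le_total n (1667/5000) with u2 | u2
    · exact leafD20 h hx0 hx1 hn0 u2
    · exact leafD21 h hx0 hx1 u2 u1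
  · rcases le_total n (1/2) with u2 | u2
    · exact leafD22 h hx0 hx1 u1 u2
    · rcases le_total n (3/5) with u3 | u3
      · exact leafD23 h hx0 hx1 u2 u3
      · exact leafD24 h hx0 hx1 u3 hn1


theorem allcolsD {ε x n r ϱ : ℝ} (h : CtxG (200/77) (-0.01) ε x n r ϱ) (hx1 : x ≤ (400001/1000000)) (hn0 : 29/100 ≤ n) :
    ϱ ≤ (-0.01) := by
  have hx0 : 0 ≤ x := h.x0.le
  rcases le_total x (1/10) with v0 | v0
  · exact colD0 h hx0 v0 hn0
  rcases le_total x (1/5) with v1 | v1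
  · exact colD1 h v0 v1 hn0
  rcases le_total x (49/200) with v2 | v2
  · exact colD2 h v1 v2 hn0
  rcases le_total x (53/200) with v3 | v3
  · exact colD3 h v2 v3 hn0
  rcases le_total x (3/10) with v4 | v4
  · exact colD4 h v3 v4 hn0
  exact colD5 h v4 hx1 hn0

theorem numericD : NumericG (200/77) (-0.01) := by
  intro ε0 hε0 hε01 ε x n r ϱ e0 eε xε x4 n0 hy hf hg r0 hs he
  have e7 : ε ≤ 1 / 10 ^ 7 := by norm_num at *; linarith
  have ex : ε ≤ x / 10 ^ 5 := by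
    refine eε.trans ?_
    exact div_le_div_of_nonneg_right xε (by norm_num)
  have x0 : 0 < x := by linarith
  have x4' : x ≤ 400001 / 1000000 := by norm_num at *; linarith
  rcases le_total n (29/100) with hn | hn
  · exact (smallG (κ := (200/77)) e0 ex x0 x4 n0 (by linarith) (by linarith) hf r0).elim
  exact allcolsD (mkCtxG (by norm_num) (by norm_num) (by norm_num) e0 e7 ex x0 x4' n0 hy hf hg r0 hs he) x4' hn

theorem numericZ : NumericG 2 0.431 := by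
  intro ε0 hε0 hε01 ε x n r ϱ e0 eε xε x4 n0 hy hf hg r0 hs he
  have h4 : (2 : ℝ) * 2 * x = 4 * x := by ring
  have h8 : (4 : ℝ) * 2 * x = 8 * x := by ring
  simp only [h4, h8] at hs he
  exact numeric ε0 hε0 hε01 ε x n r ϱ e0 eε xε x4 n0 hy hf hg r0 hs he

end Pool.Agent.Helper65.KC
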