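import Pool.Agent.Helper60.KS.StG
import Pool.Agent.Helper65.KC.Numeric

/-! KG-3 : `NumericG 2 0.4288`. The case distinction was found by computer
(rectangles in the `(x,n)` plane); every leaf is linear in `x, n, x*n, r, ε`. -/

set_option autoImplicit false
set_option maxHeartbeats 4000000

namespace Pool.Agent.Helper65.KC

open Pool.Agent.Helper60.KS

structure CtxH (ε x n r ϱ : ℝ) : Prop where
  e0 : 0 < ε
  e7 : ε ≤ 1 / 10 ^ 7
  x0 : 0 < x
  n0 : 0 < n
  y1 : n - 2 * (x * n) ≤ 1 / 3 + ε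
  y2 : 5 / 7 * n - x * n ≤ 2 / 7 + ε
  r0 : 2 * x - ε ≤ r
  f : ∀ (k : ℕ) (K : ℝ), (k : ℝ) = K → 1 ≤ k → K * n ≤ 4 →
    r ≤ 2 * K * (x * n) + ε ∨ r ≤ 1 - K * n + 2 * K * (x * n) + ε
  g : ∀ (k : ℕ) (K : ℝ), (k : ℝ) = K → 1 ≤ k → K * n ≤ 4 →
    r ≤ 2 * K * (x * n) + ε ∨ r ≤ 1 - 2 * K * n + 6 * K * (x * n) + ε
  s : ∀ (j : ℕ) (J : ℝ), (j : ℝ) = J → 1 ≤ j → J * n ≤ 4 → r + 2 * J * (x * n) ≤ 4 * x - ε →
    1 + r - 4 * x - J * n + 2 * J * (x * n) ≤ 357199 / 1000000 → ϱ ≤ 0.4288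
  e : ∀ (j : ℕ) (J : ℝ), (j : ℝ) = J → 1 ≤ j → J * n ≤ 4 →
    1 - 8 * x + 4 * J * (x * n) + r ≤ 428799 / 1000000 →
    2 - 8 * x + 2 * r - 2 * J * n + 4 * J * (x * n) ≤ 428799 / 1000000 → ϱ ≤ 0.4288
  p : ∀ (k : ℕ) (K : ℝ), (k : ℝ) = K → 1 ≤ k → K * n ≤ 999 / 1000 →
    1 - 2 * x + 1 / 10 ^ 6 ≤ 2 * K * n - 6 * K * (x * n) → False
  q : ∀ (k : ℕ) (K : ℝ), (k : ℝ) = K → 1 ≤ k → K * n ≤ 999 / 1000 →
    1 - 2 * x + 1 / 10 ^ 6 ≤ K * n - 2 * K * (x * n) → False

theorem leafH0 {ε x n r ϱ : ℝ} (h : CtxH ε x n r ϱ) (a : 0 ≤ x) (b : x ≤ (329/2000))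
    (c : (89/500) ≤ n) (d : n ≤ (1/5)) : ϱ ≤ 0.4288 := by
  have c1 := mul_nonneg (sub_nonneg.2 a) (sub_nonneg.2 c)
  have c2 := mul_nonneg (sub_nonneg.2 a) (sub_nonneg.2 d)
  have c3 := mul_nonneg (sub_nonneg.2 b) (sub_nonneg.2 c)
  have c4 := mul_nonneg (sub_nonneg.2 b) (sub_nonneg.2 d)
  have e7 := h.e7
  have e0 := h.e0
  have y1 := h.y1
  have y2 := h.y2
  have r0 := h.r0
  exact (h.p 4 4 (by norm_num) (by norm_num) (by linarith) (by linarith)).elim

theorem leafH1 {ε x n r ϱ : ℝ} (h : CtxH ε x n r ϱ) (a : 0 ≤ x) (b : x ≤ (329/4000))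
    (c : (1/5) ≤ n) (d : n ≤ (1/4)) : ϱ ≤ 0.4288 := by
  have c1 := mul_nonneg (sub_nonneg.2 a) (sub_nonneg.2 c)
  have c2 := mul_nonneg (sub_nonneg.2 a) (sub_nonneg.2 d)
  have c3 := mul_nonneg (sub_nonneg.2 b) (sub_nonneg.2 c)
  have c4 := mul_nonneg (sub_nonneg.2 b) (sub_nonneg.2 d)
  have e7 := h.e7
  have e0 := h.e0
  have y1 := h.y1
  have y2 := h.y2
  have r0 := h.r0
  exact (h.p 3 3 (by norm_num) (by norm_num) (by linarith) (by linarith)).elim

theorem leafH2 {ε x n r ϱ : ℝ} (h : CtxH ε x n r ϱ) (a : (329/4000) ≤ x) (b : x ≤ (329/2000))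
    (c : (1/5) ≤ n) (d : n ≤ (1/4)) : ϱ ≤ 0.4288 := by
  have c1 := mul_nonneg (sub_nonneg.2 a) (sub_nonneg.2 c)
  have c2 := mul_nonneg (sub_nonneg.2 a) (sub_nonneg.2 d)
  have c3 := mul_nonneg (sub_nonneg.2 b) (sub_nonneg.2 c)
  have c4 := mul_nonneg (sub_nonneg.2 b) (sub_nonneg.2 d)
  have e7 := h.e7
  have e0 := h.e0
  have y1 := h.y1
  have y2 := h.y2
  have r0 := h.r0
  rcases h.g 3 3 (by norm_num) (by norm_num) (by linarith) with q | q
  · exfalso
    linarith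
  · exact h.s 3 3 (by norm_num) (by norm_num) (by linarith) (by linarith) (by linarith)

theorem leafH3 {ε x n r ϱ : ℝ} (h : CtxH ε x n r ϱ) (a : 0 ≤ x) (b : x ≤ (329/2000))
    (c : (1/4) ≤ n) (d : n ≤ (71/250)) : ϱ ≤ 0.4288 := by
  have c1 := mul_nonneg (sub_nonneg.2 a) (sub_nonneg.2 c)
  have c2 := mul_nonneg (sub_nonneg.2 a) (sub_nonneg.2 d)
  have c3 := mul_nonneg (sub_nonneg.2 b) (sub_nonneg.2 c)
  have c4 := mul_nonneg (sub_nonneg.2 b) (sub_nonneg.2 d)
  have e7 := h.e7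
  have e0 := h.e0
  have y1 := h.y1
  have y2 := h.y2
  have r0 := h.r0
  exact (h.p 3 3 (by norm_num) (by norm_num) (by linarith) (by linarith)).elim

theorem leafH4 {ε x n r ϱ : ℝ} (h : CtxH ε x n r ϱ) (a : 0 ≤ x) (b : x ≤ (329/4000))
    (c : (71/250) ≤ n) (d : n ≤ (1667/5000)) : ϱ ≤ 0.4288 := by
  have c1 := mul_nonneg (sub_nonneg.2 a) (sub_nonneg.2 c)
  have c2 := mul_nonneg (sub_nonneg.2 a) (sub_nonneg.2 d)
  have c3 := mul_nonneg (sub_nonneg.2 b) (sub_nonneg.2 c)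
  have c4 := mul_nonneg (sub_nonneg.2 b) (sub_nonneg.2 d)
  have e7 := h.e7
  have e0 := h.e0
  have y1 := h.y1
  have y2 := h.y2
  have r0 := h.r0
  exact (h.p 2 2 (by norm_num) (by norm_num) (by linarith) (by linarith)).elim

theorem leafH5 {ε x n r ϱ : ℝ} (h : CtxH ε x n r ϱ) (a : (329/4000) ≤ x) (b : x ≤ (329/2000))
    (c : (71/250) ≤ n) (d : n ≤ (1667/5000)) : ϱ ≤ 0.4288 := by
  have c1 := mul_nonneg (sub_nonneg.2 a) (sub_nonneg.2 c)
  have c2 := mul_nonneg (sub_nonneg.2 a) (sub_nonneg.2 d)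
  have c3 := mul_nonneg (sub_nonneg.2 b) (sub_nonneg.2 c)
  have c4 := mul_nonneg (sub_nonneg.2 b) (sub_nonneg.2 d)
  have e7 := h.e7
  have e0 := h.e0
  have y1 := h.y1
  have y2 := h.y2
  have r0 := h.r0
  rcases h.g 3 3 (by norm_num) (by norm_num) (by linarith) with q | q
  · exact h.s 2 2 (by norm_num) (by norm_num) (by linarith) (by linarith) (by linarith)
  · exfalso
    linarith

theorem leafH6 {ε x n r ϱ : ℝ} (h : CtxH ε x n r ϱ) (a : 0 ≤ x) (b : x ≤ (329/2000))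
    (c : (1667/5000) ≤ n) (d : n ≤ (2/5)) : ϱ ≤ 0.4288 := by
  have c1 := mul_nonneg (sub_nonneg.2 a) (sub_nonneg.2 c)
  have c2 := mul_nonneg (sub_nonneg.2 a) (sub_nonneg.2 d)
  have c3 := mul_nonneg (sub_nonneg.2 b) (sub_nonneg.2 c)
  have c4 := mul_nonneg (sub_nonneg.2 b) (sub_nonneg.2 d)
  have e7 := h.e7
  have e0 := h.e0
  have y1 := h.y1
  have y2 := h.y2
  have r0 := h.r0
  exact (h.p 2 2 (by norm_num) (by norm_num) (by linarith) (by linarith)).elim

theorem leafH7 {ε x n r ϱ : ℝ} (h : CtxH ε x n r ϱ) (a : 0 ≤ x) (b : x ≤ (329/2000))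
    (c : (2/5) ≤ n) (d : n ≤ (83/200)) : ϱ ≤ 0.4288 := by
  have c1 := mul_nonneg (sub_nonneg.2 a) (sub_nonneg.2 c)
  have c2 := mul_nonneg (sub_nonneg.2 a) (sub_nonneg.2 d)
  have c3 := mul_nonneg (sub_nonneg.2 b) (sub_nonneg.2 c)
  have c4 := mul_nonneg (sub_nonneg.2 b) (sub_nonneg.2 d)
  have e7 := h.e7
  have e0 := h.e0
  have y1 := h.y1
  have y2 := h.y2
  have r0 := h.r0
  exact (h.p 2 2 (by norm_num) (by norm_num) (by linarith) (by linarith)).elim

theorem leafH8 {ε x n r ϱ : ℝ} (h : CtxH ε x n r ϱ) (a : 0 ≤ x) (b : x ≤ (329/2000))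
    (c : (83/200) ≤ n) (d : n ≤ (2143/5000)) : ϱ ≤ 0.4288 := by
  have c1 := mul_nonneg (sub_nonneg.2 a) (sub_nonneg.2 c)
  have c2 := mul_nonneg (sub_nonneg.2 a) (sub_nonneg.2 d)
  have c3 := mul_nonneg (sub_nonneg.2 b) (sub_nonneg.2 c)
  have c4 := mul_nonneg (sub_nonneg.2 b) (sub_nonneg.2 d)
  have e7 := h.e7
  have e0 := h.e0
  have y1 := h.y1
  have y2 := h.y2
  have r0 := h.r0
  exact (h.p 2 2 (by norm_num) (by norm_num) (by linarith) (by linarith)).elim

theorem leafH9 {ε x n r ϱ : ℝ} (h : CtxH ε x n r ϱ) (a : 0 ≤ x) (b : x ≤ (329/2000))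
    (c : (2143/5000) ≤ n) (d : n ≤ (89/200)) : ϱ ≤ 0.4288 := by
  have c1 := mul_nonneg (sub_nonneg.2 a) (sub_nonneg.2 c)
  have c2 := mul_nonneg (sub_nonneg.2 a) (sub_nonneg.2 d)
  have c3 := mul_nonneg (sub_nonneg.2 b) (sub_nonneg.2 c)
  have c4 := mul_nonneg (sub_nonneg.2 b) (sub_nonneg.2 d)
  have e7 := h.e7
  have e0 := h.e0
  have y1 := h.y1
  have y2 := h.y2
  have r0 := h.r0
  exact (h.p 2 2 (by norm_num) (by norm_num) (by linarith) (by linarith)).elim

theorem leafH10 {ε x n r ϱ : ℝ} (h : CtxH ε x n r ϱ) (a : 0 ≤ x) (b : x ≤ (329/2000))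
    (c : (89/200) ≤ n) (d : n ≤ (249/500)) : ϱ ≤ 0.4288 := by
  have c1 := mul_nonneg (sub_nonneg.2 a) (sub_nonneg.2 c)
  have c2 := mul_nonneg (sub_nonneg.2 a) (sub_nonneg.2 d)
  have c3 := mul_nonneg (sub_nonneg.2 b) (sub_nonneg.2 c)
  have c4 := mul_nonneg (sub_nonneg.2 b) (sub_nonneg.2 d)
  have e7 := h.e7
  have e0 := h.e0
  have y1 := h.y1
  have y2 := h.y2
  have r0 := h.r0
  exact (h.p 2 2 (by norm_num) (by norm_num) (by linarith) (by linarith)).elim

theorem leafH11 {ε x n r ϱ : ℝ} (h : CtxH ε x n r ϱ) (a : (329/2000) ≤ x) (b : x ≤ (1/5))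
    (c : (89/500) ≤ n) (d : n ≤ (1/5)) : ϱ ≤ 0.4288 := by
  have c1 := mul_nonneg (sub_nonneg.2 a) (sub_nonneg.2 c)
  have c2 := mul_nonneg (sub_nonneg.2 a) (sub_nonneg.2 d)
  have c3 := mul_nonneg (sub_nonneg.2 b) (sub_nonneg.2 c)
  have c4 := mul_nonneg (sub_nonneg.2 b) (sub_nonneg.2 d)
  have e7 := h.e7
  have e0 := h.e0
  have y1 := h.y1
  have y2 := h.y2
  have r0 := h.r0
  rcases h.g 4 4 (by norm_num) (by norm_num) (by linarith) with q | q
  · exfalso
    linarith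
  · exact h.s 3 3 (by norm_num) (by norm_num) (by linarith) (by linarith) (by linarith)

theorem leafH12 {ε x n r ϱ : ℝ} (h : CtxH ε x n r ϱ) (a : (329/2000) ≤ x) (b : x ≤ (1/5))
    (c : (1/5) ≤ n) (d : n ≤ (1/4)) : ϱ ≤ 0.4288 := by
  have c1 := mul_nonneg (sub_nonneg.2 a) (sub_nonneg.2 c)
  have c2 := mul_nonneg (sub_nonneg.2 a) (sub_nonneg.2 d)
  have c3 := mul_nonneg (sub_nonneg.2 b) (sub_nonneg.2 c)
  have c4 := mul_nonneg (sub_nonneg.2 b) (sub_nonneg.2 d)
  have e7 := h.e7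
  have e0 := h.e0
  have y1 := h.y1
  have y2 := h.y2
  have r0 := h.r0
  rcases h.g 4 4 (by norm_num) (by norm_num) (by linarith) with q | q
  · exact h.s 2 2 (by norm_num) (by norm_num) (by linarith) (by linarith) (by linarith)
  · exfalso
    linarith

theorem leafH13 {ε x n r ϱ : ℝ} (h : CtxH ε x n r ϱ) (a : (329/2000) ≤ x) (b : x ≤ (1/5))
    (c : (1/4) ≤ n) (d : n ≤ (71/250)) : ϱ ≤ 0.4288 := by
  have c1 := mul_nonneg (sub_nonneg.2 a) (sub_nonneg.2 c)
  have c2 := mul_nonneg (sub_nonneg.2 a) (sub_nonneg.2 d)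
  have c3 := mul_nonneg (sub_nonneg.2 b) (sub_nonneg.2 c)
  have c4 := mul_nonneg (sub_nonneg.2 b) (sub_nonneg.2 d)
  have e7 := h.e7
  have e0 := h.e0
  have y1 := h.y1
  have y2 := h.y2
  have r0 := h.r0
  rcases h.g 3 3 (by norm_num) (by norm_num) (by linarith) with q | q
  · exfalso
    linarith
  · exact h.s 2 2 (by norm_num) (by norm_num) (by linarith) (by linarith) (by linarith)

theorem leafH14 {ε x n r ϱ : ℝ} (h : CtxH ε x n r ϱ) (a : (329/2000) ≤ x) (b : x ≤ (1/5))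
    (c : (71/250) ≤ n) (d : n ≤ (1667/5000)) : ϱ ≤ 0.4288 := by
  have c1 := mul_nonneg (sub_nonneg.2 a) (sub_nonneg.2 c)
  have c2 := mul_nonneg (sub_nonneg.2 a) (sub_nonneg.2 d)
  have c3 := mul_nonneg (sub_nonneg.2 b) (sub_nonneg.2 c)
  have c4 := mul_nonneg (sub_nonneg.2 b) (sub_nonneg.2 d)
  have e7 := h.e7
  have e0 := h.e0
  have y1 := h.y1
  have y2 := h.y2
  have r0 := h.r0
  rcases h.g 3 3 (by norm_num) (by norm_num) (by linarith) with q | q
  · exact h.s 2 2 (by norm_num) (by norm_num) (by linarith) (by linarith) (by linarith)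
  · exfalso
    linarith

theorem leafH15 {ε x n r ϱ : ℝ} (h : CtxH ε x n r ϱ) (a : (329/2000) ≤ x) (b : x ≤ (1/5))
    (c : (1667/5000) ≤ n) (d : n ≤ (2/5)) : ϱ ≤ 0.4288 := by
  have c1 := mul_nonneg (sub_nonneg.2 a) (sub_nonneg.2 c)
  have c2 := mul_nonneg (sub_nonneg.2 a) (sub_nonneg.2 d)
  have c3 := mul_nonneg (sub_nonneg.2 b) (sub_nonneg.2 c)
  have c4 := mul_nonneg (sub_nonneg.2 b) (sub_nonneg.2 d)
  have e7 := h.e7
  have e0 := h.e0
  have y1 := h.y1
  have y2 := h.y2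
  have r0 := h.r0
  rcases h.g 2 2 (by norm_num) (by norm_num) (by linarith) with q | q
  · exfalso
    linarith
  · exact h.s 2 2 (by norm_num) (by norm_num) (by linarith) (by linarith) (by linarith)

theorem leafH16 {ε x n r ϱ : ℝ} (h : CtxH ε x n r ϱ) (a : (329/2000) ≤ x) (b : x ≤ (1/5))
    (c : (2/5) ≤ n) (d : n ≤ (83/200)) : ϱ ≤ 0.4288 := by
  have c1 := mul_nonneg (sub_nonneg.2 a) (sub_nonneg.2 c)
  have c2 := mul_nonneg (sub_nonneg.2 a) (sub_nonneg.2 d)
  have c3 := mul_nonneg (sub_nonneg.2 b) (sub_nonneg.2 c)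
  have c4 := mul_nonneg (sub_nonneg.2 b) (sub_nonneg.2 d)
  have e7 := h.e7
  have e0 := h.e0
  have y1 := h.y1
  have y2 := h.y2
  have r0 := h.r0
  exact (h.p 2 2 (by norm_num) (by norm_num) (by linarith) (by linarith)).elim

theorem leafH17 {ε x n r ϱ : ℝ} (h : CtxH ε x n r ϱ) (a : (329/2000) ≤ x) (b : x ≤ (1/5))
    (c : (83/200) ≤ n) (d : n ≤ (2143/5000)) : ϱ ≤ 0.4288 := by
  have c1 := mul_nonneg (sub_nonneg.2 a) (sub_nonneg.2 c)
  have c2 := mul_nonneg (sub_nonneg.2 a) (sub_nonneg.2 d)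
  have c3 := mul_nonneg (sub_nonneg.2 b) (sub_nonneg.2 c)
  have c4 := mul_nonneg (sub_nonneg.2 b) (sub_nonneg.2 d)
  have e7 := h.e7
  have e0 := h.e0
  have y1 := h.y1
  have y2 := h.y2
  have r0 := h.r0
  exact (h.p 2 2 (by norm_num) (by norm_num) (by linarith) (by linarith)).elim

theorem leafH18 {ε x n r ϱ : ℝ} (h : CtxH ε x n r ϱ) (a : (329/2000) ≤ x) (b : x ≤ (1/5))
    (c : (2143/5000) ≤ n) (d : n ≤ (89/200)) : ϱ ≤ 0.4288 := by
  have c1 := mul_nonneg (sub_nonneg.2 a) (sub_nonneg.2 c)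
  have c2 := mul_nonneg (sub_nonneg.2 a) (sub_nonneg.2 d)
  have c3 := mul_nonneg (sub_nonneg.2 b) (sub_nonneg.2 c)
  have c4 := mul_nonneg (sub_nonneg.2 b) (sub_nonneg.2 d)
  have e7 := h.e7
  have e0 := h.e0
  have y1 := h.y1
  have y2 := h.y2
  have r0 := h.r0
  exact (h.p 2 2 (by norm_num) (by norm_num) (by linarith) (by linarith)).elim

theorem leafH19 {ε x n r ϱ : ℝ} (h : CtxH ε x n r ϱ) (a : (329/2000) ≤ x) (b : x ≤ (1/5))
    (c : (89/200) ≤ n) (d : n ≤ (1/2)) : ϱ ≤ 0.4288 := by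
  have c1 := mul_nonneg (sub_nonneg.2 a) (sub_nonneg.2 c)
  have c2 := mul_nonneg (sub_nonneg.2 a) (sub_nonneg.2 d)
  have c3 := mul_nonneg (sub_nonneg.2 b) (sub_nonneg.2 c)
  have c4 := mul_nonneg (sub_nonneg.2 b) (sub_nonneg.2 d)
  have e7 := h.e7
  have e0 := h.e0
  have y1 := h.y1
  have y2 := h.y2
  have r0 := h.r0
  rcases h.g 2 2 (by norm_num) (by norm_num) (by linarith) with q | q
  · exact h.s 1 1 (by norm_num) (by norm_num) (by linarith) (by linarith) (by linarith)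
  · exfalso
    linarith

theorem leafH20 {ε x n r ϱ : ℝ} (h : CtxH ε x n r ϱ) (a : (329/2000) ≤ x) (b : x ≤ (1/5))
    (c : (1/2) ≤ n) (d : n ≤ (557/1000)) : ϱ ≤ 0.4288 := by
  have c1 := mul_nonneg (sub_nonneg.2 a) (sub_nonneg.2 c)
  have c2 := mul_nonneg (sub_nonneg.2 a) (sub_nonneg.2 d)
  have c3 := mul_nonneg (sub_nonneg.2 b) (sub_nonneg.2 c)
  have c4 := mul_nonneg (sub_nonneg.2 b) (sub_nonneg.2 d)
  have e7 := h.e7
  have e0 := h.e0
  have y1 := h.y1
  have y2 := h.y2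
  have r0 := h.r0
  rcases h.f 2 2 (by norm_num) (by norm_num) (by linarith) with q | q
  · exact h.s 1 1 (by norm_num) (by norm_num) (by linarith) (by linarith) (by linarith)
  · exact h.s 1 1 (by norm_num) (by norm_num) (by linarith) (by linarith) (by linarith)

theorem leafH21 {ε x n r ϱ : ℝ} (h : CtxH ε x n r ϱ) (a : (1/5) ≤ x) (b : x ≤ (47/200))
    (c : (89/500) ≤ n) (d : n ≤ (1/5)) : ϱ ≤ 0.4288 := by
  have c1 := mul_nonneg (sub_nonneg.2 a) (sub_nonneg.2 c)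
  have c2 := mul_nonneg (sub_nonneg.2 a) (sub_nonneg.2 d)
  have c3 := mul_nonneg (sub_nonneg.2 b) (sub_nonneg.2 c)
  have c4 := mul_nonneg (sub_nonneg.2 b) (sub_nonneg.2 d)
  have e7 := h.e7
  have e0 := h.e0
  have y1 := h.y1
  have y2 := h.y2
  have r0 := h.r0
  rcases h.g 4 4 (by norm_num) (by norm_num) (by linarith) with q | q
  · exfalso
    linarith
  · exact h.s 3 3 (by norm_num) (by norm_num) (by linarith) (by linarith) (by linarith)

theorem leafH22 {ε x n r ϱ : ℝ} (h : CtxH ε x n r ϱ) (a : (1/5) ≤ x) (b : x ≤ (47/200))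
    (c : (1/5) ≤ n) (d : n ≤ (1/4)) : ϱ ≤ 0.4288 := by
  have c1 := mul_nonneg (sub_nonneg.2 a) (sub_nonneg.2 c)
  have c2 := mul_nonneg (sub_nonneg.2 a) (sub_nonneg.2 d)
  have c3 := mul_nonneg (sub_nonneg.2 b) (sub_nonneg.2 c)
  have c4 := mul_nonneg (sub_nonneg.2 b) (sub_nonneg.2 d)
  have e7 := h.e7
  have e0 := h.e0
  have y1 := h.y1
  have y2 := h.y2
  have r0 := h.r0
  rcases h.g 4 4 (by norm_num) (by norm_num) (by linarith) with q | q
  · exact h.s 2 2 (by norm_num) (by norm_num) (by linarith) (by linarith) (by linarith)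
  · exact h.s 3 3 (by norm_num) (by norm_num) (by linarith) (by linarith) (by linarith)

theorem leafH23 {ε x n r ϱ : ℝ} (h : CtxH ε x n r ϱ) (a : (1/5) ≤ x) (b : x ≤ (47/200))
    (c : (1/4) ≤ n) (d : n ≤ (71/250)) : ϱ ≤ 0.4288 := by
  have c1 := mul_nonneg (sub_nonneg.2 a) (sub_nonneg.2 c)
  have c2 := mul_nonneg (sub_nonneg.2 a) (sub_nonneg.2 d)
  have c3 := mul_nonneg (sub_nonneg.2 b) (sub_nonneg.2 c)
  have c4 := mul_nonneg (sub_nonneg.2 b) (sub_nonneg.2 d)
  have e7 := h.e7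
  have e0 := h.e0
  have y1 := h.y1
  have y2 := h.y2
  have r0 := h.r0
  rcases h.g 3 3 (by norm_num) (by norm_num) (by linarith) with q | q
  · exfalso
    linarith
  · exact h.s 2 2 (by norm_num) (by norm_num) (by linarith) (by linarith) (by linarith)

theorem leafH24 {ε x n r ϱ : ℝ} (h : CtxH ε x n r ϱ) (a : (1/5) ≤ x) (b : x ≤ (47/200))
    (c : (71/250) ≤ n) (d : n ≤ (1667/5000)) : ϱ ≤ 0.4288 := by
  have c1 := mul_nonneg (sub_nonneg.2 a) (sub_nonneg.2 c)
  have c2 := mul_nonneg (sub_nonneg.2 a) (sub_nonneg.2 d)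
  have c3 := mul_nonneg (sub_nonneg.2 b) (sub_nonneg.2 c)
  have c4 := mul_nonneg (sub_nonneg.2 b) (sub_nonneg.2 d)
  have e7 := h.e7
  have e0 := h.e0
  have y1 := h.y1
  have y2 := h.y2
  have r0 := h.r0
  rcases h.f 3 3 (by norm_num) (by norm_num) (by linarith) with q | q
  · exact h.s 2 2 (by norm_num) (by norm_num) (by linarith) (by linarith) (by linarith)
  · exact h.s 2 2 (by norm_num) (by norm_num) (by linarith) (by linarith) (by linarith)

theorem leafH25 {ε x n r ϱ : ℝ} (h : CtxH ε x n r ϱ) (a : (1/5) ≤ x) (b : x ≤ (47/200))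
    (c : (1667/5000) ≤ n) (d : n ≤ (2/5)) : ϱ ≤ 0.4288 := by
  have c1 := mul_nonneg (sub_nonneg.2 a) (sub_nonneg.2 c)
  have c2 := mul_nonneg (sub_nonneg.2 a) (sub_nonneg.2 d)
  have c3 := mul_nonneg (sub_nonneg.2 b) (sub_nonneg.2 c)
  have c4 := mul_nonneg (sub_nonneg.2 b) (sub_nonneg.2 d)
  have e7 := h.e7
  have e0 := h.e0
  have y1 := h.y1
  have y2 := h.y2
  have r0 := h.r0
  rcases h.g 2 2 (by norm_num) (by norm_num) (by linarith) with q | q
  · exfalso
    linarith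
  · exact h.s 2 2 (by norm_num) (by norm_num) (by linarith) (by linarith) (by linarith)

theorem leafH26 {ε x n r ϱ : ℝ} (h : CtxH ε x n r ϱ) (a : (1/5) ≤ x) (b : x ≤ (47/200))
    (c : (2/5) ≤ n) (d : n ≤ (83/200)) : ϱ ≤ 0.4288 := by
  have c1 := mul_nonneg (sub_nonneg.2 a) (sub_nonneg.2 c)
  have c2 := mul_nonneg (sub_nonneg.2 a) (sub_nonneg.2 d)
  have c3 := mul_nonneg (sub_nonneg.2 b) (sub_nonneg.2 c)
  have c4 := mul_nonneg (sub_nonneg.2 b) (sub_nonneg.2 d)
  have e7 := h.e7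
  have e0 := h.e0
  have y1 := h.y1
  have y2 := h.y2
  have r0 := h.r0
  rcases h.g 2 2 (by norm_num) (by norm_num) (by linarith) with q | q
  · exfalso
    linarith
  · exact h.s 2 2 (by norm_num) (by norm_num) (by linarith) (by linarith) (by linarith)

theorem leafH27 {ε x n r ϱ : ℝ} (h : CtxH ε x n r ϱ) (a : (1/5) ≤ x) (b : x ≤ (47/200))
    (c : (83/200) ≤ n) (d : n ≤ (2143/5000)) : ϱ ≤ 0.4288 := by
  have c1 := mul_nonneg (sub_nonneg.2 a) (sub_nonneg.2 c)
  have c2 := mul_nonneg (sub_nonneg.2 a) (sub_nonneg.2 d)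
  have c3 := mul_nonneg (sub_nonneg.2 b) (sub_nonneg.2 c)
  have c4 := mul_nonneg (sub_nonneg.2 b) (sub_nonneg.2 d)
  have e7 := h.e7
  have e0 := h.e0
  have y1 := h.y1
  have y2 := h.y2
  have r0 := h.r0
  rcases h.g 2 2 (by norm_num) (by norm_num) (by linarith) with q | q
  · exfalso
    linarith
  · exact h.s 1 1 (by norm_num) (by norm_num) (by linarith) (by linarith) (by linarith)

theorem leafH28 {ε x n r ϱ : ℝ} (h : CtxH ε x n r ϱ) (a : (1/5) ≤ x) (b : x ≤ (47/200))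
    (c : (2143/5000) ≤ n) (d : n ≤ (89/200)) : ϱ ≤ 0.4288 := by
  have c1 := mul_nonneg (sub_nonneg.2 a) (sub_nonneg.2 c)
  have c2 := mul_nonneg (sub_nonneg.2 a) (sub_nonneg.2 d)
  have c3 := mul_nonneg (sub_nonneg.2 b) (sub_nonneg.2 c)
  have c4 := mul_nonneg (sub_nonneg.2 b) (sub_nonneg.2 d)
  have e7 := h.e7
  have e0 := h.e0
  have y1 := h.y1
  have y2 := h.y2
  have r0 := h.r0
  rcases h.g 2 2 (by norm_num) (by norm_num) (by linarith) with q | q
  · exfalso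
    linarith
  · exact h.s 1 1 (by norm_num) (by norm_num) (by linarith) (by linarith) (by linarith)

theorem leafH29 {ε x n r ϱ : ℝ} (h : CtxH ε x n r ϱ) (a : (1/5) ≤ x) (b : x ≤ (47/200))
    (c : (89/200) ≤ n) (d : n ≤ (1/2)) : ϱ ≤ 0.4288 := by
  have c1 := mul_nonneg (sub_nonneg.2 a) (sub_nonneg.2 c)
  have c2 := mul_nonneg (sub_nonneg.2 a) (sub_nonneg.2 d)
  have c3 := mul_nonneg (sub_nonneg.2 b) (sub_nonneg.2 c)
  have c4 := mul_nonneg (sub_nonneg.2 b) (sub_nonneg.2 d)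
  have e7 := h.e7
  have e0 := h.e0
  have y1 := h.y1
  have y2 := h.y2
  have r0 := h.r0
  rcases h.g 2 2 (by norm_num) (by norm_num) (by linarith) with q | q
  · exact h.s 1 1 (by norm_num) (by norm_num) (by linarith) (by linarith) (by linarith)
  · exact h.s 1 1 (by norm_num) (by norm_num) (by linarith) (by linarith) (by linarith)

theorem leafH30 {ε x n r ϱ : ℝ} (h : CtxH ε x n r ϱ) (a : (1/5) ≤ x) (b : x ≤ (47/200))
    (c : (1/2) ≤ n) (d : n ≤ (299/500)) : ϱ ≤ 0.4288 := by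
  have c1 := mul_nonneg (sub_nonneg.2 a) (sub_nonneg.2 c)
  have c2 := mul_nonneg (sub_nonneg.2 a) (sub_nonneg.2 d)
  have c3 := mul_nonneg (sub_nonneg.2 b) (sub_nonneg.2 c)
  have c4 := mul_nonneg (sub_nonneg.2 b) (sub_nonneg.2 d)
  have e7 := h.e7
  have e0 := h.e0
  have y1 := h.y1
  have y2 := h.y2
  have r0 := h.r0
  rcases h.f 2 2 (by norm_num) (by norm_num) (by linarith) with q | q
  · exact h.s 1 1 (by norm_num) (by norm_num) (by linarith) (by linarith) (by linarith)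
  · exact h.s 1 1 (by norm_num) (by norm_num) (by linarith) (by linarith) (by linarith)

theorem leafH31 {ε x n r ϱ : ℝ} (h : CtxH ε x n r ϱ) (a : (47/200) ≤ x) (b : x ≤ (49/200))
    (c : (89/500) ≤ n) (d : n ≤ (1/5)) : ϱ ≤ 0.4288 := by
  have c1 := mul_nonneg (sub_nonneg.2 a) (sub_nonneg.2 c)
  have c2 := mul_nonneg (sub_nonneg.2 a) (sub_nonneg.2 d)
  have c3 := mul_nonneg (sub_nonneg.2 b) (sub_nonneg.2 c)
  have c4 := mul_nonneg (sub_nonneg.2 b) (sub_nonneg.2 d)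
  have e7 := h.e7
  have e0 := h.e0
  have y1 := h.y1
  have y2 := h.y2
  have r0 := h.r0
  rcases h.g 4 4 (by norm_num) (by norm_num) (by linarith) with q | q
  · exfalso
    linarith
  · exact h.s 4 4 (by norm_num) (by norm_num) (by linarith) (by linarith) (by linarith)

theorem leafH32 {ε x n r ϱ : ℝ} (h : CtxH ε x n r ϱ) (a : (47/200) ≤ x) (b : x ≤ (49/200))
    (c : (1/5) ≤ n) (d : n ≤ (1/4)) : ϱ ≤ 0.4288 := by
  have c1 := mul_nonneg (sub_nonneg.2 a) (sub_nonneg.2 c)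
  have c2 := mul_nonneg (sub_nonneg.2 a) (sub_nonneg.2 d)
  have c3 := mul_nonneg (sub_nonneg.2 b) (sub_nonneg.2 c)
  have c4 := mul_nonneg (sub_nonneg.2 b) (sub_nonneg.2 d)
  have e7 := h.e7
  have e0 := h.e0
  have y1 := h.y1
  have y2 := h.y2
  have r0 := h.r0
  rcases h.f 4 4 (by norm_num) (by norm_num) (by linarith) with q | q
  · exact h.s 2 2 (by norm_num) (by norm_num) (by linarith) (by linarith) (by linarith)
  · exact h.s 3 3 (by norm_num) (by norm_num) (by linarith) (by linarith) (by linarith)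

theorem leafH33 {ε x n r ϱ : ℝ} (h : CtxH ε x n r ϱ) (a : (47/200) ≤ x) (b : x ≤ (49/200))
    (c : (1/4) ≤ n) (d : n ≤ (71/250)) : ϱ ≤ 0.4288 := by
  have c1 := mul_nonneg (sub_nonneg.2 a) (sub_nonneg.2 c)
  have c2 := mul_nonneg (sub_nonneg.2 a) (sub_nonneg.2 d)
  have c3 := mul_nonneg (sub_nonneg.2 b) (sub_nonneg.2 c)
  have c4 := mul_nonneg (sub_nonneg.2 b) (sub_nonneg.2 d)
  have e7 := h.e7
  have e0 := h.e0
  have y1 := h.y1
  have y2 := h.y2
  have r0 := h.r0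
  rcases h.g 3 3 (by norm_num) (by norm_num) (by linarith) with q | q
  · exfalso
    linarith
  · exact h.s 3 3 (by norm_num) (by norm_num) (by linarith) (by linarith) (by linarith)

theorem leafH34 {ε x n r ϱ : ℝ} (h : CtxH ε x n r ϱ) (a : (47/200) ≤ x) (b : x ≤ (49/200))
    (c : (71/250) ≤ n) (d : n ≤ (1667/5000)) : ϱ ≤ 0.4288 := by
  have c1 := mul_nonneg (sub_nonneg.2 a) (sub_nonneg.2 c)
  have c2 := mul_nonneg (sub_nonneg.2 a) (sub_nonneg.2 d)
  have c3 := mul_nonneg (sub_nonneg.2 b) (sub_nonneg.2 c)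
  have c4 := mul_nonneg (sub_nonneg.2 b) (sub_nonneg.2 d)
  have e7 := h.e7
  have e0 := h.e0
  have y1 := h.y1
  have y2 := h.y2
  have r0 := h.r0
  rcases h.f 3 3 (by norm_num) (by norm_num) (by linarith) with q | q
  · exact h.s 1 1 (by norm_num) (by norm_num) (by linarith) (by linarith) (by linarith)
  · exact h.s 2 2 (by norm_num) (by norm_num) (by linarith) (by linarith) (by linarith)

theorem leafH35 {ε x n r ϱ : ℝ} (h : CtxH ε x n r ϱ) (a : (47/200) ≤ x) (b : x ≤ (49/200))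
    (c : (1667/5000) ≤ n) (d : n ≤ (2/5)) : ϱ ≤ 0.4288 := by
  have c1 := mul_nonneg (sub_nonneg.2 a) (sub_nonneg.2 c)
  have c2 := mul_nonneg (sub_nonneg.2 a) (sub_nonneg.2 d)
  have c3 := mul_nonneg (sub_nonneg.2 b) (sub_nonneg.2 c)
  have c4 := mul_nonneg (sub_nonneg.2 b) (sub_nonneg.2 d)
  have e7 := h.e7
  have e0 := h.e0
  have y1 := h.y1
  have y2 := h.y2
  have r0 := h.r0
  rcases h.g 2 2 (by norm_num) (by norm_num) (by linarith) with q | q
  · exfalso
    linarith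
  · exact h.s 2 2 (by norm_num) (by norm_num) (by linarith) (by linarith) (by linarith)

theorem leafH36 {ε x n r ϱ : ℝ} (h : CtxH ε x n r ϱ) (a : (47/200) ≤ x) (b : x ≤ (49/200))
    (c : (2/5) ≤ n) (d : n ≤ (83/200)) : ϱ ≤ 0.4288 := by
  have c1 := mul_nonneg (sub_nonneg.2 a) (sub_nonneg.2 c)
  have c2 := mul_nonneg (sub_nonneg.2 a) (sub_nonneg.2 d)
  have c3 := mul_nonneg (sub_nonneg.2 b) (sub_nonneg.2 c)
  have c4 := mul_nonneg (sub_nonneg.2 b) (sub_nonneg.2 d)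
  have e7 := h.e7
  have e0 := h.e0
  have y1 := h.y1
  have y2 := h.y2
  have r0 := h.r0
  rcases h.g 2 2 (by norm_num) (by norm_num) (by linarith) with q | q
  · exfalso
    linarith
  · exact h.s 2 2 (by norm_num) (by norm_num) (by linarith) (by linarith) (by linarith)

theorem leafH37 {ε x n r ϱ : ℝ} (h : CtxH ε x n r ϱ) (a : (47/200) ≤ x) (b : x ≤ (49/200))
    (c : (83/200) ≤ n) (d : n ≤ (2143/5000)) : ϱ ≤ 0.4288 := by
  have c1 := mul_nonneg (sub_nonneg.2 a) (sub_nonneg.2 c)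
  have c2 := mul_nonneg (sub_nonneg.2 a) (sub_nonneg.2 d)
  have c3 := mul_nonneg (sub_nonneg.2 b) (sub_nonneg.2 c)
  have c4 := mul_nonneg (sub_nonneg.2 b) (sub_nonneg.2 d)
  have e7 := h.e7
  have e0 := h.e0
  have y1 := h.y1
  have y2 := h.y2
  have r0 := h.r0
  rcases h.g 2 2 (by norm_num) (by norm_num) (by linarith) with q | q
  · exfalso
    linarith
  · exact h.s 2 2 (by norm_num) (by norm_num) (by linarith) (by linarith) (by linarith)

theorem leafH38 {ε x n r ϱ : ℝ} (h : CtxH ε x n r ϱ) (a : (47/200) ≤ x) (b : x ≤ (49/200))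
    (c : (2143/5000) ≤ n) (d : n ≤ (89/200)) : ϱ ≤ 0.4288 := by
  have c1 := mul_nonneg (sub_nonneg.2 a) (sub_nonneg.2 c)
  have c2 := mul_nonneg (sub_nonneg.2 a) (sub_nonneg.2 d)
  have c3 := mul_nonneg (sub_nonneg.2 b) (sub_nonneg.2 c)
  have c4 := mul_nonneg (sub_nonneg.2 b) (sub_nonneg.2 d)
  have e7 := h.e7
  have e0 := h.e0
  have y1 := h.y1
  have y2 := h.y2
  have r0 := h.r0
  rcases h.g 2 2 (by norm_num) (by norm_num) (by linarith) with q | q
  · exfalso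
    linarith
  · exact h.s 1 1 (by norm_num) (by norm_num) (by linarith) (by linarith) (by linarith)

theorem leafH39 {ε x n r ϱ : ℝ} (h : CtxH ε x n r ϱ) (a : (47/200) ≤ x) (b : x ≤ (49/200))
    (c : (89/200) ≤ n) (d : n ≤ (1/2)) : ϱ ≤ 0.4288 := by
  have c1 := mul_nonneg (sub_nonneg.2 a) (sub_nonneg.2 c)
  have c2 := mul_nonneg (sub_nonneg.2 a) (sub_nonneg.2 d)
  have c3 := mul_nonneg (sub_nonneg.2 b) (sub_nonneg.2 c)
  have c4 := mul_nonneg (sub_nonneg.2 b) (sub_nonneg.2 d)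
  have e7 := h.e7
  have e0 := h.e0
  have y1 := h.y1
  have y2 := h.y2
  have r0 := h.r0
  rcases h.f 2 2 (by norm_num) (by norm_num) (by linarith) with q | q
  · exact h.s 1 1 (by norm_num) (by norm_num) (by linarith) (by linarith) (by linarith)
  · exact h.s 1 1 (by norm_num) (by norm_num) (by linarith) (by linarith) (by linarith)

theorem leafH40 {ε x n r ϱ : ℝ} (h : CtxH ε x n r ϱ) (a : (47/200) ≤ x) (b : x ≤ (49/200))
    (c : (1/2) ≤ n) (d : n ≤ (61/100)) : ϱ ≤ 0.4288 := by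
  have c1 := mul_nonneg (sub_nonneg.2 a) (sub_nonneg.2 c)
  have c2 := mul_nonneg (sub_nonneg.2 a) (sub_nonneg.2 d)
  have c3 := mul_nonneg (sub_nonneg.2 b) (sub_nonneg.2 c)
  have c4 := mul_nonneg (sub_nonneg.2 b) (sub_nonneg.2 d)
  have e7 := h.e7
  have e0 := h.e0
  have y1 := h.y1
  have y2 := h.y2
  have r0 := h.r0
  rcases h.f 2 2 (by norm_num) (by norm_num) (by linarith) with q | q
  · exact h.s 1 1 (by norm_num) (by norm_num) (by linarith) (by linarith) (by linarith)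
  · exact h.s 1 1 (by norm_num) (by norm_num) (by linarith) (by linarith) (by linarith)

theorem leafH41 {ε x n r ϱ : ℝ} (h : CtxH ε x n r ϱ) (a : (49/200) ≤ x) (b : x ≤ (1/4))
    (c : (89/500) ≤ n) (d : n ≤ (1/5)) : ϱ ≤ 0.4288 := by
  have c1 := mul_nonneg (sub_nonneg.2 a) (sub_nonneg.2 c)
  have c2 := mul_nonneg (sub_nonneg.2 a) (sub_nonneg.2 d)
  have c3 := mul_nonneg (sub_nonneg.2 b) (sub_nonneg.2 c)
  have c4 := mul_nonneg (sub_nonneg.2 b) (sub_nonneg.2 d)
  have e7 := h.e7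
  have e0 := h.e0
  have y1 := h.y1
  have y2 := h.y2
  have r0 := h.r0
  rcases h.f 5 5 (by norm_num) (by norm_num) (by linarith) with q | q
  · exact h.s 2 2 (by norm_num) (by norm_num) (by linarith) (by linarith) (by linarith)
  · exact h.s 3 3 (by norm_num) (by norm_num) (by linarith) (by linarith) (by linarith)

theorem leafH42 {ε x n r ϱ : ℝ} (h : CtxH ε x n r ϱ) (a : (49/200) ≤ x) (b : x ≤ (1/4))
    (c : (1/5) ≤ n) (d : n ≤ (1/4)) : ϱ ≤ 0.4288 := by
  have c1 := mul_nonneg (sub_nonneg.2 a) (sub_nonneg.2 c)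
  have c2 := mul_nonneg (sub_nonneg.2 a) (sub_nonneg.2 d)
  have c3 := mul_nonneg (sub_nonneg.2 b) (sub_nonneg.2 c)
  have c4 := mul_nonneg (sub_nonneg.2 b) (sub_nonneg.2 d)
  have e7 := h.e7
  have e0 := h.e0
  have y1 := h.y1
  have y2 := h.y2
  have r0 := h.r0
  rcases h.f 4 4 (by norm_num) (by norm_num) (by linarith) with q | q
  · exact h.s 2 2 (by norm_num) (by norm_num) (by linarith) (by linarith) (by linarith)
  · exact h.s 3 3 (by norm_num) (by norm_num) (by linarith) (by linarith) (by linarith)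

theorem leafH43 {ε x n r ϱ : ℝ} (h : CtxH ε x n r ϱ) (a : (49/200) ≤ x) (b : x ≤ (1/4))
    (c : (1/4) ≤ n) (d : n ≤ (71/250)) : ϱ ≤ 0.4288 := by
  have c1 := mul_nonneg (sub_nonneg.2 a) (sub_nonneg.2 c)
  have c2 := mul_nonneg (sub_nonneg.2 a) (sub_nonneg.2 d)
  have c3 := mul_nonneg (sub_nonneg.2 b) (sub_nonneg.2 c)
  have c4 := mul_nonneg (sub_nonneg.2 b) (sub_nonneg.2 d)
  have e7 := h.e7
  have e0 := h.e0
  have y1 := h.y1
  have y2 := h.y2
  have r0 := h.r0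
  rcases h.f 4 4 (by norm_num) (by norm_num) (by linarith) with q | q
  · exact h.s 2 2 (by norm_num) (by norm_num) (by linarith) (by linarith) (by linarith)
  · exact h.s 2 2 (by norm_num) (by norm_num) (by linarith) (by linarith) (by linarith)

theorem leafH44 {ε x n r ϱ : ℝ} (h : CtxH ε x n r ϱ) (a : (49/200) ≤ x) (b : x ≤ (1/4))
    (c : (71/250) ≤ n) (d : n ≤ (1667/5000)) : ϱ ≤ 0.4288 := by
  have c1 := mul_nonneg (sub_nonneg.2 a) (sub_nonneg.2 c)
  have c2 := mul_nonneg (sub_nonneg.2 a) (sub_nonneg.2 d)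
  have c3 := mul_nonneg (sub_nonneg.2 b) (sub_nonneg.2 c)
  have c4 := mul_nonneg (sub_nonneg.2 b) (sub_nonneg.2 d)
  have e7 := h.e7
  have e0 := h.e0
  have y1 := h.y1
  have y2 := h.y2
  have r0 := h.r0
  rcases h.f 3 3 (by norm_num) (by norm_num) (by linarith) with q | q
  · exact h.s 1 1 (by norm_num) (by norm_num) (by linarith) (by linarith) (by linarith)
  · exact h.s 2 2 (by norm_num) (by norm_num) (by linarith) (by linarith) (by linarith)

theorem leafH45 {ε x n r ϱ : ℝ} (h : CtxH ε x n r ϱ) (a : (49/200) ≤ x) (b : x ≤ (1/4))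
    (c : (1667/5000) ≤ n) (d : n ≤ (2/5)) : ϱ ≤ 0.4288 := by
  have c1 := mul_nonneg (sub_nonneg.2 a) (sub_nonneg.2 c)
  have c2 := mul_nonneg (sub_nonneg.2 a) (sub_nonneg.2 d)
  have c3 := mul_nonneg (sub_nonneg.2 b) (sub_nonneg.2 c)
  have c4 := mul_nonneg (sub_nonneg.2 b) (sub_nonneg.2 d)
  have e7 := h.e7
  have e0 := h.e0
  have y1 := h.y1
  have y2 := h.y2
  have r0 := h.r0
  rcases h.f 3 3 (by norm_num) (by norm_num) (by linarith) with q | q
  · exact h.e 2 2 (by norm_num) (by norm_num) (by linarith) (by linarith) (by linarith)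
  · exfalso
    linarith

theorem leafH46 {ε x n r ϱ : ℝ} (h : CtxH ε x n r ϱ) (a : (49/200) ≤ x) (b : x ≤ (1/4))
    (c : (2/5) ≤ n) (d : n ≤ (83/200)) : ϱ ≤ 0.4288 := by
  have c1 := mul_nonneg (sub_nonneg.2 a) (sub_nonneg.2 c)
  have c2 := mul_nonneg (sub_nonneg.2 a) (sub_nonneg.2 d)
  have c3 := mul_nonneg (sub_nonneg.2 b) (sub_nonneg.2 c)
  have c4 := mul_nonneg (sub_nonneg.2 b) (sub_nonneg.2 d)
  have e7 := h.e7
  have e0 := h.e0
  have y1 := h.y1
  have y2 := h.y2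
  have r0 := h.r0
  rcases h.g 2 2 (by norm_num) (by norm_num) (by linarith) with q | q
  · exfalso
    linarith
  · exact h.e 2 2 (by norm_num) (by norm_num) (by linarith) (by linarith) (by linarith)

theorem leafH47 {ε x n r ϱ : ℝ} (h : CtxH ε x n r ϱ) (a : (49/200) ≤ x) (b : x ≤ (1/4))
    (c : (83/200) ≤ n) (d : n ≤ (2143/5000)) : ϱ ≤ 0.4288 := by
  have c1 := mul_nonneg (sub_nonneg.2 a) (sub_nonneg.2 c)
  have c2 := mul_nonneg (sub_nonneg.2 a) (sub_nonneg.2 d)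
  have c3 := mul_nonneg (sub_nonneg.2 b) (sub_nonneg.2 c)
  have c4 := mul_nonneg (sub_nonneg.2 b) (sub_nonneg.2 d)
  have e7 := h.e7
  have e0 := h.e0
  have y1 := h.y1
  have y2 := h.y2
  have r0 := h.r0
  rcases h.g 2 2 (by norm_num) (by norm_num) (by linarith) with q | q
  · exfalso
    linarith
  · exact h.e 2 2 (by norm_num) (by norm_num) (by linarith) (by linarith) (by linarith)

theorem leafH48 {ε x n r ϱ : ℝ} (h : CtxH ε x n r ϱ) (a : (49/200) ≤ x) (b : x ≤ (1/4))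
    (c : (2143/5000) ≤ n) (d : n ≤ (89/200)) : ϱ ≤ 0.4288 := by
  have c1 := mul_nonneg (sub_nonneg.2 a) (sub_nonneg.2 c)
  have c2 := mul_nonneg (sub_nonneg.2 a) (sub_nonneg.2 d)
  have c3 := mul_nonneg (sub_nonneg.2 b) (sub_nonneg.2 c)
  have c4 := mul_nonneg (sub_nonneg.2 b) (sub_nonneg.2 d)
  have e7 := h.e7
  have e0 := h.e0
  have y1 := h.y1
  have y2 := h.y2
  have r0 := h.r0
  rcases h.g 2 2 (by norm_num) (by norm_num) (by linarith) with q | q
  · exfalso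
    linarith
  · exact h.s 1 1 (by norm_num) (by norm_num) (by linarith) (by linarith) (by linarith)

theorem leafH49 {ε x n r ϱ : ℝ} (h : CtxH ε x n r ϱ) (a : (49/200) ≤ x) (b : x ≤ (1/4))
    (c : (89/200) ≤ n) (d : n ≤ (1/2)) : ϱ ≤ 0.4288 := by
  have c1 := mul_nonneg (sub_nonneg.2 a) (sub_nonneg.2 c)
  have c2 := mul_nonneg (sub_nonneg.2 a) (sub_nonneg.2 d)
  have c3 := mul_nonneg (sub_nonneg.2 b) (sub_nonneg.2 c)
  have c4 := mul_nonneg (sub_nonneg.2 b) (sub_nonneg.2 d)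
  have e7 := h.e7
  have e0 := h.e0
  have y1 := h.y1
  have y2 := h.y2
  have r0 := h.r0
  rcases h.f 2 2 (by norm_num) (by norm_num) (by linarith) with q | q
  · exact h.s 1 1 (by norm_num) (by norm_num) (by linarith) (by linarith) (by linarith)
  · exact h.s 1 1 (by norm_num) (by norm_num) (by linarith) (by linarith) (by linarith)

theorem leafH50 {ε x n r ϱ : ℝ} (h : CtxH ε x n r ϱ) (a : (49/200) ≤ x) (b : x ≤ (1/4))
    (c : (1/2) ≤ n) (d : n ≤ (617/1000)) : ϱ ≤ 0.4288 := by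
  have c1 := mul_nonneg (sub_nonneg.2 a) (sub_nonneg.2 c)
  have c2 := mul_nonneg (sub_nonneg.2 a) (sub_nonneg.2 d)
  have c3 := mul_nonneg (sub_nonneg.2 b) (sub_nonneg.2 c)
  have c4 := mul_nonneg (sub_nonneg.2 b) (sub_nonneg.2 d)
  have e7 := h.e7
  have e0 := h.e0
  have y1 := h.y1
  have y2 := h.y2
  have r0 := h.r0
  rcases h.f 2 2 (by norm_num) (by norm_num) (by linarith) with q | q
  · exact h.s 1 1 (by norm_num) (by norm_num) (by linarith) (by linarith) (by linarith)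
  · exact h.s 1 1 (by norm_num) (by norm_num) (by linarith) (by linarith) (by linarith)

theorem leafH51 {ε x n r ϱ : ℝ} (h : CtxH ε x n r ϱ) (a : (1/4) ≤ x) (b : x ≤ (51/200))
    (c : (89/500) ≤ n) (d : n ≤ (1/5)) : ϱ ≤ 0.4288 := by
  have c1 := mul_nonneg (sub_nonneg.2 a) (sub_nonneg.2 c)
  have c2 := mul_nonneg (sub_nonneg.2 a) (sub_nonneg.2 d)
  have c3 := mul_nonneg (sub_nonneg.2 b) (sub_nonneg.2 c)
  have c4 := mul_nonneg (sub_nonneg.2 b) (sub_nonneg.2 d)
  have e7 := h.e7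
  have e0 := h.e0
  have y1 := h.y1
  have y2 := h.y2
  have r0 := h.r0
  rcases h.f 5 5 (by norm_num) (by norm_num) (by linarith) with q | q
  · exact h.s 2 2 (by norm_num) (by norm_num) (by linarith) (by linarith) (by linarith)
  · exact h.s 3 3 (by norm_num) (by norm_num) (by linarith) (by linarith) (by linarith)

theorem leafH52 {ε x n r ϱ : ℝ} (h : CtxH ε x n r ϱ) (a : (1/4) ≤ x) (b : x ≤ (51/200))
    (c : (1/5) ≤ n) (d : n ≤ (1/4)) : ϱ ≤ 0.4288 := by
  have c1 := mul_nonneg (sub_nonneg.2 a) (sub_nonneg.2 c)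
  have c2 := mul_nonneg (sub_nonneg.2 a) (sub_nonneg.2 d)
  have c3 := mul_nonneg (sub_nonneg.2 b) (sub_nonneg.2 c)
  have c4 := mul_nonneg (sub_nonneg.2 b) (sub_nonneg.2 d)
  have e7 := h.e7
  have e0 := h.e0
  have y1 := h.y1
  have y2 := h.y2
  have r0 := h.r0
  rcases h.f 4 4 (by norm_num) (by norm_num) (by linarith) with q | q
  · exact h.s 2 2 (by norm_num) (by norm_num) (by linarith) (by linarith) (by linarith)
  · exact h.s 3 3 (by norm_num) (by norm_num) (by linarith) (by linarith) (by linarith)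

theorem leafH53 {ε x n r ϱ : ℝ} (h : CtxH ε x n r ϱ) (a : (1/4) ≤ x) (b : x ≤ (51/200))
    (c : (1/4) ≤ n) (d : n ≤ (71/250)) : ϱ ≤ 0.4288 := by
  have c1 := mul_nonneg (sub_nonneg.2 a) (sub_nonneg.2 c)
  have c2 := mul_nonneg (sub_nonneg.2 a) (sub_nonneg.2 d)
  have c3 := mul_nonneg (sub_nonneg.2 b) (sub_nonneg.2 c)
  have c4 := mul_nonneg (sub_nonneg.2 b) (sub_nonneg.2 d)
  have e7 := h.e7
  have e0 := h.e0
  have y1 := h.y1
  have y2 := h.y2
  have r0 := h.r0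
  rcases h.f 4 4 (by norm_num) (by norm_num) (by linarith) with q | q
  · exact h.s 2 2 (by norm_num) (by norm_num) (by linarith) (by linarith) (by linarith)
  · exact h.s 2 2 (by norm_num) (by norm_num) (by linarith) (by linarith) (by linarith)

theorem leafH54 {ε x n r ϱ : ℝ} (h : CtxH ε x n r ϱ) (a : (1/4) ≤ x) (b : x ≤ (51/200))
    (c : (71/250) ≤ n) (d : n ≤ (1667/5000)) : ϱ ≤ 0.4288 := by
  have c1 := mul_nonneg (sub_nonneg.2 a) (sub_nonneg.2 c)
  have c2 := mul_nonneg (sub_nonneg.2 a) (sub_nonneg.2 d)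
  have c3 := mul_nonneg (sub_nonneg.2 b) (sub_nonneg.2 c)
  have c4 := mul_nonneg (sub_nonneg.2 b) (sub_nonneg.2 d)
  have e7 := h.e7
  have e0 := h.e0
  have y1 := h.y1
  have y2 := h.y2
  have r0 := h.r0
  rcases h.f 3 3 (by norm_num) (by norm_num) (by linarith) with q | q
  · exact h.s 1 1 (by norm_num) (by norm_num) (by linarith) (by linarith) (by linarith)
  · exact h.s 2 2 (by norm_num) (by norm_num) (by linarith) (by linarith) (by linarith)

theorem leafH55 {ε x n r ϱ : ℝ} (h : CtxH ε x n r ϱ) (a : (1/4) ≤ x) (b : x ≤ (51/200))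
    (c : (1667/5000) ≤ n) (d : n ≤ (2/5)) : ϱ ≤ 0.4288 := by
  have c1 := mul_nonneg (sub_nonneg.2 a) (sub_nonneg.2 c)
  have c2 := mul_nonneg (sub_nonneg.2 a) (sub_nonneg.2 d)
  have c3 := mul_nonneg (sub_nonneg.2 b) (sub_nonneg.2 c)
  have c4 := mul_nonneg (sub_nonneg.2 b) (sub_nonneg.2 d)
  have e7 := h.e7
  have e0 := h.e0
  have y1 := h.y1
  have y2 := h.y2
  have r0 := h.r0
  rcases h.f 3 3 (by norm_num) (by norm_num) (by linarith) with q | q
  · exact h.e 2 2 (by norm_num) (by norm_num) (by linarith) (by linarith) (by linarith)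
  · exfalso
    linarith

theorem leafH56 {ε x n r ϱ : ℝ} (h : CtxH ε x n r ϱ) (a : (1/4) ≤ x) (b : x ≤ (51/200))
    (c : (2/5) ≤ n) (d : n ≤ (83/200)) : ϱ ≤ 0.4288 := by
  have c1 := mul_nonneg (sub_nonneg.2 a) (sub_nonneg.2 c)
  have c2 := mul_nonneg (sub_nonneg.2 a) (sub_nonneg.2 d)
  have c3 := mul_nonneg (sub_nonneg.2 b) (sub_nonneg.2 c)
  have c4 := mul_nonneg (sub_nonneg.2 b) (sub_nonneg.2 d)
  have e7 := h.e7
  have e0 := h.e0
  have y1 := h.y1
  have y2 := h.y2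
  have r0 := h.r0
  rcases h.f 2 2 (by norm_num) (by norm_num) (by linarith) with q | q
  · exfalso
    linarith
  · exact h.e 2 2 (by norm_num) (by norm_num) (by linarith) (by linarith) (by linarith)

theorem leafH57 {ε x n r ϱ : ℝ} (h : CtxH ε x n r ϱ) (a : (1/4) ≤ x) (b : x ≤ (51/200))
    (c : (83/200) ≤ n) (d : n ≤ (2143/5000)) : ϱ ≤ 0.4288 := by
  have c1 := mul_nonneg (sub_nonneg.2 a) (sub_nonneg.2 c)
  have c2 := mul_nonneg (sub_nonneg.2 a) (sub_nonneg.2 d)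
  have c3 := mul_nonneg (sub_nonneg.2 b) (sub_nonneg.2 c)
  have c4 := mul_nonneg (sub_nonneg.2 b) (sub_nonneg.2 d)
  have e7 := h.e7
  have e0 := h.e0
  have y1 := h.y1
  have y2 := h.y2
  have r0 := h.r0
  rcases h.f 2 2 (by norm_num) (by norm_num) (by linarith) with q | q
  · exfalso
    linarith
  · exact h.e 2 2 (by norm_num) (by norm_num) (by linarith) (by linarith) (by linarith)

theorem leafH58 {ε x n r ϱ : ℝ} (h : CtxH ε x n r ϱ) (a : (1/4) ≤ x) (b : x ≤ (51/200))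
    (c : (2143/5000) ≤ n) (d : n ≤ (89/200)) : ϱ ≤ 0.4288 := by
  have c1 := mul_nonneg (sub_nonneg.2 a) (sub_nonneg.2 c)
  have c2 := mul_nonneg (sub_nonneg.2 a) (sub_nonneg.2 d)
  have c3 := mul_nonneg (sub_nonneg.2 b) (sub_nonneg.2 c)
  have c4 := mul_nonneg (sub_nonneg.2 b) (sub_nonneg.2 d)
  have e7 := h.e7
  have e0 := h.e0
  have y1 := h.y1
  have y2 := h.y2
  have r0 := h.r0
  rcases h.f 2 2 (by norm_num) (by norm_num) (by linarith) with q | q
  · exfalso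
    linarith
  · exact h.s 1 1 (by norm_num) (by norm_num) (by linarith) (by linarith) (by linarith)

theorem leafH59 {ε x n r ϱ : ℝ} (h : CtxH ε x n r ϱ) (a : (1/4) ≤ x) (b : x ≤ (51/200))
    (c : (89/200) ≤ n) (d : n ≤ (1/2)) : ϱ ≤ 0.4288 := by
  have c1 := mul_nonneg (sub_nonneg.2 a) (sub_nonneg.2 c)
  have c2 := mul_nonneg (sub_nonneg.2 a) (sub_nonneg.2 d)
  have c3 := mul_nonneg (sub_nonneg.2 b) (sub_nonneg.2 c)
  have c4 := mul_nonneg (sub_nonneg.2 b) (sub_nonneg.2 d)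
  have e7 := h.e7
  have e0 := h.e0
  have y1 := h.y1
  have y2 := h.y2
  have r0 := h.r0
  rcases h.f 2 2 (by norm_num) (by norm_num) (by linarith) with q | q
  · exact h.s 1 1 (by norm_num) (by norm_num) (by linarith) (by linarith) (by linarith)
  · exact h.s 1 1 (by norm_num) (by norm_num) (by linarith) (by linarith) (by linarith)

theorem leafH60 {ε x n r ϱ : ℝ} (h : CtxH ε x n r ϱ) (a : (1/4) ≤ x) (b : x ≤ (51/200))
    (c : (1/2) ≤ n) (d : n ≤ (3/5)) : ϱ ≤ 0.4288 := by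
  have c1 := mul_nonneg (sub_nonneg.2 a) (sub_nonneg.2 c)
  have c2 := mul_nonneg (sub_nonneg.2 a) (sub_nonneg.2 d)
  have c3 := mul_nonneg (sub_nonneg.2 b) (sub_nonneg.2 c)
  have c4 := mul_nonneg (sub_nonneg.2 b) (sub_nonneg.2 d)
  have e7 := h.e7
  have e0 := h.e0
  have y1 := h.y1
  have y2 := h.y2
  have r0 := h.r0
  rcases h.f 2 2 (by norm_num) (by norm_num) (by linarith) with q | q
  · exact h.s 1 1 (by norm_num) (by norm_num) (by linarith) (by linarith) (by linarith)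
  · exact h.s 1 1 (by norm_num) (by norm_num) (by linarith) (by linarith) (by linarith)

theorem leafH61 {ε x n r ϱ : ℝ} (h : CtxH ε x n r ϱ) (a : (1/4) ≤ x) (b : x ≤ (51/200))
    (c : (3/5) ≤ n) (d : n ≤ (78/125)) : ϱ ≤ 0.4288 := by
  have c1 := mul_nonneg (sub_nonneg.2 a) (sub_nonneg.2 c)
  have c2 := mul_nonneg (sub_nonneg.2 a) (sub_nonneg.2 d)
  have c3 := mul_nonneg (sub_nonneg.2 b) (sub_nonneg.2 c)
  have c4 := mul_nonneg (sub_nonneg.2 b) (sub_nonneg.2 d)
  have e7 := h.e7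
  have e0 := h.e0
  have y1 := h.y1
  have y2 := h.y2
  have r0 := h.r0
  rcases h.f 2 2 (by norm_num) (by norm_num) (by linarith) with q | q
  · exact h.s 1 1 (by norm_num) (by norm_num) (by linarith) (by linarith) (by linarith)
  · exfalso
    linarith

theorem leafH62 {ε x n r ϱ : ℝ} (h : CtxH ε x n r ϱ) (a : (51/200) ≤ x) (b : x ≤ (27/100))
    (c : (89/500) ≤ n) (d : n ≤ (1/5)) : ϱ ≤ 0.4288 := by
  have c1 := mul_nonneg (sub_nonneg.2 a) (sub_nonneg.2 c)
  have c2 := mul_nonneg (sub_nonneg.2 a) (sub_nonneg.2 d)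
  have c3 := mul_nonneg (sub_nonneg.2 b) (sub_nonneg.2 c)
  have c4 := mul_nonneg (sub_nonneg.2 b) (sub_nonneg.2 d)
  have e7 := h.e7
  have e0 := h.e0
  have y1 := h.y1
  have y2 := h.y2
  have r0 := h.r0
  rcases h.f 4 4 (by norm_num) (by norm_num) (by linarith) with q | q
  · exfalso
    linarith
  · exact h.s 4 4 (by norm_num) (by norm_num) (by linarith) (by linarith) (by linarith)

theorem leafH63 {ε x n r ϱ : ℝ} (h : CtxH ε x n r ϱ) (a : (51/200) ≤ x) (b : x ≤ (27/100))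
    (c : (1/5) ≤ n) (d : n ≤ (1/4)) : ϱ ≤ 0.4288 := by
  have c1 := mul_nonneg (sub_nonneg.2 a) (sub_nonneg.2 c)
  have c2 := mul_nonneg (sub_nonneg.2 a) (sub_nonneg.2 d)
  have c3 := mul_nonneg (sub_nonneg.2 b) (sub_nonneg.2 c)
  have c4 := mul_nonneg (sub_nonneg.2 b) (sub_nonneg.2 d)
  have e7 := h.e7
  have e0 := h.e0
  have y1 := h.y1
  have y2 := h.y2
  have r0 := h.r0
  rcases h.f 4 4 (by norm_num) (by norm_num) (by linarith) with q | q
  · exact h.s 2 2 (by norm_num) (by norm_num) (by linarith) (by linarith) (by linarith)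
  · exact h.s 3 3 (by norm_num) (by norm_num) (by linarith) (by linarith) (by linarith)

theorem leafH64 {ε x n r ϱ : ℝ} (h : CtxH ε x n r ϱ) (a : (51/200) ≤ x) (b : x ≤ (27/100))
    (c : (1/4) ≤ n) (d : n ≤ (71/250)) : ϱ ≤ 0.4288 := by
  have c1 := mul_nonneg (sub_nonneg.2 a) (sub_nonneg.2 c)
  have c2 := mul_nonneg (sub_nonneg.2 a) (sub_nonneg.2 d)
  have c3 := mul_nonneg (sub_nonneg.2 b) (sub_nonneg.2 c)
  have c4 := mul_nonneg (sub_nonneg.2 b) (sub_nonneg.2 d)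
  have e7 := h.e7
  have e0 := h.e0
  have y1 := h.y1
  have y2 := h.y2
  have r0 := h.r0
  rcases h.f 3 3 (by norm_num) (by norm_num) (by linarith) with q | q
  · exfalso
    linarith
  · exact h.s 3 3 (by norm_num) (by norm_num) (by linarith) (by linarith) (by linarith)

theorem leafH65 {ε x n r ϱ : ℝ} (h : CtxH ε x n r ϱ) (a : (51/200) ≤ x) (b : x ≤ (27/100))
    (c : (71/250) ≤ n) (d : n ≤ (1667/5000)) : ϱ ≤ 0.4288 := by
  have c1 := mul_nonneg (sub_nonneg.2 a) (sub_nonneg.2 c)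
  have c2 := mul_nonneg (sub_nonneg.2 a) (sub_nonneg.2 d)
  have c3 := mul_nonneg (sub_nonneg.2 b) (sub_nonneg.2 c)
  have c4 := mul_nonneg (sub_nonneg.2 b) (sub_nonneg.2 d)
  have e7 := h.e7
  have e0 := h.e0
  have y1 := h.y1
  have y2 := h.y2
  have r0 := h.r0
  rcases h.f 3 3 (by norm_num) (by norm_num) (by linarith) with q | q
  · exact h.s 1 1 (by norm_num) (by norm_num) (by linarith) (by linarith) (by linarith)
  · exact h.s 2 2 (by norm_num) (by norm_num) (by linarith) (by linarith) (by linarith)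

theorem leafH66 {ε x n r ϱ : ℝ} (h : CtxH ε x n r ϱ) (a : (51/200) ≤ x) (b : x ≤ (27/100))
    (c : (1667/5000) ≤ n) (d : n ≤ (2/5)) : ϱ ≤ 0.4288 := by
  have c1 := mul_nonneg (sub_nonneg.2 a) (sub_nonneg.2 c)
  have c2 := mul_nonneg (sub_nonneg.2 a) (sub_nonneg.2 d)
  have c3 := mul_nonneg (sub_nonneg.2 b) (sub_nonneg.2 c)
  have c4 := mul_nonneg (sub_nonneg.2 b) (sub_nonneg.2 d)
  have e7 := h.e7
  have e0 := h.e0
  have y1 := h.y1
  have y2 := h.y2
  have r0 := h.r0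
  rcases h.f 2 2 (by norm_num) (by norm_num) (by linarith) with q | q
  · exfalso
    linarith
  · exact h.s 2 2 (by norm_num) (by norm_num) (by linarith) (by linarith) (by linarith)

theorem leafH67 {ε x n r ϱ : ℝ} (h : CtxH ε x n r ϱ) (a : (51/200) ≤ x) (b : x ≤ (27/100))
    (c : (2/5) ≤ n) (d : n ≤ (83/200)) : ϱ ≤ 0.4288 := by
  have c1 := mul_nonneg (sub_nonneg.2 a) (sub_nonneg.2 c)
  have c2 := mul_nonneg (sub_nonneg.2 a) (sub_nonneg.2 d)
  have c3 := mul_nonneg (sub_nonneg.2 b) (sub_nonneg.2 c)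
  have c4 := mul_nonneg (sub_nonneg.2 b) (sub_nonneg.2 d)
  have e7 := h.e7
  have e0 := h.e0
  have y1 := h.y1
  have y2 := h.y2
  have r0 := h.r0
  rcases h.f 2 2 (by norm_num) (by norm_num) (by linarith) with q | q
  · exfalso
    linarith
  · exact h.s 2 2 (by norm_num) (by norm_num) (by linarith) (by linarith) (by linarith)

theorem leafH68 {ε x n r ϱ : ℝ} (h : CtxH ε x n r ϱ) (a : (51/200) ≤ x) (b : x ≤ (27/100))
    (c : (83/200) ≤ n) (d : n ≤ (2143/5000)) : ϱ ≤ 0.4288 := by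
  have c1 := mul_nonneg (sub_nonneg.2 a) (sub_nonneg.2 c)
  have c2 := mul_nonneg (sub_nonneg.2 a) (sub_nonneg.2 d)
  have c3 := mul_nonneg (sub_nonneg.2 b) (sub_nonneg.2 c)
  have c4 := mul_nonneg (sub_nonneg.2 b) (sub_nonneg.2 d)
  have e7 := h.e7
  have e0 := h.e0
  have y1 := h.y1
  have y2 := h.y2
  have r0 := h.r0
  rcases h.f 2 2 (by norm_num) (by norm_num) (by linarith) with q | q
  · exfalso
    linarith
  · exact h.s 2 2 (by norm_num) (by norm_num) (by linarith) (by linarith) (by linarith)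

theorem leafH69 {ε x n r ϱ : ℝ} (h : CtxH ε x n r ϱ) (a : (51/200) ≤ x) (b : x ≤ (27/100))
    (c : (2143/5000) ≤ n) (d : n ≤ (89/200)) : ϱ ≤ 0.4288 := by
  have c1 := mul_nonneg (sub_nonneg.2 a) (sub_nonneg.2 c)
  have c2 := mul_nonneg (sub_nonneg.2 a) (sub_nonneg.2 d)
  have c3 := mul_nonneg (sub_nonneg.2 b) (sub_nonneg.2 c)
  have c4 := mul_nonneg (sub_nonneg.2 b) (sub_nonneg.2 d)
  have e7 := h.e7
  have e0 := h.e0
  have y1 := h.y1
  have y2 := h.y2
  have r0 := h.r0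
  rcases h.f 2 2 (by norm_num) (by norm_num) (by linarith) with q | q
  · exfalso
    linarith
  · exact h.s 1 1 (by norm_num) (by norm_num) (by linarith) (by linarith) (by linarith)

theorem leafH70 {ε x n r ϱ : ℝ} (h : CtxH ε x n r ϱ) (a : (51/200) ≤ x) (b : x ≤ (27/100))
    (c : (89/200) ≤ n) (d : n ≤ (1/2)) : ϱ ≤ 0.4288 := by
  have c1 := mul_nonneg (sub_nonneg.2 a) (sub_nonneg.2 c)
  have c2 := mul_nonneg (sub_nonneg.2 a) (sub_nonneg.2 d)
  have c3 := mul_nonneg (sub_nonneg.2 b) (sub_nonneg.2 c)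
  have c4 := mul_nonneg (sub_nonneg.2 b) (sub_nonneg.2 d)
  have e7 := h.e7
  have e0 := h.e0
  have y1 := h.y1
  have y2 := h.y2
  have r0 := h.r0
  rcases h.f 2 2 (by norm_num) (by norm_num) (by linarith) with q | q
  · exact h.s 1 1 (by norm_num) (by norm_num) (by linarith) (by linarith) (by linarith)
  · exact h.s 1 1 (by norm_num) (by norm_num) (by linarith) (by linarith) (by linarith)

theorem leafH71 {ε x n r ϱ : ℝ} (h : CtxH ε x n r ϱ) (a : (51/200) ≤ x) (b : x ≤ (27/100))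
    (c : (1/2) ≤ n) (d : n ≤ (3/5)) : ϱ ≤ 0.4288 := by
  have c1 := mul_nonneg (sub_nonneg.2 a) (sub_nonneg.2 c)
  have c2 := mul_nonneg (sub_nonneg.2 a) (sub_nonneg.2 d)
  have c3 := mul_nonneg (sub_nonneg.2 b) (sub_nonneg.2 c)
  have c4 := mul_nonneg (sub_nonneg.2 b) (sub_nonneg.2 d)
  have e7 := h.e7
  have e0 := h.e0
  have y1 := h.y1
  have y2 := h.y2
  have r0 := h.r0
  rcases h.f 2 2 (by norm_num) (by norm_num) (by linarith) with q | q
  · exact h.s 1 1 (by norm_num) (by norm_num) (by linarith) (by linarith) (by linarith)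
  · exact h.s 1 1 (by norm_num) (by norm_num) (by linarith) (by linarith) (by linarith)

theorem leafH72 {ε x n r ϱ : ℝ} (h : CtxH ε x n r ϱ) (a : (51/200) ≤ x) (b : x ≤ (27/100))
    (c : (3/5) ≤ n) (d : n ≤ (129/200)) : ϱ ≤ 0.4288 := by
  have c1 := mul_nonneg (sub_nonneg.2 a) (sub_nonneg.2 c)
  have c2 := mul_nonneg (sub_nonneg.2 a) (sub_nonneg.2 d)
  have c3 := mul_nonneg (sub_nonneg.2 b) (sub_nonneg.2 c)
  have c4 := mul_nonneg (sub_nonneg.2 b) (sub_nonneg.2 d)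
  have e7 := h.e7
  have e0 := h.e0
  have y1 := h.y1
  have y2 := h.y2
  have r0 := h.r0
  rcases h.f 2 2 (by norm_num) (by norm_num) (by linarith) with q | q
  · exact h.s 1 1 (by norm_num) (by norm_num) (by linarith) (by linarith) (by linarith)
  · exfalso
    linarith

theorem leafH73 {ε x n r ϱ : ℝ} (h : CtxH ε x n r ϱ) (a : (27/100) ≤ x) (b : x ≤ (3/10))
    (c : (89/500) ≤ n) (d : n ≤ (1/5)) : ϱ ≤ 0.4288 := by
  have c1 := mul_nonneg (sub_nonneg.2 a) (sub_nonneg.2 c)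
  have c2 := mul_nonneg (sub_nonneg.2 a) (sub_nonneg.2 d)
  have c3 := mul_nonneg (sub_nonneg.2 b) (sub_nonneg.2 c)
  have c4 := mul_nonneg (sub_nonneg.2 b) (sub_nonneg.2 d)
  have e7 := h.e7
  have e0 := h.e0
  have y1 := h.y1
  have y2 := h.y2
  have r0 := h.r0
  rcases h.f 4 4 (by norm_num) (by norm_num) (by linarith) with q | q
  · exfalso
    linarith
  · exact h.s 3 3 (by norm_num) (by norm_num) (by linarith) (by linarith) (by linarith)

theorem leafH74 {ε x n r ϱ : ℝ} (h : CtxH ε x n r ϱ) (a : (27/100) ≤ x) (b : x ≤ (3/10))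
    (c : (1/5) ≤ n) (d : n ≤ (1/4)) : ϱ ≤ 0.4288 := by
  have c1 := mul_nonneg (sub_nonneg.2 a) (sub_nonneg.2 c)
  have c2 := mul_nonneg (sub_nonneg.2 a) (sub_nonneg.2 d)
  have c3 := mul_nonneg (sub_nonneg.2 b) (sub_nonneg.2 c)
  have c4 := mul_nonneg (sub_nonneg.2 b) (sub_nonneg.2 d)
  have e7 := h.e7
  have e0 := h.e0
  have y1 := h.y1
  have y2 := h.y2
  have r0 := h.r0
  rcases h.f 4 4 (by norm_num) (by norm_num) (by linarith) with q | q
  · exact h.s 1 1 (by norm_num) (by norm_num) (by linarith) (by linarith) (by linarith)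
  · exact h.s 3 3 (by norm_num) (by norm_num) (by linarith) (by linarith) (by linarith)

theorem leafH75 {ε x n r ϱ : ℝ} (h : CtxH ε x n r ϱ) (a : (27/100) ≤ x) (b : x ≤ (3/10))
    (c : (1/4) ≤ n) (d : n ≤ (71/250)) : ϱ ≤ 0.4288 := by
  have c1 := mul_nonneg (sub_nonneg.2 a) (sub_nonneg.2 c)
  have c2 := mul_nonneg (sub_nonneg.2 a) (sub_nonneg.2 d)
  have c3 := mul_nonneg (sub_nonneg.2 b) (sub_nonneg.2 c)
  have c4 := mul_nonneg (sub_nonneg.2 b) (sub_nonneg.2 d)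
  have e7 := h.e7
  have e0 := h.e0
  have y1 := h.y1
  have y2 := h.y2
  have r0 := h.r0
  rcases h.f 3 3 (by norm_num) (by norm_num) (by linarith) with q | q
  · exfalso
    linarith
  · exact h.s 2 2 (by norm_num) (by norm_num) (by linarith) (by linarith) (by linarith)

theorem leafH76 {ε x n r ϱ : ℝ} (h : CtxH ε x n r ϱ) (a : (27/100) ≤ x) (b : x ≤ (3/10))
    (c : (71/250) ≤ n) (d : n ≤ (1667/5000)) : ϱ ≤ 0.4288 := by
  have c1 := mul_nonneg (sub_nonneg.2 a) (sub_nonneg.2 c)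
  have c2 := mul_nonneg (sub_nonneg.2 a) (sub_nonneg.2 d)
  have c3 := mul_nonneg (sub_nonneg.2 b) (sub_nonneg.2 c)
  have c4 := mul_nonneg (sub_nonneg.2 b) (sub_nonneg.2 d)
  have e7 := h.e7
  have e0 := h.e0
  have y1 := h.y1
  have y2 := h.y2
  have r0 := h.r0
  rcases h.f 3 3 (by norm_num) (by norm_num) (by linarith) with q | q
  · exact h.s 1 1 (by norm_num) (by norm_num) (by linarith) (by linarith) (by linarith)
  · exact h.s 2 2 (by norm_num) (by norm_num) (by linarith) (by linarith) (by linarith)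

theorem leafH77 {ε x n r ϱ : ℝ} (h : CtxH ε x n r ϱ) (a : (27/100) ≤ x) (b : x ≤ (3/10))
    (c : (1667/5000) ≤ n) (d : n ≤ (2/5)) : ϱ ≤ 0.4288 := by
  have c1 := mul_nonneg (sub_nonneg.2 a) (sub_nonneg.2 c)
  have c2 := mul_nonneg (sub_nonneg.2 a) (sub_nonneg.2 d)
  have c3 := mul_nonneg (sub_nonneg.2 b) (sub_nonneg.2 c)
  have c4 := mul_nonneg (sub_nonneg.2 b) (sub_nonneg.2 d)
  have e7 := h.e7
  have e0 := h.e0
  have y1 := h.y1
  have y2 := h.y2
  have r0 := h.r0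
  rcases h.f 2 2 (by norm_num) (by norm_num) (by linarith) with q | q
  · exfalso
    linarith
  · exact h.s 2 2 (by norm_num) (by norm_num) (by linarith) (by linarith) (by linarith)

theorem leafH78 {ε x n r ϱ : ℝ} (h : CtxH ε x n r ϱ) (a : (27/100) ≤ x) (b : x ≤ (3/10))
    (c : (2/5) ≤ n) (d : n ≤ (83/200)) : ϱ ≤ 0.4288 := by
  have c1 := mul_nonneg (sub_nonneg.2 a) (sub_nonneg.2 c)
  have c2 := mul_nonneg (sub_nonneg.2 a) (sub_nonneg.2 d)
  have c3 := mul_nonneg (sub_nonneg.2 b) (sub_nonneg.2 c)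
  have c4 := mul_nonneg (sub_nonneg.2 b) (sub_nonneg.2 d)
  have e7 := h.e7
  have e0 := h.e0
  have y1 := h.y1
  have y2 := h.y2
  have r0 := h.r0
  rcases h.f 2 2 (by norm_num) (by norm_num) (by linarith) with q | q
  · exfalso
    linarith
  · exact h.s 2 2 (by norm_num) (by norm_num) (by linarith) (by linarith) (by linarith)

theorem leafH79 {ε x n r ϱ : ℝ} (h : CtxH ε x n r ϱ) (a : (27/100) ≤ x) (b : x ≤ (3/10))
    (c : (83/200) ≤ n) (d : n ≤ (2143/5000)) : ϱ ≤ 0.4288 := by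
  have c1 := mul_nonneg (sub_nonneg.2 a) (sub_nonneg.2 c)
  have c2 := mul_nonneg (sub_nonneg.2 a) (sub_nonneg.2 d)
  have c3 := mul_nonneg (sub_nonneg.2 b) (sub_nonneg.2 c)
  have c4 := mul_nonneg (sub_nonneg.2 b) (sub_nonneg.2 d)
  have e7 := h.e7
  have e0 := h.e0
  have y1 := h.y1
  have y2 := h.y2
  have r0 := h.r0
  rcases h.f 2 2 (by norm_num) (by norm_num) (by linarith) with q | q
  · exfalso
    linarith
  · exact h.s 1 1 (by norm_num) (by norm_num) (by linarith) (by linarith) (by linarith)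

theorem leafH80 {ε x n r ϱ : ℝ} (h : CtxH ε x n r ϱ) (a : (27/100) ≤ x) (b : x ≤ (3/10))
    (c : (2143/5000) ≤ n) (d : n ≤ (89/200)) : ϱ ≤ 0.4288 := by
  have c1 := mul_nonneg (sub_nonneg.2 a) (sub_nonneg.2 c)
  have c2 := mul_nonneg (sub_nonneg.2 a) (sub_nonneg.2 d)
  have c3 := mul_nonneg (sub_nonneg.2 b) (sub_nonneg.2 c)
  have c4 := mul_nonneg (sub_nonneg.2 b) (sub_nonneg.2 d)
  have e7 := h.e7
  have e0 := h.e0
  have y1 := h.y1
  have y2 := h.y2
  have r0 := h.r0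
  rcases h.f 2 2 (by norm_num) (by norm_num) (by linarith) with q | q
  · exfalso
    linarith
  · exact h.s 1 1 (by norm_num) (by norm_num) (by linarith) (by linarith) (by linarith)

theorem leafH81 {ε x n r ϱ : ℝ} (h : CtxH ε x n r ϱ) (a : (27/100) ≤ x) (b : x ≤ (3/10))
    (c : (89/200) ≤ n) (d : n ≤ (1/2)) : ϱ ≤ 0.4288 := by
  have c1 := mul_nonneg (sub_nonneg.2 a) (sub_nonneg.2 c)
  have c2 := mul_nonneg (sub_nonneg.2 a) (sub_nonneg.2 d)
  have c3 := mul_nonneg (sub_nonneg.2 b) (sub_nonneg.2 c)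
  have c4 := mul_nonneg (sub_nonneg.2 b) (sub_nonneg.2 d)
  have e7 := h.e7
  have e0 := h.e0
  have y1 := h.y1
  have y2 := h.y2
  have r0 := h.r0
  rcases h.f 2 2 (by norm_num) (by norm_num) (by linarith) with q | q
  · exact h.s 1 1 (by norm_num) (by norm_num) (by linarith) (by linarith) (by linarith)
  · exact h.s 1 1 (by norm_num) (by norm_num) (by linarith) (by linarith) (by linarith)

theorem leafH82 {ε x n r ϱ : ℝ} (h : CtxH ε x n r ϱ) (a : (27/100) ≤ x) (b : x ≤ (3/10))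
    (c : (1/2) ≤ n) (d : n ≤ (3/5)) : ϱ ≤ 0.4288 := by
  have c1 := mul_nonneg (sub_nonneg.2 a) (sub_nonneg.2 c)
  have c2 := mul_nonneg (sub_nonneg.2 a) (sub_nonneg.2 d)
  have c3 := mul_nonneg (sub_nonneg.2 b) (sub_nonneg.2 c)
  have c4 := mul_nonneg (sub_nonneg.2 b) (sub_nonneg.2 d)
  have e7 := h.e7
  have e0 := h.e0
  have y1 := h.y1
  have y2 := h.y2
  have r0 := h.r0
  rcases h.f 2 2 (by norm_num) (by norm_num) (by linarith) with q | q
  · exact h.s 1 1 (by norm_num) (by norm_num) (by linarith) (by linarith) (by linarith)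
  · exact h.s 1 1 (by norm_num) (by norm_num) (by linarith) (by linarith) (by linarith)

theorem leafH83 {ε x n r ϱ : ℝ} (h : CtxH ε x n r ϱ) (a : (27/100) ≤ x) (b : x ≤ (57/200))
    (c : (3/5) ≤ n) (d : n ≤ (691/1000)) : ϱ ≤ 0.4288 := by
  have c1 := mul_nonneg (sub_nonneg.2 a) (sub_nonneg.2 c)
  have c2 := mul_nonneg (sub_nonneg.2 a) (sub_nonneg.2 d)
  have c3 := mul_nonneg (sub_nonneg.2 b) (sub_nonneg.2 c)
  have c4 := mul_nonneg (sub_nonneg.2 b) (sub_nonneg.2 d)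
  have e7 := h.e7
  have e0 := h.e0
  have y1 := h.y1
  have y2 := h.y2
  have r0 := h.r0
  rcases h.f 2 2 (by norm_num) (by norm_num) (by linarith) with q | q
  · exact h.s 1 1 (by norm_num) (by norm_num) (by linarith) (by linarith) (by linarith)
  · exfalso
    linarith

theorem leafH84 {ε x n r ϱ : ℝ} (h : CtxH ε x n r ϱ) (a : (57/200) ≤ x) (b : x ≤ (3/10))
    (c : (3/5) ≤ n) (d : n ≤ (691/1000)) : ϱ ≤ 0.4288 := by
  have c1 := mul_nonneg (sub_nonneg.2 a) (sub_nonneg.2 c)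
  have c2 := mul_nonneg (sub_nonneg.2 a) (sub_nonneg.2 d)
  have c3 := mul_nonneg (sub_nonneg.2 b) (sub_nonneg.2 c)
  have c4 := mul_nonneg (sub_nonneg.2 b) (sub_nonneg.2 d)
  have e7 := h.e7
  have e0 := h.e0
  have y1 := h.y1
  have y2 := h.y2
  have r0 := h.r0
  rcases h.f 1 1 (by norm_num) (by norm_num) (by linarith) with q | q
  · exfalso
    linarith
  · exact h.s 1 1 (by norm_num) (by norm_num) (by linarith) (by linarith) (by linarith)

theorem leafH85 {ε x n r ϱ : ℝ} (h : CtxH ε x n r ϱ) (a : (3/10) ≤ x) (b : x ≤ (400001/1000000))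
    (c : (89/500) ≤ n) (d : n ≤ (1/5)) : ϱ ≤ 0.4288 := by
  have c1 := mul_nonneg (sub_nonneg.2 a) (sub_nonneg.2 c)
  have c2 := mul_nonneg (sub_nonneg.2 a) (sub_nonneg.2 d)
  have c3 := mul_nonneg (sub_nonneg.2 b) (sub_nonneg.2 c)
  have c4 := mul_nonneg (sub_nonneg.2 b) (sub_nonneg.2 d)
  have e7 := h.e7
  have e0 := h.e0
  have y1 := h.y1
  have y2 := h.y2
  have r0 := h.r0
  rcases h.f 4 4 (by norm_num) (by norm_num) (by linarith) with q | q
  · exfalso
    linarith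
  · exact h.s 3 3 (by norm_num) (by norm_num) (by linarith) (by linarith) (by linarith)

theorem leafH86 {ε x n r ϱ : ℝ} (h : CtxH ε x n r ϱ) (a : (3/10) ≤ x) (b : x ≤ (400001/1000000))
    (c : (1/5) ≤ n) (d : n ≤ (1/4)) : ϱ ≤ 0.4288 := by
  have c1 := mul_nonneg (sub_nonneg.2 a) (sub_nonneg.2 c)
  have c2 := mul_nonneg (sub_nonneg.2 a) (sub_nonneg.2 d)
  have c3 := mul_nonneg (sub_nonneg.2 b) (sub_nonneg.2 c)
  have c4 := mul_nonneg (sub_nonneg.2 b) (sub_nonneg.2 d)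
  have e7 := h.e7
  have e0 := h.e0
  have y1 := h.y1
  have y2 := h.y2
  have r0 := h.r0
  rcases h.f 3 3 (by norm_num) (by norm_num) (by linarith) with q | q
  · exfalso
    linarith
  · exact h.s 3 3 (by norm_num) (by norm_num) (by linarith) (by linarith) (by linarith)

theorem leafH87 {ε x n r ϱ : ℝ} (h : CtxH ε x n r ϱ) (a : (3/10) ≤ x) (b : x ≤ (400001/1000000))
    (c : (1/4) ≤ n) (d : n ≤ (71/250)) : ϱ ≤ 0.4288 := by
  have c1 := mul_nonneg (sub_nonneg.2 a) (sub_nonneg.2 c)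
  have c2 := mul_nonneg (sub_nonneg.2 a) (sub_nonneg.2 d)
  have c3 := mul_nonneg (sub_nonneg.2 b) (sub_nonneg.2 c)
  have c4 := mul_nonneg (sub_nonneg.2 b) (sub_nonneg.2 d)
  have e7 := h.e7
  have e0 := h.e0
  have y1 := h.y1
  have y2 := h.y2
  have r0 := h.r0
  rcases h.f 3 3 (by norm_num) (by norm_num) (by linarith) with q | q
  · exfalso
    linarith
  · exact h.s 2 2 (by norm_num) (by norm_num) (by linarith) (by linarith) (by linarith)

theorem leafH88 {ε x n r ϱ : ℝ} (h : CtxH ε x n r ϱ) (a : (3/10) ≤ x) (b : x ≤ (400001/1000000))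
    (c : (71/250) ≤ n) (d : n ≤ (1667/5000)) : ϱ ≤ 0.4288 := by
  have c1 := mul_nonneg (sub_nonneg.2 a) (sub_nonneg.2 c)
  have c2 := mul_nonneg (sub_nonneg.2 a) (sub_nonneg.2 d)
  have c3 := mul_nonneg (sub_nonneg.2 b) (sub_nonneg.2 c)
  have c4 := mul_nonneg (sub_nonneg.2 b) (sub_nonneg.2 d)
  have e7 := h.e7
  have e0 := h.e0
  have y1 := h.y1
  have y2 := h.y2
  have r0 := h.r0
  rcases h.f 2 2 (by norm_num) (by norm_num) (by linarith) with q | q
  · exfalso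
    linarith
  · exact h.s 2 2 (by norm_num) (by norm_num) (by linarith) (by linarith) (by linarith)

theorem leafH89 {ε x n r ϱ : ℝ} (h : CtxH ε x n r ϱ) (a : (3/10) ≤ x) (b : x ≤ (400001/1000000))
    (c : (1667/5000) ≤ n) (d : n ≤ (2/5)) : ϱ ≤ 0.4288 := by
  have c1 := mul_nonneg (sub_nonneg.2 a) (sub_nonneg.2 c)
  have c2 := mul_nonneg (sub_nonneg.2 a) (sub_nonneg.2 d)
  have c3 := mul_nonneg (sub_nonneg.2 b) (sub_nonneg.2 c)
  have c4 := mul_nonneg (sub_nonneg.2 b) (sub_nonneg.2 d)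
  have e7 := h.e7
  have e0 := h.e0
  have y1 := h.y1
  have y2 := h.y2
  have r0 := h.r0
  rcases h.f 2 2 (by norm_num) (by norm_num) (by linarith) with q | q
  · exfalso
    linarith
  · exact h.s 2 2 (by norm_num) (by norm_num) (by linarith) (by linarith) (by linarith)

theorem leafH90 {ε x n r ϱ : ℝ} (h : CtxH ε x n r ϱ) (a : (3/10) ≤ x) (b : x ≤ (400001/1000000))
    (c : (2/5) ≤ n) (d : n ≤ (83/200)) : ϱ ≤ 0.4288 := by
  have c1 := mul_nonneg (sub_nonneg.2 a) (sub_nonneg.2 c)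
  have c2 := mul_nonneg (sub_nonneg.2 a) (sub_nonneg.2 d)
  have c3 := mul_nonneg (sub_nonneg.2 b) (sub_nonneg.2 c)
  have c4 := mul_nonneg (sub_nonneg.2 b) (sub_nonneg.2 d)
  have e7 := h.e7
  have e0 := h.e0
  have y1 := h.y1
  have y2 := h.y2
  have r0 := h.r0
  rcases h.f 2 2 (by norm_num) (by norm_num) (by linarith) with q | q
  · exfalso
    linarith
  · exact h.s 1 1 (by norm_num) (by norm_num) (by linarith) (by linarith) (by linarith)

theorem leafH91 {ε x n r ϱ : ℝ} (h : CtxH ε x n r ϱ) (a : (3/10) ≤ x) (b : x ≤ (400001/1000000))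
    (c : (83/200) ≤ n) (d : n ≤ (2143/5000)) : ϱ ≤ 0.4288 := by
  have c1 := mul_nonneg (sub_nonneg.2 a) (sub_nonneg.2 c)
  have c2 := mul_nonneg (sub_nonneg.2 a) (sub_nonneg.2 d)
  have c3 := mul_nonneg (sub_nonneg.2 b) (sub_nonneg.2 c)
  have c4 := mul_nonneg (sub_nonneg.2 b) (sub_nonneg.2 d)
  have e7 := h.e7
  have e0 := h.e0
  have y1 := h.y1
  have y2 := h.y2
  have r0 := h.r0
  rcases h.f 2 2 (by norm_num) (by norm_num) (by linarith) with q | q
  · exfalso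
    linarith
  · exact h.s 1 1 (by norm_num) (by norm_num) (by linarith) (by linarith) (by linarith)

theorem leafH92 {ε x n r ϱ : ℝ} (h : CtxH ε x n r ϱ) (a : (3/10) ≤ x) (b : x ≤ (400001/1000000))
    (c : (2143/5000) ≤ n) (d : n ≤ (89/200)) : ϱ ≤ 0.4288 := by
  have c1 := mul_nonneg (sub_nonneg.2 a) (sub_nonneg.2 c)
  have c2 := mul_nonneg (sub_nonneg.2 a) (sub_nonneg.2 d)
  have c3 := mul_nonneg (sub_nonneg.2 b) (sub_nonneg.2 c)
  have c4 := mul_nonneg (sub_nonneg.2 b) (sub_nonneg.2 d)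
  have e7 := h.e7
  have e0 := h.e0
  have y1 := h.y1
  have y2 := h.y2
  have r0 := h.r0
  rcases h.f 2 2 (by norm_num) (by norm_num) (by linarith) with q | q
  · exfalso
    linarith
  · exact h.s 1 1 (by norm_num) (by norm_num) (by linarith) (by linarith) (by linarith)

theorem leafH93 {ε x n r ϱ : ℝ} (h : CtxH ε x n r ϱ) (a : (3/10) ≤ x) (b : x ≤ (400001/1000000))
    (c : (89/200) ≤ n) (d : n ≤ (1/2)) : ϱ ≤ 0.4288 := by
  have c1 := mul_nonneg (sub_nonneg.2 a) (sub_nonneg.2 c)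
  have c2 := mul_nonneg (sub_nonneg.2 a) (sub_nonneg.2 d)
  have c3 := mul_nonneg (sub_nonneg.2 b) (sub_nonneg.2 c)
  have c4 := mul_nonneg (sub_nonneg.2 b) (sub_nonneg.2 d)
  have e7 := h.e7
  have e0 := h.e0
  have y1 := h.y1
  have y2 := h.y2
  have r0 := h.r0
  rcases h.f 2 2 (by norm_num) (by norm_num) (by linarith) with q | q
  · exact h.s 1 1 (by norm_num) (by norm_num) (by linarith) (by linarith) (by linarith)
  · exact h.s 1 1 (by norm_num) (by norm_num) (by linarith) (by linarith) (by linarith)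

theorem leafH94 {ε x n r ϱ : ℝ} (h : CtxH ε x n r ϱ) (a : (3/10) ≤ x) (b : x ≤ (400001/1000000))
    (c : (1/2) ≤ n) (d : n ≤ (3/5)) : ϱ ≤ 0.4288 := by
  have c1 := mul_nonneg (sub_nonneg.2 a) (sub_nonneg.2 c)
  have c2 := mul_nonneg (sub_nonneg.2 a) (sub_nonneg.2 d)
  have c3 := mul_nonneg (sub_nonneg.2 b) (sub_nonneg.2 c)
  have c4 := mul_nonneg (sub_nonneg.2 b) (sub_nonneg.2 d)
  have e7 := h.e7
  have e0 := h.e0
  have y1 := h.y1
  have y2 := h.y2
  have r0 := h.r0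
  rcases h.f 2 2 (by norm_num) (by norm_num) (by linarith) with q | q
  · exact h.s 1 1 (by norm_num) (by norm_num) (by linarith) (by linarith) (by linarith)
  · exact h.s 1 1 (by norm_num) (by norm_num) (by linarith) (by linarith) (by linarith)

theorem leafH95 {ε x n r ϱ : ℝ} (h : CtxH ε x n r ϱ) (a : (3/10) ≤ x) (b : x ≤ (400001/1000000))
    (c : (3/5) ≤ n) (d : n ≤ (911/1000)) : ϱ ≤ 0.4288 := by
  have c1 := mul_nonneg (sub_nonneg.2 a) (sub_nonneg.2 c)
  have c2 := mul_nonneg (sub_nonneg.2 a) (sub_nonneg.2 d)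
  have c3 := mul_nonneg (sub_nonneg.2 b) (sub_nonneg.2 c)
  have c4 := mul_nonneg (sub_nonneg.2 b) (sub_nonneg.2 d)
  have e7 := h.e7
  have e0 := h.e0
  have y1 := h.y1
  have y2 := h.y2
  have r0 := h.r0
  rcases h.f 1 1 (by norm_num) (by norm_num) (by linarith) with q | q
  · exfalso
    linarith
  · exact h.s 1 1 (by norm_num) (by norm_num) (by linarith) (by linarith) (by linarith)

theorem colH0 {ε x n r ϱ : ℝ} (h : CtxH ε x n r ϱ) (hx0 : 0 ≤ x) (hx1 : x ≤ (329/2000))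
    (hn0 : 89/500 ≤ n) : ϱ ≤ 0.4288 := by
  have hn1 : n ≤ (249/500) := by
    linarith [mul_nonneg (sub_nonneg.2 hx1) h.n0.le, h.y1, h.y2, h.e7]
  rcases le_total n (1667/5000) with u1 | u1
  · rcases le_total n (1/4) with u2 | u2
    · rcases le_total n (1/5) with u3 | u3
      · exact leafH0 h hx0 hx1 hn0 u3
      · rcases le_total x (329/4000) with u4 | u4
        · exact leafH1 h hx0 u4 u3 u2
        · exact leafH2 h u4 hx1 u3 u2
    · rcases le_total n (71/250) with u3 | u3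
      · exact leafH3 h hx0 hx1 u2 u3
      · rcases le_total x (329/4000) with u4 | u4
        · exact leafH4 h hx0 u4 u3 u1
        · exact leafH5 h u4 hx1 u3 u1
  · rcases le_total n (83/200) with u2 | u2
    · rcases le_total n (2/5) with u3 | u3
      · exact leafH6 h hx0 hx1 u1 u3
      · exact leafH7 h hx0 hx1 u3 u2
    · rcases le_total n (2143/5000) with u3 | u3
      · exact leafH8 h hx0 hx1 u2 u3
      · rcases le_total n (89/200) with u4 | u4
        · exact leafH9 h hx0 hx1 u3 u4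
        · exact leafH10 h hx0 hx1 u4 hn1


theorem colH1 {ε x n r ϱ : ℝ} (h : CtxH ε x n r ϱ) (hx0 : (329/2000) ≤ x) (hx1 : x ≤ (1/5))
    (hn0 : 89/500 ≤ n) : ϱ ≤ 0.4288 := by
  have hn1 : n ≤ (557/1000) := by
    linarith [mul_nonneg (sub_nonneg.2 hx1) h.n0.le, h.y1, h.y2, h.e7]
  rcases le_total n (2/5) with u1 | u1
  · rcases le_total n (1/4) with u2 | u2
    · rcases le_total n (1/5) with u3 | u3
      · exact leafH11 h hx0 hx1 hn0 u3
      · exact leafH12 h hx0 hx1 u3 u2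
    · rcases le_total n (71/250) with u3 | u3
      · exact leafH13 h hx0 hx1 u2 u3
      · rcases le_total n (1667/5000) with u4 | u4
        · exact leafH14 h hx0 hx1 u3 u4
        · exact leafH15 h hx0 hx1 u4 u1
  · rcases le_total n (2143/5000) with u2 | u2
    · rcases le_total n (83/200) with u3 | u3
      · exact leafH16 h hx0 hx1 u1 u3
      · exact leafH17 h hx0 hx1 u3 u2
    · rcases le_total n (89/200) with u3 | u3
      · exact leafH18 h hx0 hx1 u2 u3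
      · rcases le_total n (1/2) with u4 | u4
        · exact leafH19 h hx0 hx1 u3 u4
        · exact leafH20 h hx0 hx1 u4 hn1


theorem colH2 {ε x n r ϱ : ℝ} (h : CtxH ε x n r ϱ) (hx0 : (1/5) ≤ x) (hx1 : x ≤ (47/200))
    (hn0 : 89/500 ≤ n) : ϱ ≤ 0.4288 := by
  have hn1 : n ≤ (299/500) := by
    linarith [mul_nonneg (sub_nonneg.2 hx1) h.n0.le, h.y1, h.y2, h.e7]
  rcases le_total n (2/5) with u1 | u1
  · rcases le_total n (1/4) with u2 | u2
    · rcases le_total n (1/5) with u3 | u3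
      · exact leafH21 h hx0 hx1 hn0 u3
      · exact leafH22 h hx0 hx1 u3 u2
    · rcases le_total n (71/250) with u3 | u3
      · exact leafH23 h hx0 hx1 u2 u3
      · rcases le_total n (1667/5000) with u4 | u4
        · exact leafH24 h hx0 hx1 u3 u4
        · exact leafH25 h hx0 hx1 u4 u1
  · rcases le_total n (2143/5000) with u2 | u2
    · rcases le_total n (83/200) with u3 | u3
      · exact leafH26 h hx0 hx1 u1 u3
      · exact leafH27 h hx0 hx1 u3 u2
    · rcases le_total n (89/200) with u3 | u3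
      · exact leafH28 h hx0 hx1 u2 u3
      · rcases le_total n (1/2) with u4 | u4
        · exact leafH29 h hx0 hx1 u3 u4
        · exact leafH30 h hx0 hx1 u4 hn1


theorem colH3 {ε x n r ϱ : ℝ} (h : CtxH ε x n r ϱ) (hx0 : (47/200) ≤ x) (hx1 : x ≤ (49/200))
    (hn0 : 89/500 ≤ n) : ϱ ≤ 0.4288 := by
  have hn1 : n ≤ (61/100) := by
    linarith [mul_nonneg (sub_nonneg.2 hx1) h.n0.le, h.y1, h.y2, h.e7]
  rcases le_total n (2/5) with u1 | u1
  · rcases le_total n (1/4) with u2 | u2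
    · rcases le_total n (1/5) with u3 | u3
      · exact leafH31 h hx0 hx1 hn0 u3
      · exact leafH32 h hx0 hx1 u3 u2
    · rcases le_total n (71/250) with u3 | u3
      · exact leafH33 h hx0 hx1 u2 u3
      · rcases le_total n (1667/5000) with u4 | u4
        · exact leafH34 h hx0 hx1 u3 u4
        · exact leafH35 h hx0 hx1 u4 u1
  · rcases le_total n (2143/5000) with u2 | u2
    · rcases le_total n (83/200) with u3 | u3
      · exact leafH36 h hx0 hx1 u1 u3
      · exact leafH37 h hx0 hx1 u3 u2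
    · rcases le_total n (89/200) with u3 | u3
      · exact leafH38 h hx0 hx1 u2 u3
      · rcases le_total n (1/2) with u4 | u4
        · exact leafH39 h hx0 hx1 u3 u4
        · exact leafH40 h hx0 hx1 u4 hn1


theorem colH4 {ε x n r ϱ : ℝ} (h : CtxH ε x n r ϱ) (hx0 : (49/200) ≤ x) (hx1 : x ≤ (1/4))
    (hn0 : 89/500 ≤ n) : ϱ ≤ 0.4288 := by
  have hn1 : n ≤ (617/1000) := by
    linarith [mul_nonneg (sub_nonneg.2 hx1) h.n0.le, h.y1, h.y2, h.e7]
  rcases le_total n (2/5) with u1 | u1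
  · rcases le_total n (1/4) with u2 | u2
    · rcases le_total n (1/5) with u3 | u3
      · exact leafH41 h hx0 hx1 hn0 u3
      · exact leafH42 h hx0 hx1 u3 u2
    · rcases le_total n (71/250) with u3 | u3
      · exact leafH43 h hx0 hx1 u2 u3
      · rcases le_total n (1667/5000) with u4 | u4
        · exact leafH44 h hx0 hx1 u3 u4
        · exact leafH45 h hx0 hx1 u4 u1
  · rcases le_total n (2143/5000) with u2 | u2
    · rcases le_total n (83/200) with u3 | u3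
      · exact leafH46 h hx0 hx1 u1 u3
      · exact leafH47 h hx0 hx1 u3 u2
    · rcases le_total n (89/200) with u3 | u3
      · exact leafH48 h hx0 hx1 u2 u3
      · rcases le_total n (1/2) with u4 | u4
        · exact leafH49 h hx0 hx1 u3 u4
        · exact leafH50 h hx0 hx1 u4 hn1


theorem colH5 {ε x n r ϱ : ℝ} (h : CtxH ε x n r ϱ) (hx0 : (1/4) ≤ x) (hx1 : x ≤ (51/200))
    (hn0 : 89/500 ≤ n) : ϱ ≤ 0.4288 := by
  have hn1 : n ≤ (78/125) := by
    linarith [mul_nonneg (sub_nonneg.2 hx1) h.n0.le, h.y1, h.y2, h.e7]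
  rcases le_total n (2/5) with u1 | u1
  · rcases le_total n (1/4) with u2 | u2
    · rcases le_total n (1/5) with u3 | u3
      · exact leafH51 h hx0 hx1 hn0 u3
      · exact leafH52 h hx0 hx1 u3 u2
    · rcases le_total n (71/250) with u3 | u3
      · exact leafH53 h hx0 hx1 u2 u3
      · rcases le_total n (1667/5000) with u4 | u4
        · exact leafH54 h hx0 hx1 u3 u4
        · exact leafH55 h hx0 hx1 u4 u1
  · rcases le_total n (89/200) with u2 | u2
    · rcases le_total n (83/200) with u3 | u3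
      · exact leafH56 h hx0 hx1 u1 u3
      · rcases le_total n (2143/5000) with u4 | u4
        · exact leafH57 h hx0 hx1 u3 u4
        · exact leafH58 h hx0 hx1 u4 u2
    · rcases le_total n (1/2) with u3 | u3
      · exact leafH59 h hx0 hx1 u2 u3
      · rcases le_total n (3/5) with u4 | u4
        · exact leafH60 h hx0 hx1 u3 u4
        · exact leafH61 h hx0 hx1 u4 hn1


theorem colH6 {ε x n r ϱ : ℝ} (h : CtxH ε x n r ϱ) (hx0 : (51/200) ≤ x) (hx1 : x ≤ (27/100))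
    (hn0 : 89/500 ≤ n) : ϱ ≤ 0.4288 := by
  have hn1 : n ≤ (129/200) := by
    linarith [mul_nonneg (sub_nonneg.2 hx1) h.n0.le, h.y1, h.y2, h.e7]
  rcases le_total n (2/5) with u1 | u1
  · rcases le_total n (1/4) with u2 | u2
    · rcases le_total n (1/5) with u3 | u3
      · exact leafH62 h hx0 hx1 hn0 u3
      · exact leafH63 h hx0 hx1 u3 u2
    · rcases le_total n (71/250) with u3 | u3
      · exact leafH64 h hx0 hx1 u2 u3
      · rcases le_total n (1667/5000) with u4 | u4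
        · exact leafH65 h hx0 hx1 u3 u4
        · exact leafH66 h hx0 hx1 u4 u1
  · rcases le_total n (89/200) with u2 | u2
    · rcases le_total n (83/200) with u3 | u3
      · exact leafH67 h hx0 hx1 u1 u3
      · rcases le_total n (2143/5000) with u4 | u4
        · exact leafH68 h hx0 hx1 u3 u4
        · exact leafH69 h hx0 hx1 u4 u2
    · rcases le_total n (1/2) with u3 | u3
      · exact leafH70 h hx0 hx1 u2 u3
      · rcases le_total n (3/5) with u4 | u4
        · exact leafH71 h hx0 hx1 u3 u4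
        · exact leafH72 h hx0 hx1 u4 hn1


theorem colH7 {ε x n r ϱ : ℝ} (h : CtxH ε x n r ϱ) (hx0 : (27/100) ≤ x) (hx1 : x ≤ (3/10))
    (hn0 : 89/500 ≤ n) : ϱ ≤ 0.4288 := by
  have hn1 : n ≤ (691/1000) := by
    linarith [mul_nonneg (sub_nonneg.2 hx1) h.n0.le, h.y1, h.y2, h.e7]
  rcases le_total n (2/5) with u1 | u1
  · rcases le_total n (1/4) with u2 | u2
    · rcases le_total n (1/5) with u3 | u3
      · exact leafH73 h hx0 hx1 hn0 u3
      · exact leafH74 h hx0 hx1 u3 u2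
    · rcases le_total n (71/250) with u3 | u3
      · exact leafH75 h hx0 hx1 u2 u3
      · rcases le_total n (1667/5000) with u4 | u4
        · exact leafH76 h hx0 hx1 u3 u4
        · exact leafH77 h hx0 hx1 u4 u1
  · rcases le_total n (89/200) with u2 | u2
    · rcases le_total n (83/200) with u3 | u3
      · exact leafH78 h hx0 hx1 u1 u3
      · rcases le_total n (2143/5000) with u4 | u4
        · exact leafH79 h hx0 hx1 u3 u4
        · exact leafH80 h hx0 hx1 u4 u2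
    · rcases le_total n (1/2) with u3 | u3
      · exact leafH81 h hx0 hx1 u2 u3
      · rcases le_total n (3/5) with u4 | u4
        · exact leafH82 h hx0 hx1 u3 u4
        · rcases le_total x (57/200) with u5 | u5
          · exact leafH83 h hx0 u5 u4 hn1
          · exact leafH84 h u5 hx1 u4 hn1


theorem colH8 {ε x n r ϱ : ℝ} (h : CtxH ε x n r ϱ) (hx0 : (3/10) ≤ x) (hx1 : x ≤ (400001/1000000))
    (hn0 : 89/500 ≤ n) : ϱ ≤ 0.4288 := by
  have hn1 : n ≤ (911/1000) := by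
    linarith [mul_nonneg (sub_nonneg.2 hx1) h.n0.le, h.y1, h.y2, h.e7]
  rcases le_total n (2/5) with u1 | u1
  · rcases le_total n (1/4) with u2 | u2
    · rcases le_total n (1/5) with u3 | u3
      · exact leafH85 h hx0 hx1 hn0 u3
      · exact leafH86 h hx0 hx1 u3 u2
    · rcases le_total n (71/250) with u3 | u3
      · exact leafH87 h hx0 hx1 u2 u3
      · rcases le_total n (1667/5000) with u4 | u4
        · exact leafH88 h hx0 hx1 u3 u4
        · exact leafH89 h hx0 hx1 u4 u1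
  · rcases le_total n (89/200) with u2 | u2
    · rcases le_total n (83/200) with u3 | u3
      · exact leafH90 h hx0 hx1 u1 u3
      · rcases le_total n (2143/5000) with u4 | u4
        · exact leafH91 h hx0 hx1 u3 u4
        · exact leafH92 h hx0 hx1 u4 u2
    · rcases le_total n (1/2) with u3 | u3
      · exact leafH93 h hx0 hx1 u2 u3
      · rcases le_total n (3/5) with u4 | u4
        · exact leafH94 h hx0 hx1 u3 u4
        · exact leafH95 h hx0 hx1 u4 hn1


theorem allcolsH {ε x n r ϱ : ℝ} (h : CtxH ε x n r ϱ) (hx1 : x ≤ (400001/1000000)) (hn0 : 89/500 ≤ n) :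
    ϱ ≤ 0.4288 := by
  have hx0 : 0 ≤ x := h.x0.le
  rcases le_total x (329/2000) with v0 | v0
  · exact colH0 h hx0 v0 hn0
  rcases le_total x (1/5) with v1 | v1
  · exact colH1 h v0 v1 hn0
  rcases le_total x (47/200) with v2 | v2
  · exact colH2 h v1 v2 hn0
  rcases le_total x (49/200) with v3 | v3
  · exact colH3 h v2 v3 hn0
  rcases le_total x (1/4) with v4 | v4
  · exact colH4 h v3 v4 hn0
  rcases le_total x (51/200) with v5 | v5
  · exact colH5 h v4 v5 hn0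
  rcases le_total x (27/100) with v6 | v6
  · exact colH6 h v5 v6 hn0
  rcases le_total x (3/10) with v7 | v7
  · exact colH7 h v6 v7 hn0
  exact colH8 h v7 hx1 hn0

theorem smallNH {ε x n r ϱ : ℝ} (e0 : 0 < ε) (e7 : ε ≤ 1 / 10 ^ 7) (ex : ε ≤ x / 10 ^ 5) (x0 : 0 < x)
    (n0 : 0 < n) (hn : n ≤ 89 / 500)
    (hf : ∀ k : ℕ, 1 ≤ k → (k : ℝ) ≤ 4 / n → r ≤ max (2 * x * (k * n)) (1 - k * n * (1 - 2 * x)) + ε)
    (hs : ∀ j : ℕ, 1 ≤ j → (j : ℝ) ≤ 4 / n → r + 2 * x * (j * n) ≤ 4 * x - ε →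
      ϱ ≤ max (1 + r - 4 * x - j * n * (1 - 2 * x)) (4 * (1 + r - 4 * x - j * n * (1 - 2 * x)) - 1) + ε) :
    ϱ ≤ 0.4288 := by
  set k := ⌈1 / n⌉₊ with hk
  have hk1 : 1 / n ≤ k := Nat.le_ceil _
  have hk2 : (k : ℝ) < 1 / n + 1 := Nat.ceil_lt_add_one (by positivity)
  have hkn1 : 1 ≤ k * n := by
    rw [div_le_iff₀ n0] at hk1; exact hk1
  have hkn2 : k * n < 1 + n := by
    have := mul_lt_mul_of_pos_right hk2 n0
    rw [add_mul, div_mul_cancel₀ _ n0.ne'] at this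
    linarith
  have hkpos : 1 ≤ k := by
    rcases Nat.eq_zero_or_pos k with h | h
    · rw [h] at hkn1; norm_num at hkn1
    · exact h
  set m := ⌊1999 / 1000 / n⌋₊ with hm
  have hm1 : (m : ℝ) ≤ 1999 / 1000 / n := Nat.floor_le (by positivity)
  have hm2 : 1999 / 1000 / n < (m : ℝ) + 1 := Nat.lt_floor_add_one _
  have hmn1 : m * n ≤ 1999 / 1000 := by
    rw [le_div_iff₀ n0] at hm1; exact hm1
  have hmn2 : 1999 / 1000 < m * n + n := by
    rw [div_lt_iff₀ n0] at hm2; linarith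
  have hkm : k < m := by
    by_contra hcon
    push Not at hcon
    have : (m : ℝ) ≤ k := by exact_mod_cast hcon
    have := mul_le_mul_of_nonneg_right this n0.le
    linarith
  obtain ⟨j, hj⟩ : ∃ j, m = k + j := ⟨m - k, by omega⟩
  have hj1 : 1 ≤ j := by omega
  have hjn : (j : ℝ) * n = m * n - k * n := by rw [hj]; push_cast; ring
  have hr : r ≤ 2 * x * (k * n) + ε := by
    have h1 := hf k hkpos (by rw [le_div_iff₀ n0]; linarith)
    refine h1.trans ?_
    have h2 : max (2 * x * (k * n)) (1 - k * n * (1 - 2 * x)) ≤ 2 * x * (k * n) := by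
      refine max_le le_rfl ?_
      nlinarith
    linarith
  have h3 := hs j hj1 (by rw [le_div_iff₀ n0]; linarith) (by
    rw [hjn]
    nlinarith)
  refine h3.trans ?_
  have hw : 1 + r - 4 * x - j * n * (1 - 2 * x) ≤ 357199 / 1000000 := by
    rw [hjn]
    nlinarith
  have : max (1 + r - 4 * x - j * n * (1 - 2 * x)) (4 * (1 + r - 4 * x - j * n * (1 - 2 * x)) - 1) ≤
      428796 / 1000000 := by
    refine max_le (by linarith) (by linarith)
  exact (add_le_add this e7).trans (by norm_num)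

theorem numericH : NumericG 2 0.4288 := by
  intro ε0 hε0 hε01 ε x n r ϱ e0 eε xε x4 n0 hy hf hg r0 hs he
  have h4 : (2 : ℝ) * 2 * x = 4 * x := by ring
  have h8 : (4 : ℝ) * 2 * x = 8 * x := by ring
  simp only [h4, h8] at hs he
  have e7 : ε ≤ 1 / 10 ^ 7 := by norm_num at *; linarith
  have ex : ε ≤ x / 10 ^ 5 := by
    refine eε.trans ?_
    exact div_le_div_of_nonneg_right xε (by norm_num)
  have x0 : 0 < x := by linarith
  have x4' : x ≤ 400001 / 1000000 := by norm_num at *; linarith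
  rcases le_total n (89 / 500) with hn | hn
  · exact smallNH e0 e7 ex x0 n0 hn hf hs
  have hctx : CtxH ε x n r ϱ := by
    refine ⟨e0, e7, x0, n0, ?_, ?_, r0, ?_, ?_, ?_, ?_, ?_, ?_⟩
    · have h1 : n - ε ≤ (1 / 3) / (1 - 2 * x) := by
        have := min_le_left ((1 / 3 : ℝ) / (1 - 2 * x)) ((2 / 7) / (5 / 7 - x))
        unfold yy at hy
        linarith
      have hpos : 0 < 1 - 2 * x := by linarith
      rw [le_div_iff₀ hpos] at h1
      nlinarith
    · have h1 : n - ε ≤ (2 / 7) / (5 / 7 - x) := by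
        have := min_le_right ((1 / 3 : ℝ) / (1 - 2 * x)) ((2 / 7) / (5 / 7 - x))
        unfold yy at hy
        linarith
      have hpos : 0 < 5 / 7 - x := by linarith
      rw [le_div_iff₀ hpos] at h1
      nlinarith
    · intro k K hK hk hkn
      have h1 := hf k hk (by rw [le_div_iff₀ n0, hK]; exact hkn)
      rw [hK] at h1
      rcases max_cases (2 * x * (K * n)) (1 - K * n * (1 - 2 * x)) with h | h
      · rw [h.1] at h1; left; linarith
      · rw [h.1] at h1; right; linarith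
    · intro k K hK hk hkn
      have h1 := hg k hk (by rw [le_div_iff₀ n0, hK]; exact hkn)
      rw [hK] at h1
      rcases max_cases (2 * x * (K * n)) (1 - K * n * (2 - 6 * x)) with h | h
      · rw [h.1] at h1; left; linarith
      · rw [h.1] at h1; right; linarith
    · intro j J hJ hj hjn h1 h2
      have h3 := hs j hj (by rw [le_div_iff₀ n0, hJ]; exact hjn) (by rw [hJ]; linarith)
      rw [hJ] at h3
      have : max (1 + r - 4 * x - J * n * (1 - 2 * x)) (4 * (1 + r - 4 * x - J * n * (1 - 2 * x)) - 1) ≤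
          428796 / 1000000 := max_le (by linarith) (by linarith)
      exact h3.trans ((add_le_add this e7).trans (by norm_num))
    · intro j J hJ hj hjn h1 h2
      have h3 := he j hj (by rw [le_div_iff₀ n0, hJ]; exact hjn)
      rw [hJ] at h3
      have : 1 - 8 * x + max (4 * x * (J * n) + r) (1 + 2 * r - (2 - 4 * x) * (J * n)) ≤ 428799 / 1000000 := by
        have : max (4 * x * (J * n) + r) (1 + 2 * r - (2 - 4 * x) * (J * n)) ≤ 428799 / 1000000 - 1 + 8 * x :=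
          max_le (by linarith) (by linarith)
        linarith
      exact h3.trans ((add_le_add this e7).trans (by norm_num))
    · intro k K hK hk hkn h2
      have h1 := hg k hk (by rw [le_div_iff₀ n0, hK]; linarith)
      rw [hK] at h1
      have hKx : x * (K * n) ≤ x * (999 / 1000) := mul_le_mul_of_nonneg_left hkn x0.le
      norm_num at *
      rcases max_cases (2 * x * (K * n)) (1 - K * n * (2 - 6 * x)) with h | h
      · rw [h.1] at h1; linarith
      · rw [h.1] at h1; linarith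
    · intro k K hK hk hkn h2
      have h1 := hf k hk (by rw [le_div_iff₀ n0, hK]; linarith)
      rw [hK] at h1
      have hKx : x * (K * n) ≤ x * (999 / 1000) := mul_le_mul_of_nonneg_left hkn x0.le
      norm_num at *
      rcases max_cases (2 * x * (K * n)) (1 - K * n * (1 - 2 * x)) with h | h
      · rw [h.1] at h1; linarith
      · rw [h.1] at h1; linarith
  exact allcolsH hctx x4' hn

end Pool.Agent.Helper65.KC
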